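import Pool.Agent.Lib.MP_a3a416_nt.GL.Pole
import Pool.Agent.Lib.MP_a3a416_nt.TW.Jets

/-!
# GL-Jets
Jets modulo `p`.  Model: `TW/Jets.lean` (copy its private lemmas `taylor_hasse`, `choose_mod`, `hasse_lin_pow`).
PROOF.  `f = Int.castRingHom (ZMod p)`, `P a m = taylor n ((PG a m).map f)`, `Q a b = taylor n ((QG a b).map f)`, `i m = ((m:ZMod p)+1)⁻¹` (`m + 1 < p`, so `(m + 1) * i m = 1`).
Pole part (for `b < n`, `y = (n - b : ℕ)`): `∑_{m<S} P a m * C (i m) * hasseDeriv m ((X + C y)^(p-2)) = (X^p + C y) * Q a b`: multiply by `(X + C y)^(S+1)`: `QG_mul` mapped and shifted; `hasse_lin_pow` gives the factor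
`(-1)^m (m+1) (X+C y)^(p-2-m)`, `i m` cancels `m + 1`; `(X + C y)^p = X^p + C y` (`lin_pow_p`).
Shift `hM` by `taylor n`: `taylor n (X - X^p) = X - X^p` (`(X + C n)^p = X^p + C n`), `taylor n (hasseDeriv m E) = hasseDeriv m E + ∑_{b<n} hasseDeriv m ((X + C (n-b))^(p-2))`.  So
`∑_{a,m} P a m (X-X^p)^a C(i m) hasseDeriv m E + ∑_a (X-X^p)^a ∑_{b<n} (X^p + C (n-b)) Q a b = 0`.
Modulo `X^T` (`T ≤ p`): `(X - X^p)^a ≡ X^a` (the difference is divisible by `X^p`: `sub_dvd_pow_sub_pow`), so `(rG n).map f = ∑_a X^a ∑_b C(n-b) Q a b ≡ - ∑_{a,m} P a m C(i m) X^a hasseDeriv m E`, and this is divisible by `X^T`: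
the coefficient `k < T` of `X^a * hasseDeriv m E` enters through `∑_{j ≤ k} (coefficient k-j of P a m) * coeff_j (X^a hasseDeriv m E)`; summing over `a, m` for fixed `j` gives the coefficient `k - j` of `taylor n` of the polynomial in `hW j`, which is `0`.
(Write `X^a hasseDeriv m E = ∑_{j<T} C (coeff j) X^j + X^T * rest`, so the sum is `∑_{j<T} X^j * taylor n (∑_{a,m} (PG a m).map f * C (i m * coeff j)) + X^T * ..`.)
-/

namespace MP_a3a416_nt.GL

open Polynomial MP_a3a416_nt.BB

private theorem taylor_hasse {R : Type} [CommRing R] (r : R) (m : ℕ) (P : R[X]) :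
    taylor r (hasseDeriv m P) = hasseDeriv m (taylor r P) := by
  ext k
  have h := congrArg (fun L : R[X] →ₗ[R] R[X] => L P) (hasseDeriv_comp (R := R) k m)
  simp only [LinearMap.comp_apply, LinearMap.smul_apply] at h
  rw [taylor_coeff, hasseDeriv_coeff, taylor_coeff, h, eval_smul, nsmul_eq_mul]
  congr 2
  rw [Nat.choose_symm_add]

private theorem choose_mod (p : ℕ) [hp : Fact p.Prime] (m : ℕ) (hm : m + 2 ≤ p) :
    (((p - 2).choose m : ℕ) : ZMod p) = (-1) ^ m * ((m : ZMod p) + 1) := by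
  induction m with
  | zero => simp
  | succ m ih =>
    have h1 := ih (by omega)
    have h2 := Nat.choose_succ_right_eq (p - 2) m
    have h3 : (((p - 2).choose (m + 1) : ℕ) : ZMod p) * ((m : ZMod p) + 1) =
        (((p - 2).choose m : ℕ) : ZMod p) * (-((m : ZMod p) + 2)) := by
      have h4 := congrArg (fun n : ℕ => (n : ZMod p)) h2
      simp only [Nat.cast_mul, Nat.cast_add, Nat.cast_one] at h4
      rw [h4]
      congr 1
      have h5 : ((p - 2 - m : ℕ) : ZMod p) + ((m : ZMod p) + 2) = 0 := by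
        have h6 : (p - 2 - m) + (m + 2) = p := by omega
        have h7 := congrArg (fun n : ℕ => (n : ZMod p)) h6
        simp only [Nat.cast_add, Nat.cast_ofNat, ZMod.natCast_self] at h7
        exact h7
      exact eq_neg_of_add_eq_zero_left h5
    have hne : ((m : ZMod p) + 1) ≠ 0 := by
      have h8 : ((m + 1 : ℕ) : ZMod p) ≠ 0 := by
        rw [Ne, ZMod.natCast_eq_zero_iff]
        intro hd
        have := Nat.le_of_dvd (by omega) hd
        omega
      simpa using h8
    apply mul_right_cancel₀ hne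
    rw [h3, h1]
    push_cast
    ring

private theorem hasse_lin_pow (p : ℕ) [hp : Fact p.Prime] (m : ℕ) (hm : m + 2 ≤ p) (y : ZMod p) :
    hasseDeriv m ((X + C y : (ZMod p)[X]) ^ (p - 2)) =
      C ((-1) ^ m * ((m : ZMod p) + 1)) * (X + C y) ^ (p - 2 - m) := by
  rw [← taylor_X_pow, ← taylor_hasse]
  have h : hasseDeriv m (X ^ (p - 2) : (ZMod p)[X]) =
      C ((-1) ^ m * ((m : ZMod p) + 1)) * X ^ (p - 2 - m) := by
    rw [X_pow_eq_monomial, hasseDeriv_monomial, mul_one, choose_mod p m hm,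
      ← C_mul_X_pow_eq_monomial]
  rw [h, taylor_mul, taylor_C, taylor_X_pow]

/-- the first `T` coefficients -/
private theorem dvd_sub_trunc {R : Type} [CommRing R] (F : R[X]) (T : ℕ) :
    (X : R[X]) ^ T ∣ F - ∑ j ∈ Finset.range T, C (F.coeff j) * X ^ j := by
  rw [X_pow_dvd_iff]
  intro d hd
  rw [coeff_sub, finsetSum_coeff]
  simp only [coeff_C_mul_X_pow]
  rw [Finset.sum_ite_eq, if_pos (Finset.mem_range.2 hd), sub_self]

/-- the Frobenius of a shift -/
private theorem shift_pow_p (p : ℕ) [hp : Fact p.Prime] (y : ZMod p) :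
    (X + C y : (ZMod p)[X]) ^ p = X ^ p + C y := by
  have h5 := lin_pow_p (p := p) y 1
  rw [C_1, one_mul, one_mul] at h5
  exact h5

theorem jets_modp (p : ℕ) [Fact p.Prime] (A S N N₁ T : ℕ) (c : ℕ × ℕ × ℕ → ℤ)
    (hNp : N < p) (hp : T + S + 4 ≤ p)
    (E : (ZMod p)[X]) (hE : E.comp (X + 1) - E = (X + 1) ^ (p - 2))
    (hreg : REG A S N N₁ c)
    (hM : ∑ a ∈ Finset.range A, ∑ m ∈ Finset.range S,
      (PG S N N₁ c a m).map (Int.castRingHom (ZMod p)) * (X - X ^ p) ^ a *
        C (((m : ZMod p) + 1)⁻¹) * hasseDeriv m E = 0)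
    (hW : ∀ j < T, ∑ a ∈ Finset.range A, ∑ m ∈ Finset.range S,
      (PG S N N₁ c a m).map (Int.castRingHom (ZMod p)) *
        C (((m : ZMod p) + 1)⁻¹ * (X ^ a * hasseDeriv m E).coeff j) = 0)
    {n k : ℕ} (hn : n < N) (hk : k < T) :
    (p : ℤ) ∣ (rG A S N N₁ c n).coeff k := by
  classical
  set f := Int.castRingHom (ZMod p) with hf
  suffices hX : (X : (ZMod p)[X]) ^ T ∣ (rG A S N N₁ c n).map f by
    rw [X_pow_dvd_iff] at hX
    have := hX k hk
    rw [coeff_map, hf, eq_intCast, ZMod.intCast_zmod_eq_zero_iff_dvd] at this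
    exact this
  set P : ℕ → ℕ → (ZMod p)[X] := fun a m => taylor (n : ZMod p) ((PG S N N₁ c a m).map f) with hP
  set Q : ℕ → ℕ → (ZMod p)[X] := fun a b => taylor (n : ZMod p) ((QG S N N₁ c a b).map f) with hQ
  have hfn : ∀ z : ℕ, f (z : ℤ) = (z : ZMod p) := fun z => by simp [hf]
  have hi : ∀ m ∈ Finset.range S, ((m : ZMod p) + 1)⁻¹ * ((m : ZMod p) + 1) = 1 := by
    intro m hm
    rw [Finset.mem_range] at hm
    apply inv_mul_cancel₀
    have h8 : ((m + 1 : ℕ) : ZMod p) ≠ 0 := by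
      rw [Ne, ZMod.natCast_eq_zero_iff]
      intro hd
      have := Nat.le_of_dvd (by omega) hd
      omega
    simpa using h8
  -- the pole part
  have hpole : ∀ a ∈ Finset.range A, ∀ b ∈ Finset.range n, ∑ m ∈ Finset.range S,
      P a m * C (((m : ZMod p) + 1)⁻¹) * hasseDeriv m ((X + C ((n - b : ℕ) : ZMod p)) ^ (p - 2)) =
        (X ^ p + C ((n - b : ℕ) : ZMod p)) * Q a b := by
    intro a ha b hb
    rw [Finset.mem_range] at ha hb
    set y : ZMod p := ((n - b : ℕ) : ZMod p) with hy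
    have h1 := QG_mul c a (hreg a ha) (show b < N by omega)
    have h2 := congrArg (fun R : ℤ[X] => taylor (n : ZMod p) (R.map f)) h1
    simp only [Polynomial.map_mul, Polynomial.map_pow, Polynomial.map_sub, map_X, map_C,
      Polynomial.map_sum, taylor_mul, taylor_pow, map_sub, taylor_X, taylor_C, map_sum] at h2
    have h3 : (X + C (n : ZMod p) - C (f (b : ℤ)) : (ZMod p)[X]) = X + C y := by
      rw [hfn, hy, Nat.cast_sub hb.le, C_sub]
      ring
    rw [h3] at h2
    have hne : ((X + C y : (ZMod p)[X]) ^ (S + 1)) ≠ 0 := pow_ne_zero _ (X_add_C_ne_zero y)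
    apply mul_left_cancel₀ hne
    rw [← shift_pow_p p y, mul_left_comm, h2, Finset.mul_sum, Finset.mul_sum]
    apply Finset.sum_congr rfl
    intro m hm
    have him := hi m hm
    rw [Finset.mem_range] at hm
    rw [hasse_lin_pow p m (by omega)]
    have h6 : f ((-1) ^ m) = (-1) ^ m := by
      simp [hf]
    rw [h6]
    have h7 : (X + C y : (ZMod p)[X]) ^ (S + 1) * (X + C y) ^ (p - 2 - m) =
        (X + C y) ^ p * (X + C y) ^ (S - 1 - m) := by
      rw [← pow_add, ← pow_add]
      congr 1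
      omega
    have h8 : (C (((m : ZMod p) + 1)⁻¹) * C ((-1) ^ m * ((m : ZMod p) + 1)) : (ZMod p)[X]) =
        C ((-1) ^ m) := by
      rw [← C_mul]
      congr 1
      linear_combination (-1) ^ m * him
    calc (X + C y : (ZMod p)[X]) ^ (S + 1) *
          (P a m * C (((m : ZMod p) + 1)⁻¹) *
            (C ((-1) ^ m * ((m : ZMod p) + 1)) * (X + C y) ^ (p - 2 - m)))
        = P a m * (C (((m : ZMod p) + 1)⁻¹) * C ((-1) ^ m * ((m : ZMod p) + 1))) *
          ((X + C y) ^ (S + 1) * (X + C y) ^ (p - 2 - m)) := by ring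
      _ = P a m * C ((-1) ^ m) * ((X + C y) ^ p * (X + C y) ^ (S - 1 - m)) := by rw [h8, h7]
      _ = _ := by
        show P a m * C ((-1) ^ m) * ((X + C y) ^ p * (X + C y) ^ (S - 1 - m)) =
          (X + C y) ^ p * (C ((-1) ^ m) * P a m * (X + C y) ^ (S - 1 - m))
        ring
  -- the relation at `n`
  have hEn : taylor (n : ZMod p) E =
      E + ∑ b ∈ Finset.Icc 1 n, (X + C (b : ZMod p)) ^ (p - 2) := by
    rw [taylor_apply]
    exact E_comp_nat E hE n
  have hreindex : ∑ b ∈ Finset.Icc 1 n, (X + C (b : ZMod p) : (ZMod p)[X]) ^ (p - 2) =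
      ∑ a ∈ Finset.range n, (X + C ((n - a : ℕ) : ZMod p)) ^ (p - 2) := by
    refine Finset.sum_bij' (fun b _ => n - b) (fun a _ => n - a) ?_ ?_ ?_ ?_ ?_
    · intro b hb
      rw [Finset.mem_Icc] at hb
      rw [Finset.mem_range]
      omega
    · intro a ha
      rw [Finset.mem_range] at ha
      rw [Finset.mem_Icc]
      omega
    · intro b hb
      rw [Finset.mem_Icc] at hb
      omega
    · intro a ha
      rw [Finset.mem_range] at ha
      omega
    · intro b hb
      rw [Finset.mem_Icc] at hb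
      have : n - (n - b) = b := by omega
      rw [this]
  have htau : taylor (n : ZMod p) (X - X ^ p : (ZMod p)[X]) = X - X ^ p := by
    rw [map_sub, taylor_pow, taylor_X, shift_pow_p]
    ring
  have hrel : ∑ a ∈ Finset.range A, ∑ m ∈ Finset.range S,
        P a m * (X - X ^ p) ^ a * C (((m : ZMod p) + 1)⁻¹) * hasseDeriv m E +
      ∑ a ∈ Finset.range A, (X - X ^ p) ^ a * ∑ b ∈ Finset.range n,
        (X ^ p + C ((n - b : ℕ) : ZMod p)) * Q a b = 0 := by
    have h1 := congrArg (fun R : (ZMod p)[X] => taylor (n : ZMod p) R) hM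
    simp only [map_sum, taylor_mul, taylor_pow, taylor_hasse, taylor_C, map_zero, htau] at h1
    rw [hEn, hreindex] at h1
    rw [← h1, ← Finset.sum_add_distrib]
    refine Finset.sum_congr rfl fun a ha => ?_
    have h2 : (X - X ^ p) ^ a * ∑ b ∈ Finset.range n,
        (X ^ p + C ((n - b : ℕ) : ZMod p)) * Q a b =
        ∑ m ∈ Finset.range S, ∑ b ∈ Finset.range n, (X - X ^ p) ^ a *
          (P a m * C (((m : ZMod p) + 1)⁻¹) *
            hasseDeriv m ((X + C ((n - b : ℕ) : ZMod p)) ^ (p - 2))) := by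
      rw [Finset.sum_comm, Finset.mul_sum]
      refine Finset.sum_congr rfl fun b hb => ?_
      rw [← hpole a ha b hb, Finset.mul_sum]
    rw [h2, ← Finset.sum_add_distrib]
    refine Finset.sum_congr rfl fun m _ => ?_
    rw [map_add, map_sum, mul_add, Finset.mul_sum]
    congr 1
    refine Finset.sum_congr rfl fun b _ => ?_
    show (X - X ^ p) ^ a * (P a m * C (((m : ZMod p) + 1)⁻¹) * _) =
      P a m * (X - X ^ p) ^ a * C (((m : ZMod p) + 1)⁻¹) * _
    ring
  -- the two polynomials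
  have hr : (rG A S N N₁ c n).map f = ∑ a ∈ Finset.range A, X ^ a *
      ∑ b ∈ Finset.range n, C ((n - b : ℕ) : ZMod p) * Q a b := by
    unfold rG
    rw [Polynomial.map_sum]
    refine Finset.sum_congr rfl fun a _ => ?_
    rw [Polynomial.map_mul, Polynomial.map_pow, map_X, Polynomial.map_sum]
    congr 1
    refine Finset.sum_congr rfl fun b hb => ?_
    rw [Finset.mem_range] at hb
    rw [Polynomial.map_mul, map_C, hQ]
    dsimp only
    rw [Polynomial.map_taylor, hfn]
    congr 2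
    rw [← Nat.cast_sub hb.le, hfn]
  have hTp : (X : (ZMod p)[X]) ^ T ∣ X ^ p := pow_dvd_pow _ (by omega)
  have hpw : ∀ a : ℕ, (X : (ZMod p)[X]) ^ T ∣ (X - X ^ p) ^ a - X ^ a := by
    intro a
    have h1 := sub_dvd_pow_sub_pow (X - X ^ p : (ZMod p)[X]) X a
    have h2 : (X - X ^ p - X : (ZMod p)[X]) = -X ^ p := by ring
    rw [h2, neg_dvd] at h1
    exact hTp.trans h1
  -- the forms of weight `j`
  have hsum : (X : (ZMod p)[X]) ^ T ∣ ∑ a ∈ Finset.range A, ∑ m ∈ Finset.range S,
      P a m * X ^ a * C (((m : ZMod p) + 1)⁻¹) * hasseDeriv m E := by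
    have h1 : ∑ a ∈ Finset.range A, ∑ m ∈ Finset.range S,
        P a m * C (((m : ZMod p) + 1)⁻¹) *
          ∑ j ∈ Finset.range T, C ((X ^ a * hasseDeriv m E).coeff j) * X ^ j = 0 := by
      have h2 : ∀ j ∈ Finset.range T, ∑ a ∈ Finset.range A, ∑ m ∈ Finset.range S,
          X ^ j * (P a m * C (((m : ZMod p) + 1)⁻¹ * (X ^ a * hasseDeriv m E).coeff j)) = 0 := by
        intro j hj
        have h3 := congrArg (fun R : (ZMod p)[X] => X ^ j * taylor (n : ZMod p) R)
          (hW j (Finset.mem_range.1 hj))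
        simp only [map_sum, taylor_mul, taylor_C, map_zero, mul_zero, Finset.mul_sum] at h3
        exact h3
      have h5 : ∑ a ∈ Finset.range A, ∑ m ∈ Finset.range S,
          P a m * C (((m : ZMod p) + 1)⁻¹) *
            ∑ j ∈ Finset.range T, C ((X ^ a * hasseDeriv m E).coeff j) * X ^ j =
          ∑ a ∈ Finset.range A, ∑ j ∈ Finset.range T, ∑ m ∈ Finset.range S,
          X ^ j * (P a m * C (((m : ZMod p) + 1)⁻¹ * (X ^ a * hasseDeriv m E).coeff j)) := by
        refine Finset.sum_congr rfl fun a _ => ?_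
        rw [Finset.sum_comm (s := Finset.range T) (t := Finset.range S)]
        refine Finset.sum_congr rfl fun m _ => ?_
        rw [Finset.mul_sum]
        refine Finset.sum_congr rfl fun j _ => ?_
        rw [C_mul]
        ring
      rw [h5, Finset.sum_comm]
      exact Finset.sum_eq_zero h2
    have h4 : ∑ a ∈ Finset.range A, ∑ m ∈ Finset.range S,
        P a m * X ^ a * C (((m : ZMod p) + 1)⁻¹) * hasseDeriv m E =
        ∑ a ∈ Finset.range A, ∑ m ∈ Finset.range S,
        P a m * C (((m : ZMod p) + 1)⁻¹) * (X ^ a * hasseDeriv m E -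
          ∑ j ∈ Finset.range T, C ((X ^ a * hasseDeriv m E).coeff j) * X ^ j) := by
      rw [← sub_zero (∑ a ∈ Finset.range A, ∑ m ∈ Finset.range S,
        P a m * X ^ a * C (((m : ZMod p) + 1)⁻¹) * hasseDeriv m E), ← h1,
        ← Finset.sum_sub_distrib]
      refine Finset.sum_congr rfl fun a _ => ?_
      rw [← Finset.sum_sub_distrib]
      refine Finset.sum_congr rfl fun m _ => ?_
      ring
    rw [h4]
    exact Finset.dvd_sum fun a _ => Finset.dvd_sum fun m _ =>
      Dvd.dvd.mul_left (dvd_sub_trunc _ _) _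
  have hkey : (rG A S N N₁ c n).map f = -(∑ a ∈ Finset.range A, ∑ m ∈ Finset.range S,
        P a m * X ^ a * C (((m : ZMod p) + 1)⁻¹) * hasseDeriv m E) -
      (∑ a ∈ Finset.range A, ∑ m ∈ Finset.range S,
        ((X - X ^ p) ^ a - X ^ a) * (P a m * C (((m : ZMod p) + 1)⁻¹) * hasseDeriv m E)) -
      (∑ a ∈ Finset.range A, (((X - X ^ p) ^ a - X ^ a) *
          (∑ b ∈ Finset.range n, C ((n - b : ℕ) : ZMod p) * Q a b) +
        X ^ p * ((X - X ^ p) ^ a * ∑ b ∈ Finset.range n, Q a b))) := by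
    have e1 : ∑ a ∈ Finset.range A, ∑ m ∈ Finset.range S,
        P a m * (X - X ^ p) ^ a * C (((m : ZMod p) + 1)⁻¹) * hasseDeriv m E =
        (∑ a ∈ Finset.range A, ∑ m ∈ Finset.range S,
          P a m * X ^ a * C (((m : ZMod p) + 1)⁻¹) * hasseDeriv m E) +
        ∑ a ∈ Finset.range A, ∑ m ∈ Finset.range S,
          ((X - X ^ p) ^ a - X ^ a) * (P a m * C (((m : ZMod p) + 1)⁻¹) * hasseDeriv m E) := by
      rw [← Finset.sum_add_distrib]
      refine Finset.sum_congr rfl fun a _ => ?_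
      rw [← Finset.sum_add_distrib]
      refine Finset.sum_congr rfl fun m _ => ?_
      ring
    have e2 : ∑ a ∈ Finset.range A, (X - X ^ p) ^ a * ∑ b ∈ Finset.range n,
        (X ^ p + C ((n - b : ℕ) : ZMod p)) * Q a b =
        (∑ a ∈ Finset.range A, X ^ a *
          ∑ b ∈ Finset.range n, C ((n - b : ℕ) : ZMod p) * Q a b) +
        ∑ a ∈ Finset.range A, (((X - X ^ p) ^ a - X ^ a) *
          (∑ b ∈ Finset.range n, C ((n - b : ℕ) : ZMod p) * Q a b) +
        X ^ p * ((X - X ^ p) ^ a * ∑ b ∈ Finset.range n, Q a b)) := by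
      rw [← Finset.sum_add_distrib]
      refine Finset.sum_congr rfl fun a _ => ?_
      have e3 : ∑ b ∈ Finset.range n, (X ^ p + C ((n - b : ℕ) : ZMod p)) * Q a b =
          X ^ p * (∑ b ∈ Finset.range n, Q a b) +
            ∑ b ∈ Finset.range n, C ((n - b : ℕ) : ZMod p) * Q a b := by
        rw [Finset.mul_sum, ← Finset.sum_add_distrib]
        refine Finset.sum_congr rfl fun b _ => ?_
        ring
      rw [e3]
      ring
    rw [e1, e2, ← hr] at hrel
    linear_combination hrel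
  rw [hkey]
  refine dvd_sub (dvd_sub ((dvd_neg).2 hsum) ?_) ?_
  · exact Finset.dvd_sum fun a _ => Finset.dvd_sum fun m _ => Dvd.dvd.mul_right (hpw a) _
  · exact Finset.dvd_sum fun a _ => dvd_add (Dvd.dvd.mul_right (hpw a) _)
      (Dvd.dvd.mul_right hTp _)

end MP_a3a416_nt.GL
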