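import Pool.Agent.Lib.MP_a3a416_nt.GL.SizG

/-!
# GL-RegB
The integers for the linear forms `regG(x)`, `x < N + N₁`.
PROOF.  `(regG ..).eval x = ∑_{m ≤ S} (taylor x (hG a m)).coeff 0 * (prodLin 1 x (range N)).coeff m` (`taylor_coeff_zero`, `eval x (hasseDeriv m P) = (taylor x P).coeff m` = `taylor_coeff`, `taylor_prodLin` with `z = 0`).
Divisibility: for a prime `q`, `L' = log_q (N+N₁)`: `hG_adm` at `k = 0` and `Adm.blk` at `k = m ≤ S`: the product is divisible by `q^(∑_l (N₁/q^l + (N/q^l - m)))`, and `N/q^l + N₁/q^l - (S+1) ≤ N₁/q^l + (N/q^l - m)`; `FG_dvd_of` with `L = S + 1`.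
Size: `|first| ≤ N₁! N₁ H 2^(N+N₁)` (`hG_size` with `B = N + N₁`), `|second| ≤ prodAbs x (range N) ≤ N! 2^(N+N₁)` (`prodAbs_le_two_pow`), `S + 1` terms: `|regG(x)| ≤ FG * ((S+1) N₁ 4^(N+N₁)) * H`; so `|z| = DG |regG(x)| / FG ≤ AG * H`.
-/

namespace MP_a3a416_nt.GL

open Polynomial MP_a3a416_nt.BB

private theorem rb_eval (S N N₁ : ℕ) (c : ℕ × ℕ × ℕ → ℤ) (a x : ℕ) :
    (regG S N N₁ c a).eval (x : ℤ) = ∑ m ∈ Finset.range (S + 1),
      (taylor (x : ℤ) (hG N₁ c a m)).coeff 0 * (prodLin 1 (x : ℤ) (Finset.range N)).coeff m := by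
  unfold regG
  rw [eval_finset_sum]
  refine Finset.sum_congr rfl fun m _ => ?_
  rw [eval_mul, taylor_coeff_zero]
  congr 1
  rw [← taylor_coeff]
  unfold wP
  rw [taylor_prodLin, zero_add]

private theorem rb_size {N B x k : ℕ} (hx : x < B) :
    |(prodLin 1 (x : ℤ) (Finset.range N)).coeff k| ≤ ((N.factorial * 2 ^ B : ℕ) : ℤ) := by
  obtain ⟨F, hF, hev⟩ := sz_prodLin (R := 1) (e := 1) le_rfl (x : ℤ) (Finset.range N)
  have h1 := hF k
  have h2 := coeff_le_eval_one F k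
  have h3 := prodAbs_le_two_pow (n := x) (i := N) hx
  rw [hev] at h2
  refine h1.trans ?_
  rw [one_pow, one_mul]
  exact_mod_cast h2.trans h3

theorem regG_dvd {S N N₁ : ℕ} (c : ℕ × ℕ × ℕ → ℤ) (a x : ℕ) :
    (FG N N₁ : ℤ) ∣ (DG N N₁ (S + 1) : ℤ) * (regG S N N₁ c a).eval (x : ℤ) := by
  refine FG_dvd_of _ fun q hq => ?_
  have hL : N₁ < q ^ (Nat.log q (N + N₁) + 1) :=
    lt_of_le_of_lt (Nat.le_add_left _ _) (Nat.lt_pow_succ_log_self hq.one_lt (N + N₁))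
  rw [rb_eval]
  refine Finset.dvd_sum fun m hm => ?_
  rw [Finset.mem_range] at hm
  have h1 := hG_adm hq hL c a m x 0
  have h2 := Adm.blk q (Nat.log q (N + N₁)) hq.one_lt.le N (x : ℤ) 1 m
  refine dvd_trans ?_ (mul_dvd_mul h1 h2)
  rw [← pow_add]
  apply pow_dvd_pow
  rw [← Finset.sum_add_distrib]
  refine Finset.sum_le_sum fun l _ => ?_
  dsimp only
  omega

theorem regG_bound {A S N N₁ H : ℕ} (c : ℕ × ℕ × ℕ → ℤ) (hc : ∀ x ∈ ixG A S N₁, |c x| ≤ (H : ℤ))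
    {a x : ℕ} (ha : a < A) (hx : x < N + N₁) :
    ∃ z : ℤ, (DG N N₁ (S + 1) : ℤ) * (regG S N N₁ c a).eval (x : ℤ) = (FG N N₁ : ℤ) * z ∧
      |z| ≤ ((AG S N N₁ * H : ℕ) : ℤ) := by
  obtain ⟨z, hz⟩ := regG_dvd (S := S) (N := N) (N₁ := N₁) c a x
  refine ⟨z, hz, ?_⟩
  have hF : (0 : ℤ) < (FG N N₁ : ℤ) := by exact_mod_cast FG_pos N N₁
  have hD : (0 : ℤ) ≤ (DG N N₁ (S + 1) : ℤ) := by positivity
  have h1 : |(regG S N N₁ c a).eval (x : ℤ)| ≤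
      (FG N N₁ : ℤ) * (((S + 1) * N₁ * 4 ^ (N + N₁) : ℕ) * H) := by
    rw [rb_eval]
    refine (Finset.abs_sum_le_sum_abs _ _).trans ?_
    have hterm : ∀ m ∈ Finset.range (S + 1),
        |(taylor (x : ℤ) (hG N₁ c a m)).coeff 0 * (prodLin 1 (x : ℤ) (Finset.range N)).coeff m| ≤
        ((N₁.factorial * (N₁ * H * 2 ^ (N + N₁)) : ℕ) : ℤ) *
          ((N.factorial * 2 ^ (N + N₁) : ℕ) : ℤ) := by
      intro m hm
      rw [Finset.mem_range] at hm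
      rw [abs_mul]
      exact mul_le_mul (hG_size c hc ha (by omega) hx 0) (rb_size hx) (abs_nonneg _)
        (Int.natCast_nonneg _)
    refine (Finset.sum_le_sum hterm).trans (le_of_eq ?_)
    rw [Finset.sum_const, Finset.card_range, nsmul_eq_mul]
    unfold FG
    have h4 : (4 : ℤ) ^ (N + N₁) = 2 ^ (N + N₁) * 2 ^ (N + N₁) := by
      rw [← mul_pow]
      norm_num
    push_cast
    rw [h4]
    ring
  have h2 : (FG N N₁ : ℤ) * |z| = (DG N N₁ (S + 1) : ℤ) * |(regG S N N₁ c a).eval (x : ℤ)| := by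
    rw [← abs_of_pos hF, ← abs_mul, ← hz, abs_mul, abs_of_nonneg hD]
  have h3 : (FG N N₁ : ℤ) * |z| ≤ (FG N N₁ : ℤ) * ((AG S N N₁ * H : ℕ) : ℤ) := by
    rw [h2]
    calc (DG N N₁ (S + 1) : ℤ) * |(regG S N N₁ c a).eval (x : ℤ)|
        ≤ (DG N N₁ (S + 1) : ℤ) * ((FG N N₁ : ℤ) * (((S + 1) * N₁ * 4 ^ (N + N₁) : ℕ) * H)) :=
          mul_le_mul_of_nonneg_left h1 hD
      _ = _ := by
          unfold AG
          push_cast
          ring
  exact le_of_mul_le_mul_left h3 hF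

end MP_a3a416_nt.GL
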