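import Pool.Agent.Lib.MP_a3a416_nt.GL.Ineq
import Pool.Agent.Lib.MP_a3a416_nt.GL.Jets
import Pool.Agent.Lib.MP_a3a416_nt.GL.RegB
import Pool.Agent.Lib.MP_a3a416_nt.LJ.Siegel
import Pool.Agent.Lib.MP_a3a416_nt.LI.EPolyW
import Pool.Agent.Lib.MP_a3a416_nt.BB.Auxi

/-!
# GL-Auxi
The auxiliary polynomials (as `TW/Auxi.lean`).
-/

namespace MP_a3a416_nt.GL

open Polynomial MP_a3a416_nt.BB

/-- extension by zero of a function on `ixG A S N₁`. -/
private noncomputable def extG (A S N₁ : ℕ) (c : ixG A S N₁ → ℤ) : ℕ × ℕ × ℕ → ℤ := by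
  classical
  exact fun x => if h : x ∈ ixG A S N₁ then c ⟨x, h⟩ else 0

private theorem extG_add (A S N₁ : ℕ) (c c' : ixG A S N₁ → ℤ) :
    extG A S N₁ (c + c') = fun x => extG A S N₁ c x + extG A S N₁ c' x := by
  classical
  funext x
  unfold extG
  by_cases h : x ∈ ixG A S N₁
  · simp [h]
  · simp [h]

private theorem extG_zero (A S N₁ : ℕ) : extG A S N₁ 0 = fun _ => 0 := by
  classical
  funext x
  unfold extG
  by_cases h : x ∈ ixG A S N₁
  · simp [h]
  · simp [h]

private theorem extG_apply (A S N₁ : ℕ) (c : ixG A S N₁ → ℤ) (x : ixG A S N₁) :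
    extG A S N₁ c x = c x := by
  classical
  unfold extG
  simp

private theorem regG_add (S N N₁ : ℕ) (c c' : ℕ × ℕ × ℕ → ℤ) (a : ℕ) :
    regG S N N₁ (fun x => c x + c' x) a = regG S N N₁ c a + regG S N N₁ c' a := by
  unfold regG
  rw [← Finset.sum_add_distrib]
  apply Finset.sum_congr rfl
  intro m _
  rw [hG_add, add_mul]

private theorem regG_zero (S N N₁ : ℕ) (a : ℕ) : regG S N N₁ (fun _ => 0) a = 0 := by
  unfold regG
  apply Finset.sum_eq_zero
  intro m _
  rw [hG_zero, zero_mul]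

private theorem PG_add (S N N₁ : ℕ) (c c' : ℕ × ℕ × ℕ → ℤ) (a m : ℕ) :
    PG S N N₁ (fun x => c x + c' x) a m = PG S N N₁ c a m + PG S N N₁ c' a m := by
  unfold PG
  rw [← Finset.sum_add_distrib]
  apply Finset.sum_congr rfl
  intro k _
  rw [hG_add, add_mul]

private theorem PG_zero (S N N₁ : ℕ) (a m : ℕ) : PG S N N₁ (fun _ => 0) a m = 0 := by
  unfold PG
  apply Finset.sum_eq_zero
  intro k _
  rw [hG_zero, zero_mul]

/-- a polynomial over `ℤ` of degree `< M` with the zeros `0, …, M-1` is zero -/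
private theorem poly_zero {M : ℕ} (P : ℤ[X]) (hd : P.natDegree < M)
    (h : ∀ x < M, P.eval (x : ℤ) = 0) : P = 0 := by
  classical
  apply Polynomial.eq_zero_of_natDegree_lt_card_of_eval_eq_zero' P
    ((Finset.range M).image fun x : ℕ => (x : ℤ))
  · intro i hi
    rw [Finset.mem_image] at hi
    obtain ⟨x, hx, rfl⟩ := hi
    exact h x (Finset.mem_range.1 hx)
  · rw [Finset.card_image_of_injective _ Nat.cast_injective, Finset.card_range]
    exact hd

/-- the divisibility of the jets for one prime -/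
private theorem aux_prime {A S N N₁ T p : ℕ} [Fact p.Prime] (hN₁ : 1 ≤ N₁)
    (hNT : T + S + A + 10 ≤ N) (hpN : N < p) (c : ℕ × ℕ × ℕ → ℤ) (hREG : REG A S N N₁ c)
    (E : (ZMod p)[X]) (hE1 : E.natDegree < p) (hE2 : E.coeff 0 = 0)
    (hE3 : E.comp (X + 1) - E = (X + 1) ^ (p - 2))
    (hE4 : ∀ k, Odd k → k + 4 ≤ p → E.coeff k = 0)
    (hE5 : ∀ g, 1 ≤ g → 2 * g + 3 ≤ p → ∀ a : ℤ,
        (p : ℤ) ∣ (_root_.bernoulli (p - 1 - 2 * g) - (a : ℚ)).num →
        E.coeff (2 * g) = -(a : ZMod p))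
    (hφ2 : ∀ l, l < (N + N₁) + A * p → (∑ a ∈ Finset.range A, ∑ m ∈ Finset.range S,
      (PG S N N₁ c a m).map (Int.castRingHom (ZMod p)) *
        (X - X ^ p) ^ a * C (((m : ZMod p) + 1)⁻¹) * hasseDeriv m E).coeff l = 0)
    (hφ3 : ∀ j ∈ badPos A S T p, ∀ l, l < N + N₁ → (∑ a ∈ Finset.range A, ∑ m ∈ Finset.range S,
      (PG S N N₁ c a m).map (Int.castRingHom (ZMod p)) *
        C (((m : ZMod p) + 1)⁻¹ * (X ^ a * hasseDeriv m E).coeff j)).coeff l = 0)
    {n i : ℕ} (hn : n < N) (hi : i < T) : (p : ℤ) ∣ (rG A S N N₁ c n).coeff i := by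
  classical
  have hp1 : 1 ≤ p := by omega
  have hPGd : ∀ a m, ((PG S N N₁ c a m).map (Int.castRingHom (ZMod p))).natDegree ≤
      N + N₁ - 1 := by
    intro a m
    have h8 := natDegree_PG_lt (S := S) (N := N) hN₁ c a m
    have h9 : ((PG S N N₁ c a m).map (Int.castRingHom (ZMod p))).natDegree ≤
      (PG S N N₁ c a m).natDegree := natDegree_map_le
    omega
  have hM : (∑ a ∈ Finset.range A, ∑ m ∈ Finset.range S,
      (PG S N N₁ c a m).map (Int.castRingHom (ZMod p)) *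
        (X - X ^ p) ^ a * C (((m : ZMod p) + 1)⁻¹) * hasseDeriv m E) = 0 := by
    have hd2 : (∑ a ∈ Finset.range A, ∑ m ∈ Finset.range S,
        (PG S N N₁ c a m).map (Int.castRingHom (ZMod p)) *
        (X - X ^ p) ^ a * C (((m : ZMod p) + 1)⁻¹) * hasseDeriv m E).natDegree ≤
        (N + N₁) + A * p - 1 := by
      apply natDegree_sum_le_of_forall_le
      intro a ha
      rw [Finset.mem_range] at ha
      apply natDegree_sum_le_of_forall_le
      intro m hm
      refine natDegree_mul_le.trans ?_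
      have h10 : (hasseDeriv m E).natDegree ≤ p - 1 := by
        have h11 : (hasseDeriv m E).natDegree ≤ E.natDegree :=
          (natDegree_hasseDeriv_le _ _).trans (Nat.sub_le _ _)
        omega
      have h12 : (((PG S N N₁ c a m).map (Int.castRingHom (ZMod p))) *
          (X - X ^ p) ^ a * C (((m : ZMod p) + 1)⁻¹)).natDegree ≤ N + N₁ - 1 + a * p := by
        refine (natDegree_mul_C_le _ _).trans ?_
        refine natDegree_mul_le.trans ?_
        refine Nat.add_le_add (hPGd a m) ?_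
        refine natDegree_pow_le.trans (Nat.mul_le_mul_left _ ?_)
        refine (natDegree_sub_le _ _).trans ?_
        rw [natDegree_X, natDegree_X_pow]
        exact max_le hp1 le_rfl
      have h13 : (a + 1) * p ≤ A * p := Nat.mul_le_mul_right _ ha
      have h14 : (a + 1) * p = a * p + p := by ring
      refine (Nat.add_le_add h12 h10).trans ?_
      omega
    ext l
    rw [coeff_zero]
    rcases Nat.lt_or_ge l ((N + N₁) + A * p) with hl | hl
    · exact hφ2 l hl
    · exact coeff_eq_zero_of_natDegree_lt (by omega)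
  have hW : ∀ j < T, (∑ a ∈ Finset.range A, ∑ m ∈ Finset.range S,
      (PG S N N₁ c a m).map (Int.castRingHom (ZMod p)) *
        C (((m : ZMod p) + 1)⁻¹ * (X ^ a * hasseDeriv m E).coeff j)) = 0 := by
    intro j hj
    by_cases hjb : j ∈ badPos A S T p
    · have hd3 : (∑ a ∈ Finset.range A, ∑ m ∈ Finset.range S,
          (PG S N N₁ c a m).map (Int.castRingHom (ZMod p)) *
          C (((m : ZMod p) + 1)⁻¹ * (X ^ a * hasseDeriv m E).coeff j)).natDegree ≤
          N + N₁ - 1 := by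
        apply natDegree_sum_le_of_forall_le
        intro a ha
        apply natDegree_sum_le_of_forall_le
        intro m hm
        exact (natDegree_mul_C_le _ _).trans (hPGd a m)
      ext l
      rw [coeff_zero]
      rcases Nat.lt_or_ge l (N + N₁) with hl | hl
      · exact hφ3 j hjb l hl
      · exact coeff_eq_zero_of_natDegree_lt (by omega)
    · have hgood : GoodPos A S p j := by
        by_contra hcon
        apply hjb
        unfold badPos
        rw [Finset.mem_filter, Finset.mem_range]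
        exact ⟨hj, hcon⟩
      apply Finset.sum_eq_zero
      intro a ha
      apply Finset.sum_eq_zero
      intro m hm
      rw [Finset.mem_range] at ha hm
      have hcoef : (X ^ a * hasseDeriv m E).coeff j = 0 := by
        rw [coeff_X_pow_mul']
        split_ifs with haj
        · rw [hasseDeriv_coeff]
          obtain ⟨l, hl⟩ : ∃ l, l = j - a + m := ⟨_, rfl⟩
          rw [← hl]
          have hEl : E.coeff l = 0 := by
            rcases Nat.even_or_odd l with he | ho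
            · obtain ⟨g, hg⟩ := he
              have hg2 : l = 2 * g := by omega
              rcases Nat.eq_zero_or_pos g with hg0 | hg0
              · have hl0 : l = 0 := by omega
                rw [hl0]
                exact hE2
              · have h1 := hE5 g hg0 (by omega) 0 (by
                  rw [Int.cast_zero, sub_zero]
                  exact hgood g hg0 (by omega) (by omega))
                rw [hg2, h1]
                simp
            · exact hE4 l ho (by omega)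
          rw [hEl, mul_zero]
        · rfl
      rw [hcoef, mul_zero, C_0, mul_zero]
  exact jets_modp p A S N N₁ T c hpN (by omega) E hE3 hREG hM hW hn hi

theorem exists_aux {A S N N₁ T δ q k x : ℕ} (hA : 1 ≤ A) (hN₁ : 1 ≤ N₁) (hNT : T + S + A + 10 ≤ N)
    (hk : 1 ≤ k) (h1 : A * (N + N₁) ≤ k) (h2 : (N + N₁) + A * x + δ * (N + N₁) ≤ (q - 1) * k)
    (h3 : A * (N + N₁) + q * k ≤ A * (S + 1) * N₁)
    (Ps : Finset ℕ) (hP : ∀ p ∈ Ps, p.Prime ∧ N < p ∧ p ≤ x ∧ (badPos A S T p).card ≤ δ)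
    (H : ℕ) (hH : 3 * AG S N N₁ * (∏ p ∈ Ps, p) ^ (q - 1) < (H + 1) ^ q) :
    ∃ c : ℕ × ℕ × ℕ → ℤ, (∃ y ∈ ixG A S N₁, c y ≠ 0) ∧ (∀ y ∈ ixG A S N₁, |c y| ≤ (H : ℤ)) ∧
      REG A S N N₁ c ∧ ∀ p ∈ Ps, ∀ n < N, ∀ i < T, (p : ℤ) ∣ (rG A S N N₁ c n).coeff i := by
  classical
  have hN1 : 1 ≤ N := by omega
  have hfact : ∀ p : Ps, Fact (p : ℕ).Prime := fun p => ⟨(hP p p.2).1⟩
  have hneZ : ∀ p : Ps, NeZero (p : ℕ) := fun p => ⟨(hP p p.2).1.ne_zero⟩
  have hNp : ∀ p : Ps, N < (p : ℕ) := fun p => (hP p p.2).2.1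
  have hex : ∀ p : Ps, ∃ E : (ZMod (p : ℕ))[X], E.natDegree < p ∧ E.coeff 0 = 0 ∧
      E.comp (X + 1) - E = (X + 1) ^ ((p : ℕ) - 2) ∧
      (∀ k, Odd k → k + 4 ≤ (p : ℕ) → E.coeff k = 0) ∧
      (∀ g, 1 ≤ g → 2 * g + 3 ≤ (p : ℕ) → ∀ a : ℤ,
        ((p : ℕ) : ℤ) ∣ (_root_.bernoulli ((p : ℕ) - 1 - 2 * g) - (a : ℚ)).num →
        E.coeff (2 * g) = -(a : ZMod (p : ℕ))) := fun p => by
    have := hfact p
    exact LI.exists_E_w (p : ℕ) (by have := hNp p; omega)
  choose E hE using hex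
  let V : Ps → Type := fun p =>
    (Fin ((N + N₁) + A * (p : ℕ)) ⊕ (badPos A S T (p : ℕ) × Fin (N + N₁))) → ZMod (p : ℕ)
  have hVfin : ∀ p : Ps, Finite (V p) := fun p => by
    have := hneZ p
    infer_instance
  let P2 : ∀ p : Ps, (ixG A S N₁ → ℤ) → (ZMod (p : ℕ))[X] := fun p c =>
    ∑ a ∈ Finset.range A, ∑ m ∈ Finset.range S,
      (PG S N N₁ (extG A S N₁ c) a m).map (Int.castRingHom (ZMod (p : ℕ))) *
        (X - X ^ (p : ℕ)) ^ a * C (((m : ZMod (p : ℕ)) + 1)⁻¹) * hasseDeriv m (E p)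
  have hP2add : ∀ p c c', P2 p (c + c') = P2 p c + P2 p c' := by
    intro p c c'
    simp only [P2, extG_add, PG_add, Polynomial.map_add, add_mul, Finset.sum_add_distrib]
  have hP2zero : ∀ p, P2 p 0 = 0 := by
    intro p
    simp only [P2, extG_zero, PG_zero, Polynomial.map_zero, zero_mul, Finset.sum_const_zero]
  let W : ∀ p : Ps, ℕ → (ixG A S N₁ → ℤ) → (ZMod (p : ℕ))[X] := fun p j c =>
    ∑ a ∈ Finset.range A, ∑ m ∈ Finset.range S,
      (PG S N N₁ (extG A S N₁ c) a m).map (Int.castRingHom (ZMod (p : ℕ))) *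
        C (((m : ZMod (p : ℕ)) + 1)⁻¹ * (X ^ a * hasseDeriv m (E p)).coeff j)
  have hWadd : ∀ p j c c', W p j (c + c') = W p j c + W p j c' := by
    intro p j c c'
    simp only [W, extG_add, PG_add, Polynomial.map_add, add_mul, Finset.sum_add_distrib]
  have hWzero : ∀ p j, W p j 0 = 0 := by
    intro p j
    simp only [W, extG_zero, PG_zero, Polynomial.map_zero, zero_mul, Finset.sum_const_zero]
  let φ : ∀ p : Ps, (ixG A S N₁ → ℤ) →+ V p := fun p =>
    { toFun := fun c => Sum.elim (fun l => (P2 p c).coeff l) (fun jl => (W p jl.1 c).coeff jl.2)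
      map_zero' := by
        funext i
        rcases i with l | jl
        · simp only [Sum.elim_inl, hP2zero, coeff_zero]
          rfl
        · simp only [Sum.elim_inr, hWzero, coeff_zero]
          rfl
      map_add' := by
        intro c c'
        funext i
        rcases i with l | jl
        · simp only [Sum.elim_inl, hP2add, coeff_add]
          rfl
        · simp only [Sum.elim_inr, hWadd, coeff_add]
          rfl }
  let ψ : (ixG A S N₁ → ℤ) →+ (Fin A × Fin (N + N₁) → ℤ) :=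
    { toFun := fun c => fun k =>
        ((DG N N₁ (S + 1) : ℤ) * (regG S N N₁ (extG A S N₁ c) (k.1 : ℕ)).eval (((k.2 : ℕ) : ℕ) : ℤ)) /
          (FG N N₁ : ℤ)
      map_zero' := by
        funext k
        show ((DG N N₁ (S + 1) : ℤ) * (regG S N N₁ (extG A S N₁ 0) (k.1 : ℕ)).eval (((k.2 : ℕ) : ℕ) : ℤ)) /
          (FG N N₁ : ℤ) = 0
        rw [extG_zero, regG_zero, eval_zero, mul_zero, Int.zero_ediv]
      map_add' := by
        intro c c'
        funext k
        show ((DG N N₁ (S + 1) : ℤ) *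
            (regG S N N₁ (extG A S N₁ (c + c')) (k.1 : ℕ)).eval (((k.2 : ℕ) : ℕ) : ℤ)) / (FG N N₁ : ℤ) =
          ((DG N N₁ (S + 1) : ℤ) *
            (regG S N N₁ (extG A S N₁ c) (k.1 : ℕ)).eval (((k.2 : ℕ) : ℕ) : ℤ)) / (FG N N₁ : ℤ) +
          ((DG N N₁ (S + 1) : ℤ) *
            (regG S N N₁ (extG A S N₁ c') (k.1 : ℕ)).eval (((k.2 : ℕ) : ℕ) : ℤ)) / (FG N N₁ : ℤ)
        rw [extG_add, regG_add, eval_add, mul_add]
        exact Int.add_ediv_of_dvd_left (regG_dvd _ _ _) }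
  have hcardι : Fintype.card (ixG A S N₁) = A * (S + 1) * N₁ := by
    rw [Fintype.card_coe]
    unfold ixG
    rw [Finset.card_product, Finset.card_product, Finset.card_range, Finset.card_range, Finset.card_range]
    ring
  have hFG : (FG N N₁ : ℤ) ≠ 0 := by
    have := FG_pos N N₁
    positivity
  have hψ : ∀ c : ixG A S N₁ → ℤ, (∀ i, |c i| ≤ (H : ℤ)) → ∀ k, |ψ c k| ≤ ((AG S N N₁ * H : ℕ) : ℤ) := by
    intro c hc k
    obtain ⟨z, hz1, hz2⟩ := regG_bound (A := A) (S := S) (N := N) (N₁ := N₁) (H := H) (extG A S N₁ c) (by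
      intro x hx
      have := hc ⟨x, hx⟩
      rw [← extG_apply A S N₁ c ⟨x, hx⟩] at this
      exact this) (a := (k.1 : ℕ)) (x := (k.2 : ℕ)) k.1.2 k.2.2
    have h1 : ψ c k = z := by
      show ((DG N N₁ (S + 1) : ℤ) *
        (regG S N N₁ (extG A S N₁ c) (k.1 : ℕ)).eval (((k.2 : ℕ) : ℕ) : ℤ)) / (FG N N₁ : ℤ) = z
      rw [hz1]
      exact Int.mul_ediv_cancel_left _ hFG
    rw [h1]
    exact hz2
  obtain ⟨F, hF⟩ : ∃ F, F = (N + N₁) + A * x + δ * (N + N₁) := ⟨_, rfl⟩
  have hV : ∏ p : Ps, Nat.card (V p) ≤ (∏ p ∈ Ps, p) ^ F := by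
    rw [← Finset.prod_pow]
    rw [← Finset.prod_coe_sort Ps (fun p => p ^ F)]
    apply Finset.prod_le_prod'
    intro p _
    have := hneZ p
    have h1 : Nat.card (V p) =
        (p : ℕ) ^ (((N + N₁) + A * (p : ℕ)) + (badPos A S T (p : ℕ)).card * (N + N₁)) := by
      simp only [V]
      rw [Nat.card_fun]
      simp only [Nat.card_eq_fintype_card, ZMod.card, Fintype.card_fin, Fintype.card_sum,
        Fintype.card_prod, Fintype.card_coe]
    rw [h1]
    apply Nat.pow_le_pow_right (by have := hNp p; omega)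
    rw [hF]
    have h4 : A * (p : ℕ) ≤ A * x := Nat.mul_le_mul_left _ (hP p p.2).2.2.1
    have h5 : (badPos A S T (p : ℕ)).card * (N + N₁) ≤ δ * (N + N₁) :=
      Nat.mul_le_mul_right _ (hP p p.2).2.2.2
    omega
  have hPpos : 1 ≤ ∏ p ∈ Ps, p := Finset.one_le_prod' (fun p hp => (hP p hp).1.one_le)
  have hApos : 1 ≤ AG S N N₁ := by
    unfold AG
    have := DG_pos N N₁ (S + 1)
    exact Nat.mul_pos this (by positivity)
  have hcard : (2 * (AG S N N₁ * H) + 1) ^ Fintype.card (Fin A × Fin (N + N₁)) * ∏ p : Ps, Nat.card (V p) <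
      (H + 1) ^ Fintype.card (ixG A S N₁) := by
    rw [hcardι, Fintype.card_prod, Fintype.card_fin, Fintype.card_fin]
    exact lt_of_le_of_lt (Nat.mul_le_mul_left _ hV)
      (card_ineq (q := q) (k := k) hApos hPpos hk h1 (by rw [hF]; exact h2) h3 hH)
  obtain ⟨c, hc0, hcH, hc, hψc⟩ := LJ.siegel_mixed (ι := ixG A S N₁) (κ := Fin A × Fin (N + N₁)) Ps H
    (AG S N N₁ * H) V φ ψ hψ hcard
  have hREG : REG A S N N₁ (extG A S N₁ c) := by
    intro a ha
    apply poly_zero _ (natDegree_regG_lt hN₁ (extG A S N₁ c) a)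
    intro x hx
    have h1 := congrFun hψc (⟨a, ha⟩, ⟨x, hx⟩)
    have h2 : ((DG N N₁ (S + 1) : ℤ) * (regG S N N₁ (extG A S N₁ c) a).eval (x : ℤ)) / (FG N N₁ : ℤ) = 0 := h1
    have h4 := Int.ediv_mul_cancel (regG_dvd (S := S) (N := N) (N₁ := N₁) (extG A S N₁ c) a x)
    rw [h2, zero_mul] at h4
    have h5 : (DG N N₁ (S + 1) : ℤ) ≠ 0 := by have := DG_pos N N₁ (S + 1); positivity
    exact (mul_eq_zero.mp h4.symm).resolve_left h5
  refine ⟨extG A S N₁ c, ?_, ?_, hREG, ?_⟩
  · by_contra hcon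
    push Not at hcon
    apply hc0
    funext x
    rw [← extG_apply A S N₁ c x]
    exact hcon x x.2
  · intro x hx
    have := hcH ⟨x, hx⟩
    rw [← extG_apply A S N₁ c ⟨x, hx⟩] at this
    exact this
  · intro p hp n hn i hi
    have hφ := hc ⟨p, hp⟩
    have : Fact p.Prime := ⟨(hP p hp).1⟩
    obtain ⟨hE1, hE2, hE3, hE4, hE5⟩ := hE ⟨p, hp⟩
    exact aux_prime hN₁ hNT (hP p hp).2.1 (extG A S N₁ c) hREG (E ⟨p, hp⟩) hE1 hE2 hE3 hE4 hE5
      (fun l hl => congrFun hφ (Sum.inl ⟨l, hl⟩))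
      (fun j hj l hl => congrFun hφ (Sum.inr (⟨j, hj⟩, ⟨l, hl⟩))) hn hi

end MP_a3a416_nt.GL
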