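import Pool.Agent.Lib.MP_a3a416_nt.GL.Defs
import Pool.Agent.Lib.MP_a3a416_nt.TW.Basis

/-!
# GL-Basis
Additivity, degrees, non-vanishing.
PROOFS.  `hG` is additive in `c`.  `natDegree (prodLin 1 0 (range i)) = i` (monic; see `bs_natDegree` in `TW/Basis.lean` or `LJ/Basis.lean`), so `natDegree (hG ..) < N₁` (`N₁ ≥ 1`), `natDegree (hasseDeriv k (wP N)) ≤ N`.
`exists_PG_ne`: suppose `PG a m = 0` for all `a < A`, `m < S`.  Fix `a < A`.  By downward induction on `m`: `hG a (m+1) = 0` for all `m < S`: `PG a m = hG a (m+1) * wP N + ∑_{k ≥ 1} hG a (m+1+k) * ..`, the other terms vanish, `wP N ≠ 0`.  Then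
`regG a = hG a 0 * wP N = 0`, so `hG a 0 = 0`.  So `hG a m = 0` for all `m ≤ S`, and the coefficients vanish: `c (a,m,i) = 0` for `i < N₁` (the polynomials `prodLin 1 0 (range i)` have different degrees, `N₁!/i! ≠ 0`; take the largest `i` with
`c (a,m,i) ≠ 0`, see `exists_PJ_ne_zero` in `TW/Basis.lean`).  Contradiction with `hc`.
-/

namespace MP_a3a416_nt.GL

open Polynomial MP_a3a416_nt.BB

theorem hG_add (N₁ : ℕ) (c c' : ℕ × ℕ × ℕ → ℤ) (a m : ℕ) :
    hG N₁ (fun x => c x + c' x) a m = hG N₁ c a m + hG N₁ c' a m := by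
  unfold hG
  rw [← Finset.sum_add_distrib]
  refine Finset.sum_congr rfl fun i _ => ?_
  simp only [add_mul, C_add]

theorem hG_zero (N₁ : ℕ) (a m : ℕ) : hG N₁ (fun _ => 0) a m = 0 := by
  unfold hG
  refine Finset.sum_eq_zero fun i _ => ?_
  simp

theorem natDegree_hG_lt {N₁ : ℕ} (hN₁ : 1 ≤ N₁) (c : ℕ × ℕ × ℕ → ℤ) (a m : ℕ) : (hG N₁ c a m).natDegree < N₁ := by
  have h : (hG N₁ c a m).natDegree ≤ N₁ - 1 := by
    unfold hG
    refine natDegree_sum_le_of_forall_le _ _ fun i hi => ?_
    rw [Finset.mem_range] at hi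
    refine (natDegree_C_mul_le _ _).trans ?_
    rw [natDegree_prodLin_one, Finset.card_range]
    omega
  omega

theorem natDegree_PG_lt {S N N₁ : ℕ} (hN₁ : 1 ≤ N₁) (c : ℕ × ℕ × ℕ → ℤ) (a m : ℕ) :
    (PG S N N₁ c a m).natDegree < N + N₁ := by
  have h : (PG S N N₁ c a m).natDegree ≤ N + N₁ - 1 := by
    unfold PG
    refine natDegree_sum_le_of_forall_le _ _ fun k _ => ?_
    have h1 := natDegree_hG_lt hN₁ c a (m + 1 + k)
    have h2 : (hasseDeriv k (wP N)).natDegree ≤ N := by
      refine (natDegree_hasseDeriv_le _ _).trans ?_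
      unfold wP
      rw [natDegree_prodLin_one, Finset.card_range]
      omega
    refine natDegree_mul_le.trans ?_
    omega
  omega

theorem natDegree_regG_lt {S N N₁ : ℕ} (hN₁ : 1 ≤ N₁) (c : ℕ × ℕ × ℕ → ℤ) (a : ℕ) :
    (regG S N N₁ c a).natDegree < N + N₁ := by
  have h : (regG S N N₁ c a).natDegree ≤ N + N₁ - 1 := by
    unfold regG
    refine natDegree_sum_le_of_forall_le _ _ fun k _ => ?_
    have h1 := natDegree_hG_lt hN₁ c a k
    have h2 : (hasseDeriv k (wP N)).natDegree ≤ N := by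
      refine (natDegree_hasseDeriv_le _ _).trans ?_
      unfold wP
      rw [natDegree_prodLin_one, Finset.card_range]
      omega
    refine natDegree_mul_le.trans ?_
    omega
  omega

theorem exists_PG_ne {A S N N₁ : ℕ} (c : ℕ × ℕ × ℕ → ℤ) (hc : ∃ x ∈ ixG A S N₁, c x ≠ 0) (hreg : REG A S N N₁ c) :
    ∃ a < A, ∃ m < S, PG S N N₁ c a m ≠ 0 := by
  classical
  by_contra hcon
  push Not at hcon
  obtain ⟨⟨a, m₀, i₀⟩, hx, hcx⟩ := hc
  simp only [ixG, Finset.mem_product, Finset.mem_range] at hx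
  obtain ⟨ha, hm₀, hi₀⟩ := hx
  have hw : wP N ≠ 0 := by
    unfold wP
    exact (monic_prodLin_one 0 _).ne_zero
  have hdown : ∀ d m : ℕ, m < S → S - m ≤ d → hG N₁ c a (m + 1) = 0 := by
    intro d
    induction d with
    | zero =>
      intro m hm hd
      omega
    | succ d ih =>
      intro m hm hd
      have h1 := hcon a ha m hm
      unfold PG at h1
      rw [Finset.sum_eq_single 0] at h1
      · rw [hasseDeriv_zero', add_zero] at h1
        exact (mul_eq_zero.1 h1).resolve_right hw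
      · intro k hk hk0
        rw [Finset.mem_range] at hk
        have h2 := ih (m + k) (by omega) (by omega)
        rw [show m + 1 + k = m + k + 1 by omega, h2, zero_mul]
      · intro h2
        exact absurd (Finset.mem_range.2 (by omega)) h2
  have hpos : ∀ m < S, hG N₁ c a (m + 1) = 0 := fun m hm => hdown (S - m) m hm le_rfl
  have hzero : hG N₁ c a 0 = 0 := by
    have h1 := hreg a ha
    unfold regG at h1
    rw [Finset.sum_eq_single 0] at h1
    · rw [hasseDeriv_zero'] at h1
      exact (mul_eq_zero.1 h1).resolve_right hw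
    · intro m hm hm0
      rw [Finset.mem_range] at hm
      obtain ⟨m', rfl⟩ : ∃ m', m = m' + 1 := ⟨m - 1, by omega⟩
      rw [hpos m' (by omega), zero_mul]
    · intro h2
      exact absurd (Finset.mem_range.2 (by omega)) h2
  have hall : hG N₁ c a m₀ = 0 := by
    rcases Nat.eq_zero_or_pos m₀ with h | h
    · rw [h]
      exact hzero
    · obtain ⟨m', rfl⟩ : ∃ m', m₀ = m' + 1 := ⟨m₀ - 1, by omega⟩
      exact hpos m' (by omega)
  unfold hG at hall
  have h3 := indep_of_degrees (Finset.range N₁)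
    (fun i => prodLin 1 0 (Finset.range i)) (fun i _ => monic_prodLin_one 0 _)
    (by
      intro i _ j _ hij
      simp only [natDegree_prodLin_one, Finset.card_range] at hij
      exact hij)
    (fun i => c (a, m₀, i) * ((N₁.factorial / i.factorial : ℕ) : ℤ)) hall i₀
    (Finset.mem_range.2 hi₀)
  have hp : 0 < N₁.factorial / i₀.factorial :=
    Nat.div_pos (Nat.factorial_le hi₀.le) (Nat.factorial_pos _)
  simp only [mul_eq_zero, Int.natCast_eq_zero] at h3
  rcases h3 with h | h
  · exact hcx h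
  · omega

end MP_a3a416_nt.GL
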