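import Mathlib

/-!
# GL-Par
The parameters (natural numbers).  `N = q N₁`, `k = A N₁ (S - q) / q` (natural division).
PROOF.  Write `D = N + N₁ = (q+1) N₁`.  `A S ≤ (q-2) T < A S + S`; `A ≥ 3 (q - 2) ≥ 1`; `q A ≤ q^2 T / S ≤ T/12`, i.e. `12 q A ≤ T` (`12 q^2 ≤ S`, `A S ≤ q T`).
(1) `A D ≤ k`: `q A (q+1) N₁ ≤ A N₁ (S - q)` as `q (q+1) + q ≤ S` (`Nat.le_div_iff_mul_le`).  `k ≥ 1` follows.
(3) `q k ≤ A N₁ (S - q)` and `A D + A N₁ (S-q) = A N₁ (S+1)`.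
(2) multiply by `q`: `q D = q (q+1) N₁`, `q A x ≤ A S N₁ ≤ (q-2) T N₁`, `q δ D ≤ (q-8) T (q+1) N₁` (from `hδ`), and `q (q-1) k ≥ (q-1) (A N₁ (S-q) - q + 1) ≥ (q-1) (N₁ ((q-2) T - S - q A)) - (q-1)^2`, `(q-1)^2 ≤ N₁`.  Sufficient:
`(q-8)(q+1) T + (q-2) T + q(q+1) + 1 ≤ (q-1)(q-2) T - (q-1)(S + qA)`, that is `(3q + 12) T ≥ q(q+1) + 1 + (q-1)(S + qA)`; true as `S ≤ T/3`, `qA ≤ T/12`, `q(q+1) + 1 ≤ 2q^2 ≤ T/18`.
(4) `hZ`: `W = ν + R ≤ 2A + AS ≤ 3 A S`, so `q W ≤ N₁` and `q (N + 1 - W) ≥ q N - N₁ = (q^2 - 1) N₁`; `(N + 1 - W)(T - A + R + 1) q ≥ (q^2-1) N₁ (T - A + R + 1)`, and it suffices that `(q-1)(T - A + R + 1) > q W = q ν + q R`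
(then multiply by `(q+1) N₁`), i.e. `(q-1)(T - A + 1) > q ν + R`; `q ν + R ≤ 2 q A + A S ≤ 2qA + (q-2) T` and `(q-1)(T - A + 1) - (q-2) T = T - (q-1)(A-1) > 2 q A` since `12 q A ≤ T`.  (`T - A` natural subtraction, `A ≤ T`.)
-/

namespace MP_a3a416_nt.GL

private theorem par_two {q S T A N k δ x : ℤ} (hq : 16 ≤ q) (hS : 12 * q ^ 2 ≤ S) (hTS : 3 * S ≤ T)
    (hA1 : 1 ≤ A) (hAS : A * S ≤ (q - 2) * T) (hAS2 : (q - 2) * T < A * S + S) (h12 : 12 * (q * A) ≤ T)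
    (hN : 3 * q * (A * S) ≤ N) (hx : q * x ≤ S * N) (hδ : q * δ + 8 * T ≤ q * T)
    (hk2 : A * N * (S - q) < q * k + q) :
    (q * N + N) + A * x + δ * (q * N + N) ≤ (q - 1) * k := by
  have hq0 : 0 < q := by linarith
  have hqq : 16 * q ≤ q ^ 2 := by
    have := mul_le_mul_of_nonneg_right hq hq0.le
    linarith [pow_two q]
  have hS0 : 0 < S := by linarith
  have hT0 : 0 < T := by linarith
  have hqS : 0 < q * S := by positivity
  have hN1 : S ≤ N := by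
    have h1 : 1 * S ≤ A * S := mul_le_mul_of_nonneg_right hA1 hS0.le
    have h2 : 0 ≤ (3 * q - 1) * (A * S) := mul_nonneg (by linarith) (by linarith)
    linarith
  have hN0 : 0 < N := by linarith
  have e1 : A * (q * x) ≤ A * (S * N) := mul_le_mul_of_nonneg_left hx (by linarith)
  have e2 : (q * δ + 8 * T) * (q * N + N) ≤ (q * T) * (q * N + N) :=
    mul_le_mul_of_nonneg_right hδ (by positivity)
  have e3 : (q - 1) * (A * N * (S - q) + 1) ≤ (q - 1) * (q * k + q) :=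
    mul_le_mul_of_nonneg_left (by linarith) (by linarith)
  have e4 : ((q - 1) * N) * ((q - 2) * T) ≤ ((q - 1) * N) * (A * S + S) :=
    mul_le_mul_of_nonneg_left hAS2.le (mul_nonneg (by linarith) hN0.le)
  have e5 : (q - 1) ^ 2 ≤ N := by
    have : (q - 1) ^ 2 = q ^ 2 - 2 * q + 1 := by ring
    linarith
  have e6 : 0 ≤ N * ((3 * q + 12) * T - q * (q + 1) - 1 - (q - 1) * (S + q * A)) := by
    refine mul_nonneg hN0.le ?_
    have h1 : (q - 1) * (3 * S) ≤ (q - 1) * T := mul_le_mul_of_nonneg_left hTS (by linarith)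
    have h2 : (q - 1) * (12 * (q * A)) ≤ (q - 1) * T := mul_le_mul_of_nonneg_left h12 (by linarith)
    have h3 : 0 < q * T := by positivity
    linarith
  have e7 : N * (A * S) ≤ N * ((q - 2) * T) := mul_le_mul_of_nonneg_left hAS hN0.le
  refine le_of_mul_le_mul_left ?_ hq0
  linarith

private theorem par_four {q S T A N ν R : ℤ} (hq : 16 ≤ q) (hS0 : 0 < S)
    (hA1 : 1 ≤ A) (hAS : A * S ≤ (q - 2) * T) (h12 : 12 * (q * A) ≤ T)
    (hN : 3 * q * (A * S) ≤ N) (hν : 1 ≤ ν) (hν2 : ν ≤ 2 * A) (hR : 1 ≤ R) (hR2 : R ≤ A * S) :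
    q * (ν + R) ≤ N ∧ (ν + R) * (q * N + N - 1) < (q * N + 1 - (ν + R)) * (T - A + R + 1) := by
  have hq0 : 0 < q := by linarith
  have hASA : A * 1 ≤ A * S := mul_le_mul_of_nonneg_left (by linarith) (by linarith)
  have h1 : q * (ν + R) ≤ N := by
    have h2 : q * (ν + R) ≤ q * (3 * (A * S)) := mul_le_mul_of_nonneg_left (by linarith) hq0.le
    linarith
  refine ⟨h1, ?_⟩
  have hN0 : 0 < N := by
    have : 0 < q * (ν + R) := by positivity
    linarith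
  have hqA : 16 * A ≤ q * A := mul_le_mul_of_nonneg_right hq (by linarith)
  have hTA : 0 < T - A + R + 1 := by linarith
  have h3 : q * ν ≤ q * (2 * A) := mul_le_mul_of_nonneg_left hν2 hq0.le
  have h4 : q * (ν + R) ≤ (q - 1) * (T - A + R + 1) := by linarith
  refine lt_of_mul_lt_mul_left ?_ hq0.le
  have h5 : ((q + 1) * N) * (q * (ν + R)) ≤ ((q + 1) * N) * ((q - 1) * (T - A + R + 1)) :=
    mul_le_mul_of_nonneg_left h4 (by positivity)
  have h6 : (q * q * N - N) * (T - A + R + 1) ≤ (q * (q * N + 1 - (ν + R))) * (T - A + R + 1) :=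
    mul_le_mul_of_nonneg_right (by linarith) hTA.le
  have h7 : 0 < q * (ν + R) := by positivity
  linarith

theorem params {q S T A N₁ δ x : ℕ} (hq : 16 ≤ q) (hS : 12 * q ^ 2 ≤ S) (hTS : 3 * S ≤ T)
    (hA : A = (q - 2) * T / S) (hN₁ : 3 * q * (A * S) ≤ N₁) (hx : q * x ≤ S * N₁) (hδ : q * δ + 8 * T ≤ q * T) :
    1 ≤ A ∧ 12 * (q * A) ≤ T ∧ ∃ k, 1 ≤ k ∧ A * (q * N₁ + N₁) ≤ k ∧
      (q * N₁ + N₁) + A * x + δ * (q * N₁ + N₁) ≤ (q - 1) * k ∧
      A * (q * N₁ + N₁) + q * k ≤ A * (S + 1) * N₁ ∧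
      ∀ ν R, 1 ≤ ν → ν ≤ 2 * A → 1 ≤ R → R ≤ A * S →
        (ν + R) * (q * N₁ + N₁ - 1) < (q * N₁ + 1 - (ν + R)) * (T - A + R + 1) := by
  have hq0 : 0 < q := by omega
  have hqq : 16 * q ≤ q ^ 2 := by
    rw [pow_two]
    exact Nat.mul_le_mul_right _ hq
  have hS0 : 0 < S := by omega
  have hAS : A * S ≤ (q - 2) * T := by rw [hA]; exact Nat.div_mul_le_self _ _
  have hAS2 : (q - 2) * T < A * S + S := by
    rw [hA]
    have h1 := Nat.div_add_mod ((q - 2) * T) S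
    have h2 := Nat.mod_lt ((q - 2) * T) hS0
    have h3 : S * ((q - 2) * T / S) = (q - 2) * T / S * S := Nat.mul_comm _ _
    omega
  clear hA
  have hA1 : 1 ≤ A := by
    by_contra hc
    have h0 : A = 0 := by omega
    rw [h0] at hAS2
    have h1 : 1 * T ≤ (q - 2) * T := Nat.mul_le_mul_right _ (by omega)
    omega
  have h12 : 12 * (q * A) ≤ T := by
    have h : 12 * (q * A) * S ≤ T * S := by
      calc 12 * (q * A) * S = 12 * q * (A * S) := by ring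
        _ ≤ 12 * q * ((q - 2) * T) := Nat.mul_le_mul_left _ hAS
        _ ≤ 12 * q * (q * T) := Nat.mul_le_mul_left _ (Nat.mul_le_mul_right _ (Nat.sub_le _ _))
        _ = 12 * q ^ 2 * T := by ring
        _ ≤ S * T := Nat.mul_le_mul_right _ hS
        _ = T * S := Nat.mul_comm _ _
    exact le_of_mul_le_mul_right h hS0
  have hN0 : 1 ≤ N₁ := by
    refine le_trans ?_ hN₁
    have : 0 < 3 * q * (A * S) := by positivity
    omega
  obtain ⟨k, hk⟩ : ∃ k, k = A * N₁ * (S - q) / q := ⟨_, rfl⟩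
  have hqS : q ≤ S := by omega
  have hk1 : q * k ≤ A * N₁ * (S - q) := by rw [hk]; exact Nat.mul_div_le _ _
  have hk2 : A * N₁ * (S - q) < q * k + q := by
    rw [hk]
    have h1 := Nat.div_add_mod (A * N₁ * (S - q)) q
    have h2 := Nat.mod_lt (A * N₁ * (S - q)) hq0
    omega
  have hADk : A * (q * N₁ + N₁) ≤ k := by
    rw [hk, Nat.le_div_iff_mul_le hq0]
    calc A * (q * N₁ + N₁) * q = A * N₁ * (q ^ 2 + q) := by ring
      _ ≤ A * N₁ * (S - q) := Nat.mul_le_mul_left _ (by omega)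
  have hkk : 1 ≤ k := by
    refine le_trans ?_ hADk
    have : 0 < A * (q * N₁ + N₁) := by positivity
    omega
  clear hk
  refine ⟨hA1, h12, k, hkk, hADk, ?_, ?_, ?_⟩
  · zify [show 2 ≤ q by omega, show 1 ≤ q by omega, hqS] at hAS hAS2 hk2 h12 hS hTS hN₁ hx hδ hq hA1 ⊢
    exact par_two hq hS hTS hA1 hAS hAS2 h12 hN₁ hx hδ hk2
  · zify [hqS] at hk1 ⊢
    linarith
  · intro ν R hν hν2 hR hR2
    have hqA : 1 * A ≤ q * A := Nat.mul_le_mul_right _ (by omega)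
    zify [show 2 ≤ q by omega] at hAS h12 hN₁ hq hA1 hS0 hν hν2 hR hR2
    obtain ⟨h1, h2⟩ := par_four hq hS0 hA1 hAS h12 hN₁ hν hν2 hR hR2
    have h3 : q * (ν + R) ≤ N₁ := by exact_mod_cast h1
    have h4 : 1 * (ν + R) ≤ q * (ν + R) := Nat.mul_le_mul_right _ (by omega)
    have h5 : 1 * N₁ ≤ q * N₁ := Nat.mul_le_mul_right _ (by omega)
    zify [show 1 ≤ q * N₁ + N₁ by omega, show ν + R ≤ q * N₁ + 1 by omega, show A ≤ T by omega]
    exact h2

end MP_a3a416_nt.GL
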