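import Pool.Agent.Lib.MP_a3a416_nt.GL.Defs

/-!
# GL-Pos
Runs give good positions.
PROOF.  It suffices to give an injective map from `LR J L p` into the good positions in `range T` (`badPos` is the complement in `range T`; `Finset.card_le_card_of_injOn`, `filter_card_add_filter_neg_card_eq_card`).
For `g ∈ LR` let `u(g)` be the smallest `u ≥ 1` such that `p ∣ B_{p-1-2g'}` for all `g' ∈ [u, g]` (`Nat.find`; it exists because `g` itself is in a run) and `j(g) = g + u(g) + A - 2`.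
Monotone: if `g < g'`, then `u(g) ≤ u(g')` (otherwise `u(g') < u(g) ≤ g < g'`, and `[u(g'), g] ⊆ [u(g'), g']` contradicts the minimality of `u(g)`), so `j(g) < j(g')`; in particular `j` is injective (`g + u(g) ≥ 2`).
Let `[v, v+L)` be the run of `g` (`1 ≤ v ≤ g < v + L ≤ J + 1`); `u = u(g) ≤ v`, and `[u, v+L)` consists of `g'` with `p ∣ B_{p-1-2g'}` (`[u, g]` and `[v, v+L)`).
`j(g) < T`: `j = g + u + A - 2 ≤ J + (J + 1 - L) + A - 2 = 2J - 1 - L + A ≤ 2J - 1 - S < T` (`A + S ≤ L`, `T + S = 2J + 3`).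
Good: let `g₁ ≥ 1`, `j + 1 ≤ 2g₁ + A`, `2g₁ + 1 ≤ j + S`.  Then `2g₁ ≥ g + u - 1 ≥ 2u - 1`, so `g₁ ≥ u`; `2g₁ ≤ g + u + A + S - 3 ≤ g + u + L - 3 ≤ (v+L-1) + v + L - 3`, so `g₁ < v + L`.
-/

namespace MP_a3a416_nt.GL


/-- the smallest `u ≥ 1` with `P` on `[u, g]` -/
private theorem pos_least (P : ℕ → Prop) (g : ℕ) (hg : 1 ≤ g) (hP : P g) :
    ∃ u : ℕ, (1 ≤ u ∧ ∀ g' ∈ Finset.Icc u g, P g') ∧
      ∀ u' : ℕ, (1 ≤ u' ∧ ∀ g' ∈ Finset.Icc u' g, P g') → u ≤ u' := by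
  classical
  have hex : ∃ u : ℕ, 1 ≤ u ∧ ∀ g' ∈ Finset.Icc u g, P g' :=
    ⟨g, hg, fun g' hg' => by
      have := Finset.mem_Icc.1 hg'
      have h : g' = g := by omega
      rw [h]; exact hP⟩
  exact ⟨Nat.find hex, Nat.find_spec hex, fun u' hu' => Nat.find_min' hex hu'⟩

private theorem pos_main (P : ℕ → Prop) (A S T J L : ℕ) (hL : A + S ≤ L) (hT : T + S = 2 * J + 3)
    (LRs bad : Finset ℕ)
    (hLR : ∀ g ∈ LRs, 1 ≤ g ∧ g ≤ J ∧ ∃ u : ℕ, 1 ≤ u ∧ u ≤ g ∧ g < u + L ∧ u + L ≤ J + 1 ∧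
      ∀ g' ∈ Finset.Ico u (u + L), P g')
    (hbad : ∀ j ∈ bad, j < T ∧ ¬ ∀ g : ℕ, 1 ≤ g → j + 1 ≤ 2 * g + A → 2 * g + 1 ≤ j + S → P g) :
    bad.card + LRs.card ≤ T := by
  classical
  have hu : ∀ g : ℕ, ∃ u : ℕ, g ∈ LRs → (1 ≤ u ∧ ∀ g' ∈ Finset.Icc u g, P g') ∧
      ∀ u' : ℕ, (1 ≤ u' ∧ ∀ g' ∈ Finset.Icc u' g, P g') → u ≤ u' := by
    intro g
    by_cases hg : g ∈ LRs
    · obtain ⟨h1, _, v, h2, h3, h4, _, h6⟩ := hLR g hg
      obtain ⟨u, hu⟩ := pos_least P g h1 (h6 g (Finset.mem_Ico.2 ⟨h3, h4⟩))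
      exact ⟨u, fun _ => hu⟩
    · exact ⟨0, fun h => absurd h hg⟩
  choose u hu using hu
  have hug : ∀ g ∈ LRs, u g ≤ g := by
    intro g hg
    obtain ⟨h1, _, v, h2, h3, h4, _, h6⟩ := hLR g hg
    refine (hu g hg).2 g ⟨h1, fun g' hg' => ?_⟩
    have := Finset.mem_Icc.1 hg'
    have h : g' = g := by omega
    rw [h]
    exact h6 g (Finset.mem_Ico.2 ⟨h3, h4⟩)
  have hmono : ∀ g ∈ LRs, ∀ g' ∈ LRs, g < g' → u g ≤ u g' := by
    intro g hg g' hg' hlt
    by_contra hcon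
    have h1 := hug g hg
    have h2 := (hu g hg).2 (u g') ⟨(hu g' hg').1.1, fun x hx =>
      (hu g' hg').1.2 x (by
        have := Finset.mem_Icc.1 hx
        exact Finset.mem_Icc.2 ⟨this.1, by omega⟩)⟩
    omega
  have hinj : Set.InjOn (fun g => g + u g + A - 2) (LRs : Set ℕ) := by
    intro g hg g' hg' he
    have a1 := (hu g hg).1.1
    have a2 := (hu g' hg').1.1
    have b1 := (hLR g hg).1
    have b2 := (hLR g' hg').1
    simp only at he
    rcases Nat.lt_trichotomy g g' with h | h | h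
    · have := hmono g hg g' hg' h
      omega
    · exact h
    · have := hmono g' hg' g hg h
      omega
  have hmaps : ∀ g ∈ LRs, (fun g => g + u g + A - 2) g ∈ Finset.range T \ bad := by
    intro g hg
    obtain ⟨h1, h1', v, h2, h3, h4, h5, h6⟩ := hLR g hg
    obtain ⟨⟨k1, k2⟩, k3⟩ := hu g hg
    have k4 : u g ≤ v := k3 v ⟨h2, fun x hx => h6 x (by
      have := Finset.mem_Icc.1 hx
      exact Finset.mem_Ico.2 ⟨this.1, by omega⟩)⟩
    rw [Finset.mem_sdiff, Finset.mem_range]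
    refine ⟨by simp only; omega, fun hb => ?_⟩
    apply (hbad _ hb).2
    intro g₁ c1 c2 c3
    simp only at c2 c3
    by_cases hc : g₁ ≤ g
    · exact k2 g₁ (Finset.mem_Icc.2 ⟨by omega, hc⟩)
    · exact h6 g₁ (Finset.mem_Ico.2 ⟨by omega, by omega⟩)
  have hcard := Finset.card_le_card_of_injOn _ hmaps hinj
  have hsub : bad ⊆ Finset.range T := fun j hj => Finset.mem_range.2 (hbad j hj).1
  rw [Finset.card_sdiff_of_subset hsub, Finset.card_range] at hcard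
  have hle := Finset.card_le_card hsub
  rw [Finset.card_range] at hle
  omega

theorem bad_card {A S T J L p : ℕ} (hL : A + S ≤ L) (hT : T + S = 2 * J + 3) :
    (badPos A S T p).card + (LR J L p).card ≤ T := by
  classical
  refine pos_main (fun g => (p : ℤ) ∣ (_root_.bernoulli (p - 1 - 2 * g)).num) A S T J L hL hT
    (LR J L p) (badPos A S T p) ?_ ?_
  · intro g hg
    unfold LR at hg
    rw [Finset.mem_filter, Finset.mem_Icc] at hg
    exact ⟨hg.1.1, hg.1.2, hg.2⟩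
  · intro j hj
    unfold badPos at hj
    rw [Finset.mem_filter, Finset.mem_range] at hj
    exact ⟨hj.1, hj.2⟩

end MP_a3a416_nt.GL
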