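import Pool.Agent.Lib.MP_a3a416_nt.GL.Theta
import Pool.Agent.Lib.MP_a3a416_nt.GL.Pos
import Pool.Agent.Lib.MP_a3a416_nt.GL.Par
import Pool.Agent.Lib.MP_a3a416_nt.BB.FinalAux

/-!
# GL-Count
THE GAP LAW: parameters and counting.  Model: `TW/Count.lean`.
PROOF.  `C` large.  `q := ⌈16/ρ⌉₊` (`16 ≤ q`, `16/ρ ≤ q ≤ 17/ρ`), `S := L/2` (natural division), `T := 2J + 3 - S`, `A := (q-2) T / S`, `N₁ := q x / S + 1` (natural division), `N := q N₁`, `δ := T - ⌈ρ J⌉₊` (natural subtraction).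
TRIVIAL CASE `S < 12 q^2`: `L ≤ 24 q^2 + 1 ≤ C'/ρ^2`, so `log(2J)/(ρ^3 L) ≥ log 2/(C' ρ) ≥ log 2/C'`, and the number of all primes `≤ x` is `≤ 5 x/log x` (`card_primes_upperT` of `TW/Count.lean`, private, copy it).
MAIN CASE.  `S ≥ 12 q^2 ≥ 3072`, `T ≥ 3 S` (`L ≤ J`), `A ≤ 2qJ/S ≤ 5 q J/L ≤ L/2` from `C J ≤ ρ L^2` (`q ≤ 17/ρ`, `C ≥ 400`), so `A + S ≤ L`.  `q x ≤ S N₁`.  `3 q A S ≤ 3 q (q-2) T ≤ 6 q^2 J ≤ q x/S` from `C J L ≤ ρ x`
(`6 q J S ≤ 3 q J L ≤ 51 J L/ρ ≤ x`), so `3 q (A S) ≤ N₁`.  `δ`: `ρ J ≥ ρ T/2 ≥ 8 T/q` (`T ≤ 2J`, `ρ q ≥ 16`), so `q δ + 8 T ≤ q T` (`δ ≤ T - ρ J`; `ρ J ≤ J ≤ T`).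
If `ρ J ≤ #LR`, then `#badPos ≤ T - #LR ≤ δ` (`bad_card`).  `N = q N₁ ≥ N₁ ≥ q x/S ≥ T + S + A + 10` (`x ≥ C J L`).
`params` and `theta_bad`: `∑_{bad p, N < p ≤ x} log p ≤ C₁ (q+1) N (1 + log(T + S + 1))`, `N = q N₁ ≤ q (q x/S + 1) ≤ 2 q^2 x/S ≤ 6 q^2 x/L` (`S ≥ L/3`), `T + S + 1 = 2J + 4`, `1 + log(2J+4) ≤ 6 log (2J)` (`J ≥ 2`).  The primes `≤ N`: `θ(N) ≤ log 4 * N`.
Total `∑_{bad p ≤ x} log p ≤ C₂ q^3 (x/L) log(2J) ≤ C₃ ρ^(-3) (x/L) log(2J)`.
`count_le_of_sum_log` (BB/FinalAux.lean): the number is `≤ √x + 2 (∑ log p)/log x`.  `√x ≤ C₄ ρ^(-3) (log(2J)/L) x/log x`: `L ≤ J ≤ √x` (from `C J L ≤ x`, `L ≤ J`: only `L ≤ √x`); if `J ≥ x^(1/4)`: `log(2J) ≥ (1/4) log x` and `√x L ≤ x`; if `J < x^(1/4)`: `L ≤ x^(1/4)` and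
`log x ≤ 4 x^(1/4)`, `√x * L * log x ≤ 4 x ≤ (4/log 2) x log (2J)`.
-/

namespace MP_a3a416_nt.GL

open Polynomial MP_a3a416_nt.BB

/-- Chebyshev's upper bound for a set of primes. -/
private theorem card_primes_upperT {x : ℕ} (hx : 2 ≤ x) (A : Finset ℕ) (hA : A ⊆ Finset.Icc 1 x)
    (hp : ∀ p ∈ A, p.Prime) : (A.card : ℝ) ≤ 5 * (x / Real.log x) := by
  have hx' : (2 : ℝ) ≤ x := by exact_mod_cast hx
  have hlx : 0 < Real.log x := Real.log_pos (by linarith)
  have hT : ∑ p ∈ A, Real.log p ≤ Real.log 4 * x := by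
    have h1 : ∑ p ∈ A, Real.log p ≤ Chebyshev.theta x := by
      rw [Chebyshev.theta]
      apply Finset.sum_le_sum_of_subset_of_nonneg
      · intro p hpA
        have h2 := Finset.mem_Icc.1 (hA hpA)
        rw [Finset.mem_filter, Finset.mem_Ioc, Nat.floor_natCast]
        exact ⟨⟨by omega, h2.2⟩, hp p hpA⟩
      · intro p hp' _
        have h3 := (Finset.mem_filter.1 hp').2.one_lt
        exact Real.log_nonneg (by exact_mod_cast h3.le)
    exact h1.trans (Chebyshev.theta_le_log4_mul_x (by positivity))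
  have h := count_le_of_sum_log hx A hA hT
  have hl4 : Real.log 4 ≤ 1.4 := by
    rw [show (4 : ℝ) = 2 ^ 2 by norm_num, Real.log_pow]
    have := Real.log_two_lt_d9
    push_cast
    linarith
  have hsq : √(x : ℝ) ≤ 2 * (x / Real.log x) := by
    rw [mul_div_assoc', le_div_iff₀ hlx]
    have h2 : Real.log x ≤ 2 * √(x : ℝ) := by
      have h3 : Real.log (√(x : ℝ)) = Real.log x / 2 := Real.log_sqrt (by positivity)
      have h4 := Real.log_le_sub_one_of_pos (x := √(x : ℝ)) (Real.sqrt_pos.2 (by linarith))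
      linarith
    have h5 : √(x : ℝ) * √(x : ℝ) = x := Real.mul_self_sqrt (by positivity)
    nlinarith [Real.sqrt_nonneg (x : ℝ)]
  have h6 : 2 * (Real.log 4 * x) / Real.log x = 2 * Real.log 4 * (x / Real.log x) := by ring
  rw [h6] at h
  have h7 : 0 ≤ (x : ℝ) / Real.log x := by positivity
  nlinarith

open Classical in
theorem gap_law : ∃ C : ℝ, 0 < C ∧ ∀ (J L x : ℕ) (ρ : ℝ), 1 ≤ L → L ≤ J → 0 < ρ → ρ ≤ 1 →
    C * J ≤ ρ * (L : ℝ) ^ 2 → C * ((J : ℝ) * L) ≤ ρ * x →
    (((Finset.Icc 1 x).filter (fun p : ℕ => p.Prime ∧ ρ * J ≤ ((LR J L p).card : ℝ))).card : ℝ) ≤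
      C * (Real.log (2 * J) / (ρ ^ 3 * L) * (x / Real.log x)) := by
  obtain ⟨C₁, hC₁, hth⟩ := theta_bad
  refine ⟨60000 + 200000 * C₁, by positivity, ?_⟩
  intro J L x ρ hL1 hLJ hρ0 hρ1 hJ hx
  have hL1' : (1 : ℝ) ≤ L := by exact_mod_cast hL1
  have hLJ' : (L : ℝ) ≤ J := by exact_mod_cast hLJ
  have hJ1' : (1 : ℝ) ≤ J := by linarith
  have hJL1 : (1 : ℝ) ≤ J * L := one_le_mul_of_one_le_of_one_le hJ1' hL1'
  have hJL0 : (0 : ℝ) < J * L := by linarith
  have hL0 : (0 : ℝ) < L := by linarith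
  have hx1 : 60000 * ((J : ℝ) * L) ≤ ρ * x := by
    have h1 : 0 ≤ 200000 * C₁ * ((J : ℝ) * L) := by positivity
    linarith
  have hJ1 : 60000 * (J : ℝ) ≤ ρ * (L : ℝ) ^ 2 := by
    have h1 : 0 ≤ 200000 * C₁ * (J : ℝ) := by positivity
    linarith
  have hx0' : (0 : ℝ) ≤ x := by positivity
  have hρx : ρ * x ≤ x := mul_le_of_le_one_left hx0' hρ1
  have hxge : (1000 : ℝ) ≤ x := by linarith
  have hx2 : 1000 ≤ x := by exact_mod_cast hxge
  have hx0 : (0 : ℝ) < x := by linarith
  have hlx : 0 < Real.log x := Real.log_pos (by linarith)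
  have hl2 := Real.log_two_gt_d9
  have hlJ : Real.log 2 ≤ Real.log (2 * J) := Real.log_le_log (by norm_num) (by linarith)
  have hlJ0 : 0 < Real.log (2 * J) := by linarith
  have hX0 : 0 ≤ (x : ℝ) / Real.log x := by positivity
  have hρ3 : 0 < ρ ^ 3 * L := by positivity
  have hQ0 : 0 ≤ Real.log (2 * J) / (ρ ^ 3 * L) := by positivity
  -- the number `q`
  obtain ⟨q, hqd⟩ : ∃ q, q = ⌈16 / ρ⌉₊ := ⟨_, rfl⟩
  have hqρ1 : 16 ≤ (q : ℝ) * ρ := by
    have h1 : 16 / ρ ≤ (q : ℝ) := by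
      rw [hqd]
      exact Nat.le_ceil _
    rwa [div_le_iff₀ hρ0] at h1
  have hqρ2 : (q : ℝ) * ρ ≤ 17 := by
    have h1 : (q : ℝ) < 16 / ρ + 1 := by
      rw [hqd]
      exact Nat.ceil_lt_add_one (by positivity)
    have h2 : (q : ℝ) * ρ < (16 / ρ + 1) * ρ := mul_lt_mul_of_pos_right h1 hρ0
    have h3 : (16 / ρ + 1) * ρ = 16 + ρ := by field_simp
    linarith
  have hq0' : (0 : ℝ) ≤ q := by positivity
  have hq16' : (16 : ℝ) ≤ q := hqρ1.trans (mul_le_of_le_one_right hq0' hρ1)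
  have hq16 : 16 ≤ q := by exact_mod_cast hq16'
  obtain ⟨S, hS⟩ : ∃ S, S = L / 2 := ⟨_, rfl⟩
  by_cases hSq : 12 * q ^ 2 ≤ S
  swap
  · -- the trivial case
    refine (card_primes_upperT (by omega) _ (Finset.filter_subset _ _)
      (fun p hp => (Finset.mem_filter.1 hp).2.1)).trans ?_
    have h1 : L ≤ 24 * q ^ 2 := by omega
    have h1' : (L : ℝ) ≤ 24 * (q : ℝ) ^ 2 := by exact_mod_cast h1
    have h2 : ρ ^ 3 * L ≤ 6936 := by
      have h3 : ρ ^ 3 * L ≤ ρ ^ 3 * (24 * (q : ℝ) ^ 2) :=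
        mul_le_mul_of_nonneg_left h1' (by positivity)
      have h4 : ρ ^ 3 * (24 * (q : ℝ) ^ 2) = 24 * ρ * (q * ρ) ^ 2 := by ring
      have h5 : ((q : ℝ) * ρ) ^ 2 ≤ 17 ^ 2 := pow_le_pow_left₀ (by positivity) hqρ2 2
      have h6 : 24 * ρ * ((q : ℝ) * ρ) ^ 2 ≤ 24 * 1 * 17 ^ 2 :=
        mul_le_mul (by linarith) h5 (by positivity) (by norm_num)
      rw [h4] at h3
      linarith
    have h3 : 1 ≤ 11000 * (Real.log (2 * J) / (ρ ^ 3 * L)) := by
      rw [mul_div_assoc', le_div_iff₀ hρ3, one_mul]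
      linarith
    calc 5 * ((x : ℝ) / Real.log x) ≤ 5 * ((x : ℝ) / Real.log x) *
          (11000 * (Real.log (2 * J) / (ρ ^ 3 * L))) :=
          le_mul_of_one_le_right (by positivity) h3
      _ = 55000 * (Real.log (2 * J) / (ρ ^ 3 * L) * (x / Real.log x)) := by ring
      _ ≤ (60000 + 200000 * C₁) * (Real.log (2 * J) / (ρ ^ 3 * L) * (x / Real.log x)) :=
          mul_le_mul_of_nonneg_right (by linarith) (mul_nonneg hQ0 hX0)
  · -- the main case
    have hqq : 256 ≤ q ^ 2 := by nlinarith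
    have hS3 : 3072 ≤ S := by omega
    have hS0 : 0 < S := by omega
    have h2S : 2 * S ≤ L := by omega
    have h3S : L ≤ 3 * S := by omega
    have hS0' : (0 : ℝ) < S := by exact_mod_cast hS0
    have h2S' : 2 * (S : ℝ) ≤ L := by exact_mod_cast h2S
    have h3S' : (L : ℝ) ≤ 3 * S := by exact_mod_cast h3S
    obtain ⟨T, hT⟩ : ∃ T, T = 2 * J + 3 - S := ⟨_, rfl⟩
    have hT2 : T ≤ 2 * J := by omega
    have hTJ : J ≤ T := by omega
    have hTS : 3 * S ≤ T := by omega
    have hTS' : T + S = 2 * J + 3 := by omega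
    have hT2' : (T : ℝ) ≤ 2 * J := by exact_mod_cast hT2
    obtain ⟨A, hA⟩ : ∃ A, A = (q - 2) * T / S := ⟨_, rfl⟩
    obtain ⟨N₁, hN₁⟩ : ∃ N₁, N₁ = q * x / S + 1 := ⟨_, rfl⟩
    obtain ⟨r, hr⟩ : ∃ r, r = ⌈ρ * J⌉₊ := ⟨_, rfl⟩
    obtain ⟨δ, hδ⟩ : ∃ δ, δ = T - r := ⟨_, rfl⟩
    have hAS : A * S ≤ (q - 2) * T := by
      rw [hA]
      exact Nat.div_mul_le_self _ _
    have hAS2 : A * S ≤ 2 * (q * J) := by
      calc A * S ≤ (q - 2) * T := hAS
        _ ≤ q * (2 * J) := Nat.mul_le_mul (by omega) hT2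
        _ = 2 * (q * J) := by ring
    -- `6 q J S ≤ x`
    have hqJS : 6 * (q * (J * S)) ≤ x := by
      have h1 : ρ * (6 * ((q : ℝ) * (J * S))) ≤ ρ * x := by
        have h2 : (J : ℝ) * S ≤ J * L := mul_le_mul_of_nonneg_left (by linarith) (by linarith)
        have h3 : ρ * (6 * ((q : ℝ) * (J * S))) = 6 * ((q * ρ) * (J * S)) := by ring
        have h4 : ((q : ℝ) * ρ) * (J * S) ≤ 17 * (J * L) :=
          mul_le_mul hqρ2 h2 (by positivity) (by norm_num)
        rw [h3]
        linarith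
      have h5 := le_of_mul_le_mul_left h1 hρ0
      exact_mod_cast h5
    have hN₁ge : 6 * (q ^ 2 * J) ≤ N₁ := by
      have h1 : 6 * (q ^ 2 * J) ≤ q * x / S := by
        rw [Nat.le_div_iff_mul_le hS0]
        calc 6 * (q ^ 2 * J) * S = q * (6 * (q * (J * S))) := by ring
          _ ≤ q * x := Nat.mul_le_mul_left _ hqJS
      omega
    have hN₁3 : 3 * q * (A * S) ≤ N₁ := by
      calc 3 * q * (A * S) ≤ 3 * q * (2 * (q * J)) := Nat.mul_le_mul_left _ hAS2
        _ = 6 * (q ^ 2 * J) := by ring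
        _ ≤ N₁ := hN₁ge
    have hqx : q * x ≤ S * N₁ := by
      rw [hN₁]
      exact (Nat.lt_mul_div_succ (q * x) hS0).le
    have hrJ : r ≤ J := by
      rw [hr]
      apply Nat.ceil_le.2
      exact mul_le_of_le_one_left (by positivity) hρ1
    have hρr : ρ * J ≤ (r : ℝ) := by
      rw [hr]
      exact Nat.le_ceil _
    have h8T : 8 * T ≤ q * r := by
      have h1 : 8 * (T : ℝ) ≤ q * r := by
        have h2 : (q : ℝ) * (ρ * J) ≤ q * r := mul_le_mul_of_nonneg_left hρr hq0'
        have h3 : 16 * (J : ℝ) ≤ (q * ρ) * J := mul_le_mul_of_nonneg_right hqρ1 (by linarith)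
        have h4 : ((q : ℝ) * ρ) * J = q * (ρ * J) := by ring
        linarith
      exact_mod_cast h1
    have hδ8 : q * δ + 8 * T ≤ q * T := by
      have h1 : δ + r = T := by omega
      calc q * δ + 8 * T ≤ q * δ + q * r := by omega
        _ = q * T := by rw [← mul_add, h1]
    obtain ⟨hA1, hA12, k, hk1, hk2, hk3, hk4, hk5⟩ := params hq16 hSq hTS hA hN₁3 hqx hδ8
    have hAT : A ≤ T := by
      have h1 : A ≤ q * A := Nat.le_mul_of_pos_left _ (by omega)
      omega
    have hT1 : 1 ≤ T := by omega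
    have hN₁1 : 1 ≤ N₁ := by
      rw [hN₁]
      exact Nat.le_add_left 1 _
    have hNN : N₁ ≤ q * N₁ := Nat.le_mul_of_pos_left _ (by omega)
    have hq2J : J ≤ q ^ 2 * J := Nat.le_mul_of_pos_left _ (by positivity)
    have hq2J' : 256 * J ≤ q ^ 2 * J := Nat.mul_le_mul_right _ hqq
    have hbig : T + S + A + 10 ≤ q * N₁ := by
      have h1 : 256 * J ≤ N₁ := le_trans (le_trans hq2J' (by
        generalize q ^ 2 * J = W
        omega)) hN₁ge
      omega
    have hASL : A + S ≤ L := by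
      have h1 : A ≤ S := by
        have h2 : (q - 2) * T ≤ S * S := by
          have h3 : 2 * (q * J) ≤ S * S := by
            have h4 : 2 * ((q : ℝ) * J) ≤ S * S := by
              have h5 : ρ * (2 * ((q : ℝ) * J)) ≤ ρ * (S * S) := by
                have h6 : ρ * (2 * ((q : ℝ) * J)) = 2 * ((q * ρ) * J) := by ring
                have h7 : ((q : ℝ) * ρ) * J ≤ 17 * J := mul_le_mul_of_nonneg_right hqρ2 (by linarith)
                have h8 : (L : ℝ) ^ 2 ≤ (3 * S) ^ 2 := pow_le_pow_left₀ hL0.le h3S' 2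
                have h9 : ρ * (L : ℝ) ^ 2 ≤ ρ * (3 * S) ^ 2 := mul_le_mul_of_nonneg_left h8 hρ0.le
                have h10 : ρ * (3 * (S : ℝ)) ^ 2 = 9 * (ρ * (S * S)) := by ring
                rw [h6]
                have h11 : 0 ≤ ρ * ((S : ℝ) * S) := by positivity
                linarith
              exact le_of_mul_le_mul_left h5 hρ0
            exact_mod_cast h4
          calc (q - 2) * T ≤ q * (2 * J) := Nat.mul_le_mul (by omega) hT2
            _ = 2 * (q * J) := by ring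
            _ ≤ S * S := h3
        rw [hA]
        exact Nat.div_le_of_le_mul h2
      omega
    have hB := hth A S (q * N₁) N₁ T δ q k x hA1 hT1 hN₁1 hNN hbig (by omega) hk1 hk2 hk3 hk4 hk5
    -- the bad primes
    have hbad : ∀ p : ℕ, ρ * J ≤ ((LR J L p).card : ℝ) → (badPos A S T p).card ≤ δ := by
      intro p hp
      have h1 : r ≤ (LR J L p).card := by
        rw [hr]
        exact Nat.ceil_le.2 hp
      have h2 := bad_card (p := p) hASL hTS'
      omega
    set N : ℕ := q * N₁ with hN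
    have hN0 : (0 : ℝ) ≤ N := by positivity
    have hSx : (S : ℝ) ≤ x := by
      have h1 : S ≤ x := by
        have h2 : S ≤ 6 * (q * (J * S)) := by
          have h3 : 1 ≤ q * J := Nat.mul_pos (by omega) (by omega)
          calc S ≤ (q * J) * S := Nat.le_mul_of_pos_left _ h3
            _ = q * (J * S) := by ring
            _ ≤ 6 * (q * (J * S)) := by omega
        omega
      exact_mod_cast h1
    have hN₁le : (N₁ : ℝ) ≤ 2 * (q * (x / S)) := by
      have h1 : ((q * x / S : ℕ) : ℝ) ≤ ((q * x : ℕ) : ℝ) / S := Nat.cast_div_le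
      have h2 : (1 : ℝ) ≤ x / S := by
        rw [one_le_div hS0']
        exact hSx
      rw [hN₁]
      push_cast at h1 ⊢
      have h4 : (q : ℝ) * x / S = q * (x / S) := by ring
      rw [h4] at h1
      have h5 : (1 : ℝ) * 1 ≤ q * (x / S) := mul_le_mul (by linarith) h2 (by norm_num) hq0'
      linarith
    have hNle : (N : ℝ) * (ρ ^ 2 * L) ≤ 1734 * x := by
      have h1 : (N : ℝ) = q * N₁ := by
        rw [hN]
        push_cast
        ring
      have h2 : (N : ℝ) ≤ q * (2 * (q * (x / S))) := by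
        rw [h1]
        exact mul_le_mul_of_nonneg_left hN₁le hq0'
      have h3 : (L : ℝ) / S ≤ 3 := by
        rw [div_le_iff₀ hS0']
        exact h3S'
      have h4 : ((q : ℝ) * ρ) ^ 2 ≤ 17 ^ 2 := pow_le_pow_left₀ (by positivity) hqρ2 2
      calc (N : ℝ) * (ρ ^ 2 * L) ≤ q * (2 * (q * (x / S))) * (ρ ^ 2 * L) :=
            mul_le_mul_of_nonneg_right h2 (by positivity)
        _ = 2 * x * (((q : ℝ) * ρ) ^ 2 * (L / S)) := by ring
        _ ≤ 2 * x * (17 ^ 2 * 3) := by
            apply mul_le_mul_of_nonneg_left _ (by positivity)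
            exact mul_le_mul h4 h3 (by positivity) (by norm_num)
        _ = 1734 * x := by ring
    -- logarithms
    have hJbig : 3072 ≤ J := by omega
    have hJbig' : (3072 : ℝ) ≤ J := by exact_mod_cast hJbig
    have hlJ1 : 1 ≤ Real.log (2 * J) := by
      have h1 : Real.log 4 ≤ Real.log (2 * J) := Real.log_le_log (by norm_num) (by linarith)
      have h2 : Real.log 4 = 2 * Real.log 2 := by
        rw [show (4 : ℝ) = 2 ^ 2 by norm_num, Real.log_pow]
        norm_num
      linarith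
    have hlog : 1 + Real.log ((T : ℝ) + S + 1) ≤ 3 * Real.log (2 * J) := by
      have h1 : (T : ℝ) + S + 1 = 2 * J + 4 := by
        have h2 : (T : ℝ) + S = 2 * J + 3 := by exact_mod_cast hTS'
        linarith
      rw [h1]
      have h2 : Real.log (2 * J + 4) ≤ Real.log (2 * (2 * J)) :=
        Real.log_le_log (by linarith) (by linarith)
      rw [Real.log_mul (by norm_num) (by linarith)] at h2
      linarith
    have hlog0 : 0 ≤ Real.log ((T : ℝ) + S + 1) := by
      apply Real.log_nonneg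
      have : (0 : ℝ) ≤ T := by positivity
      linarith
    have hsplit : ∑ p ∈ (Finset.Icc 1 x).filter
        (fun p : ℕ => p.Prime ∧ ρ * J ≤ ((LR J L p).card : ℝ)), Real.log p ≤
        ∑ p ∈ (Finset.Icc 1 N).filter (fun p : ℕ => p.Prime), Real.log p +
        ∑ p ∈ (Finset.Icc (N + 1) x).filter
          (fun p : ℕ => p.Prime ∧ (badPos A S T p).card ≤ δ), Real.log p := by
      have hdisj : Disjoint ((Finset.Icc 1 N).filter (fun p : ℕ => p.Prime))
          ((Finset.Icc (N + 1) x).filter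
            (fun p : ℕ => p.Prime ∧ (badPos A S T p).card ≤ δ)) := by
        rw [Finset.disjoint_left]
        intro p hp hp'
        rw [Finset.mem_filter, Finset.mem_Icc] at hp hp'
        omega
      rw [← Finset.sum_union hdisj]
      apply Finset.sum_le_sum_of_subset_of_nonneg
      · intro p hp
        rw [Finset.mem_filter, Finset.mem_Icc] at hp
        rw [Finset.mem_union, Finset.mem_filter, Finset.mem_filter, Finset.mem_Icc, Finset.mem_Icc]
        by_cases h : p ≤ N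
        · exact Or.inl ⟨⟨hp.1.1, h⟩, hp.2.1⟩
        · exact Or.inr ⟨⟨by omega, hp.1.2⟩, hp.2.1, hbad p hp.2.2⟩
      · intro p hp _
        have h1 : 1 < p := by
          rw [Finset.mem_union, Finset.mem_filter, Finset.mem_filter] at hp
          rcases hp with h | h
          · exact h.2.one_lt
          · exact h.2.1.one_lt
        exact Real.log_nonneg (by exact_mod_cast h1.le)
    have hA2 : ∑ p ∈ (Finset.Icc 1 N).filter (fun p : ℕ => p.Prime), Real.log p ≤ 2 * N := by
      have h1 : ∑ p ∈ (Finset.Icc 1 N).filter (fun p : ℕ => p.Prime), Real.log p ≤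
          Chebyshev.theta N := by
        rw [Chebyshev.theta, Nat.floor_natCast]
        apply le_of_eq
        apply Finset.sum_congr _ (fun _ _ => rfl)
        ext p
        rw [Finset.mem_filter, Finset.mem_filter, Finset.mem_Icc, Finset.mem_Ioc]
        rfl
      have h2 : Chebyshev.theta N ≤ Real.log 4 * N := Chebyshev.theta_le_log4_mul_x (by positivity)
      have hl4 : Real.log 4 ≤ 2 := by
        rw [show (4 : ℝ) = 2 ^ 2 by norm_num, Real.log_pow]
        have := Real.log_two_lt_d9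
        push_cast
        linarith
      have h3 : Real.log 4 * (N : ℝ) ≤ 2 * N := mul_le_mul_of_nonneg_right hl4 hN0
      linarith
    set Q : ℝ := Real.log (2 * J) / (ρ ^ 3 * L) with hQ
    have hQm : Q * (ρ ^ 3 * L) = Real.log (2 * J) := by
      rw [hQ]
      field_simp
    have hN2 : 2 * (N : ℝ) ≤ 3468 * (Q * x) := by
      have h1 : (N : ℝ) * (ρ ^ 3 * L) ≤ 1734 * x := by
        calc (N : ℝ) * (ρ ^ 3 * L) = ρ * ((N : ℝ) * (ρ ^ 2 * L)) := by ring
          _ ≤ 1 * (1734 * (x : ℝ)) := mul_le_mul hρ1 hNle (by positivity) (by norm_num)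
          _ = 1734 * (x : ℝ) := by ring
      have h2 : (N : ℝ) * (ρ ^ 3 * L) ≤ 1734 * (Q * x) * (ρ ^ 3 * L) := by
        have h3 : 1734 * (Q * x) * (ρ ^ 3 * L) = 1734 * x * (Q * (ρ ^ 3 * L)) := by ring
        rw [h3, hQm]
        have h4 : 1734 * (x : ℝ) * 1 ≤ 1734 * x * Real.log (2 * J) :=
          mul_le_mul_of_nonneg_left hlJ1 (by positivity)
        linarith
      have h3 := le_of_mul_le_mul_right h2 hρ3
      linarith
    have hqN : ((q : ℝ) + 1) * (N * (1 + Real.log ((T : ℝ) + S + 1))) ≤ 93636 * (Q * x) := by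
      have h1 : ((q : ℝ) + 1) * ρ ≤ 18 := by linarith
      have h2 : ((q : ℝ) + 1) * (N * (1 + Real.log ((T : ℝ) + S + 1))) ≤
          ((q : ℝ) + 1) * (N * (3 * Real.log (2 * J))) := by
        apply mul_le_mul_of_nonneg_left _ (by linarith)
        exact mul_le_mul_of_nonneg_left hlog hN0
      have h3 : ((q : ℝ) + 1) * (N * (3 * Real.log (2 * J))) * (ρ ^ 3 * L) ≤
          93636 * (Q * x) * (ρ ^ 3 * L) := by
        calc ((q : ℝ) + 1) * (N * (3 * Real.log (2 * J))) * (ρ ^ 3 * L) =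
              3 * Real.log (2 * J) * ((((q : ℝ) + 1) * ρ) * (N * (ρ ^ 2 * L))) := by ring
          _ ≤ 3 * Real.log (2 * J) * (18 * (1734 * x)) := by
              apply mul_le_mul_of_nonneg_left _ (by positivity)
              exact mul_le_mul h1 hNle (by positivity) (by norm_num)
          _ = 93636 * x * Real.log (2 * J) := by ring
          _ = 93636 * (Q * x) * (ρ ^ 3 * L) := by
              rw [← hQm]
              ring
      have h4 := le_of_mul_le_mul_right h3 hρ3
      linarith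
    have hsum : ∑ p ∈ (Finset.Icc 1 x).filter
        (fun p : ℕ => p.Prime ∧ ρ * J ≤ ((LR J L p).card : ℝ)), Real.log p ≤
        (3468 + 93636 * C₁) * (Q * x) := by
      have h7 := mul_le_mul_of_nonneg_left hqN hC₁.le
      have h8 : C₁ * (93636 * (Q * x)) = 93636 * C₁ * (Q * x) := by ring
      rw [h8] at h7
      have h9 : (3468 + 93636 * C₁) * (Q * x) = 3468 * (Q * x) + 93636 * C₁ * (Q * x) := by ring
      rw [h9]
      linarith
    have hcount := count_le_of_sum_log (by omega : 2 ≤ x) _ (Finset.filter_subset _ _) hsum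
    -- the term `√x`
    have hsq : √(x : ℝ) ≤ 5 * (Q * (x / Real.log x)) := by
      set u : ℝ := √(x : ℝ) with hu
      have hu2 : u * u = x := Real.mul_self_sqrt hx0.le
      have hu0 : 0 < u := Real.sqrt_pos.2 hx0
      have hLu : (L : ℝ) ≤ u := by
        rw [hu]
        apply Real.le_sqrt_of_sq_le
        have h1 : (L : ℝ) * L ≤ J * L := mul_le_mul_of_nonneg_right hLJ' hL0.le
        have h2 : (L : ℝ) ^ 2 = L * L := sq _
        rw [h2]
        linarith
      have hw1 : 1 ≤ u / L := by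
        rw [one_le_div hL0]
        exact hLu
      have hLlog : L * Real.log x ≤ 4 * (u * Real.log (2 * J)) := by
        have h1 : Real.log x = 2 * Real.log u := by
          rw [← hu2, Real.log_mul hu0.ne' hu0.ne']
          ring
        have h2 : Real.log u = Real.log (u / L) + Real.log L := by
          rw [Real.log_div hu0.ne' hL0.ne']
          ring
        have h3 : Real.log (u / L) ≤ u / L - 1 := Real.log_le_sub_one_of_pos (by positivity)
        have h4 : Real.log L ≤ Real.log (2 * J) := Real.log_le_log hL0 (by linarith)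
        have h5 : (L : ℝ) * Real.log (2 * J) ≤ u * Real.log (2 * J) :=
          mul_le_mul_of_nonneg_right hLu hlJ0.le
        have h6 : (L : ℝ) * (u / L) = u := by field_simp
        have h7 : (L : ℝ) * Real.log u ≤ L * (u / L + Real.log (2 * J)) := by
          apply mul_le_mul_of_nonneg_left _ hL0.le
          rw [h2]
          linarith
        have h8 : u * 1 ≤ u * Real.log (2 * J) := mul_le_mul_of_nonneg_left hlJ1 hu0.le
        rw [h1]
        have h9 : (L : ℝ) * (u / L + Real.log (2 * J)) = u + L * Real.log (2 * J) := by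
          rw [mul_add, h6]
        rw [h9] at h7
        linarith
      have h8 : u * Real.log x ≤ 5 * (Q * x) := by
        have h9 : u * Real.log x * (ρ ^ 3 * L) ≤ 5 * (Q * x) * (ρ ^ 3 * L) := by
          have h10 : ρ ^ 3 ≤ 1 := pow_le_one₀ hρ0.le hρ1
          calc u * Real.log x * (ρ ^ 3 * L) = ρ ^ 3 * (u * (L * Real.log x)) := by ring
            _ ≤ 1 * (u * (4 * (u * Real.log (2 * J)))) := by
                apply mul_le_mul h10 _ (by positivity) (by norm_num)
                exact mul_le_mul_of_nonneg_left hLlog hu0.le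
            _ = 4 * (x * Real.log (2 * J)) := by
                rw [← hu2]
                ring
            _ ≤ 5 * (x * Real.log (2 * J)) := by
                have : 0 ≤ (x : ℝ) * Real.log (2 * J) := by positivity
                linarith
            _ = 5 * (Q * x) * (ρ ^ 3 * L) := by
                rw [← hQm]
                ring
        exact le_of_mul_le_mul_right h9 hρ3
      have h12 : 5 * (Q * (x / Real.log x)) = 5 * (Q * x) / Real.log x := by ring
      rw [h12, le_div_iff₀ hlx]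
      exact h8
    have h13 : 2 * ((3468 + 93636 * C₁) * (Q * x)) / Real.log x =
        (6936 + 187272 * C₁) * (Q * (x / Real.log x)) := by
      ring
    rw [h13] at hcount
    have h14 : 0 ≤ Q * (x / Real.log x) := mul_nonneg hQ0 hX0
    have h15 : 0 ≤ C₁ * (Q * (x / Real.log x)) := mul_nonneg hC₁.le h14
    have h16 : (6936 + 187272 * C₁) * (Q * (x / Real.log x)) =
        6936 * (Q * (x / Real.log x)) + 187272 * (C₁ * (Q * (x / Real.log x))) := by ring
    have h17 : (60000 + 200000 * C₁) * (Q * (x / Real.log x)) =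
        60000 * (Q * (x / Real.log x)) + 200000 * (C₁ * (Q * (x / Real.log x))) := by ring
    rw [h16] at hcount
    rw [h17]
    linarith

end MP_a3a416_nt.GL
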