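import Pool.Agent.Lib.MP_a3a416_nt.TW.Defs

/-!
# GL-Defs
The gap law: definitions.  Parameters: `A` (powers of `τ = X - X^p`), `S` (order of the derivatives), `N = q N₁` (number of nodes), `N₁` (degree of the coefficients `h_{a,m}`), `T` (order of the jets), `J`, `L`.
`w = X(X-1)..(X-N+1)`; operators `H_a = ∑_{m ≤ S} h_{a,m} D^[m]` with `H_a(w) = 0`; everything is scaled by `FG = N! N₁!`.
-/

namespace MP_a3a416_nt.GL

open Polynomial MP_a3a416_nt.BB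

/-- Index set of the unknown coefficients `(a, m, i)`: `a < A`, `m ≤ S`, `i < N₁`. -/
def ixG (A S N₁ : ℕ) : Finset (ℕ × ℕ × ℕ) :=
  Finset.range A ×ˢ (Finset.range (S + 1) ×ˢ Finset.range N₁)

/-- `h_{a,m}` times `N₁!`: `∑_{i<N₁} c(a,m,i) (N₁!/i!) X(X-1)..(X-i+1)`. -/
noncomputable def hG (N₁ : ℕ) (c : ℕ × ℕ × ℕ → ℤ) (a m : ℕ) : ℤ[X] :=
  ∑ i ∈ Finset.range N₁, C (c (a, m, i) * ((N₁.factorial / i.factorial : ℕ) : ℤ)) *
    prodLin 1 0 (Finset.range i)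

/-- `w` times `N!`. -/
noncomputable def wP (N : ℕ) : ℤ[X] := prodLin 1 0 (Finset.range N)

/-- `w/(X-b)` times `N!`. -/
noncomputable def wB (N b : ℕ) : ℤ[X] := prodLin 1 0 ((Finset.range N).erase b)

/-- `H_a(w)` times `FG`. -/
noncomputable def regG (S N N₁ : ℕ) (c : ℕ × ℕ × ℕ → ℤ) (a : ℕ) : ℤ[X] :=
  ∑ m ∈ Finset.range (S + 1), hG N₁ c a m * hasseDeriv m (wP N)

/-- the condition `H_a(w) = 0` for all `a < A`. -/
def REG (A S N N₁ : ℕ) (c : ℕ × ℕ × ℕ → ℤ) : Prop := ∀ a < A, regG S N N₁ c a = 0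

/-- `(m+1) P_{a,m}` times `FG`: `∑_{k<S-m} h_{a,m+1+k} w^[k]`. -/
noncomputable def PG (S N N₁ : ℕ) (c : ℕ × ℕ × ℕ → ℤ) (a m : ℕ) : ℤ[X] :=
  ∑ k ∈ Finset.range (S - m), hG N₁ c a (m + 1 + k) * hasseDeriv k (wP N)

/-- `Q_{a,b}` times `FG`: `- H_a(w/(X-b))`. -/
noncomputable def QG (S N N₁ : ℕ) (c : ℕ × ℕ × ℕ → ℤ) (a b : ℕ) : ℤ[X] :=
  - ∑ m ∈ Finset.range (S + 1), hG N₁ c a m * hasseDeriv m (wB N b)

/-- `r_n(t)` times `FG`: `∑_{a<A} t^a ∑_{b<n} (n-b) Q_{a,b}(n+t)`. -/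
noncomputable def rG (A S N N₁ : ℕ) (c : ℕ × ℕ × ℕ → ℤ) (n : ℕ) : ℤ[X] :=
  ∑ a ∈ Finset.range A, X ^ a *
    ∑ b ∈ Finset.range n, C ((n : ℤ) - b) * taylor (n : ℤ) (QG S N N₁ c a b)

/-- the scaling factor. -/
def FG (N N₁ : ℕ) : ℕ := N.factorial * N₁.factorial

/-- common denominator. -/
def DG (N N₁ L : ℕ) : ℕ := ∏ u ∈ Finset.Icc 1 L, Nat.lcmUpto ((N + N₁) / u)

/-- size of the linear forms `regG(x)`. -/
def AG (S N N₁ : ℕ) : ℕ := DG N N₁ (S + 1) * ((S + 1) * N₁ * 4 ^ (N + N₁))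

/-- size of the jets. -/
def EG (A S N N₁ T : ℕ) : ℕ :=
  DG N N₁ (T + S + 1) * (A * (S + 1) * T * N ^ 2 * N₁ * 4 ^ (N + N₁) * 2 ^ (T + S))

/-- the position `j` is good for `p`: `p ∣ B_{p-1-2g}` for all `g ≥ 1` with `j + 1 ≤ 2g + A`, `2g + 1 ≤ j + S`. -/
def GoodPos (A S p j : ℕ) : Prop :=
  ∀ g : ℕ, 1 ≤ g → j + 1 ≤ 2 * g + A → 2 * g + 1 ≤ j + S →
    (p : ℤ) ∣ (_root_.bernoulli (p - 1 - 2 * g)).num

open Classical in
/-- the bad positions `j < T`. -/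
noncomputable def badPos (A S T p : ℕ) : Finset ℕ := (Finset.range T).filter (fun j => ¬ GoodPos A S p j)

open Classical in
/-- the `g ≤ J` which lie in a run of `L` consecutive `g' ≤ J` with `p ∣ B_{p-1-2g'}`. -/
noncomputable def LR (J L p : ℕ) : Finset ℕ :=
  (Finset.Icc 1 J).filter (fun g => ∃ u : ℕ, 1 ≤ u ∧ u ≤ g ∧ g < u + L ∧ u + L ≤ J + 1 ∧
    ∀ g' ∈ Finset.Ico u (u + L), (p : ℤ) ∣ (_root_.bernoulli (p - 1 - 2 * g')).num)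

theorem FG_pos (N N₁ : ℕ) : 0 < FG N N₁ := by
  unfold FG; positivity

theorem DG_pos (N N₁ L : ℕ) : 0 < DG N N₁ L := by
  unfold DG
  exact Finset.prod_pos fun _ _ => Nat.lcmUpto_pos _

end MP_a3a416_nt.GL
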