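import Pool.Agent.Lib.MP_a3a416_nt.GL.Defs
import Pool.Agent.Lib.MP_a3a416_nt.TW.Den

/-!
# GL-DenG
The common denominator.  Model: `TW/Den.lean` (`factorization_DJ`, `factorization_FN`, `FN_dvd_of`, `log_DJ_le`); note `DG N N₁ L = TW.DJ 1 (N + N₁) L` (`unfold`, `one_mul`), so `log_DG_le` is `TW.log_DJ_le 1 (N+N₁) L`.
PROOFS.  `FG_dvd_of`: `v_q(FG) = ∑_l (N/q^l + N₁/q^l)`, `v_q(DG) = ∑_l min L ((N+N₁)/q^l)` (`factorization_DJ` with `K = 1`, copy it), and `N/q^l + N₁/q^l ≤ (N+N₁)/q^l`.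
`DG_mono`: products of positive factors over a larger set.
-/

namespace MP_a3a416_nt.GL

open Polynomial MP_a3a416_nt.BB

private theorem DG_eq (N N₁ L : ℕ) : DG N N₁ L = TW.DJ 1 (N + N₁) L := by
  unfold DG TW.DJ
  rw [one_mul]

private theorem factorization_DG (N N₁ L : ℕ) {q : ℕ} (hq : q.Prime) :
    (DG N N₁ L).factorization q
      = ∑ l ∈ Finset.Icc 1 (Nat.log q (N + N₁)), min L ((N + N₁) / q ^ l) := by
  unfold DG
  set A := N + N₁ with hA
  rw [Nat.factorization_prod (fun u _ => Nat.lcmUpto_ne_zero _), Finsupp.finsetSum_apply]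
  have hq1 := hq.one_lt
  set L' := Nat.log q A with hL
  have h1 : ∀ u ∈ Finset.Icc 1 L, (Nat.lcmUpto (A / u)).factorization q
      = ∑ l ∈ Finset.Icc 1 L', if u ≤ A / q ^ l then 1 else 0 := by
    intro u hu
    rw [Nat.factorization_lcmUpto _ hq]
    have hB : A / u < q ^ (L' + 1) :=
      lt_of_le_of_lt (Nat.div_le_self _ _) (Nat.lt_pow_succ_log_self hq1 A)
    rw [log_eq_sum hq1 hB]
    apply Finset.sum_congr rfl
    intro l hl
    rw [Finset.mem_Icc] at hl hu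
    have hpos : 0 < q ^ l := by positivity
    have h3 : q ^ l ≤ A / u ↔ u ≤ A / q ^ l := by
      rw [Nat.le_div_iff_mul_le (by omega), Nat.le_div_iff_mul_le hpos, mul_comm u]
    simp only [h3]
  rw [Finset.sum_congr rfl h1, Finset.sum_comm]
  apply Finset.sum_congr rfl
  intro l _
  rw [← Finset.card_filter, card_le_min]

private theorem factorization_FG (N N₁ : ℕ) {q : ℕ} (hq : q.Prime) :
    (FG N N₁).factorization q =
      ∑ l ∈ Finset.Icc 1 (Nat.log q (N + N₁)), (N / q ^ l + N₁ / q ^ l) := by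
  have hb : Nat.log q N < Nat.log q (N + N₁) + 1 :=
    Nat.lt_succ_of_le (Nat.log_mono_right (Nat.le_add_right _ _))
  have hb' : Nat.log q N₁ < Nat.log q (N + N₁) + 1 :=
    Nat.lt_succ_of_le (Nat.log_mono_right (Nat.le_add_left _ _))
  unfold FG
  rw [Nat.factorization_mul (Nat.factorial_ne_zero _) (Nat.factorial_ne_zero _),
    Finsupp.add_apply, Nat.factorization_factorial hq hb, Nat.factorization_factorial hq hb',
    ← Finset.sum_add_distrib]
  rfl

theorem FG_dvd_of {N N₁ L : ℕ} (z : ℤ)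
    (h : ∀ q : ℕ, q.Prime →
      (q : ℤ) ^ (∑ l ∈ Finset.Icc 1 (Nat.log q (N + N₁)), (N / q ^ l + N₁ / q ^ l - L)) ∣ z) :
    (FG N N₁ : ℤ) ∣ (DG N N₁ L : ℤ) * z := by
  rw [Int.natCast_dvd, Nat.dvd_iff_prime_pow_dvd_dvd]
  intro q e hq he
  have he' : e ≤ (FG N N₁).factorization q := (hq.pow_dvd_iff_le_factorization (FG_pos N N₁).ne').1 he
  rw [factorization_FG N N₁ hq] at he'
  have h2 : q ^ (∑ l ∈ Finset.Icc 1 (Nat.log q (N + N₁)), min L ((N + N₁) / q ^ l)) ∣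
      DG N N₁ L := by
    rw [← factorization_DG N N₁ L hq]
    exact Nat.ordProj_dvd _ _
  have h3 : ∑ l ∈ Finset.Icc 1 (Nat.log q (N + N₁)), (N / q ^ l + N₁ / q ^ l)
      ≤ ∑ l ∈ Finset.Icc 1 (Nat.log q (N + N₁)), min L ((N + N₁) / q ^ l)
        + ∑ l ∈ Finset.Icc 1 (Nat.log q (N + N₁)), (N / q ^ l + N₁ / q ^ l - L) := by
    rw [← Finset.sum_add_distrib]
    apply Finset.sum_le_sum
    intro l _
    have h4 : N / q ^ l + N₁ / q ^ l ≤ (N + N₁) / q ^ l := Nat.add_div_le_add_div N N₁ (q ^ l)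
    omega
  have h4 : (q : ℤ) ^ e ∣ (DG N N₁ L : ℤ) * z := by
    refine dvd_trans (pow_dvd_pow _ (he'.trans h3)) ?_
    rw [pow_add]
    exact mul_dvd_mul (by exact_mod_cast h2) (h q hq)
  rw [← Int.natCast_dvd]
  exact_mod_cast h4

theorem log_DG_le (N N₁ L : ℕ) :
    Real.log (DG N N₁ L) ≤ (Real.log 4 + 4) * (N + N₁) * (1 + Real.log L) := by
  have h := TW.log_DJ_le 1 (N + N₁) L
  rw [← DG_eq] at h
  push_cast at h
  rw [one_mul] at h
  exact h

theorem DG_mono (N N₁ : ℕ) {L L' : ℕ} (h : L ≤ L') : DG N N₁ L ≤ DG N N₁ L' := by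
  unfold DG
  refine Finset.prod_le_prod_of_subset_of_one_le' (Finset.Icc_subset_Icc_right h) ?_
  intro u _ _
  exact Nat.lcmUpto_pos _

end MP_a3a416_nt.GL
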