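import Mathlib

/-!
# GL-Ineq
The counting inequality of Siegel's lemma.
PROOF.  `2 a H + 1 ≤ 3 a (H+1)`, so the left side is `≤ (3a)^E (H+1)^E P^F` (`E` the number of integer conditions); `3a ≥ 1`, `P ≥ 1`, `E ≤ k`, `F ≤ (q-1) k`: `(3a)^E P^F ≤ (3a)^k P^((q-1)k) = (3 a P^(q-1))^k < ((H+1)^q)^k = (H+1)^(q k)` (`k ≥ 1`), and
`E + q k ≤ U`.
-/

namespace MP_a3a416_nt.GL

theorem card_ineq {a H P E F U q k : ℕ} (ha : 1 ≤ a) (hP : 1 ≤ P) (hk : 1 ≤ k) (h1 : E ≤ k) (h2 : F ≤ (q - 1) * k)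
    (h3 : E + q * k ≤ U) (hH : 3 * a * P ^ (q - 1) < (H + 1) ^ q) :
    (2 * (a * H) + 1) ^ E * P ^ F < (H + 1) ^ U := by
  have h4 : 2 * (a * H) + 1 ≤ (3 * a) * (H + 1) := by nlinarith
  calc (2 * (a * H) + 1) ^ E * P ^ F ≤ ((3 * a) * (H + 1)) ^ E * P ^ F :=
        Nat.mul_le_mul_right _ (Nat.pow_le_pow_left h4 E)
    _ = (3 * a) ^ E * P ^ F * (H + 1) ^ E := by rw [mul_pow]; ring
    _ ≤ (3 * a) ^ k * P ^ ((q - 1) * k) * (H + 1) ^ E := by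
        apply Nat.mul_le_mul_right
        exact Nat.mul_le_mul (Nat.pow_le_pow_right (by omega) h1) (Nat.pow_le_pow_right hP h2)
    _ = (3 * a * P ^ (q - 1)) ^ k * (H + 1) ^ E := by rw [mul_pow (3 * a) (P ^ (q - 1)) k, pow_mul]
    _ < ((H + 1) ^ q) ^ k * (H + 1) ^ E :=
        Nat.mul_lt_mul_of_pos_right (Nat.pow_lt_pow_left hH (by omega)) (by positivity)
    _ = (H + 1) ^ (E + q * k) := by rw [← pow_mul, ← pow_add, Nat.add_comm (q * k) E]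
    _ ≤ (H + 1) ^ U := Nat.pow_le_pow_right (by omega) h3

end MP_a3a416_nt.GL
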