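import Pool.Agent.Lib.MP_a3a416_nt.GL.SizG

/-!
# GL-JetB
The integers for the jets.
PROOF.  The coefficient `k` of `X^a * ∑_b C(n-b) * taylor n (QG a b)` is `0` (`k < a`) or the coefficient `k - a` of the sum; `taylor n (QG a b) = - ∑_{m ≤ S} taylor n (hG a m) * taylor n (hasseDeriv m (wB N b))`, `taylor` commutes with `hasseDeriv`
(`taylor_hasse`, private in `TW/Jets.lean`, copy it), `taylor n (wB N b) = prodLin 1 n ((range N).erase b)` (`taylor_prodLin`).
Divisibility: `hG_adm`, `Adm.blkE` (`b < N`), `hasse_adm`, `Adm.mul`: for `k < T`, `m ≤ S`: exponents `N₁/q^l + (N/q^l - 1 - m) - k ≥ N/q^l + N₁/q^l - (T + S + 1)`; `FG_dvd_of` with `L = T + S + 1`.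
Size: every coefficient `k' ≤ k < T` of `taylor n (hG a m) * taylor n (hasseDeriv m (wB N b))` is a sum of `k' + 1 ≤ T` products, each `≤ N₁! N₁ H 2^N * (N! 2^(T+S))` (`hG_size` with `B = N`, `wB_size`, `k' + m ≤ T + S`); there are `A` values of `a`, at most
`N` values of `b` with a factor `n - b ≤ N`, and `S + 1` values of `m`: `|coefficient| ≤ FG * (A N^2 (S+1) T N₁ 2^N 2^(T+S)) H`, and `2^N ≤ 4^(N+N₁)`.
-/

namespace MP_a3a416_nt.GL

open Polynomial MP_a3a416_nt.BB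

private theorem taylor_hasseB {R : Type} [CommRing R] (r : R) (m : ℕ) (P : R[X]) :
    taylor r (hasseDeriv m P) = hasseDeriv m (taylor r P) := by
  ext k
  have h := congrArg (fun L : R[X] →ₗ[R] R[X] => L P) (hasseDeriv_comp (R := R) k m)
  simp only [LinearMap.comp_apply, LinearMap.smul_apply] at h
  rw [taylor_coeff, hasseDeriv_coeff, taylor_coeff, h, eval_smul, nsmul_eq_mul]
  congr 2
  rw [Nat.choose_symm_add]

/-- one term: divisibility. -/
private theorem term_dvd {q L N N₁ : ℕ} (hq : q.Prime) (hL : N₁ < q ^ (L + 1))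
    (c : ℕ × ℕ × ℕ → ℤ) (a m n b k K : ℕ) (hb : b < N) (hK : m + k + 1 ≤ K) :
    (q : ℤ) ^ (∑ l ∈ Finset.Icc 1 L, (N / q ^ l + N₁ / q ^ l - K)) ∣
      (taylor (n : ℤ) (hG N₁ c a m) * taylor (n : ℤ) (hasseDeriv m (wB N b))).coeff k := by
  have h1 := hG_adm hq hL c a m n
  have h2 : Adm q L (fun l => N / q ^ l - 1 - m) (taylor (n : ℤ) (hasseDeriv m (wB N b))) := by
    rw [taylor_hasseB]
    unfold wB
    rw [taylor_prodLin, zero_add]
    exact hasse_adm (Adm.blkE q L hq.one_le N (n : ℤ) 1 b hb)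
  have h3 := (h1.mul h2) k
  refine (pow_dvd_pow _ (Finset.sum_le_sum fun l _ => ?_)).trans h3
  dsimp only
  generalize N / q ^ l = x
  generalize N₁ / q ^ l = y
  omega

/-- one term: size. -/
private theorem term_size {A S N N₁ T H : ℕ} (c : ℕ × ℕ × ℕ → ℤ)
    (hc : ∀ x ∈ ixG A S N₁, |c x| ≤ (H : ℤ)) {a m n b k : ℕ} (ha : a < A) (hm : m ≤ S)
    (hn : n < N) (hk : k < T) :
    |(taylor (n : ℤ) (hG N₁ c a m) * taylor (n : ℤ) (hasseDeriv m (wB N b))).coeff k| ≤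
      ((T * (N₁.factorial * (N₁ * H * 2 ^ N) * (N.factorial * 2 ^ (T + S))) : ℕ) : ℤ) := by
  rw [coeff_mul]
  refine (Finset.abs_sum_le_sum_abs _ _).trans ?_
  have hterm : ∀ ij ∈ Finset.HasAntidiagonal.antidiagonal k,
      |(taylor (n : ℤ) (hG N₁ c a m)).coeff ij.1 *
        (taylor (n : ℤ) (hasseDeriv m (wB N b))).coeff ij.2| ≤
        ((N₁.factorial * (N₁ * H * 2 ^ N) * (N.factorial * 2 ^ (T + S)) : ℕ) : ℤ) := by
    intro ij hij
    rw [Finset.HasAntidiagonal.mem_antidiagonal] at hij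
    rw [abs_mul]
    have h1 := hG_size (B := N) c hc ha hm hn ij.1
    have h2 := wB_size (b := b) (m := m) (k := ij.2) hn
    have h3 : ((N.factorial * 2 ^ (ij.2 + m) : ℕ) : ℤ) ≤ ((N.factorial * 2 ^ (T + S) : ℕ) : ℤ) := by
      have : N.factorial * 2 ^ (ij.2 + m) ≤ N.factorial * 2 ^ (T + S) :=
        Nat.mul_le_mul_left _ (Nat.pow_le_pow_right (by norm_num) (by omega))
      exact_mod_cast this
    calc |(taylor (n : ℤ) (hG N₁ c a m)).coeff ij.1| *
          |(taylor (n : ℤ) (hasseDeriv m (wB N b))).coeff ij.2|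
        ≤ ((N₁.factorial * (N₁ * H * 2 ^ N) : ℕ) : ℤ) * ((N.factorial * 2 ^ (T + S) : ℕ) : ℤ) :=
          mul_le_mul h1 (h2.trans h3) (abs_nonneg _) (by positivity)
      _ = _ := by push_cast; ring
  refine (Finset.sum_le_sum hterm).trans ?_
  rw [Finset.sum_const, Finset.Nat.card_antidiagonal, nsmul_eq_mul]
  have h4 : (k + 1) * (N₁.factorial * (N₁ * H * 2 ^ N) * (N.factorial * 2 ^ (T + S))) ≤
      T * (N₁.factorial * (N₁ * H * 2 ^ N) * (N.factorial * 2 ^ (T + S))) :=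
    Nat.mul_le_mul_right _ (by omega)
  exact_mod_cast h4

private theorem QG_coeff (S N N₁ : ℕ) (c : ℕ × ℕ × ℕ → ℤ) (a b n k : ℕ) :
    (taylor (n : ℤ) (QG S N N₁ c a b)).coeff k = - ∑ m ∈ Finset.range (S + 1),
      (taylor (n : ℤ) (hG N₁ c a m) * taylor (n : ℤ) (hasseDeriv m (wB N b))).coeff k := by
  unfold QG
  rw [map_neg, coeff_neg, map_sum, finsetSum_coeff]
  simp only [taylor_mul]

private theorem rG_coeff (A S N N₁ : ℕ) (c : ℕ × ℕ × ℕ → ℤ) (n k : ℕ) :
    (rG A S N N₁ c n).coeff k = ∑ a ∈ Finset.range A, if a ≤ k then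
      ∑ b ∈ Finset.range n, ((n : ℤ) - b) * (taylor (n : ℤ) (QG S N N₁ c a b)).coeff (k - a)
      else 0 := by
  unfold rG
  rw [finsetSum_coeff]
  refine Finset.sum_congr rfl fun a _ => ?_
  rw [coeff_X_pow_mul']
  by_cases h : a ≤ k
  · rw [if_pos h, if_pos h, finsetSum_coeff]
    refine Finset.sum_congr rfl fun b _ => ?_
    rw [coeff_C_mul]
  · rw [if_neg h, if_neg h]

theorem rG_bound {A S N N₁ T H : ℕ} (c : ℕ × ℕ × ℕ → ℤ) (hc : ∀ x ∈ ixG A S N₁, |c x| ≤ (H : ℤ))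
    {n k : ℕ} (hn : n < N) (hk : k < T) :
    ∃ z : ℤ, (DG N N₁ (T + S + 1) : ℤ) * (rG A S N N₁ c n).coeff k = (FG N N₁ : ℤ) * z ∧
      |z| ≤ ((EG A S N N₁ T * H : ℕ) : ℤ) := by
  have hdvd : (FG N N₁ : ℤ) ∣ (DG N N₁ (T + S + 1) : ℤ) * (rG A S N N₁ c n).coeff k := by
    refine FG_dvd_of _ fun q hq => ?_
    rw [rG_coeff]
    refine Finset.dvd_sum fun a _ => ?_
    split_ifs with hak
    · refine Finset.dvd_sum fun b hb => ?_
      rw [Finset.mem_range] at hb
      refine Dvd.dvd.mul_left ?_ _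
      rw [QG_coeff, dvd_neg]
      refine Finset.dvd_sum fun m hm => ?_
      rw [Finset.mem_range] at hm
      refine term_dvd hq ?_ c a m n b (k - a) (T + S + 1) (by omega) (by omega)
      exact lt_of_le_of_lt (Nat.le_add_left _ _) (Nat.lt_pow_succ_log_self hq.one_lt _)
    · exact dvd_zero _
  obtain ⟨z, hz⟩ := hdvd
  refine ⟨z, hz, ?_⟩
  set M : ℕ := T * (N₁.factorial * (N₁ * H * 2 ^ N) * (N.factorial * 2 ^ (T + S))) with hM
  -- the size of the coefficient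
  have hQ : ∀ a < A, ∀ b : ℕ, ∀ k' < T, |(taylor (n : ℤ) (QG S N N₁ c a b)).coeff k'| ≤
      (((S + 1) * M : ℕ) : ℤ) := by
    intro a ha b k' hk'
    rw [QG_coeff, abs_neg]
    refine (Finset.abs_sum_le_sum_abs _ _).trans ?_
    refine (Finset.sum_le_sum fun m hm => term_size c hc ha
      (by rw [Finset.mem_range] at hm; omega) hn hk').trans ?_
    rw [Finset.sum_const, Finset.card_range, nsmul_eq_mul]
    push_cast
    exact le_refl _
  have hsum : ∀ a < A, ∀ k' < T, |∑ b ∈ Finset.range n,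
      ((n : ℤ) - b) * (taylor (n : ℤ) (QG S N N₁ c a b)).coeff k'| ≤
      ((N * (N * ((S + 1) * M)) : ℕ) : ℤ) := by
    intro a ha k' hk'
    refine (Finset.abs_sum_le_sum_abs _ _).trans ?_
    have h1 : ∀ b ∈ Finset.range n,
        |((n : ℤ) - b) * (taylor (n : ℤ) (QG S N N₁ c a b)).coeff k'| ≤
          ((N * ((S + 1) * M) : ℕ) : ℤ) := by
      intro b hb
      rw [Finset.mem_range] at hb
      rw [abs_mul]
      have h2 : |(n : ℤ) - b| ≤ (N : ℤ) := by
        rw [abs_of_nonneg (by omega)]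
        omega
      calc |(n : ℤ) - b| * |(taylor (n : ℤ) (QG S N N₁ c a b)).coeff k'|
          ≤ (N : ℤ) * (((S + 1) * M : ℕ) : ℤ) :=
            mul_le_mul h2 (hQ a ha b k' hk') (abs_nonneg _) (by positivity)
        _ = _ := by push_cast; ring
    refine (Finset.sum_le_sum h1).trans ?_
    rw [Finset.sum_const, Finset.card_range, nsmul_eq_mul]
    have h3 : n * (N * ((S + 1) * M)) ≤ N * (N * ((S + 1) * M)) := Nat.mul_le_mul_right _ hn.le
    exact_mod_cast h3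
  have hco : |(rG A S N N₁ c n).coeff k| ≤ ((A * (N * (N * ((S + 1) * M))) : ℕ) : ℤ) := by
    rw [rG_coeff]
    refine (Finset.abs_sum_le_sum_abs _ _).trans ?_
    have h1 : ∀ a ∈ Finset.range A, |if a ≤ k then
        ∑ b ∈ Finset.range n, ((n : ℤ) - b) * (taylor (n : ℤ) (QG S N N₁ c a b)).coeff (k - a)
        else 0| ≤ ((N * (N * ((S + 1) * M)) : ℕ) : ℤ) := by
      intro a ha
      rw [Finset.mem_range] at ha
      split_ifs with hak
      · exact hsum a ha (k - a) (by omega)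
      · rw [abs_zero]
        positivity
    refine (Finset.sum_le_sum h1).trans ?_
    rw [Finset.sum_const, Finset.card_range, nsmul_eq_mul]
    push_cast
    exact le_refl _
  -- compare
  have h2N : 2 ^ N ≤ 4 ^ (N + N₁) := by
    calc 2 ^ N ≤ 4 ^ N := Nat.pow_le_pow_left (by norm_num) N
      _ ≤ 4 ^ (N + N₁) := Nat.pow_le_pow_right (by norm_num) (by omega)
  have hA : A * (N * (N * ((S + 1) * M))) ≤
      FG N N₁ * (A * (S + 1) * T * N ^ 2 * N₁ * 4 ^ (N + N₁) * 2 ^ (T + S) * H) := by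
    calc A * (N * (N * ((S + 1) * M)))
        = FG N N₁ * (A * (S + 1) * T * N ^ 2 * N₁ * 2 ^ (T + S) * H) * 2 ^ N := by
          rw [hM]; unfold FG; ring
      _ ≤ FG N N₁ * (A * (S + 1) * T * N ^ 2 * N₁ * 2 ^ (T + S) * H) * 4 ^ (N + N₁) :=
          Nat.mul_le_mul_left _ h2N
      _ = _ := by ring
  have hFpos : (0 : ℤ) < (FG N N₁ : ℤ) := by exact_mod_cast FG_pos N N₁
  have hfin : (FG N N₁ : ℤ) * |z| ≤ (FG N N₁ : ℤ) * ((EG A S N N₁ T * H : ℕ) : ℤ) := by
    calc (FG N N₁ : ℤ) * |z| = |(DG N N₁ (T + S + 1) : ℤ) * (rG A S N N₁ c n).coeff k| := by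
          rw [hz, abs_mul, Nat.abs_cast]
      _ = (DG N N₁ (T + S + 1) : ℤ) * |(rG A S N N₁ c n).coeff k| := by
          rw [abs_mul, Nat.abs_cast]
      _ ≤ (DG N N₁ (T + S + 1) : ℤ) * ((A * (N * (N * ((S + 1) * M))) : ℕ) : ℤ) :=
          mul_le_mul_of_nonneg_left hco (by positivity)
      _ ≤ (DG N N₁ (T + S + 1) : ℤ) * ((FG N N₁ *
            (A * (S + 1) * T * N ^ 2 * N₁ * 4 ^ (N + N₁) * 2 ^ (T + S) * H) : ℕ) : ℤ) :=
          mul_le_mul_of_nonneg_left (by exact_mod_cast hA) (by positivity)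
      _ = (FG N N₁ : ℤ) * ((EG A S N N₁ T * H : ℕ) : ℤ) := by
          unfold EG
          push_cast
          ring
  exact le_of_mul_le_mul_left hfin hFpos

end MP_a3a416_nt.GL
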