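import Pool.Agent.Lib.MP_a3a416_nt.GL.Defs

/-!
# GL-Mono
Monotonicity of `LR`.
PROOFS.  `LR_mono`: if `g` lies in the run `[u, u+L)`, `u + L ≤ J + 1`, take `u' = min g (u + L - L')` (then `u ≤ u' ≤ g < u' + L' ≤ u + L`).
`LR_empty_or`: the run of an element of `LR J L p` is contained in `LR J L p` and has `L` elements.  `LR_card_le`: subset of `Icc 1 J`.
-/

namespace MP_a3a416_nt.GL

theorem LR_mono {J J' L L' p : ℕ} (hJ : J ≤ J') (hL : 1 ≤ L') (hLL : L' ≤ L) : LR J L p ⊆ LR J' L' p := by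
  classical
  intro g hg
  unfold LR at hg ⊢
  rw [Finset.mem_filter, Finset.mem_Icc] at hg ⊢
  obtain ⟨⟨h1, h2⟩, u, hu1, hu2, hu3, hu4, hu5⟩ := hg
  refine ⟨⟨h1, h2.trans hJ⟩, min g (u + L - L'), ?_, ?_, ?_, ?_, ?_⟩
  · omega
  · omega
  · omega
  · omega
  · intro g' hg'
    rw [Finset.mem_Ico] at hg'
    exact hu5 g' (Finset.mem_Ico.2 ⟨by omega, by omega⟩)

theorem LR_empty_or (J L p : ℕ) : LR J L p = ∅ ∨ L ≤ (LR J L p).card := by
  classical
  rcases Finset.eq_empty_or_nonempty (LR J L p) with h | ⟨g, hg⟩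
  · exact Or.inl h
  right
  unfold LR at hg
  rw [Finset.mem_filter, Finset.mem_Icc] at hg
  obtain ⟨-, u, hu1, hu2, hu3, hu4, hu5⟩ := hg
  have hsub : Finset.Ico u (u + L) ⊆ LR J L p := by
    intro g' hg'
    have hg'' := Finset.mem_Ico.1 hg'
    unfold LR
    rw [Finset.mem_filter, Finset.mem_Icc]
    exact ⟨⟨by omega, by omega⟩, u, hu1, hg''.1, hg''.2, hu4, hu5⟩
  have h := Finset.card_le_card hsub
  rw [Nat.card_Ico] at h
  omega

theorem LR_card_le (J L p : ℕ) : (LR J L p).card ≤ J := by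
  classical
  have h : (LR J L p).card ≤ (Finset.Icc 1 J).card := by
    unfold LR
    exact Finset.card_filter_le _ _
  rw [Nat.card_Icc] at h
  omega

end MP_a3a416_nt.GL
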