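import Pool.Agent.Lib.MP_a3a416_nt.GL.Count
import Pool.Agent.Lib.MP_a3a416_nt.GL.Mono

/-!
# GL-Law
The gap law for almost all primes, all `J` and `L` at once.
PROOF.  WLOG `δ ≤ 1/10`.  For `i ≥ i₀` and `0 ≤ j ≤ i` let `ρ i j = (1/64) 2^(i δ) max (2^(-j/3)) (2^(i-2j))`.
`B i j` := the set of primes `p ≤ x` with `ρ i j * 2^i ≤ #LR (2^i) (2^j) p`.  Let `I(x)` = the pairs `(i, j)` with `i ≥ i₀`, `2^i ≤ 2 x^(1/2-δ)`, `j ≤ i`, `j ≤ (3/4)(1+δ) i + 3`, `ρ i j ≤ 1`.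
(a) For `(i,j) ∈ I(x)` `gap_law` applies (`i₀` large, `x ≥ x₀`): `C 2^i ≤ ρ 4^j` because `ρ 4^j ≥ (1/64) 2^(iδ) 2^i`; `C 2^(i+j) ≤ ρ x` because `2^(i+j)/ρ ≤ 64 2^(i + 4j/3 - iδ) ≤ 64 * 16 * 2^(2i) ≤ 4096 x^(1-2δ)`.  So
`#B i j ≤ C log(2^(i+1)) / (ρ^3 2^j) x/log x ≤ C' (i+1) 2^(-3iδ) x/log x`, because `ρ^3 2^j ≥ 64^(-3) 2^(3iδ)`.  Sum over `j ≤ i` and `i ≥ i₀`: `≤ C' ∑_{i ≥ i₀} (i+1)^2 2^(-3iδ) x/log x ≤ ε x/log x` for `i₀` large (summable series, tail).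
(b) Let `p ≤ x` be in no `B i j`, `(i,j) ∈ I(x)`.  First: if `j₁ ≤ i` with `(3/4)(1+δ) i < j₁ ≤ (3/4)(1+δ) i + 1` (it exists: `(3/4)(1+δ) < 1`, `i` large), then `ρ i j₁ * 2^i < 2^(j₁)` and `ρ i j₁ ≤ 1`, so `#LR (2^i) (2^j₁) p < 2^(j₁)` and
`LR (2^i) (2^j₁) p = ∅` (`LR_empty_or`).  [`ρ i j₁ 2^i = (1/64) max (2^(i(1+δ) - j₁/3)) (2^(i(2+δ) - 2j₁))`, `i(1+δ) < (4/3) j₁`, `i (2+δ) ≤ 3 * (3/4)(1+δ) i < 3 j₁` as `δ ≤ 1/10`.]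
Now let `J₀ = 2^i₀ ≤ J ≤ x^(1/2-δ)`, `1 ≤ L`; if `L > J`, `LR J L p = ∅` (no run), so let `L ≤ J`.  `2^(i-1) < J ≤ 2^i` (so `i ≥ i₀`, `2^i ≤ 2J`), `2^j ≤ L < 2^(j+1)`, `j ≤ i`.  `LR J L p ⊆ LR (2^i) (2^j) p` (`LR_mono`).
If `j > j₁`: `LR (2^i) (2^j) p ⊆ LR (2^i) (2^j₁) p = ∅`.  If `ρ i j > 1`: `#LR J L p ≤ J ≤ J^(1+δ) max ..` because `64 J^δ max (L^(-1/3)) (J/L^2) ≥ ρ i j`-type comparison: `J^(1+δ) max (L^(-1/3)) (J/L^2) ≥ (1/16) (2^i)^(1+δ) max (2^(-j/3)) (2^(i-2j)) ≥ ρ i j 2^i` (in all cases).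
Otherwise `(i,j) ∈ I(x)` and `#LR J L p ≤ #LR (2^i)(2^j) p < ρ i j 2^i ≤ J^(1+δ) max (L^(-1/3)) (J/L^2)`.
-/

namespace MP_a3a416_nt.GL

/-- the dyadic density. -/
private noncomputable def rh (δ : ℝ) (i j : ℕ) : ℝ :=
  1 / 64 * ((2:ℝ) ^ ((i:ℝ) * δ) * max ((2:ℝ) ^ (-((j:ℝ) / 3))) ((2:ℝ) ^ ((i:ℝ) - 2 * j)))

private lemma rh_left (δ : ℝ) (i j : ℕ) :
    1 / 64 * ((2:ℝ) ^ ((i:ℝ) * δ) * (2:ℝ) ^ (-((j:ℝ) / 3))) ≤ rh δ i j := by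
  unfold rh
  have h := le_max_left ((2:ℝ) ^ (-((j:ℝ) / 3))) ((2:ℝ) ^ ((i:ℝ) - 2 * j))
  have h2 : (0:ℝ) ≤ (2:ℝ) ^ ((i:ℝ) * δ) := by positivity
  nlinarith [mul_le_mul_of_nonneg_left h h2]

private lemma rh_right (δ : ℝ) (i j : ℕ) :
    1 / 64 * ((2:ℝ) ^ ((i:ℝ) * δ) * (2:ℝ) ^ ((i:ℝ) - 2 * j)) ≤ rh δ i j := by
  unfold rh
  have h := le_max_right ((2:ℝ) ^ (-((j:ℝ) / 3))) ((2:ℝ) ^ ((i:ℝ) - 2 * j))
  have h2 : (0:ℝ) ≤ (2:ℝ) ^ ((i:ℝ) * δ) := by positivity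
  nlinarith [mul_le_mul_of_nonneg_left h h2]

private lemma rh_pos (δ : ℝ) (i j : ℕ) : 0 < rh δ i j :=
  lt_of_lt_of_le (by positivity) (rh_left δ i j)

private lemma rh_sq (δ : ℝ) (i j : ℕ) :
    1 / 64 * (2:ℝ) ^ ((i:ℝ) * δ) * (2:ℝ) ^ i ≤ rh δ i j * ((2:ℝ) ^ j) ^ 2 := by
  have h := rh_right δ i j
  have e : (2:ℝ) ^ ((i:ℝ) - 2 * j) * ((2:ℝ) ^ j) ^ 2 = (2:ℝ) ^ i := by
    rw [← Real.rpow_natCast (2:ℝ) j, ← Real.rpow_natCast (2:ℝ) i, ← Real.rpow_natCast _ 2,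
      ← Real.rpow_mul (by norm_num), ← Real.rpow_add (by norm_num)]
    congr 1
    push_cast
    ring
  calc 1 / 64 * (2:ℝ) ^ ((i:ℝ) * δ) * (2:ℝ) ^ i
      = 1 / 64 * ((2:ℝ) ^ ((i:ℝ) * δ) * (2:ℝ) ^ ((i:ℝ) - 2 * j)) * ((2:ℝ) ^ j) ^ 2 := by
        rw [← e]; ring
    _ ≤ rh δ i j * ((2:ℝ) ^ j) ^ 2 := by
        gcongr

private lemma rh_cube (δ : ℝ) (i j : ℕ) :
    (1 / 64) ^ 3 * ((2:ℝ) ^ ((i:ℝ) * δ)) ^ 3 ≤ rh δ i j ^ 3 * (2:ℝ) ^ j := by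
  have h := rh_left δ i j
  have e : ((2:ℝ) ^ (-((j:ℝ) / 3))) ^ 3 * (2:ℝ) ^ j = 1 := by
    rw [← Real.rpow_natCast (2:ℝ) j, ← Real.rpow_natCast _ 3,
      ← Real.rpow_mul (by norm_num), ← Real.rpow_add (by norm_num)]
    rw [show -((j:ℝ) / 3) * ((3:ℕ):ℝ) + (j:ℝ) = 0 by push_cast; ring]
    simp
  calc (1 / 64) ^ 3 * ((2:ℝ) ^ ((i:ℝ) * δ)) ^ 3
      = (1 / 64) ^ 3 * ((2:ℝ) ^ ((i:ℝ) * δ)) ^ 3 * (((2:ℝ) ^ (-((j:ℝ) / 3))) ^ 3 * (2:ℝ) ^ j) := by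
        rw [e]; ring
    _ = (1 / 64 * ((2:ℝ) ^ ((i:ℝ) * δ) * (2:ℝ) ^ (-((j:ℝ) / 3)))) ^ 3 * (2:ℝ) ^ j := by ring
    _ ≤ rh δ i j ^ 3 * (2:ℝ) ^ j := by
        gcongr

private lemma rh_top {δ : ℝ} (hδ : 0 < δ) {i j : ℕ} (h : 3 / 4 * (1 + δ) * (i:ℝ) < (j:ℝ)) :
    rh δ i j * (2:ℝ) ^ i ≤ 1 / 64 * (2:ℝ) ^ j := by
  have h1 : (2:ℝ) ^ ((i:ℝ) * δ) * (2:ℝ) ^ (-((j:ℝ) / 3)) * (2:ℝ) ^ i ≤ (2:ℝ) ^ j := by
    rw [← Real.rpow_natCast (2:ℝ) j, ← Real.rpow_natCast (2:ℝ) i, ← Real.rpow_add (by norm_num),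
      ← Real.rpow_add (by norm_num)]
    apply Real.rpow_le_rpow_of_exponent_le (by norm_num)
    nlinarith
  have h2 : (2:ℝ) ^ ((i:ℝ) * δ) * (2:ℝ) ^ ((i:ℝ) - 2 * j) * (2:ℝ) ^ i ≤ (2:ℝ) ^ j := by
    rw [← Real.rpow_natCast (2:ℝ) j, ← Real.rpow_natCast (2:ℝ) i, ← Real.rpow_add (by norm_num),
      ← Real.rpow_add (by norm_num)]
    apply Real.rpow_le_rpow_of_exponent_le (by norm_num)
    have : (0:ℝ) ≤ i := Nat.cast_nonneg i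
    nlinarith [mul_nonneg hδ.le this]
  unfold rh
  rcases le_total ((2:ℝ) ^ (-((j:ℝ) / 3))) ((2:ℝ) ^ ((i:ℝ) - 2 * j)) with hm | hm
  · rw [max_eq_right hm]; nlinarith
  · rw [max_eq_left hm]; nlinarith

private lemma rh_compare {δ : ℝ} (hδ : 0 < δ) (hδ1 : δ ≤ 1) {i j J L : ℕ} (h1 : 2 ^ i ≤ 2 * J)
    (h2 : L < 2 * 2 ^ j) (hL : 1 ≤ L) :
    rh δ i j * (2:ℝ) ^ i ≤ (J:ℝ) ^ (1 + δ) * max ((L:ℝ) ^ (-(1 / 3) : ℝ)) ((J:ℝ) / (L:ℝ) ^ 2) := by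
  have hJ : (2:ℝ) ^ i / 2 ≤ (J:ℝ) := by
    have : ((2 ^ i : ℕ) : ℝ) ≤ ((2 * J : ℕ) : ℝ) := by exact_mod_cast h1
    push_cast at this
    linarith
  have hL' : (L:ℝ) ≤ 2 * (2:ℝ) ^ j := by
    have : ((L : ℕ) : ℝ) ≤ ((2 * 2 ^ j : ℕ) : ℝ) := by exact_mod_cast h2.le
    push_cast at this
    linarith
  have hL0 : (0:ℝ) < L := by exact_mod_cast hL
  have hJp : 1 / 4 * ((2:ℝ) ^ ((i:ℝ) * δ) * (2:ℝ) ^ i) ≤ (J:ℝ) ^ (1 + δ) := by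
    have e1 : ((2:ℝ) ^ i / 2) ^ (1 + δ) ≤ (J:ℝ) ^ (1 + δ) :=
      Real.rpow_le_rpow (by positivity) hJ (by linarith)
    have e2 : ((2:ℝ) ^ i / 2) ^ (1 + δ) = (2:ℝ) ^ ((i:ℝ) * δ) * (2:ℝ) ^ i / (2:ℝ) ^ (1 + δ) := by
      rw [Real.div_rpow (by positivity) (by norm_num), ← Real.rpow_natCast (2:ℝ) i,
        ← Real.rpow_mul (by norm_num), ← Real.rpow_add (by norm_num)]
      congr 2
      ring
    have e3 : (2:ℝ) ^ (1 + δ) ≤ 4 := by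
      calc (2:ℝ) ^ (1 + δ) ≤ (2:ℝ) ^ (2:ℝ) := Real.rpow_le_rpow_of_exponent_le (by norm_num) (by linarith)
        _ = 4 := by norm_num
    have e4 : (0:ℝ) < (2:ℝ) ^ (1 + δ) := by positivity
    rw [e2] at e1
    refine le_trans ?_ e1
    rw [le_div_iff₀ e4]
    have e5 : (0:ℝ) < (2:ℝ) ^ ((i:ℝ) * δ) * (2:ℝ) ^ i := by positivity
    nlinarith
  have hLp : 1 / 2 * (2:ℝ) ^ (-((j:ℝ) / 3)) ≤ (L:ℝ) ^ (-(1 / 3) : ℝ) := by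
    have e1 : (2 * (2:ℝ) ^ j) ^ (-(1 / 3) : ℝ) ≤ (L:ℝ) ^ (-(1 / 3) : ℝ) :=
      Real.rpow_le_rpow_of_nonpos hL0 hL' (by norm_num)
    have e2 : (2 * (2:ℝ) ^ j) ^ (-(1 / 3) : ℝ) = (2:ℝ) ^ (-(1/3):ℝ) * (2:ℝ) ^ (-((j:ℝ) / 3)) := by
      rw [Real.mul_rpow (by norm_num) (by positivity), ← Real.rpow_natCast (2:ℝ) j,
        ← Real.rpow_mul (by norm_num)]
      congr 2
      ring
    have e3 : (1:ℝ) / 2 ≤ (2:ℝ) ^ (-(1/3):ℝ) := by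
      calc (1:ℝ) / 2 = (2:ℝ) ^ (-1:ℝ) := by norm_num [Real.rpow_neg_one]
        _ ≤ (2:ℝ) ^ (-(1/3):ℝ) := Real.rpow_le_rpow_of_exponent_le (by norm_num) (by norm_num)
    rw [e2] at e1
    refine le_trans ?_ e1
    gcongr
  have hJL : 1 / 8 * (2:ℝ) ^ ((i:ℝ) - 2 * j) ≤ (J:ℝ) / (L:ℝ) ^ 2 := by
    rw [le_div_iff₀ (by positivity)]
    have e : (2:ℝ) ^ ((i:ℝ) - 2 * j) * ((2:ℝ) ^ j) ^ 2 = (2:ℝ) ^ i := by
      rw [← Real.rpow_natCast (2:ℝ) j, ← Real.rpow_natCast (2:ℝ) i, ← Real.rpow_natCast _ 2,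
        ← Real.rpow_mul (by norm_num), ← Real.rpow_add (by norm_num)]
      congr 1
      push_cast
      ring
    calc 1 / 8 * (2:ℝ) ^ ((i:ℝ) - 2 * j) * (L:ℝ) ^ 2
        ≤ 1 / 8 * (2:ℝ) ^ ((i:ℝ) - 2 * j) * (2 * (2:ℝ) ^ j) ^ 2 := by gcongr
      _ = 1 / 2 * ((2:ℝ) ^ ((i:ℝ) - 2 * j) * ((2:ℝ) ^ j) ^ 2) := by ring
      _ = (2:ℝ) ^ i / 2 := by rw [e]; ring
      _ ≤ (J:ℝ) := hJ
  have hmax : 1 / 8 * max ((2:ℝ) ^ (-((j:ℝ) / 3))) ((2:ℝ) ^ ((i:ℝ) - 2 * j)) ≤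
      max ((L:ℝ) ^ (-(1 / 3) : ℝ)) ((J:ℝ) / (L:ℝ) ^ 2) := by
    rcases le_total ((2:ℝ) ^ (-((j:ℝ) / 3))) ((2:ℝ) ^ ((i:ℝ) - 2 * j)) with hm | hm
    · rw [max_eq_right hm]
      exact le_trans hJL (le_max_right _ _)
    · rw [max_eq_left hm]
      refine le_trans ?_ (le_max_left _ _)
      have : (0:ℝ) < (2:ℝ) ^ (-((j:ℝ) / 3)) := by positivity
      linarith
  have h0 : (0:ℝ) ≤ max ((2:ℝ) ^ (-((j:ℝ) / 3))) ((2:ℝ) ^ ((i:ℝ) - 2 * j)) :=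
    le_trans (by positivity) (le_max_left _ _)
  calc rh δ i j * (2:ℝ) ^ i
      = 1 / 64 * (((2:ℝ) ^ ((i:ℝ) * δ) * (2:ℝ) ^ i) *
          max ((2:ℝ) ^ (-((j:ℝ) / 3))) ((2:ℝ) ^ ((i:ℝ) - 2 * j))) := by unfold rh; ring
    _ ≤ (1 / 4 * ((2:ℝ) ^ ((i:ℝ) * δ) * (2:ℝ) ^ i)) *
        (1 / 8 * max ((2:ℝ) ^ (-((j:ℝ) / 3))) ((2:ℝ) ^ ((i:ℝ) - 2 * j))) := by
        have : 0 ≤ ((2:ℝ) ^ ((i:ℝ) * δ) * (2:ℝ) ^ i) *
          max ((2:ℝ) ^ (-((j:ℝ) / 3))) ((2:ℝ) ^ ((i:ℝ) - 2 * j)) := by positivity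
        nlinarith
    _ ≤ (J:ℝ) ^ (1 + δ) * max ((L:ℝ) ^ (-(1 / 3) : ℝ)) ((J:ℝ) / (L:ℝ) ^ 2) := by
        gcongr

/-- the bad primes of the dyadic box. -/
private def Bx (δ : ℝ) (x i j p : ℕ) : Prop :=
  p.Prime ∧ rh δ i j * ((2 ^ i : ℕ) : ℝ) ≤ ((LR (2 ^ i) (2 ^ j) p).card : ℝ) ∧
    ((2:ℝ) ^ i ≤ 2 * (x:ℝ) ^ (1 / 2 - δ)) ∧ ((j:ℝ) ≤ 3 / 4 * (1 + δ) * i + 3) ∧ rh δ i j ≤ 1

private lemma rh_prod {δ : ℝ} {i j : ℕ} (h : (j:ℝ) ≤ 3 / 4 * (1 + δ) * i + 3) :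
    (2:ℝ) ^ i * (2:ℝ) ^ j ≤ rh δ i j * (1024 * ((2:ℝ) ^ i) ^ 2) := by
  have h1 := rh_left δ i j
  have e : (2:ℝ) ^ i * (2:ℝ) ^ j ≤
      16 * ((2:ℝ) ^ i) ^ 2 * ((2:ℝ) ^ ((i:ℝ) * δ) * (2:ℝ) ^ (-((j:ℝ) / 3))) := by
    rw [show (16:ℝ) = (2:ℝ) ^ (4:ℝ) by norm_num, ← Real.rpow_natCast (2:ℝ) j,
      ← Real.rpow_natCast (2:ℝ) i, ← Real.rpow_natCast _ 2, ← Real.rpow_mul (by norm_num),
      ← Real.rpow_add (by norm_num), ← Real.rpow_add (by norm_num), ← Real.rpow_add (by norm_num),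
      ← Real.rpow_add (by norm_num)]
    apply Real.rpow_le_rpow_of_exponent_le (by norm_num)
    push_cast
    nlinarith
  have h3 : (0:ℝ) < ((2:ℝ) ^ i) ^ 2 := by positivity
  nlinarith [mul_le_mul_of_nonneg_left h1 h3.le]

open Classical in
private lemma box_card {C δ : ℝ} (hC : 0 < C)
    (hgap : ∀ (J L x : ℕ) (ρ : ℝ), 1 ≤ L → L ≤ J → 0 < ρ → ρ ≤ 1 →
      C * J ≤ ρ * (L : ℝ) ^ 2 → C * ((J : ℝ) * L) ≤ ρ * x →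
      (((Finset.Icc 1 x).filter (fun p : ℕ => p.Prime ∧ ρ * J ≤ ((LR J L p).card : ℝ))).card : ℝ) ≤
        C * (Real.log (2 * J) / (ρ ^ 3 * L) * (x / Real.log x)))
    {x i j : ℕ} (hx1 : 2 ≤ x)
    (hx : 4096 * C * ((x:ℝ) ^ (1 / 2 - δ)) ^ 2 ≤ x) (hi : 64 * C ≤ (2:ℝ) ^ ((i:ℝ) * δ)) (hj : j ≤ i) :
    (((Finset.Icc 1 x).filter (fun p : ℕ => Bx δ x i j p)).card : ℝ) ≤
      C * 64 ^ 3 * (((i:ℝ) + 1) * ((2:ℝ) ^ (-(3 * δ))) ^ i) * (x / Real.log x) := by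
  have hlogx : 0 < Real.log x := Real.log_pos (by exact_mod_cast hx1)
  by_cases hc : ((2:ℝ) ^ i ≤ 2 * (x:ℝ) ^ (1 / 2 - δ)) ∧ ((j:ℝ) ≤ 3 / 4 * (1 + δ) * i + 3) ∧ rh δ i j ≤ 1
  · obtain ⟨c1, c2, c3⟩ := hc
    have hρ := rh_pos δ i j
    have hL1 : 1 ≤ 2 ^ j := Nat.one_le_two_pow
    have hLJ : 2 ^ j ≤ 2 ^ i := Nat.pow_le_pow_right (by norm_num) hj
    have g1 : C * ((2 ^ i : ℕ) : ℝ) ≤ rh δ i j * (((2 ^ j : ℕ) : ℝ)) ^ 2 := by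
      push_cast
      refine le_trans ?_ (rh_sq δ i j)
      have : (0:ℝ) < (2:ℝ) ^ i := by positivity
      nlinarith
    have g2 : C * (((2 ^ i : ℕ) : ℝ) * ((2 ^ j : ℕ) : ℝ)) ≤ rh δ i j * x := by
      push_cast
      have h1 := rh_prod c2
      have h2 : ((2:ℝ) ^ i) ^ 2 ≤ 4 * ((x:ℝ) ^ (1 / 2 - δ)) ^ 2 := by
        have : ((2:ℝ) ^ i) ^ 2 ≤ (2 * (x:ℝ) ^ (1 / 2 - δ)) ^ 2 := by gcongr
        nlinarith
      calc C * ((2:ℝ) ^ i * (2:ℝ) ^ j) ≤ C * (rh δ i j * (1024 * ((2:ℝ) ^ i) ^ 2)) := by gcongr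
        _ ≤ C * (rh δ i j * (1024 * (4 * ((x:ℝ) ^ (1 / 2 - δ)) ^ 2))) := by gcongr
        _ = rh δ i j * (4096 * C * ((x:ℝ) ^ (1 / 2 - δ)) ^ 2) := by ring
        _ ≤ rh δ i j * x := by gcongr
    have key := hgap (2 ^ i) (2 ^ j) x (rh δ i j) hL1 hLJ hρ c3 g1 g2
    have hsub : (Finset.Icc 1 x).filter (fun p : ℕ => Bx δ x i j p) ⊆
        (Finset.Icc 1 x).filter (fun p : ℕ => p.Prime ∧ rh δ i j * ((2 ^ i : ℕ) : ℝ) ≤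
          ((LR (2 ^ i) (2 ^ j) p).card : ℝ)) := by
      intro p hp
      rw [Finset.mem_filter] at hp ⊢
      exact ⟨hp.1, hp.2.1, hp.2.2.1⟩
    have hcard : (((Finset.Icc 1 x).filter (fun p : ℕ => Bx δ x i j p)).card : ℝ) ≤
        (((Finset.Icc 1 x).filter (fun p : ℕ => p.Prime ∧ rh δ i j * ((2 ^ i : ℕ) : ℝ) ≤
          ((LR (2 ^ i) (2 ^ j) p).card : ℝ))).card : ℝ) := by
      exact_mod_cast Finset.card_le_card hsub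
    refine le_trans hcard (le_trans key ?_)
    have hlog : Real.log (2 * ((2 ^ i : ℕ) : ℝ)) ≤ (i:ℝ) + 1 := by
      have e : (2 * ((2 ^ i : ℕ) : ℝ)) = (2:ℝ) ^ (i + 1) := by push_cast; ring
      rw [e, Real.log_pow]
      have h2 : Real.log 2 ≤ 1 := by linarith [Real.log_two_lt_d9]
      push_cast
      nlinarith [Real.log_pos (show (1:ℝ) < 2 by norm_num)]
    have hlog0 : 0 ≤ Real.log (2 * ((2 ^ i : ℕ) : ℝ)) := by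
      apply Real.log_nonneg
      have : (1:ℝ) ≤ ((2 ^ i : ℕ) : ℝ) := by exact_mod_cast Nat.one_le_two_pow
      linarith
    have hr : ((2:ℝ) ^ (-(3 * δ))) ^ i * ((2:ℝ) ^ ((i:ℝ) * δ)) ^ 3 = 1 := by
      rw [← Real.rpow_natCast _ i, ← Real.rpow_natCast _ 3, ← Real.rpow_mul (by norm_num),
        ← Real.rpow_mul (by norm_num), ← Real.rpow_add (by norm_num)]
      rw [show -(3 * δ) * (i:ℝ) + (i:ℝ) * δ * ((3:ℕ):ℝ) = 0 by push_cast; ring]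
      simp
    have hcube := rh_cube δ i j
    have hden : 1 / (rh δ i j ^ 3 * ((2 ^ j : ℕ) : ℝ)) ≤ 64 ^ 3 * ((2:ℝ) ^ (-(3 * δ))) ^ i := by
      push_cast
      rw [div_le_iff₀ (by positivity)]
      have hr0 : 0 < ((2:ℝ) ^ (-(3 * δ))) ^ i := by positivity
      calc (1:ℝ) = 64 ^ 3 * (((2:ℝ) ^ (-(3 * δ))) ^ i) * ((1 / 64) ^ 3 * ((2:ℝ) ^ ((i:ℝ) * δ)) ^ 3) := by
            rw [show (64:ℝ) ^ 3 * (((2:ℝ) ^ (-(3 * δ))) ^ i) * ((1 / 64) ^ 3 * ((2:ℝ) ^ ((i:ℝ) * δ)) ^ 3) =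
              ((2:ℝ) ^ (-(3 * δ))) ^ i * ((2:ℝ) ^ ((i:ℝ) * δ)) ^ 3 by ring, hr]
        _ ≤ 64 ^ 3 * (((2:ℝ) ^ (-(3 * δ))) ^ i) * (rh δ i j ^ 3 * (2:ℝ) ^ j) := by gcongr
    have hx0 : 0 ≤ (x:ℝ) / Real.log x := by positivity
    have hfrac : Real.log (2 * ((2 ^ i : ℕ) : ℝ)) / (rh δ i j ^ 3 * ((2 ^ j : ℕ) : ℝ)) ≤
        ((i:ℝ) + 1) * (64 ^ 3 * ((2:ℝ) ^ (-(3 * δ))) ^ i) := by
      rw [div_eq_mul_one_div]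
      exact mul_le_mul hlog hden (by positivity) (by positivity)
    calc C * (Real.log (2 * ((2 ^ i : ℕ) : ℝ)) / (rh δ i j ^ 3 * ((2 ^ j : ℕ) : ℝ)) * (x / Real.log x))
        ≤ C * ((((i:ℝ) + 1) * (64 ^ 3 * ((2:ℝ) ^ (-(3 * δ))) ^ i)) * (x / Real.log x)) := by gcongr
      _ = C * 64 ^ 3 * (((i:ℝ) + 1) * ((2:ℝ) ^ (-(3 * δ))) ^ i) * (x / Real.log x) := by ring
  · have he : (Finset.Icc 1 x).filter (fun p : ℕ => Bx δ x i j p) = ∅ := by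
      rw [Finset.filter_eq_empty_iff]
      intro p _ hp
      exact hc hp.2.2
    rw [he]
    simp only [Finset.card_empty, Nat.cast_zero]
    positivity

/-- the combinatorial part (b). -/
private lemma exists_box {δ : ℝ} (hδ : 0 < δ) (hδ1 : δ ≤ 1 / 10) {i₀ x p J L : ℕ} (hi₀ : 6 ≤ i₀)
    (hp : p.Prime) (hJ0 : 2 ^ i₀ ≤ J) (hJx : (J:ℝ) ≤ (x:ℝ) ^ (1 / 2 - δ)) (hL : 1 ≤ L)
    (hlt : (J : ℝ) ^ (1 + δ) * max ((L : ℝ) ^ (-(1 / 3) : ℝ)) ((J : ℝ) / (L : ℝ) ^ 2) <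
      ((LR J L p).card : ℝ)) : ∃ i j : ℕ, i₀ ≤ i ∧ j ≤ i ∧ Bx δ x i j p := by
  have hJ1 : 1 ≤ J := le_trans Nat.one_le_two_pow hJ0
  have hLR0 : (LR J L p).card ≠ 0 := by
    intro h0
    rw [h0] at hlt
    simp only [Nat.cast_zero] at hlt
    have : (0:ℝ) ≤ (J : ℝ) ^ (1 + δ) * max ((L : ℝ) ^ (-(1 / 3) : ℝ)) ((J : ℝ) / (L : ℝ) ^ 2) := by
      apply mul_nonneg (by positivity)
      exact le_trans (by positivity) (le_max_right _ _)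
    linarith
  have hLJ : L ≤ J := by
    obtain ⟨g, hg⟩ := Finset.card_ne_zero.mp hLR0
    simp only [LR, Finset.mem_filter] at hg
    obtain ⟨_, u, h1, h2, h3, h4, _⟩ := hg
    omega
  -- dyadic indices
  set i := Nat.clog 2 J with hi
  set j := Nat.log 2 L with hj
  have hJi : J ≤ 2 ^ i := Nat.le_pow_clog (by norm_num) J
  have hiJ : 2 ^ i ≤ 2 * J := by
    have h64 : 2 ^ 6 ≤ J := le_trans (Nat.pow_le_pow_right (by norm_num) hi₀) hJ0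
    have hi1 : 1 ≤ i := by
      rcases Nat.eq_zero_or_pos i with h | h
      · rw [h] at hJi; norm_num at hJi h64; omega
      · exact h
    have h2 : 2 ^ (i - 1) < J := by
      have := Nat.pow_pred_clog_lt_self (b := 2) (by norm_num) (x := J) (by norm_num at h64; omega)
      simpa [hi] using this
    have h3 : 2 ^ i = 2 * 2 ^ (i - 1) := by
      rw [← pow_succ']; congr 1; omega
    omega
  have hi0 : i₀ ≤ i := by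
    have : 2 ^ i₀ ≤ 2 ^ i := le_trans hJ0 hJi
    exact (Nat.pow_le_pow_iff_right (by norm_num)).mp this
  have hjL : 2 ^ j ≤ L := Nat.pow_log_le_self 2 (by omega)
  have hLj : L < 2 * 2 ^ j := by
    have := Nat.lt_pow_succ_log_self (b := 2) (by norm_num) L
    rw [← hj, pow_succ] at this
    omega
  have hji : j ≤ i := by
    have : 2 ^ j ≤ 2 ^ i := le_trans hjL (le_trans hLJ hJi)
    exact (Nat.pow_le_pow_iff_right (by norm_num)).mp this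
  have hsub : LR J L p ⊆ LR (2 ^ i) (2 ^ j) p := LR_mono hJi Nat.one_le_two_pow hjL
  have hsmall : (2:ℝ) ^ i ≤ 2 * (x:ℝ) ^ (1 / 2 - δ) := by
    have : ((2 ^ i : ℕ) : ℝ) ≤ ((2 * J : ℕ) : ℝ) := by exact_mod_cast hiJ
    push_cast at this
    linarith
  have hcmp := rh_compare hδ (by linarith) hiJ hLj hL
  by_contra hno
  push Not at hno
  -- the top index
  set j₁ := ⌊3 / 4 * (1 + δ) * (i:ℝ)⌋₊ + 1 with hj₁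
  have hj₁l : 3 / 4 * (1 + δ) * (i:ℝ) < (j₁:ℝ) := by
    rw [hj₁]; push_cast; exact Nat.lt_floor_add_one _
  have hnn : (0:ℝ) ≤ 3 / 4 * (1 + δ) * (i:ℝ) := by positivity
  have hj₁u : (j₁:ℝ) ≤ 3 / 4 * (1 + δ) * (i:ℝ) + 1 := by
    rw [hj₁]; push_cast
    linarith [Nat.floor_le hnn]
  have hi6 : (6:ℝ) ≤ i := by exact_mod_cast le_trans hi₀ hi0
  have hj₁i : j₁ ≤ i := by
    have : (j₁:ℝ) ≤ i := by nlinarith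
    exact_mod_cast this
  have htop := rh_top hδ hj₁l
  have hrh1 : rh δ i j₁ ≤ 1 := by
    have h2 : (2:ℝ) ^ j₁ ≤ (2:ℝ) ^ i := pow_le_pow_right₀ (by norm_num) hj₁i
    have h3 : (0:ℝ) < (2:ℝ) ^ i := by positivity
    by_contra hcon
    push Not at hcon
    nlinarith
  have hempty : LR (2 ^ i) (2 ^ j₁) p = ∅ := by
    rcases LR_empty_or (2 ^ i) (2 ^ j₁) p with h | h
    · exact h
    · exfalso
      apply hno i j₁ hi0 hj₁i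
      refine ⟨hp, ?_, hsmall, by linarith, hrh1⟩
      push_cast
      have h' : ((2 ^ j₁ : ℕ) : ℝ) ≤ ((LR (2 ^ i) (2 ^ j₁) p).card : ℝ) := by exact_mod_cast h
      push_cast at h'
      have : (0:ℝ) < (2:ℝ) ^ j₁ := by positivity
      linarith
  have hjj : j < j₁ := by
    by_contra hcon
    push Not at hcon
    have h1 : LR (2 ^ i) (2 ^ j) p ⊆ LR (2 ^ i) (2 ^ j₁) p :=
      LR_mono le_rfl Nat.one_le_two_pow (Nat.pow_le_pow_right (by norm_num) hcon)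
    rw [hempty] at h1
    have h2 := hsub.trans h1
    rw [Finset.subset_empty] at h2
    exact hLR0 (by rw [h2]; rfl)
  have hjr : (j:ℝ) ≤ 3 / 4 * (1 + δ) * i + 3 := by
    have : (j:ℝ) ≤ (j₁:ℝ) := by exact_mod_cast hjj.le
    linarith
  by_cases hr1 : rh δ i j ≤ 1
  · apply hno i j hi0 hji
    refine ⟨hp, ?_, hsmall, hjr, hr1⟩
    push_cast
    have h1 : ((LR J L p).card : ℝ) ≤ ((LR (2 ^ i) (2 ^ j) p).card : ℝ) := by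
      exact_mod_cast Finset.card_le_card hsub
    linarith
  · push Not at hr1
    have h1 : ((LR J L p).card : ℝ) ≤ (J:ℝ) := by exact_mod_cast LR_card_le J L p
    have h2 : (J:ℝ) ≤ (2:ℝ) ^ i := by exact_mod_cast hJi
    have h3 : (0:ℝ) < (2:ℝ) ^ i := by positivity
    nlinarith

open Classical in
private lemma law_small (δ ε : ℝ) (hδ : 0 < δ) (hδ1 : δ ≤ 1 / 10) (hε : 0 < ε) :
    ∃ J₀ x₀ : ℕ, 1 ≤ J₀ ∧ 1 ≤ x₀ ∧ ∀ x : ℕ, x₀ ≤ x →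
    (((Finset.Icc 1 x).filter (fun p : ℕ => p.Prime ∧ ∃ J L : ℕ, J₀ ≤ J ∧ (J : ℝ) ≤ (x : ℝ) ^ (1 / 2 - δ) ∧ 1 ≤ L ∧
      (J : ℝ) ^ (1 + δ) * max ((L : ℝ) ^ (-(1 / 3) : ℝ)) ((J : ℝ) / (L : ℝ) ^ 2) < ((LR J L p).card : ℝ))).card : ℝ) ≤
      ε * (x / Real.log x) := by
  obtain ⟨C, hC, hgap⟩ := gap_law
  set r : ℝ := (2:ℝ) ^ (-(3 * δ)) with hr
  have hr0 : 0 < r := by positivity
  have hr1 : r < 1 := Real.rpow_lt_one_of_one_lt_of_neg (by norm_num) (by linarith)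
  have hsum : Summable (fun k : ℕ => (k:ℝ) ^ 2 * r ^ k) :=
    summable_pow_mul_geometric_of_norm_lt_one 2 (by rw [Real.norm_of_nonneg hr0.le]; exact hr1)
  have htail := tendsto_sum_nat_add (fun k : ℕ => (k:ℝ) ^ 2 * r ^ k)
  have hev1 : ∀ᶠ m : ℕ in Filter.atTop, (∑' k : ℕ, ((k + m : ℕ):ℝ) ^ 2 * r ^ (k + m)) < ε / (4 * (C * 64 ^ 3)) :=
    htail.eventually_lt_const (by positivity)
  have hev2 : ∀ᶠ m : ℕ in Filter.atTop, 64 * C ≤ (2:ℝ) ^ ((m:ℝ) * δ) := by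
    have h1 : Filter.Tendsto (fun m : ℕ => (2:ℝ) ^ ((m:ℝ) * δ)) Filter.atTop Filter.atTop := by
      have h2 : Filter.Tendsto (fun m : ℕ => ((2:ℝ) ^ δ) ^ m) Filter.atTop Filter.atTop :=
        tendsto_pow_atTop_atTop_of_one_lt (Real.one_lt_rpow (by norm_num) hδ)
      refine h2.congr ?_
      intro m
      rw [← Real.rpow_natCast, ← Real.rpow_mul (by norm_num)]
      congr 1
      ring
    exact h1.eventually_ge_atTop _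
  obtain ⟨i₀, hi1, hi2, hi3⟩ := (hev1.and (hev2.and (Filter.eventually_ge_atTop 6))).exists
  have hi2' : ∀ i : ℕ, i₀ ≤ i → 64 * C ≤ (2:ℝ) ^ ((i:ℝ) * δ) := by
    intro i hi
    refine le_trans hi2 (Real.rpow_le_rpow_of_exponent_le (by norm_num) ?_)
    have : (i₀:ℝ) ≤ i := by exact_mod_cast hi
    nlinarith
  have hev3 : ∀ᶠ x : ℕ in Filter.atTop, 4096 * C * ((x:ℝ) ^ (1 / 2 - δ)) ^ 2 ≤ x := by
    have h1 : Filter.Tendsto (fun x : ℕ => (x:ℝ) ^ (2 * δ)) Filter.atTop Filter.atTop :=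
      (tendsto_rpow_atTop (by linarith)).comp tendsto_natCast_atTop_atTop
    filter_upwards [h1.eventually_ge_atTop (4096 * C), Filter.eventually_ge_atTop 1] with x hx hx1
    have hx0 : (0:ℝ) < x := by exact_mod_cast hx1
    have e : ((x:ℝ) ^ (1 / 2 - δ)) ^ 2 * (x:ℝ) ^ (2 * δ) = x := by
      rw [← Real.rpow_natCast _ 2, ← Real.rpow_mul hx0.le, ← Real.rpow_add hx0]
      rw [show (1 / 2 - δ) * ((2:ℕ):ℝ) + 2 * δ = 1 by push_cast; ring]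
      exact Real.rpow_one _
    have h0 : 0 ≤ ((x:ℝ) ^ (1 / 2 - δ)) ^ 2 := by positivity
    calc 4096 * C * ((x:ℝ) ^ (1 / 2 - δ)) ^ 2 ≤ (x:ℝ) ^ (2 * δ) * ((x:ℝ) ^ (1 / 2 - δ)) ^ 2 := by gcongr
      _ = (x:ℝ) := by rw [mul_comm ((x:ℝ) ^ (2 * δ))]; exact e
  obtain ⟨x₁, hx₁⟩ := Filter.eventually_atTop.mp hev3
  refine ⟨2 ^ i₀, max x₁ 2, Nat.one_le_two_pow, by omega, ?_⟩
  intro x hx
  have hx2 : 2 ≤ x := le_trans (le_max_right _ _) hx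
  have hxx : 4096 * C * ((x:ℝ) ^ (1 / 2 - δ)) ^ 2 ≤ x := hx₁ x (le_trans (le_max_left _ _) hx)
  have hx1r : (1:ℝ) ≤ x := by exact_mod_cast (by omega : 1 ≤ x)
  have hlogx : 0 < Real.log x := Real.log_pos (by exact_mod_cast hx2)
  have hsub : (Finset.Icc 1 x).filter (fun p : ℕ => p.Prime ∧ ∃ J L : ℕ, 2 ^ i₀ ≤ J ∧
      (J : ℝ) ≤ (x : ℝ) ^ (1 / 2 - δ) ∧ 1 ≤ L ∧
      (J : ℝ) ^ (1 + δ) * max ((L : ℝ) ^ (-(1 / 3) : ℝ)) ((J : ℝ) / (L : ℝ) ^ 2) < ((LR J L p).card : ℝ)) ⊆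
      (Finset.Ico i₀ (2 * x + 1)).biUnion (fun i => (Finset.range (i + 1)).biUnion (fun j =>
        (Finset.Icc 1 x).filter (fun p : ℕ => Bx δ x i j p))) := by
    intro p hp
    rw [Finset.mem_filter] at hp
    obtain ⟨hp1, hp2, J, L, hJ0, hJx, hL, hlt⟩ := hp
    obtain ⟨i, j, h1, h2, h3⟩ := exists_box hδ hδ1 hi3 hp2 hJ0 hJx hL hlt
    rw [Finset.mem_biUnion]
    refine ⟨i, ?_, ?_⟩
    · rw [Finset.mem_Ico]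
      refine ⟨h1, ?_⟩
      have h4 := h3.2.2.1
      have h5 : (x:ℝ) ^ (1 / 2 - δ) ≤ x := by
        calc (x:ℝ) ^ (1 / 2 - δ) ≤ (x:ℝ) ^ (1:ℝ) := Real.rpow_le_rpow_of_exponent_le hx1r (by linarith)
          _ = x := Real.rpow_one _
      have h6 : (2:ℝ) ^ i ≤ 2 * x := by linarith
      have h7 : 2 ^ i ≤ 2 * x := by exact_mod_cast h6
      have h8 : i < 2 ^ i := Nat.lt_two_pow_self
      omega
    · rw [Finset.mem_biUnion]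
      exact ⟨j, Finset.mem_range.mpr (by omega), Finset.mem_filter.mpr ⟨hp1, h3⟩⟩
  have hX : 0 ≤ (x:ℝ) / Real.log x := by positivity
  have hb1 : (((Finset.Icc 1 x).filter (fun p : ℕ => p.Prime ∧ ∃ J L : ℕ, 2 ^ i₀ ≤ J ∧
      (J : ℝ) ≤ (x : ℝ) ^ (1 / 2 - δ) ∧ 1 ≤ L ∧
      (J : ℝ) ^ (1 + δ) * max ((L : ℝ) ^ (-(1 / 3) : ℝ)) ((J : ℝ) / (L : ℝ) ^ 2) < ((LR J L p).card : ℝ))).card : ℝ) ≤
      ∑ i ∈ Finset.Ico i₀ (2 * x + 1), ∑ j ∈ Finset.range (i + 1),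
        (((Finset.Icc 1 x).filter (fun p : ℕ => Bx δ x i j p)).card : ℝ) := by
    have h1 := Finset.card_le_card hsub
    have h2 : ((Finset.Ico i₀ (2 * x + 1)).biUnion (fun i => (Finset.range (i + 1)).biUnion (fun j =>
        (Finset.Icc 1 x).filter (fun p : ℕ => Bx δ x i j p)))).card ≤
        ∑ i ∈ Finset.Ico i₀ (2 * x + 1), ∑ j ∈ Finset.range (i + 1),
        ((Finset.Icc 1 x).filter (fun p : ℕ => Bx δ x i j p)).card := by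
      refine le_trans Finset.card_biUnion_le ?_
      exact Finset.sum_le_sum (fun i _ => Finset.card_biUnion_le)
    exact_mod_cast le_trans h1 h2
  refine le_trans hb1 ?_
  have hb2 : ∀ i ∈ Finset.Ico i₀ (2 * x + 1), ∑ j ∈ Finset.range (i + 1),
        (((Finset.Icc 1 x).filter (fun p : ℕ => Bx δ x i j p)).card : ℝ) ≤
        4 * (C * 64 ^ 3) * (x / Real.log x) * ((i:ℝ) ^ 2 * r ^ i) := by
    intro i hi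
    rw [Finset.mem_Ico] at hi
    have h1 : ∀ j ∈ Finset.range (i + 1), (((Finset.Icc 1 x).filter (fun p : ℕ => Bx δ x i j p)).card : ℝ) ≤
        C * 64 ^ 3 * (((i:ℝ) + 1) * r ^ i) * (x / Real.log x) := by
      intro j hj
      rw [Finset.mem_range] at hj
      exact box_card hC hgap hx2 hxx (hi2' i hi.1) (by omega)
    refine le_trans (Finset.sum_le_sum h1) ?_
    rw [Finset.sum_const, Finset.card_range, nsmul_eq_mul]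
    push_cast
    have hi6 : (1:ℝ) ≤ i := by exact_mod_cast (by omega : 1 ≤ i)
    have h3 : ((i:ℝ) + 1) * ((i:ℝ) + 1) ≤ 4 * (i:ℝ) ^ 2 := by nlinarith
    have h4 : 0 ≤ C * 64 ^ 3 * r ^ i * (x / Real.log x) := by positivity
    calc ((i:ℝ) + 1) * (C * 64 ^ 3 * (((i:ℝ) + 1) * r ^ i) * (x / Real.log x))
        = (((i:ℝ) + 1) * ((i:ℝ) + 1)) * (C * 64 ^ 3 * r ^ i * (x / Real.log x)) := by ring
      _ ≤ (4 * (i:ℝ) ^ 2) * (C * 64 ^ 3 * r ^ i * (x / Real.log x)) := by gcongr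
      _ = 4 * (C * 64 ^ 3) * (x / Real.log x) * ((i:ℝ) ^ 2 * r ^ i) := by ring
  refine le_trans (Finset.sum_le_sum hb2) ?_
  rw [← Finset.mul_sum]
  have hb3 : ∑ i ∈ Finset.Ico i₀ (2 * x + 1), ((i:ℝ) ^ 2 * r ^ i) ≤ ε / (4 * (C * 64 ^ 3)) := by
    rw [Finset.sum_Ico_eq_sum_range]
    have hs' : Summable (fun k : ℕ => ((k + i₀ : ℕ):ℝ) ^ 2 * r ^ (k + i₀)) :=
      (summable_nat_add_iff (f := fun k : ℕ => (k:ℝ) ^ 2 * r ^ k) i₀).mpr hsum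
    have h5 : ∑ k ∈ Finset.range (2 * x + 1 - i₀), (((k + i₀ : ℕ):ℝ) ^ 2 * r ^ (k + i₀)) ≤
        ∑' k : ℕ, ((k + i₀ : ℕ):ℝ) ^ 2 * r ^ (k + i₀) :=
      hs'.sum_le_tsum _ (fun k _ => by positivity)
    refine le_trans (le_of_eq ?_) (le_trans h5 hi1.le)
    apply Finset.sum_congr rfl
    intro k _
    rw [Nat.add_comm]
  calc 4 * (C * 64 ^ 3) * (x / Real.log x) * ∑ i ∈ Finset.Ico i₀ (2 * x + 1), ((i:ℝ) ^ 2 * r ^ i)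
      ≤ 4 * (C * 64 ^ 3) * (x / Real.log x) * (ε / (4 * (C * 64 ^ 3))) := by gcongr
    _ = ε * (x / Real.log x) := by
        field_simp

open Classical in
theorem law_all (δ ε : ℝ) (hδ : 0 < δ) (hε : 0 < ε) : ∃ J₀ x₀ : ℕ, ∀ x : ℕ, x₀ ≤ x →
    (((Finset.Icc 1 x).filter (fun p : ℕ => p.Prime ∧ ∃ J L : ℕ, J₀ ≤ J ∧ (J : ℝ) ≤ (x : ℝ) ^ (1 / 2 - δ) ∧ 1 ≤ L ∧
      (J : ℝ) ^ (1 + δ) * max ((L : ℝ) ^ (-(1 / 3) : ℝ)) ((J : ℝ) / (L : ℝ) ^ 2) < ((LR J L p).card : ℝ))).card : ℝ) ≤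
      ε * (x / Real.log x) := by
  obtain ⟨J₀, x₀, hJ1, hx1, h⟩ := law_small (min δ (1 / 10)) ε (by positivity) (min_le_right _ _) hε
  refine ⟨J₀, x₀, fun x hx => le_trans ?_ (h x hx)⟩
  have hx1r : (1:ℝ) ≤ x := by exact_mod_cast (le_trans hx1 hx)
  have hsub : (Finset.Icc 1 x).filter (fun p : ℕ => p.Prime ∧ ∃ J L : ℕ, J₀ ≤ J ∧
      (J : ℝ) ≤ (x : ℝ) ^ (1 / 2 - δ) ∧ 1 ≤ L ∧
      (J : ℝ) ^ (1 + δ) * max ((L : ℝ) ^ (-(1 / 3) : ℝ)) ((J : ℝ) / (L : ℝ) ^ 2) < ((LR J L p).card : ℝ)) ⊆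
      (Finset.Icc 1 x).filter (fun p : ℕ => p.Prime ∧ ∃ J L : ℕ, J₀ ≤ J ∧
      (J : ℝ) ≤ (x : ℝ) ^ (1 / 2 - min δ (1 / 10)) ∧ 1 ≤ L ∧
      (J : ℝ) ^ (1 + min δ (1 / 10)) * max ((L : ℝ) ^ (-(1 / 3) : ℝ)) ((J : ℝ) / (L : ℝ) ^ 2) <
        ((LR J L p).card : ℝ)) := by
    intro p hp
    rw [Finset.mem_filter] at hp ⊢
    obtain ⟨h1, h2, J, L, h3, h4, h5, h6⟩ := hp
    refine ⟨h1, h2, J, L, h3, le_trans h4 ?_, h5, lt_of_le_of_lt ?_ h6⟩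
    · exact Real.rpow_le_rpow_of_exponent_le hx1r (by linarith [min_le_left δ (1 / 10)])
    · have hJr : (1:ℝ) ≤ J := by exact_mod_cast le_trans hJ1 h3
      have h7 : (J:ℝ) ^ (1 + min δ (1 / 10)) ≤ (J:ℝ) ^ (1 + δ) :=
        Real.rpow_le_rpow_of_exponent_le hJr (by linarith [min_le_left δ (1 / 10)])
      have h8 : (0:ℝ) ≤ max ((L : ℝ) ^ (-(1 / 3) : ℝ)) ((J : ℝ) / (L : ℝ) ^ 2) :=
        le_trans (by positivity) (le_max_right _ _)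
      gcongr
  exact_mod_cast Finset.card_le_card hsub

end MP_a3a416_nt.GL
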