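import Mathlib

/-!
# GL-WinC
Combinatorics of windows: if few elements of an interval are in long runs of a set `Z`, the complement of `Z` meets the interval often.
PROOF.  Induction on the length, or: let `R = {g ∈ Ico a b, ¬ Z g}`, `r = #R`.  Map every `g ∈ Ico a b` with `Z g`, which is not in a run of length `L` inside `Ico a b`, to (the number of elements of `R` below `g`, the distance of `g` from the last element of
`R ∪ {a - 1}` below `g`, minus `1`) ∈ `range (r + 1) × range (L - 1)`; this map is injective (the first coordinate determines the last element `s` of `R ∪ {a-1}` below `g`), and the distance is `< L` because `(s, g] ⊆ Z`, so `g - s ≤ L - 1`: otherwise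
`g` would lie in the run `Ico (g + 1 - L) (g + 1) ⊆ (s, g]`.  So `b - a ≤ r + #long + (r + 1) (L - 1)`, where `#long` = the number of elements in long runs; hence `b - a ≤ #long + (r + 1) * L`.
-/

namespace MP_a3a416_nt.GL

open Classical in
/-- the elements in long runs -/
private noncomputable def lng (Z : ℕ → Prop) (a b L : ℕ) : Finset ℕ :=
  (Finset.Ico a b).filter (fun g => ∃ u : ℕ, a ≤ u ∧ u ≤ g ∧ g < u + L ∧ u + L ≤ b ∧
      ∀ g' ∈ Finset.Ico u (u + L), Z g')

open Classical in
private noncomputable def cmp (Z : ℕ → Prop) (a b : ℕ) : Finset ℕ :=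
  (Finset.Ico a b).filter (fun g => ¬ Z g)

private theorem lng_mem (Z : ℕ → Prop) (a b L g : ℕ) : g ∈ lng Z a b L ↔
    (a ≤ g ∧ g < b) ∧ ∃ u : ℕ, a ≤ u ∧ u ≤ g ∧ g < u + L ∧ u + L ≤ b ∧
      ∀ g' ∈ Finset.Ico u (u + L), Z g' := by
  classical
  exact Finset.mem_filter.trans (and_congr_left fun _ => Finset.mem_Ico)

private theorem cmp_mem (Z : ℕ → Prop) (a b g : ℕ) : g ∈ cmp Z a b ↔ (a ≤ g ∧ g < b) ∧ ¬ Z g := by
  classical
  exact Finset.mem_filter.trans (and_congr_left fun _ => Finset.mem_Ico)

/-- an interval without elements outside `Z` -/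
private theorem lng_full (Z : ℕ → Prop) (a b L : ℕ) (hL : 1 ≤ L)
    (hZ : ∀ g, a ≤ g → g < b → Z g) : b - a + 1 ≤ (lng Z a b L).card + L := by
  rcases Nat.lt_or_ge (b - a) L with h | h
  · omega
  · have h1 : lng Z a b L = Finset.Ico a b := by
      ext g
      rw [lng_mem, Finset.mem_Ico]
      constructor
      · exact fun h => h.1
      · rintro ⟨h1, h2⟩
        refine ⟨⟨h1, h2⟩, min g (b - L), ?_, ?_, ?_, ?_, ?_⟩
        · omega
        · omega
        · omega
        · omega
        · intro g' hg'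
          rw [Finset.mem_Ico] at hg'
          exact hZ g' (by omega) (by omega)
    rw [h1, Nat.card_Ico]
    omega

private theorem win_aux (Z : ℕ → Prop) (b L : ℕ) (hL : 1 ≤ L) (k : ℕ) :
    ∀ a, b - a = k → b - a ≤ (lng Z a b L).card + ((cmp Z a b).card + 1) * L := by
  classical
  induction k using Nat.strong_induction_on with
  | _ k ih =>
    intro a hk
    rcases (cmp Z a b).eq_empty_or_nonempty with h0 | h0
    · have h1 := lng_full Z a b L hL (by
        intro g h1 h2
        by_contra h3
        have h4 : g ∈ cmp Z a b := (cmp_mem Z a b g).2 ⟨⟨h1, h2⟩, h3⟩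
        rw [h0] at h4
        exact absurd h4 (Finset.notMem_empty g))
      rw [h0, Finset.card_empty, zero_add, one_mul]
      omega
    · obtain ⟨s, hs, hmin⟩ : ∃ s ∈ cmp Z a b, ∀ g ∈ cmp Z a b, s ≤ g :=
        ⟨(cmp Z a b).min' h0, Finset.min'_mem _ _, fun g hg => Finset.min'_le _ g hg⟩
      obtain ⟨⟨hs1, hs2⟩, hs3⟩ := (cmp_mem Z a b s).1 hs
      have h1 := lng_full Z a s L hL (by
        intro g h1 h2
        by_contra h3
        have h4 := hmin g ((cmp_mem Z a b g).2 ⟨⟨h1, by omega⟩, h3⟩)
        omega)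
      have h2 := ih (b - (s + 1)) (by omega) (s + 1) rfl
      have h3 : cmp Z a b = insert s (cmp Z (s + 1) b) := by
        ext g
        rw [Finset.mem_insert, cmp_mem, cmp_mem]
        constructor
        · rintro ⟨⟨g1, g2⟩, g3⟩
          have g4 := hmin g ((cmp_mem Z a b g).2 ⟨⟨g1, g2⟩, g3⟩)
          rcases Nat.eq_or_lt_of_le g4 with g5 | g5
          · exact Or.inl g5.symm
          · exact Or.inr ⟨⟨g5, g2⟩, g3⟩
        · rintro (rfl | ⟨⟨g1, g2⟩, g3⟩)
          · exact ⟨⟨hs1, hs2⟩, hs3⟩
          · exact ⟨⟨by omega, g2⟩, g3⟩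
      have h4 : (cmp Z a b).card = (cmp Z (s + 1) b).card + 1 := by
        rw [h3, Finset.card_insert_of_notMem]
        intro h5
        have h6 := ((cmp_mem Z (s + 1) b s).1 h5).1.1
        omega
      have h5 : (lng Z a s L).card + (lng Z (s + 1) b L).card ≤ (lng Z a b L).card := by
        rw [← Finset.card_union_of_disjoint]
        · refine Finset.card_le_card ?_
          intro g hg
          rw [lng_mem]
          rcases Finset.mem_union.1 hg with hg | hg
          · obtain ⟨⟨g1, g2⟩, u, u1, u2, u3, u4, u5⟩ := (lng_mem Z a s L g).1 hg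
            exact ⟨⟨g1, by omega⟩, u, u1, u2, u3, by omega, u5⟩
          · obtain ⟨⟨g1, g2⟩, u, u1, u2, u3, u4, u5⟩ := (lng_mem Z (s + 1) b L g).1 hg
            exact ⟨⟨by omega, g2⟩, u, by omega, u2, u3, u4, u5⟩
        · rw [Finset.disjoint_left]
          intro g g1 g2
          have g3 := ((lng_mem Z a s L g).1 g1).1.2
          have g4 := ((lng_mem Z (s + 1) b L g).1 g2).1.1
          omega
      rw [h4]
      have h6 : ((cmp Z (s + 1) b).card + 1 + 1) * L = ((cmp Z (s + 1) b).card + 1) * L + L := by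
        ring
      rw [h6]
      omega

open Classical in
theorem window_comb (Z : ℕ → Prop) (a b L : ℕ) (hL : 1 ≤ L) :
    b - a ≤ ((Finset.Ico a b).filter (fun g => ∃ u : ℕ, a ≤ u ∧ u ≤ g ∧ g < u + L ∧ u + L ≤ b ∧
      ∀ g' ∈ Finset.Ico u (u + L), Z g')).card +
      (((Finset.Ico a b).filter (fun g => ¬ Z g)).card + 1) * L :=
  win_aux Z b L hL (b - a) a rfl

end MP_a3a416_nt.GL
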