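import Pool.Agent.Lib.MP_a3a416_nt.GL.Count
import Pool.Agent.Lib.MP_a3a416_nt.GL.WinC

/-!
# GL-NonZ
The number of non-zero terms among `B_{p-3}, …, B_{p-1-2J}`, for all `K ≤ J ≤ x^(2/3)` at once.  Model for the dyadic summation: `HK/ReadN.lean`, `BB/FinalAux.lean` (`final_all`, `sum_aux`, `card_primes_le`, `primeCounting_ge`).
PROOF.  `C₁ ≥ 1` from `gap_law` (it can be enlarged), always `ρ = 1/2`.  `M := 2 √(2 C₁)`, `Λ` a natural number `≥ 2 C₁ M` and `≥ 1`.  For `i : ℕ` let `L i := ⌈√(2 C₁ 2^i)⌉₊`, so `C₁ 2^i ≤ (1/2) (L i)^2`, `√(2 C₁ 2^i) ≤ L i ≤ M √(2^i)`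
(`1 ≤ √(2 C₁ 2^i)`); `L i ≤ 2^i` if `2^i ≥ 8 C₁`; `C₁ 2^i (L i) ≤ x/2` if `(Λ 2^i)^3 ≤ x^2` (then `Λ (2^i)^(3/2) ≤ (Λ 2^i)^(3/2) ≤ x` and `2 C₁ 2^i L i ≤ 2 C₁ M (2^i)^(3/2)`).
`B i` := the primes `p ≤ x` with `2^i/2 ≤ #LR (2^i) (L i) p`.  `gap_law`: `#B i ≤ C₁ log(2^(i+1)) * 8/(L i) * x/log x ≤ C₂ (i+1) 2^(-i/2) x/log x` (for `8 C₁ ≤ 2^i`, `(Λ 2^i)^3 ≤ x^2`).
Take `K₀` large.  If `K < K₀`: trivial bound by `π(x)` (`card_primes_le`), `log K/√K ≥ log 2/√K₀`.  Let `K ≥ K₀`.  Let `p` be in the exceptional set because of `J`, `K ≤ J`, `J^3 ≤ x^2`, and `2 J + 3 ≤ p`.  `i := Nat.log 2 (J/Λ)`: `2^i ≤ J/Λ`, `J/Λ < 2^(i+1)`, so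
`Λ 2^i ≤ J`, `J < Λ 2^(i+1)`; `2^i ≥ 8 C₁` as `J ≥ K₀`.  If `p ∉ B i`: `window_comb` (`Z g = (p ∣ B_{p-1-2g})`, `a = 1`, `b = 2^i + 1`, `L = L i`; its first set is contained in `LR (2^i) (L i) p`) gives `2^i ≤ #LR + (r + 1) L i < 2^i/2 + (r+1) L i`,
`r` = the number of `g ≤ 2^i` with `¬ Z g`, at most the number in the statement (`2^i ≤ J`, `2g + 3 ≤ p`).  So `r + 1 > 2^i/(2 L i) ≥ √(2^i)/(2M) ≥ √(J/(2Λ))/(2M)`; with `c := 1/(4 M √(2Λ))` this is `2 c √J`, and `r ≥ c √J` if `c √J ≥ 1`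
(`J ≥ K₀ ≥ c^(-2)`), contradiction.  So the exceptional set is contained in the union of `{p ≤ x : p < 2 y + 3}`, `y` := the largest integer with `y^3 ≤ x^2` (or simply: the `p` with `∃ J ≥ K, J^3 ≤ x^2, p < 2J+3`; these are `≤ 2 x^(2/3) + 2`), and the `B i`
with `i ≥ i₀`, `(Λ 2^i)^3 ≤ x^2`, where `i₀` is such that `Λ 2^(i+1) > K` for `i ≥ i₀` and `2^i₀ ≤ K`, `K ≤ Λ 2^(i₀+1)` (`i₀ := Nat.log 2 (K/Λ)`).
Sum: `∑_{i ≥ i₀} (i+1) 2^(-i/2) ≤ (i₀+1) 2^(-i₀/2) ∑_k (k+1) 2^(-k/2) ≤ C₃ log K/√K`.  `π(x) ≥ x/(4 log x)`-type bound: `primeCounting_ge` (`x ≥ 16` because `x^2 ≥ K₀^3`).  Small primes: `(2 x^(2/3) + 3) ≤ C₄ (log K/√K) x/log x`: if `K ≥ x^(1/3)`: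
`log x ≤ 3 log K`, `√K ≤ x^(1/3)`; if `K < x^(1/3)`: `√K x^(2/3) log x ≤ x^(5/6) log x ≤ 6 x`.
-/

namespace MP_a3a416_nt.GL

private theorem sum_bd : ∃ C : ℝ, 0 < C ∧ ∀ n : ℕ,
    ∑ k ∈ Finset.range n, ((k : ℝ) + 1) / √(2 ^ k : ℝ) ≤ C := by
  have hr : ‖(1 / √2 : ℝ)‖ < 1 := by
    rw [Real.norm_of_nonneg (by positivity), div_lt_one (by positivity)]
    rw [Real.lt_sqrt (by norm_num)]
    norm_num
  have h1 : Summable (fun n : ℕ => (n : ℝ) * (1 / √2 : ℝ) ^ n) :=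
    (hasSum_coe_mul_geometric_of_norm_lt_one hr).summable
  have h2 : Summable (fun n : ℕ => (1 / √2 : ℝ) ^ n) := summable_geometric_of_norm_lt_one hr
  have h3 := h1.add h2
  have hnn : ∀ n : ℕ, 0 ≤ (n : ℝ) * (1 / √2 : ℝ) ^ n + (1 / √2 : ℝ) ^ n := fun n => by positivity
  refine ⟨∑' n : ℕ, ((n : ℝ) * (1 / √2 : ℝ) ^ n + (1 / √2 : ℝ) ^ n) + 1, ?_, ?_⟩
  · have h6 : 0 ≤ ∑' n : ℕ, ((n : ℝ) * (1 / √2 : ℝ) ^ n + (1 / √2 : ℝ) ^ n) := tsum_nonneg hnn
    linarith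
  · intro n
    have h4 := h3.sum_le_tsum (Finset.range n) (fun k _ => hnn k)
    have h5 : ∑ k ∈ Finset.range n, ((k : ℝ) + 1) / √(2 ^ k : ℝ) =
        ∑ k ∈ Finset.range n, ((k : ℝ) * (1 / √2 : ℝ) ^ k + (1 / √2 : ℝ) ^ k) := by
      refine Finset.sum_congr rfl fun k _ => ?_
      have h6 : √(2 ^ k : ℝ) = √2 ^ k := by
        rw [Real.sqrt_eq_iff_mul_self_eq (by positivity) (by positivity), ← mul_pow,
          Real.mul_self_sqrt (by norm_num)]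
      rw [h6, div_pow, one_pow]
      ring
    rw [h5]
    linarith

private theorem small_ineq {K x : ℕ} (hK : 2 ≤ K) (hx : 16 ≤ x) (h : K ^ 3 ≤ x ^ 2) {z : ℝ}
    (hz : z ^ 3 = x) (hz1 : 1 ≤ z) :
    4 * z ^ 2 ≤ 48 * (Real.log K / √K) * (x / Real.log x) := by
  have hK' : (2 : ℝ) ≤ K := by exact_mod_cast hK
  have hx' : (16 : ℝ) ≤ x := by exact_mod_cast hx
  have hsK : 0 < √(K : ℝ) := Real.sqrt_pos.2 (by linarith)
  have hlx : 0 < Real.log x := Real.log_pos (by linarith)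
  have hz0 : 0 < z := by linarith
  have hl2 := Real.log_two_gt_d9
  have hlK : 1 / 2 ≤ Real.log K := by
    have h2 : Real.log 2 ≤ Real.log K := Real.log_le_log (by norm_num) hK'
    linarith
  have hKz : (K : ℝ) ≤ z ^ 2 := by
    have h1 : (K : ℝ) ^ 3 ≤ (z ^ 2) ^ 3 := by
      have h2 : (K : ℝ) ^ 3 ≤ (x : ℝ) ^ 2 := by exact_mod_cast h
      have h3 : (z ^ 2) ^ 3 = (x : ℝ) ^ 2 := by rw [← hz]; ring
      rw [h3]
      exact h2
    exact le_of_pow_le_pow_left₀ (by norm_num) (by positivity) h1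
  have hlz : Real.log x = 3 * Real.log z := by
    rw [← hz, Real.log_pow]
    norm_num
  have key : 4 * (√(K : ℝ) * Real.log x) ≤ 48 * (z * Real.log K) := by
    rcases le_or_gt z K with h1 | h1
    · have h2 : Real.log z ≤ Real.log K := Real.log_le_log hz0 h1
      have h3 : √(K : ℝ) ≤ z := by
        rw [Real.sqrt_le_left hz0.le]
        exact hKz
      have h4 : √(K : ℝ) * Real.log x ≤ z * (3 * Real.log K) := by
        rw [hlz]
        refine mul_le_mul h3 (by linarith) ?_ hz0.le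
        have := Real.log_nonneg hz1
        linarith
      have h5 : 0 ≤ z * Real.log K := by
        apply mul_nonneg hz0.le
        linarith
      nlinarith
    · have h2 : √(K : ℝ) ≤ √z := Real.sqrt_le_sqrt h1.le
      have hsz : 0 < √z := Real.sqrt_pos.2 hz0
      have h3 : Real.log x ≤ 6 * √z := by
        have h4 : Real.log z = 2 * Real.log (√z) := by
          rw [Real.log_sqrt hz0.le]; ring
        have h5 := Real.log_le_sub_one_of_pos hsz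
        rw [hlz, h4]
        linarith
      have h4 : √(K : ℝ) * Real.log x ≤ √z * (6 * √z) :=
        mul_le_mul h2 h3 hlx.le hsz.le
      have h5 : √z * (6 * √z) = 6 * z := by
        have := Real.mul_self_sqrt hz0.le
        linarith
      rw [h5] at h4
      have h6 : z * (1 / 2) ≤ z * Real.log K := mul_le_mul_of_nonneg_left hlK hz0.le
      linarith
  have h6 : 48 * (Real.log K / √K) * (x / Real.log x) =
      48 * Real.log K * x / (√(K : ℝ) * Real.log x) := by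
    field_simp
  rw [h6, le_div_iff₀ (by positivity)]
  have h7 : 4 * z ^ 2 * (√(K : ℝ) * Real.log x) = z ^ 2 * (4 * (√(K : ℝ) * Real.log x)) := by ring
  have h8 : 48 * Real.log K * (x : ℝ) = z ^ 2 * (48 * (z * Real.log K)) := by rw [← hz]; ring
  rw [h7, h8]
  exact mul_le_mul_of_nonneg_left key (by positivity)

private theorem head_bd {D K i : ℕ} (hD : 1 ≤ D) (hK : 2 ≤ K) (h1 : 2 ^ i ≤ K)
    (h2 : K ≤ 8 * D * 2 ^ i) : ((i : ℝ) + 1) / √(2 ^ i : ℝ) ≤ 24 * D * (Real.log K / √K) := by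
  have hK' : (2 : ℝ) ≤ K := by exact_mod_cast hK
  have hD' : (1 : ℝ) ≤ D := by exact_mod_cast hD
  have hsK : 0 < √(K : ℝ) := Real.sqrt_pos.2 (by linarith)
  have hl2 := Real.log_two_gt_d9
  have hlK2 : Real.log 2 ≤ Real.log K := Real.log_le_log (by norm_num) hK'
  have hp : (0 : ℝ) < √(2 ^ i : ℝ) := Real.sqrt_pos.2 (by positivity)
  have h3 : (i : ℝ) * Real.log 2 ≤ Real.log K := by
    rw [← Real.log_pow]
    exact Real.log_le_log (by positivity) (by exact_mod_cast h1)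
  have h4 : (i : ℝ) + 1 ≤ 3 * Real.log K := by
    have h5 : ((i : ℝ) + 1) * (2 / 3) ≤ ((i : ℝ) + 1) * Real.log 2 :=
      mul_le_mul_of_nonneg_left (by linarith) (by positivity)
    linarith
  have h5 : √(K : ℝ) ≤ 8 * D * √(2 ^ i : ℝ) := by
    rw [Real.sqrt_le_left (by positivity), mul_pow, Real.sq_sqrt (by positivity)]
    have h6 : (K : ℝ) ≤ 8 * D * 2 ^ i := by exact_mod_cast h2
    refine h6.trans (mul_le_mul_of_nonneg_right ?_ (by positivity))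
    nlinarith
  rw [mul_div_assoc', div_le_div_iff₀ hp hsK]
  calc ((i : ℝ) + 1) * √(K : ℝ) ≤ 3 * Real.log K * (8 * D * √(2 ^ i : ℝ)) :=
        mul_le_mul h4 h5 hsK.le (by linarith)
    _ = 24 * D * Real.log K * √(2 ^ i : ℝ) := by ring

/-- the length `L_i` -/
private def Li (D i : ℕ) : ℕ := Nat.sqrt (2 * D * 2 ^ i) + 1

private theorem Li_gt (D i : ℕ) : 2 * D * 2 ^ i < Li D i ^ 2 := by
  unfold Li
  rw [pow_two]
  exact Nat.lt_succ_sqrt _

private theorem Li_le {D i : ℕ} (hD : 1 ≤ D) : Li D i ^ 2 ≤ 8 * D * 2 ^ i := by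
  unfold Li
  have h1 := Nat.sqrt_le (2 * D * 2 ^ i)
  have h3 : 1 ≤ 2 ^ i := Nat.one_le_pow _ _ (by norm_num)
  have h2 : 1 ≤ Nat.sqrt (2 * D * 2 ^ i) := by
    apply Nat.le_sqrt.2
    have : 1 * 1 ≤ D * 2 ^ i := Nat.mul_le_mul hD h3
    nlinarith
  nlinarith

open Classical in
private theorem B_bound {C : ℝ} {D : ℕ} (hC : 0 < C) (hCD : C ≤ D) (hD : 1 ≤ D)
    (hgap : ∀ (J L x : ℕ) (ρ : ℝ), 1 ≤ L → L ≤ J → 0 < ρ → ρ ≤ 1 →
    C * J ≤ ρ * (L : ℝ) ^ 2 → C * ((J : ℝ) * L) ≤ ρ * x →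
    (((Finset.Icc 1 x).filter (fun p : ℕ => p.Prime ∧ ρ * J ≤ ((LR J L p).card : ℝ))).card : ℝ) ≤
      C * (Real.log (2 * J) / (ρ ^ 3 * L) * (x / Real.log x))) {i x : ℕ} (h8 : 8 * D ≤ 2 ^ i)
    (hx : (4 * D * 2 ^ i) ^ 3 ≤ x ^ 2) (hx16 : 16 ≤ x) :
    (((Finset.Icc 1 x).filter (fun p : ℕ => p.Prime ∧
      (1 / 2 : ℝ) * ((2 ^ i : ℕ) : ℝ) ≤ ((LR (2 ^ i) (Li D i) p).card : ℝ))).card : ℝ) ≤
      8 * D * (((i : ℝ) + 1) / √(2 ^ i : ℝ)) * (x / Real.log x) := by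
  have hg := Li_gt D i
  have hl := Li_le (i := i) hD
  have hL1 : 1 ≤ Li D i := by unfold Li; omega
  have hD' : (1 : ℝ) ≤ D := by exact_mod_cast hD
  have hx' : (16 : ℝ) ≤ x := by exact_mod_cast hx16
  have hlx : 0 < Real.log x := Real.log_pos (by linarith)
  have hLJ : Li D i ≤ 2 ^ i := by
    by_contra hcon
    push Not at hcon
    have h1 : 2 ^ i * 2 ^ i < Li D i ^ 2 := by nlinarith
    have h2 : 8 * D * 2 ^ i ≤ 2 ^ i * 2 ^ i := Nat.mul_le_mul_right _ h8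
    omega
  have hg' : 2 * (D : ℝ) * 2 ^ i ≤ (Li D i : ℝ) ^ 2 := by exact_mod_cast hg.le
  have hc1 : C * ((2 ^ i : ℕ) : ℝ) ≤ 1 / 2 * (Li D i : ℝ) ^ 2 := by
    have h1 : C * ((2 ^ i : ℕ) : ℝ) ≤ D * ((2 ^ i : ℕ) : ℝ) :=
      mul_le_mul_of_nonneg_right hCD (by positivity)
    push_cast at h1 ⊢
    linarith
  have hc2 : C * (((2 ^ i : ℕ) : ℝ) * (Li D i : ℝ)) ≤ 1 / 2 * x := by
    have h1 : 2 * D * (2 ^ i * Li D i) ≤ x := by
      by_contra hcon
      push Not at hcon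
      have h2 : x ^ 2 < (2 * D * (2 ^ i * Li D i)) ^ 2 := Nat.pow_lt_pow_left hcon (by norm_num)
      have h3 : (2 * D * (2 ^ i * Li D i)) ^ 2 = (2 * D * 2 ^ i) ^ 2 * Li D i ^ 2 := by ring
      have h4 : (2 * D * 2 ^ i) ^ 2 * Li D i ^ 2 ≤ (2 * D * 2 ^ i) ^ 2 * (8 * D * 2 ^ i) :=
        Nat.mul_le_mul_left _ hl
      have h5 : (2 * D * 2 ^ i) ^ 2 * (8 * D * 2 ^ i) = 32 * (D * 2 ^ i) ^ 3 := by ring
      have h6 : (4 * D * 2 ^ i) ^ 3 = 64 * (D * 2 ^ i) ^ 3 := by ring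
      have h7 : 32 * (D * 2 ^ i) ^ 3 ≤ 64 * (D * 2 ^ i) ^ 3 := Nat.mul_le_mul_right _ (by norm_num)
      omega
    have h1' : 2 * (D : ℝ) * (2 ^ i * (Li D i : ℝ)) ≤ x := by exact_mod_cast h1
    have h2 : C * (((2 ^ i : ℕ) : ℝ) * (Li D i : ℝ)) ≤ D * (((2 ^ i : ℕ) : ℝ) * (Li D i : ℝ)) :=
      mul_le_mul_of_nonneg_right hCD (by positivity)
    push_cast at h2 ⊢
    linarith
  refine (hgap (2 ^ i) (Li D i) x (1 / 2) hL1 hLJ (by norm_num) (by norm_num) hc1 hc2).trans ?_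
  have hp : (0 : ℝ) < √(2 ^ i : ℝ) := Real.sqrt_pos.2 (by positivity)
  have hL0 : (0 : ℝ) < (Li D i : ℝ) := by exact_mod_cast hL1
  have hpL : √(2 ^ i : ℝ) ≤ (Li D i : ℝ) := by
    rw [Real.sqrt_le_left hL0.le]
    refine le_trans ?_ hg'
    have : (1 : ℝ) ≤ 2 * D := by linarith
    exact le_mul_of_one_le_left (by positivity) this
  have hlog : Real.log (2 * ((2 ^ i : ℕ) : ℝ)) ≤ (i : ℝ) + 1 := by
    have h1 : (2 * ((2 ^ i : ℕ) : ℝ)) = 2 ^ (i + 1) := by push_cast; ring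
    rw [h1, Real.log_pow]
    push_cast
    have h2 : Real.log 2 ≤ 1 := by
      have := Real.log_two_lt_d9
      linarith
    calc ((i : ℝ) + 1) * Real.log 2 ≤ ((i : ℝ) + 1) * 1 :=
          mul_le_mul_of_nonneg_left h2 (by positivity)
      _ = (i : ℝ) + 1 := mul_one _
  have h1 : Real.log (2 * ((2 ^ i : ℕ) : ℝ)) / ((1 / 2 : ℝ) ^ 3 * (Li D i : ℝ)) ≤
      8 * (((i : ℝ) + 1) / √(2 ^ i : ℝ)) := by
    rw [mul_div_assoc', div_le_div_iff₀ (by positivity) hp]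
    calc Real.log (2 * ((2 ^ i : ℕ) : ℝ)) * √(2 ^ i : ℝ) ≤ ((i : ℝ) + 1) * (Li D i : ℝ) :=
          mul_le_mul hlog hpL hp.le (by positivity)
      _ = 8 * ((i : ℝ) + 1) * ((1 / 2 : ℝ) ^ 3 * (Li D i : ℝ)) := by ring
  have hxl : 0 ≤ (x : ℝ) / Real.log x := by positivity
  calc C * (Real.log (2 * ((2 ^ i : ℕ) : ℝ)) / ((1 / 2 : ℝ) ^ 3 * (Li D i : ℝ)) * (x / Real.log x))
      ≤ C * (8 * (((i : ℝ) + 1) / √(2 ^ i : ℝ)) * (x / Real.log x)) :=
        mul_le_mul_of_nonneg_left (mul_le_mul_of_nonneg_right h1 hxl) hC.le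
    _ ≤ D * (8 * (((i : ℝ) + 1) / √(2 ^ i : ℝ)) * (x / Real.log x)) :=
        mul_le_mul_of_nonneg_right hCD (by positivity)
    _ = _ := by ring

private theorem wc (Z : ℕ → Prop) (a b L l r : ℕ) (hL : 1 ≤ L)
    (hF : ∀ F : Finset ℕ, (∀ g ∈ F, (a ≤ g ∧ g < b) ∧ ∃ u : ℕ, a ≤ u ∧ u ≤ g ∧ g < u + L ∧
      u + L ≤ b ∧ ∀ g' ∈ Finset.Ico u (u + L), Z g') → F.card ≤ l)
    (hR : ∀ F : Finset ℕ, (∀ g ∈ F, (a ≤ g ∧ g < b) ∧ ¬ Z g) → F.card ≤ r) :
    b - a ≤ l + (r + 1) * L := by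
  classical
  refine (window_comb Z a b L hL).trans
    (Nat.add_le_add (hF _ ?_) (Nat.mul_le_mul_right _ (Nat.add_le_add_right (hR _ ?_) 1)))
  · intro g hg
    rw [Finset.mem_filter, Finset.mem_Ico] at hg
    exact hg
  · intro g hg
    rw [Finset.mem_filter, Finset.mem_Ico] at hg
    exact hg

open Classical in
private theorem win_part {D J i p : ℕ} (hD : 1 ≤ D) (hJ : 1024 * D ^ 2 ≤ J)
    (h1 : 4 * D * 2 ^ i ≤ J) (h2 : J < 8 * D * 2 ^ i) (hp : 2 * J + 3 ≤ p)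
    (hr : (((Finset.Icc 1 J).filter (fun g : ℕ => 2 * g + 3 ≤ p ∧
        ¬ (p : ℤ) ∣ (_root_.bernoulli (p - 1 - 2 * g)).num)).card : ℝ) <
        1 / (32 * D) * Real.sqrt J) :
    (1 / 2 : ℝ) * ((2 ^ i : ℕ) : ℝ) ≤ ((LR (2 ^ i) (Li D i) p).card : ℝ) := by
  by_contra hcon
  push Not at hcon
  have hD' : (1 : ℝ) ≤ D := by exact_mod_cast hD
  have hL1 : 1 ≤ Li D i := by unfold Li; omega
  have hl := Li_le (i := i) hD
  have hiJ : 2 ^ i ≤ J := by
    have : 1 * 2 ^ i ≤ 4 * D * 2 ^ i := Nat.mul_le_mul_right _ (by omega)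
    omega
  obtain ⟨r, hrdef⟩ : ∃ r : ℕ, r = ((Finset.Icc 1 J).filter (fun g : ℕ => 2 * g + 3 ≤ p ∧
        ¬ (p : ℤ) ∣ (_root_.bernoulli (p - 1 - 2 * g)).num)).card := ⟨_, rfl⟩
  rw [← hrdef] at hr
  obtain ⟨l, hldef⟩ : ∃ l : ℕ, l = (LR (2 ^ i) (Li D i) p).card := ⟨_, rfl⟩
  rw [← hldef] at hcon
  have hw2 : 2 ^ i ≤ l + (r + 1) * Li D i := by
    have h4 : 2 ^ i = 2 ^ i + 1 - 1 := (Nat.add_sub_cancel (2 ^ i) 1).symm
    rw [h4]
    refine wc (fun g : ℕ => (p : ℤ) ∣ (_root_.bernoulli (p - 1 - 2 * g)).num) 1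
      (2 ^ i + 1) (Li D i) l r hL1 ?_ ?_
    · intro F hF
      rw [hldef]
      refine Finset.card_le_card ?_
      intro g hg
      unfold LR
      have hg1 := hF g hg
      rw [Finset.mem_filter, Finset.mem_Icc]
      exact ⟨⟨hg1.1.1, by omega⟩, hg1.2⟩
    · intro F hF
      rw [hrdef]
      refine Finset.card_le_card ?_
      intro g hg
      have hg1 := hF g hg
      rw [Finset.mem_filter, Finset.mem_Icc]
      exact ⟨⟨hg1.1.1, by omega⟩, by omega, hg1.2⟩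
  have hcon2 : 2 * l < 2 ^ i := by
    have h3 : 2 * (l : ℝ) < ((2 ^ i : ℕ) : ℝ) := by linarith
    exact_mod_cast h3
  have h5 : 2 ^ i < 2 * ((r + 1) * Li D i) := by omega
  have h6 : 2 ^ i < 32 * D * (r + 1) ^ 2 := by
    have h7 : 2 ^ i * 2 ^ i < (2 * ((r + 1) * Li D i)) * (2 * ((r + 1) * Li D i)) :=
      Nat.mul_lt_mul_of_lt_of_le h5 h5.le (by omega)
    have h8 : (2 * ((r + 1) * Li D i)) * (2 * ((r + 1) * Li D i)) = 4 * (r + 1) ^ 2 * Li D i ^ 2 := by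
      ring
    have h9 : 4 * (r + 1) ^ 2 * Li D i ^ 2 ≤ 4 * (r + 1) ^ 2 * (8 * D * 2 ^ i) :=
      Nat.mul_le_mul_left _ hl
    have h10 : 4 * (r + 1) ^ 2 * (8 * D * 2 ^ i) = 32 * D * (r + 1) ^ 2 * 2 ^ i := by ring
    have h11 : 2 ^ i * 2 ^ i < 32 * D * (r + 1) ^ 2 * 2 ^ i := by omega
    exact Nat.lt_of_mul_lt_mul_right h11
  have h7 : J ≤ (16 * D * (r + 1)) ^ 2 := by
    have h8 : 8 * D * 2 ^ i ≤ 8 * D * (32 * D * (r + 1) ^ 2) := Nat.mul_le_mul_left _ h6.le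
    have h9 : 8 * D * (32 * D * (r + 1) ^ 2) = (16 * D * (r + 1)) ^ 2 := by ring
    omega
  have h8 : √(J : ℝ) ≤ 16 * D * ((r : ℝ) + 1) := by
    rw [Real.sqrt_le_left (by positivity)]
    exact_mod_cast h7
  have h9 : 32 * (D : ℝ) ≤ √(J : ℝ) := by
    apply Real.le_sqrt_of_sq_le
    have h10 : ((1024 * D ^ 2 : ℕ) : ℝ) ≤ J := by exact_mod_cast hJ
    push_cast at h10
    nlinarith
  have h10 : 32 * (D : ℝ) * r < √(J : ℝ) := by
    have h11 : 1 / (32 * (D : ℝ)) * √(J : ℝ) = √(J : ℝ) / (32 * D) := by ring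
    rw [h11, lt_div_iff₀ (by positivity)] at hr
    linarith
  nlinarith

open Classical in
theorem nonzero_law : ∃ c C : ℝ, 0 < c ∧ 0 < C ∧ ∀ K x : ℕ, 2 ≤ K →
    (((Finset.Icc 1 x).filter (fun p : ℕ => p.Prime ∧ ∃ J : ℕ, K ≤ J ∧ J ^ 3 ≤ x ^ 2 ∧
      (((Finset.Icc 1 J).filter (fun g : ℕ => 2 * g + 3 ≤ p ∧
        ¬ (p : ℤ) ∣ (_root_.bernoulli (p - 1 - 2 * g)).num)).card : ℝ) < c * Real.sqrt J)).card : ℝ) ≤
      C * (Real.log K / Real.sqrt K) * Nat.primeCounting x := by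
  obtain ⟨C₀, hC₀, hgap⟩ := gap_law
  obtain ⟨D₀, hD₀⟩ := exists_nat_ge C₀
  obtain ⟨D, hDdef⟩ : ∃ D : ℕ, D = D₀ + 1 := ⟨_, rfl⟩
  have hD : 1 ≤ D := by omega
  have hD' : (1 : ℝ) ≤ D := by exact_mod_cast hD
  have hCD : C₀ ≤ D := by
    rw [hDdef]
    push_cast
    linarith
  obtain ⟨S, hS, hsum⟩ := sum_bd
  refine ⟨1 / (32 * D), 64 * D + 4 * 48 + 4 * (192 * D ^ 2 * S), by positivity, by positivity, ?_⟩
  intro K x hK
  have hK' : (2 : ℝ) ≤ K := by exact_mod_cast hK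
  have hsK : 0 < √(K : ℝ) := Real.sqrt_pos.2 (by linarith)
  have hl2 := Real.log_two_gt_d9
  have hlK : 1 / 2 ≤ Real.log K := by
    have h2 : Real.log 2 ≤ Real.log K := Real.log_le_log (by norm_num) hK'
    linarith
  have hπ : (0 : ℝ) ≤ Nat.primeCounting x := by positivity
  have hLK : 0 ≤ Real.log K / √K := div_nonneg (by linarith) hsK.le
  obtain ⟨W, hW⟩ : ∃ W : ℝ, W = Real.log K / √K := ⟨_, rfl⟩
  rw [← hW] at hLK ⊢
  have hWπ : 0 ≤ W * Nat.primeCounting x := mul_nonneg hLK hπ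
  rcases Nat.lt_or_ge K (1024 * D ^ 2) with hKs | hKs
  · -- small `K`
    refine (BB.card_primes_le x _).trans ?_
    have h1 : √(K : ℝ) ≤ 32 * D := by
      rw [Real.sqrt_le_left (by positivity)]
      have h2 : (K : ℝ) ≤ ((1024 * D ^ 2 : ℕ) : ℝ) := by exact_mod_cast hKs.le
      push_cast at h2
      nlinarith
    have h2 : 1 ≤ 64 * D * W := by
      rw [hW, mul_div_assoc', le_div_iff₀ hsK, one_mul]
      calc √(K : ℝ) ≤ 32 * D := h1
        _ = 64 * D * (1 / 2) := by ring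
        _ ≤ 64 * D * Real.log K := mul_le_mul_of_nonneg_left hlK (by positivity)
    have h3 : 1 * (Nat.primeCounting x : ℝ) ≤ 64 * D * W * Nat.primeCounting x :=
      mul_le_mul_of_nonneg_right h2 hπ
    have h4 : (64 * D + 4 * 48 + 4 * (192 * D ^ 2 * S)) * W * (Nat.primeCounting x : ℝ) =
        64 * D * W * Nat.primeCounting x +
          (4 * 48 + 4 * (192 * D ^ 2 * S)) * (W * Nat.primeCounting x) := by ring
    rw [h4]
    have h5 : 0 ≤ (4 * 48 + 4 * (192 * D ^ 2 * S)) * (W * (Nat.primeCounting x : ℝ)) := by positivity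
    linarith
  · rcases Nat.lt_or_ge (x ^ 2) (K ^ 3) with hKx | hKx
    · -- the set is empty
      have h1 : ((Finset.Icc 1 x).filter (fun p : ℕ => p.Prime ∧ ∃ J : ℕ, K ≤ J ∧ J ^ 3 ≤ x ^ 2 ∧
        (((Finset.Icc 1 J).filter (fun g : ℕ => 2 * g + 3 ≤ p ∧
          ¬ (p : ℤ) ∣ (_root_.bernoulli (p - 1 - 2 * g)).num)).card : ℝ) <
          1 / (32 * (D : ℝ)) * Real.sqrt J)) = ∅ := by
        rw [Finset.filter_eq_empty_iff]
        rintro p _ ⟨_, J, hJ1, hJ2, _⟩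
        have := Nat.pow_le_pow_left hJ1 3
        omega
      rw [h1, Finset.card_empty, Nat.cast_zero, mul_assoc]
      positivity
    · have hKb : 1024 ≤ K := by nlinarith
      have hx16 : 16 ≤ x := by
        by_contra hcon
        push Not at hcon
        have h1 : x ^ 2 < 16 ^ 2 := Nat.pow_lt_pow_left hcon (by norm_num)
        have h2 : 1024 ^ 3 ≤ K ^ 3 := Nat.pow_le_pow_left hKb 3
        norm_num at h1 h2
        omega
      have hx' : (16 : ℝ) ≤ x := by exact_mod_cast hx16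
      have hlx : 0 < Real.log x := Real.log_pos (by linarith)
      have hcheb := BB.primeCounting_ge hx16
      obtain ⟨X, hX⟩ : ∃ X : ℝ, X = (x : ℝ) / Real.log x := ⟨_, rfl⟩
      have hX0 : 0 ≤ X := by rw [hX]; positivity
      -- the cube root
      obtain ⟨z, hz, hz1⟩ : ∃ z : ℝ, z ^ 3 = x ∧ 1 ≤ z := by
        refine ⟨(x : ℝ) ^ ((1 : ℝ) / 3), ?_, Real.one_le_rpow (by linarith) (by norm_num)⟩
        rw [← Real.rpow_natCast, ← Real.rpow_mul (by linarith)]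
        norm_num
      have hz0 : 0 < z := by linarith
      have hsm := small_ineq hK hx16 hKx hz hz1
      rw [← hW, ← hX] at hsm
      obtain ⟨i₀, hi₀⟩ : ∃ i₀ : ℕ, i₀ = Nat.log 2 (K / (4 * D)) := ⟨_, rfl⟩
      -- choice of the index
      have hidx : ∀ J : ℕ, 1024 * D ^ 2 ≤ J → 4 * D * 2 ^ (Nat.log 2 (J / (4 * D))) ≤ J ∧
          J < 8 * D * 2 ^ (Nat.log 2 (J / (4 * D))) := by
        intro J hJ
        have h4D : 4 * D ≤ J := by nlinarith
        have h1 : 1 ≤ J / (4 * D) := (Nat.le_div_iff_mul_le (by omega)).2 (by omega)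
        have h2 := Nat.pow_log_le_self 2 (x := J / (4 * D)) (by omega)
        have h3 : J / (4 * D) < 2 ^ (Nat.log 2 (J / (4 * D)) + 1) :=
          Nat.lt_pow_succ_log_self (by norm_num) _
        have h4 := (Nat.le_div_iff_mul_le (by omega : 0 < 4 * D)).1 h2
        have h5 := (Nat.div_lt_iff_lt_mul (by omega : 0 < 4 * D)).1 h3
        constructor
        · linarith
        · rw [pow_succ] at h5
          linarith
      obtain ⟨hK1, hK2⟩ := hidx K hKs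
      rw [← hi₀] at hK1 hK2
      have hhead := head_bd hD hK (le_trans (by nlinarith [Nat.one_le_two_pow (n := i₀)]) hK1) hK2.le
      rw [← hW] at hhead
      -- the sets
      obtain ⟨B, hB⟩ : ∃ B : ℕ → Finset ℕ, ∀ k, B k = if (4 * D * 2 ^ (i₀ + k)) ^ 3 ≤ x ^ 2 then
          (Finset.Icc 1 x).filter (fun p : ℕ => p.Prime ∧
            (1 / 2 : ℝ) * ((2 ^ (i₀ + k) : ℕ) : ℝ) ≤
              ((LR (2 ^ (i₀ + k)) (Li D (i₀ + k)) p).card : ℝ)) else ∅ := ⟨_, fun k => rfl⟩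
      have h8D : 8 * D ≤ 2 ^ i₀ := by
        have h1 : 1024 * D ^ 2 < 8 * D * 2 ^ i₀ := by omega
        have h2 : 8 * D * (128 * D) < 8 * D * 2 ^ i₀ := by
          have : 8 * D * (128 * D) = 1024 * D ^ 2 := by ring
          omega
        have h3 := Nat.lt_of_mul_lt_mul_left h2
        omega
      have hBcard : ∀ k, ((B k).card : ℝ) ≤ 192 * D ^ 2 * (W * X) * (((k : ℝ) + 1) / √(2 ^ k : ℝ)) := by
        intro k
        have h0 : 0 ≤ 192 * D ^ 2 * (W * X) * (((k : ℝ) + 1) / √(2 ^ k : ℝ)) := by positivity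
        by_cases hx2 : (4 * D * 2 ^ (i₀ + k)) ^ 3 ≤ x ^ 2
        · rw [hB k, if_pos hx2]
          have h8 : 8 * D ≤ 2 ^ (i₀ + k) := h8D.trans (Nat.pow_le_pow_right (by norm_num) (by omega))
          have h1 := B_bound hC₀ hCD hD hgap h8 hx2 hx16
          rw [← hX] at h1
          refine h1.trans ?_
          have h2 : √(2 ^ (i₀ + k) : ℝ) = √(2 ^ i₀ : ℝ) * √(2 ^ k : ℝ) := by
            rw [pow_add, Real.sqrt_mul (by positivity)]
          have hp1 : (0 : ℝ) < √(2 ^ i₀ : ℝ) := Real.sqrt_pos.2 (by positivity)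
          have hp2 : (0 : ℝ) < √(2 ^ k : ℝ) := Real.sqrt_pos.2 (by positivity)
          have h3 : (((i₀ + k : ℕ) : ℝ) + 1) / √(2 ^ (i₀ + k) : ℝ) ≤
              (((i₀ : ℝ) + 1) / √(2 ^ i₀ : ℝ)) * (((k : ℝ) + 1) / √(2 ^ k : ℝ)) := by
            rw [h2, div_mul_div_comm]
            apply div_le_div_of_nonneg_right _ (by positivity)
            push_cast
            have h4 : 0 ≤ (i₀ : ℝ) * k := by positivity
            nlinarith
          have h5 : (((i₀ : ℝ) + 1) / √(2 ^ i₀ : ℝ)) * (((k : ℝ) + 1) / √(2 ^ k : ℝ)) ≤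
              24 * D * W * (((k : ℝ) + 1) / √(2 ^ k : ℝ)) :=
            mul_le_mul_of_nonneg_right hhead (by positivity)
          calc 8 * D * ((((i₀ + k : ℕ) : ℝ) + 1) / √(2 ^ (i₀ + k) : ℝ)) * X
              ≤ 8 * D * (24 * D * W * (((k : ℝ) + 1) / √(2 ^ k : ℝ))) * X :=
                mul_le_mul_of_nonneg_right
                  (mul_le_mul_of_nonneg_left (h3.trans h5) (by positivity)) hX0
            _ = _ := by ring
        · rw [hB k, if_neg hx2, Finset.card_empty, Nat.cast_zero]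
          exact h0
      have hsub : ((Finset.Icc 1 x).filter (fun p : ℕ => p.Prime ∧ ∃ J : ℕ, K ≤ J ∧ J ^ 3 ≤ x ^ 2 ∧
        (((Finset.Icc 1 J).filter (fun g : ℕ => 2 * g + 3 ≤ p ∧
          ¬ (p : ℤ) ∣ (_root_.bernoulli (p - 1 - 2 * g)).num)).card : ℝ) <
          1 / (32 * (D : ℝ)) * Real.sqrt J)) ⊆
          Finset.Icc 1 ⌊4 * z ^ 2⌋₊ ∪ (Finset.range x).biUnion B := by
        intro p hp
        rw [Finset.mem_filter] at hp
        obtain ⟨hpI, hpp, J, hKJ, hJx, hr⟩ := hp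
        rw [Finset.mem_union, Finset.mem_Icc, Finset.mem_biUnion]
        have hJK : 1024 * D ^ 2 ≤ J := hKs.trans hKJ
        rcases Nat.lt_or_ge p (2 * J + 3) with hps | hps
        · left
          refine ⟨hpp.one_lt.le, Nat.le_floor ?_⟩
          have h1 : (J : ℝ) ≤ z ^ 2 := by
            have h1 : (J : ℝ) ^ 3 ≤ (z ^ 2) ^ 3 := by
              have h2 : (J : ℝ) ^ 3 ≤ (x : ℝ) ^ 2 := by exact_mod_cast hJx
              have h3 : (z ^ 2) ^ 3 = (x : ℝ) ^ 2 := by rw [← hz]; ring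
              rw [h3]
              exact h2
            exact le_of_pow_le_pow_left₀ (by norm_num) (by positivity) h1
          have h2 : (p : ℝ) ≤ 2 * J + 2 := by exact_mod_cast (by omega : p ≤ 2 * J + 2)
          have h3 : (1 : ℝ) ≤ J := by exact_mod_cast (by omega : 1 ≤ J)
          linarith
        · right
          obtain ⟨hJ1, hJ2⟩ := hidx J hJK
          obtain ⟨i, hi⟩ : ∃ i : ℕ, i = Nat.log 2 (J / (4 * D)) := ⟨_, rfl⟩
          rw [← hi] at hJ1 hJ2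
          have hii : i₀ ≤ i := by
            rw [hi₀, hi]
            exact Nat.log_mono_right (Nat.div_le_div_right hKJ)
          obtain ⟨k, hk⟩ : ∃ k, i = i₀ + k := ⟨i - i₀, by omega⟩
          have hi2 : i < 2 ^ i := Nat.lt_pow_self (by norm_num)
          have h2J : 2 ^ i ≤ J := by
            have : 1 * 2 ^ i ≤ 4 * D * 2 ^ i := Nat.mul_le_mul_right _ (by omega)
            omega
          have hpx := (Finset.mem_Icc.1 hpI).2
          refine ⟨k, Finset.mem_range.2 (by omega), ?_⟩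
          have hx2 : (4 * D * 2 ^ (i₀ + k)) ^ 3 ≤ x ^ 2 := by
            rw [← hk]
            exact (Nat.pow_le_pow_left hJ1 3).trans hJx
          rw [hB k, if_pos hx2, Finset.mem_filter, ← hk]
          exact ⟨hpI, hpp, win_part hD hJK hJ1 hJ2 hps hr⟩
      have hcard := (Finset.card_le_card hsub).trans
        ((Finset.card_union_le _ _).trans (Nat.add_le_add_left Finset.card_biUnion_le _))
      rw [Nat.card_Icc, Nat.add_sub_cancel] at hcard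
      have hcard' : (((Finset.Icc 1 x).filter (fun p : ℕ => p.Prime ∧ ∃ J : ℕ, K ≤ J ∧ J ^ 3 ≤ x ^ 2 ∧
        (((Finset.Icc 1 J).filter (fun g : ℕ => 2 * g + 3 ≤ p ∧
          ¬ (p : ℤ) ∣ (_root_.bernoulli (p - 1 - 2 * g)).num)).card : ℝ) <
          1 / (32 * (D : ℝ)) * Real.sqrt J)).card : ℝ) ≤
          (⌊4 * z ^ 2⌋₊ : ℝ) + ∑ k ∈ Finset.range x, ((B k).card : ℝ) := by
        exact_mod_cast hcard
      refine hcard'.trans ?_
      have h1 : (⌊4 * z ^ 2⌋₊ : ℝ) ≤ 48 * W * X := (Nat.floor_le (by positivity)).trans hsm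
      have h2 : ∑ k ∈ Finset.range x, ((B k).card : ℝ) ≤ 192 * D ^ 2 * (W * X) * S := by
        refine (Finset.sum_le_sum fun k _ => hBcard k).trans ?_
        rw [← Finset.mul_sum]
        exact mul_le_mul_of_nonneg_left (hsum x) (by positivity)
      have h3 : W * X ≤ W * (4 * Nat.primeCounting x) := by
        apply mul_le_mul_of_nonneg_left _ hLK
        rw [hX]
        exact hcheb
      have h4 : (48 + 192 * D ^ 2 * S) * (W * X) ≤
          (48 + 192 * D ^ 2 * S) * (W * (4 * Nat.primeCounting x)) :=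
        mul_le_mul_of_nonneg_left h3 (by positivity)
      have h5 : 0 ≤ 64 * D * (W * (Nat.primeCounting x : ℝ)) := by positivity
      have h6 : (64 * D + 4 * 48 + 4 * (192 * D ^ 2 * S)) * W * (Nat.primeCounting x : ℝ) =
          64 * D * (W * Nat.primeCounting x) +
            (48 + 192 * D ^ 2 * S) * (W * (4 * Nat.primeCounting x)) := by ring
      rw [h6]
      have h7 : 48 * W * X + 192 * D ^ 2 * (W * X) * S = (48 + 192 * D ^ 2 * S) * (W * X) := by ring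
      linarith

end MP_a3a416_nt.GL
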