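import Pool.Agent.Lib.MP_a3a416_nt.GL.Pole
import Pool.Agent.Lib.MP_a3a416_nt.TW.Series

/-!
# GL-Ser
`r_n` as a power series over `ℚ`.  Model: `TW/Series.lean` (copy `hD_sum`, `toPS_taylor`, and `key` for each `a`).
PROOF.  `rG = ∑_a X^a ∑_{b<n} C(n-b) taylor n (QG a b)`; for `b < n` (`key`): `toPS (C (n-b)) * toPS (taylor n (QG a b)) = ∑_{m<S} C (1/(m+1)) * toPS (taylor n (PG a m)) * hD m (jet 1 (n-b))`: multiply by `(X + C (n-b))^(S+1)`, `QG_mul` and
`LJ.hD_jet m : (X + C b)^(m+2) * hD m (jet 1 b) = C (b * (-1)^m * (m+1))`-form.  Then sum over `b`, `vser 1 n = ∑_{1≤b≤n} jet 1 b`.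
-/

namespace MP_a3a416_nt.GL

open Polynomial MP_a3a416_nt.BB MP_a3a416_nt.LJ

private theorem hD_sum {ι : Type} (m : ℕ) (s : Finset ι) (f : ι → PowerSeries ℚ) :
    hD m (∑ i ∈ s, f i) = ∑ i ∈ s, hD m (f i) := by
  ext k
  simp only [hD, PowerSeries.coeff_mk, map_sum, Finset.mul_sum]

private theorem toPS_taylor' (n : ℕ) (q : ℚ) (P : ℤ[X]) :
    ((taylor (n : ℚ) (C q * P.map (Int.castRingHom ℚ)) : ℚ[X]) : PowerSeries ℚ)
      = PowerSeries.C q * toPS (taylor (n : ℤ) P) := by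
  rw [toPS_apply, Polynomial.map_taylor, taylor_mul, taylor_C, Polynomial.coe_mul,
    Polynomial.coe_C]
  simp

private theorem Ser_key {S N N₁ n : ℕ} (c : ℕ × ℕ × ℕ → ℤ) (a : ℕ) (hreg : regG S N N₁ c a = 0)
    (hn : n ≤ N) {b : ℕ} (hbn : b < n) :
    toPS (C ((n : ℤ) - b)) * toPS (taylor (n : ℤ) (QG S N N₁ c a b)) =
      ∑ m ∈ Finset.range S, PowerSeries.C ((((m : ℚ) + 1)⁻¹)) *
        toPS (taylor (n : ℤ) (PG S N N₁ c a m)) * hD m (jet 1 (n - b)) := by
  have hb : 1 ≤ n - b := by omega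
  have hcast : ((n - b : ℕ) : ℚ) = (n : ℚ) - b := by push_cast [Nat.cast_sub hbn.le]; ring
  have hY : (PowerSeries.X + PowerSeries.C ((n - b : ℕ) : ℚ) : PowerSeries ℚ) ≠ 0 := by
    intro h0
    have h1 := congrArg (PowerSeries.coeff 1) h0
    rw [map_add, PowerSeries.coeff_one_X, PowerSeries.coeff_C, if_neg one_ne_zero, add_zero,
      map_zero] at h1
    exact one_ne_zero h1
  have htay : toPS (taylor (n : ℤ) (X - C (b : ℤ))) =
      PowerSeries.X + PowerSeries.C ((n - b : ℕ) : ℚ) := by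
    rw [map_sub, taylor_X, taylor_C, add_sub_assoc, ← C_sub, map_add, toPS_X, toPS_C, hcast]
    push_cast
    rfl
  apply mul_left_cancel₀ (pow_ne_zero (S + 1) hY)
  have hq := congrArg (fun P => toPS (taylor (n : ℤ) P))
    (QG_mul c a hreg (lt_of_lt_of_le hbn hn))
  have hneg : toPS (taylor (n : ℤ) (C (-1 : ℤ))) = -1 := by
    rw [taylor_C, toPS_C]
    simp
  simp only [taylor_mul, map_mul, taylor_pow, map_pow, htay, map_sum, hneg] at hq
  calc _ = toPS (C ((n : ℤ) - b)) * ((PowerSeries.X + PowerSeries.C ((n - b : ℕ) : ℚ)) ^ (S + 1) *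
        toPS (taylor (n : ℤ) (QG S N N₁ c a b))) := by ring
    _ = _ := by
      rw [hq, Finset.mul_sum, Finset.mul_sum]
      refine Finset.sum_congr rfl (fun m hm => ?_)
      rw [Finset.mem_range] at hm
      have he : S + 1 = (S - 1 - m) + (m + 2) := by omega
      have hj := hD_jet m hb
      rw [he, pow_add]
      rw [show (PowerSeries.X + PowerSeries.C ((n - b : ℕ) : ℚ)) ^ (S - 1 - m) *
          (PowerSeries.X + PowerSeries.C ((n - b : ℕ) : ℚ)) ^ (m + 2) *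
          (PowerSeries.C ((((m : ℚ) + 1)⁻¹)) * toPS (taylor (n : ℤ) (PG S N N₁ c a m)) *
            hD m (jet 1 (n - b))) =
          (PowerSeries.X + PowerSeries.C ((n - b : ℕ) : ℚ)) ^ (S - 1 - m) *
          PowerSeries.C ((((m : ℚ) + 1)⁻¹)) * toPS (taylor (n : ℤ) (PG S N N₁ c a m)) *
          ((PowerSeries.X + PowerSeries.C ((n - b : ℕ) : ℚ)) ^ (m + 2) *
            hD m (jet 1 (n - b))) by ring, hj]
      have hm0 : ((m : ℚ) + 1) ≠ 0 := by positivity
      have hc1 : PowerSeries.C ((((m : ℚ) + 1)⁻¹)) *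
          PowerSeries.C (((n - b : ℕ) : ℚ) * ((-1) ^ m * ((m : ℚ) + 1))) =
          PowerSeries.C (((n - b : ℕ) : ℚ)) * PowerSeries.C ((-1 : ℚ) ^ m) := by
        rw [← map_mul, ← map_mul]
        congr 1
        field_simp
      rw [toPS_C]
      have hc2 : PowerSeries.C (((((n : ℤ) - (b : ℤ)) : ℤ) : ℚ)) = PowerSeries.C (((n - b : ℕ) : ℚ)) := by
        rw [hcast]
        push_cast
        rfl
      have hc3 : PowerSeries.C ((-1 : ℚ) ^ m) = (-1 : PowerSeries ℚ) ^ m := by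
        rw [map_pow, map_neg, map_one]
      rw [hc2]
      calc _ = (PowerSeries.X + PowerSeries.C ((n - b : ℕ) : ℚ)) ^ (S - 1 - m) *
            toPS (taylor (n : ℤ) (PG S N N₁ c a m)) *
            (PowerSeries.C (((n - b : ℕ) : ℚ)) * PowerSeries.C ((-1 : ℚ) ^ m)) := by
            rw [hc3]; ring
        _ = _ := by rw [← hc1]; ring

theorem rG_series {A S N N₁ n : ℕ} (c : ℕ × ℕ × ℕ → ℤ) (hreg : REG A S N N₁ c) (hn : n ≤ N) :
    (((rG A S N N₁ c n).map (Int.castRingHom ℚ) : ℚ[X]) : PowerSeries ℚ) =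
      ∑ a ∈ Finset.range A, (PowerSeries.X : PowerSeries ℚ) ^ a * ∑ m ∈ Finset.range S,
        ((taylor (n : ℚ) (C (((m : ℚ) + 1)⁻¹) * (PG S N N₁ c a m).map (Int.castRingHom ℚ)) : ℚ[X]) :
          PowerSeries ℚ) * LJ.hD m (vser 1 n) := by
  simp only [toPS_taylor']
  rw [← toPS_apply]
  unfold rG vser
  simp only [hD_sum, one_mul]
  rw [map_sum]
  refine Finset.sum_congr rfl fun a ha => ?_
  rw [Finset.mem_range] at ha
  rw [map_mul, map_pow, toPS_X]
  congr 1
  simp only [map_sum, map_mul, Finset.mul_sum]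
  rw [Finset.sum_comm]
  rw [Finset.sum_congr rfl (fun b hb => Ser_key c a (hreg a ha) hn (Finset.mem_range.1 hb))]
  refine Finset.sum_bij' (fun a _ => n - a) (fun b _ => n - b) ?_ ?_ ?_ ?_ ?_
  · intro a ha
    rw [Finset.mem_range] at ha
    rw [Finset.mem_Icc]
    omega
  · intro b hb
    rw [Finset.mem_Icc] at hb
    rw [Finset.mem_range]
    omega
  · intro a ha
    rw [Finset.mem_range] at ha
    omega
  · intro b hb
    rw [Finset.mem_Icc] at hb
    omega
  · intro a ha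
    rfl

end MP_a3a416_nt.GL
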