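import Pool.Agent.Lib.MP_a3a416_nt.GL.RT

/-!
# GL-RE
The extra vectors: `l = 0`: `g_{a*}` with the largest `m*` such that some `P_{a*,m*} ≠ 0`; `l = i + 1`: `X^(1+m_i) g_{a_i}` (`(a_i, m_i) = (sa i, sm i)`).
PROOF.  Let `ms` be the largest `m < S` such that `lam a m d ≠ 0` for some `a < A`, `d`; `a*`, `d*` with `lam a* ms d* ≠ 0`.  `E 0 k := C (mu (inl a*) k)`, `E (i+1) k := X^(1 + sm i) * C (mu (inl (sa i)) k)` (`Fin.cons`), so by `hmu`:
`∑_k E 0 k Γ k d = gG a* d` and `∑_k E (i+1) k Γ k d = X^(1 + sm i) * gG (sa i) d`.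
Let `α` with `X^(S+1) ∣ f_d := C (α 0) * gG a* d + ∑_i C (α (i+1)) * X^(1+sm i) * gG (sa i) d` for all `d`.  Coefficient `S - 1 - ms` of `f_{d*}` (`≤ S`, so it is `0`): the first term gives `α 0 * c_ms * lam a* ms d*` (`gG_coeff`); the coefficient
`S - 1 - ms` of `X^(1+sm i) * gG (sa i) d` is `0`: either `1 + sm i > S - 1 - ms` or it is the coefficient `S - 1 - ms - 1 - sm i = S - 1 - (ms + 1 + sm i)` of `gG`, equal to `c * lam (sa i) (ms+1+sm i) d = 0` by maximality (`ms + 1 + sm i < S` here).  So `α 0 = 0`.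
Coefficient `S` of `f_d`: coefficient `S - 1 - sm i` of `gG (sa i) d`, equal to `c_{sm i} * lam (sa i) (sm i) d = c_{sm i} * (if i = d then 1 else 0)`; so `α (d+1) * c_{sm d} = 0`, `α (d+1) = 0`.
-/

namespace MP_a3a416_nt.GL

open Polynomial

theorem exists_E {ν R : ℕ} {A S : ℕ} (lam : ℕ → ℕ → Fin R → ℚ) (mu : Fin A ⊕ Fin A → Fin ν → ℚ)
    (Γ : Fin ν → Fin R → ℚ[X]) (hmu : ∀ s d, wG A S lam s d = ∑ k, C (mu s k) * Γ k d)
    (hne : ∃ a < A, ∃ m < S, ∃ d, lam a m d ≠ 0) (sa sm : Fin R → ℕ) (hs : ∀ i, sa i < A ∧ sm i < S)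
    (hdelta : ∀ i d, lam (sa i) (sm i) d = if i = d then 1 else 0) :
    ∃ E : Fin (R + 1) → Fin ν → ℚ[X],
      ∀ α : Fin (R + 1) → ℚ, (∀ d, X ^ (S + 1) ∣ ∑ l, C (α l) * ∑ k, E l k * Γ k d) → α = 0 := by
  classical
  obtain ⟨ms, hmsS, ⟨as, has, ds, hds⟩, hmax⟩ : ∃ ms, ms < S ∧
      (∃ a < A, ∃ d, lam a ms d ≠ 0) ∧ ∀ m, m < S → ms < m → ∀ a < A, ∀ d, lam a m d = 0 := by
    obtain ⟨a, ha, m, hm, d, hne'⟩ := hne
    have hP : ∃ a < A, ∃ d, lam a m d ≠ 0 := ⟨a, ha, d, hne'⟩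
    refine ⟨Nat.findGreatest (fun m => ∃ a < A, ∃ d, lam a m d ≠ 0) (S - 1), ?_, ?_, ?_⟩
    · have := Nat.findGreatest_le (P := fun m => ∃ a < A, ∃ d, lam a m d ≠ 0) (S - 1)
      omega
    · exact Nat.findGreatest_spec (P := fun m => ∃ a < A, ∃ d, lam a m d ≠ 0) (m := m)
        (by omega) hP
    · intro m' hm' hlt a' ha' d'
      have h := Nat.findGreatest_is_greatest hlt (by omega)
      by_contra hne2
      exact h ⟨a', ha', d', hne2⟩
  let E0 : Fin ν → ℚ[X] := fun k => C (mu (Sum.inl ⟨as, has⟩) k)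
  let E1 : Fin R → Fin ν → ℚ[X] := fun i k => X ^ (1 + sm i) * C (mu (Sum.inl ⟨sa i, (hs i).1⟩) k)
  refine ⟨Fin.cons E0 E1, ?_⟩
  intro α hα
  have hl : ∀ (a : ℕ) (ha : a < A) (d : Fin R),
      ∑ k, C (mu (Sum.inl ⟨a, ha⟩) k) * Γ k d = gG S lam a d :=
    fun a ha d => (hmu (Sum.inl ⟨a, ha⟩) d).symm
  have hf : ∀ d, ∑ l, C (α l) * ∑ k, (Fin.cons E0 E1 : Fin (R + 1) → Fin ν → ℚ[X]) l k * Γ k d =
      C (α 0) * gG S lam as d + ∑ i : Fin R, C (α i.succ) * (X ^ (1 + sm i) * gG S lam (sa i) d) := by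
    intro d
    rw [Fin.sum_univ_succ]
    congr 1
    · rw [Fin.cons_zero, hl as has d]
    · refine Finset.sum_congr rfl fun i _ => ?_
      rw [Fin.cons_succ]
      congr 1
      rw [← hl (sa i) (hs i).1 d, Finset.mul_sum]
      refine Finset.sum_congr rfl fun k _ => ?_
      show X ^ (1 + sm i) * C (mu (Sum.inl ⟨sa i, (hs i).1⟩) k) * Γ k d = _
      rw [mul_assoc]
  have hco : ∀ (d : Fin R) (j : ℕ), j < S + 1 → α 0 * (gG S lam as d).coeff j +
      ∑ i : Fin R, α i.succ * (X ^ (1 + sm i) * gG S lam (sa i) d).coeff j = 0 := by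
    intro d j hj
    have h := X_pow_dvd_iff.1 (hα d) j hj
    rw [hf d, coeff_add, coeff_C_mul, finsetSum_coeff] at h
    simp only [coeff_C_mul] at h
    exact h
  have hcc : ∀ m, ((TW.cc m : ℤ) : ℚ) ≠ 0 := fun m => by exact_mod_cast TW.cc_ne m
  have hα0 : α 0 = 0 := by
    have h := hco ds (S - 1 - ms) (by omega)
    rw [gG_coeff S lam as ds hmsS, Finset.sum_eq_zero, add_zero] at h
    · rcases mul_eq_zero.1 h with h1 | h1
      · exact h1
      · exact absurd h1 (mul_ne_zero (hcc ms) hds)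
    · intro i _
      rw [coeff_X_pow_mul']
      split_ifs with hle
      · have he : S - 1 - ms - (1 + sm i) = S - 1 - (ms + 1 + sm i) := by omega
        rw [he, gG_coeff S lam (sa i) ds (by omega : ms + 1 + sm i < S),
          hmax (ms + 1 + sm i) (by omega) (by omega) (sa i) (hs i).1 ds, mul_zero, mul_zero]
      · rw [mul_zero]
  have hα1 : ∀ d : Fin R, α d.succ = 0 := by
    intro d
    have h := hco d S (by omega)
    rw [hα0, zero_mul, zero_add, Finset.sum_eq_single d] at h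
    · rw [coeff_X_pow_mul', if_pos (by have := (hs d).2; omega)] at h
      have he : S - (1 + sm d) = S - 1 - sm d := by omega
      rw [he, gG_coeff S lam (sa d) d (hs d).2, hdelta d d, if_pos rfl, mul_one] at h
      rcases mul_eq_zero.1 h with h1 | h1
      · exact h1
      · exact absurd h1 (hcc _)
    · intro i _ hi
      rw [coeff_X_pow_mul', if_pos (by have := (hs i).2; omega)]
      have he : S - (1 + sm i) = S - 1 - sm i := by omega
      rw [he, gG_coeff S lam (sa i) d (hs i).2, hdelta i d, if_neg hi, mul_zero, mul_zero]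
    · intro h1
      exact absurd (Finset.mem_univ _) h1
  funext l
  refine Fin.cases ?_ ?_ l
  · exact hα0
  · exact hα1

end MP_a3a416_nt.GL
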