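import Pool.Agent.Lib.MP_a3a416_nt.GL.RQ

/-!
# GL-RH
The recursion of the series `HG`, and the zeros.
PROOF of `HG_rec`.  Left side: `∑_a X^a ∑_m C (lam a m d) (X + C(n+1))^(S+1) (h m (n+1) - h m n)`, and `(X+C(n+1))^(S+1) = (X+C(n+1))^(S-1-m) (X+C(n+1))^(m+2)`, so by `hh` it is
`∑_a X^a ∑_m C (lam a m d) C ((n+1) c_m) (X+C(n+1))^(S-1-m) = ∑_a X^a C(n+1) * taylor (n+1) (gG a d)` (`gG_taylor`).  `C (n+1) = (X + C (n+1)) - X`, so it is `∑_a X^a (taylor (n+1) (wG (inr a) d) - X * taylor (n+1) (wG (inl a) d))`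
(`taylor x (X * q) = (X + C x) * taylor x q`), and inserting `hmu` (`taylor` is linear) it is `∑_k tauG k * taylor (n+1) (Γ k d)`.  (Coercion polynomial → power series: `Polynomial.coeToPowerSeries.ringHom`, see `zr_hh` in `TW/ZRed.lean`.)
`HG_sum`: insert `hlam`, exchange sums (see `zr_hz` in `TW/ZRed.lean`).
-/

namespace MP_a3a416_nt.GL

open Polynomial

private theorem RH_coe_sum {κ : Type*} (s : Finset κ) (f : κ → ℚ[X]) :
    ((∑ i ∈ s, f i : ℚ[X]) : PowerSeries ℚ) = ∑ i ∈ s, (f i : PowerSeries ℚ) := by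
  rw [← Polynomial.coeToPowerSeries.ringHom_apply, map_sum]
  rfl

/-- the polynomial identity -/
private theorem RH_poly {ν R : ℕ} {A S : ℕ} (lam : ℕ → ℕ → Fin R → ℚ)
    (mu : Fin A ⊕ Fin A → Fin ν → ℚ) (Γ : Fin ν → Fin R → ℚ[X])
    (hmu : ∀ s d, wG A S lam s d = ∑ k, C (mu s k) * Γ k d) (d : Fin R) (x : ℚ) :
    ∑ a ∈ Finset.range A, X ^ a * (C x * taylor x (gG S lam a d)) =
      ∑ k, tauG A mu k * taylor x (Γ k d) := by
  rw [Finset.sum_range]
  have h1 : ∀ a : Fin A, C x * taylor x (gG S lam a d) =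
      ∑ k, (C (mu (Sum.inr a) k) - X * C (mu (Sum.inl a) k)) * taylor x (Γ k d) := by
    intro a
    have e1 := congrArg (taylor x) (hmu (Sum.inl a) d)
    have e2 := congrArg (taylor x) (hmu (Sum.inr a) d)
    have w1 : wG A S lam (Sum.inl a) d = gG S lam a d := rfl
    have w2 : wG A S lam (Sum.inr a) d = X * gG S lam a d := rfl
    rw [w1, map_sum] at e1
    rw [w2, map_sum, taylor_mul, taylor_X] at e2
    simp only [taylor_mul, taylor_C] at e1 e2
    have h2 : C x * taylor x (gG S lam a d) =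
        (X + C x) * taylor x (gG S lam a d) - X * taylor x (gG S lam a d) := by ring
    rw [h2, e2, e1, Finset.mul_sum, ← Finset.sum_sub_distrib]
    refine Finset.sum_congr rfl fun k _ => ?_
    ring
  simp_rw [h1]
  unfold tauG
  simp_rw [Finset.mul_sum, Finset.sum_mul]
  rw [Finset.sum_comm]
  refine Finset.sum_congr rfl fun k _ => Finset.sum_congr rfl fun a _ => ?_
  ring

theorem HG_rec {ν R : ℕ} {A S : ℕ} (lam : ℕ → ℕ → Fin R → ℚ) (h : ℕ → ℕ → PowerSeries ℚ)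
    (hh : ∀ m < S, ∀ n : ℕ, (PowerSeries.X + PowerSeries.C ((n : ℚ) + 1)) ^ (m + 2) * (h m (n + 1) - h m n) =
      PowerSeries.C (((n : ℚ) + 1) * ((TW.cc m : ℤ) : ℚ)))
    (mu : Fin A ⊕ Fin A → Fin ν → ℚ) (Γ : Fin ν → Fin R → ℚ[X])
    (hmu : ∀ s d, wG A S lam s d = ∑ k, C (mu s k) * Γ k d) (d : Fin R) (n : ℕ) :
    (PowerSeries.X + PowerSeries.C ((n : ℚ) + 1)) ^ (S + 1) * (HG A S lam h d (n + 1) - HG A S lam h d n) =
      ((∑ k, tauG A mu k * taylor ((n : ℚ) + 1) (Γ k d) : ℚ[X]) : PowerSeries ℚ) := by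
  rw [← RH_poly lam mu Γ hmu d ((n : ℚ) + 1), RH_coe_sum]
  unfold HG
  rw [← Finset.sum_sub_distrib, Finset.mul_sum]
  refine Finset.sum_congr rfl fun a _ => ?_
  rw [Polynomial.coe_mul, Polynomial.coe_pow, Polynomial.coe_X, Polynomial.coe_mul,
    Polynomial.coe_C, gG_taylor, RH_coe_sum, ← mul_sub, ← Finset.sum_sub_distrib, mul_left_comm]
  congr 1
  rw [Finset.mul_sum, Finset.mul_sum]
  refine Finset.sum_congr rfl fun m hm => ?_
  rw [Finset.mem_range] at hm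
  rw [← mul_sub, Polynomial.coe_mul, Polynomial.coe_pow, Polynomial.coe_add, Polynomial.coe_X,
    Polynomial.coe_C, Polynomial.coe_C]
  have e1 : S + 1 = (S - 1 - m) + (m + 2) := by omega
  have h1 := hh m hm n
  rw [e1, pow_add]
  calc (PowerSeries.X + PowerSeries.C ((n : ℚ) + 1)) ^ (S - 1 - m) *
        (PowerSeries.X + PowerSeries.C ((n : ℚ) + 1)) ^ (m + 2) *
        (PowerSeries.C (lam a m d) * (h m (n + 1) - h m n))
      = (PowerSeries.X + PowerSeries.C ((n : ℚ) + 1)) ^ (S - 1 - m) * PowerSeries.C (lam a m d) *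
        ((PowerSeries.X + PowerSeries.C ((n : ℚ) + 1)) ^ (m + 2) * (h m (n + 1) - h m n)) := by
        ring
    _ = _ := by
        rw [h1, map_mul, map_mul]
        ring

theorem HG_sum {R : ℕ} {A S : ℕ} (P : ℕ → ℕ → ℚ[X]) (Pb : Fin R → ℚ[X]) (lam : ℕ → ℕ → Fin R → ℚ)
    (hlam : ∀ a < A, ∀ m < S, P a m = ∑ d, C (lam a m d) * Pb d) (h : ℕ → ℕ → PowerSeries ℚ) (n : ℕ) :
    ∑ d, ((taylor (n : ℚ) (Pb d) : ℚ[X]) : PowerSeries ℚ) * HG A S lam h d n =
      ∑ a ∈ Finset.range A, (PowerSeries.X : PowerSeries ℚ) ^ a *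
        ∑ m ∈ Finset.range S, ((taylor (n : ℚ) (P a m) : ℚ[X]) : PowerSeries ℚ) * h m n := by
  unfold HG
  simp_rw [Finset.mul_sum]
  rw [Finset.sum_comm]
  refine Finset.sum_congr rfl fun a ha => ?_
  rw [Finset.sum_comm]
  refine Finset.sum_congr rfl fun m hm => ?_
  rw [Finset.mem_range] at ha hm
  have h1 : ((taylor (n : ℚ) (P a m) : ℚ[X]) : PowerSeries ℚ) =
      ∑ d, PowerSeries.C (lam a m d) * ((taylor (n : ℚ) (Pb d) : ℚ[X]) : PowerSeries ℚ) := by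
    rw [hlam a ha m hm, map_sum, RH_coe_sum]
    refine Finset.sum_congr rfl fun d _ => ?_
    rw [taylor_mul, taylor_C, Polynomial.coe_mul, Polynomial.coe_C]
  rw [h1, Finset.sum_mul, Finset.mul_sum]
  refine Finset.sum_congr rfl fun d _ => ?_
  ring

end MP_a3a416_nt.GL
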