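import Mathlib

/-!
# GL-ZBas
Subfamilies which are bases.
PROOF.  `basis_lemma`: copy `zr_basis` of `TW/ZRed.lean` with an arbitrary finite index type `ι`.
`exists_basisP`: `basis_lemma` for `p : Fin A × Fin S → ℚ[X]`, `p (a, m) = P a m`; `lam a m d := if h : a < A ∧ m < S then lam' (⟨a, h.1⟩, ⟨m, h.2⟩) d else 0`; `c • q = C c * q` (`smul_eq_C_mul`).
`exists_basisW`: `basis_lemma` for `w : Fin A ⊕ Fin A → (Fin R → ℚ[X])`; `card = 2 A`; linear independence of `w ∘ sel` gives the statement about `ζ` (`Fintype.linearIndependent_iff`, apply `funext`).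
-/

namespace MP_a3a416_nt.GL

open Polynomial

theorem basis_lemma {V ι : Type*} [Fintype ι] [AddCommGroup V] [Module ℚ V] (p : ι → V) :
    ∃ (R : ℕ) (a : Fin R → ι) (lam : ι → Fin R → ℚ), R ≤ Fintype.card ι ∧
      LinearIndependent ℚ (p ∘ a) ∧ (∀ m, p m = ∑ i, lam m i • p (a i)) ∧
      ∀ i i', lam (a i) i' = if i = i' then 1 else 0 := by
  classical
  obtain ⟨κ, a, ha, hspan, hli⟩ := exists_linearIndependent' ℚ p
  have : Finite κ := Finite.of_injective a ha
  have := Fintype.ofFinite κ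
  have hli' : LinearIndependent ℚ (p ∘ (a ∘ (Fintype.equivFin κ).symm)) := by
    have := hli.comp _ (Fintype.equivFin κ).symm.injective
    exact this
  have hspan' : ∀ m, ∃ c : Fin (Fintype.card κ) → ℚ,
      ∑ i, c i • p (a ((Fintype.equivFin κ).symm i)) = p m := by
    intro m
    have h1 : p m ∈ Submodule.span ℚ (Set.range (p ∘ a)) := by
      rw [hspan]
      exact Submodule.subset_span ⟨m, rfl⟩
    obtain ⟨c, hc⟩ := (Submodule.mem_span_range_iff_exists_fun ℚ).1 h1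
    refine ⟨fun i => c ((Fintype.equivFin κ).symm i), ?_⟩
    rw [← hc]
    exact Fintype.sum_equiv (Fintype.equivFin κ).symm _ _ fun i => rfl
  choose lam hlam using hspan'
  refine ⟨Fintype.card κ, a ∘ (Fintype.equivFin κ).symm, lam, ?_, hli', fun m => (hlam m).symm, ?_⟩
  · exact Fintype.card_le_of_injective a ha
  · intro i i'
    have h2 : ∑ j, (lam ((a ∘ (Fintype.equivFin κ).symm) i) j - if i = j then 1 else 0) •
        (p ∘ (a ∘ (Fintype.equivFin κ).symm)) j = 0 := by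
      simp_rw [sub_smul, Finset.sum_sub_distrib, ite_smul, one_smul, zero_smul]
      rw [Finset.sum_ite_eq Finset.univ i, if_pos (Finset.mem_univ _), sub_eq_zero]
      exact hlam _
    have h3 := Fintype.linearIndependent_iff.1 hli' _ h2 i'
    exact sub_eq_zero.1 h3

theorem exists_basisP (A S : ℕ) (P : ℕ → ℕ → ℚ[X]) :
    ∃ (R : ℕ) (sa sm : Fin R → ℕ) (lam : ℕ → ℕ → Fin R → ℚ), R ≤ A * S ∧
      (∀ i, sa i < A ∧ sm i < S) ∧ LinearIndependent ℚ (fun i => P (sa i) (sm i)) ∧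
      (∀ a < A, ∀ m < S, P a m = ∑ d, C (lam a m d) * P (sa d) (sm d)) ∧
      ∀ i d, lam (sa i) (sm i) d = if i = d then 1 else 0 := by
  classical
  obtain ⟨R, sel, lam, hR, hli, hlam, hdel⟩ :=
    basis_lemma (fun x : Fin A × Fin S => P (x.1 : ℕ) (x.2 : ℕ))
  refine ⟨R, fun i => ((sel i).1 : ℕ), fun i => ((sel i).2 : ℕ),
    fun a m d => if h : a < A ∧ m < S then lam (⟨a, h.1⟩, ⟨m, h.2⟩) d else 0, ?_, ?_, hli, ?_, ?_⟩
  · simpa using hR
  · exact fun i => ⟨(sel i).1.isLt, (sel i).2.isLt⟩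
  · intro a ha m hm
    have h1 := hlam (⟨a, ha⟩, ⟨m, hm⟩)
    dsimp only at h1
    rw [h1]
    refine Finset.sum_congr rfl fun d _ => ?_
    beta_reduce
    rw [dif_pos (And.intro ha hm), smul_eq_C_mul]
  · intro i d
    beta_reduce
    rw [dif_pos (And.intro (sel i).1.isLt (sel i).2.isLt)]
    exact hdel i d

theorem exists_basisW {R A : ℕ} (w : Fin A ⊕ Fin A → Fin R → ℚ[X]) :
    ∃ (ν : ℕ) (sel : Fin ν → Fin A ⊕ Fin A) (mu : Fin A ⊕ Fin A → Fin ν → ℚ), ν ≤ 2 * A ∧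
      (∀ ζ : Fin ν → ℚ, (∀ d, ∑ k, C (ζ k) * w (sel k) d = 0) → ζ = 0) ∧
      ∀ s d, w s d = ∑ k, C (mu s k) * w (sel k) d := by
  obtain ⟨ν, sel, mu, hν, hli, hmu, -⟩ := basis_lemma w
  refine ⟨ν, sel, mu, ?_, ?_, ?_⟩
  · refine hν.trans (le_of_eq ?_)
    rw [Fintype.card_sum, Fintype.card_fin, two_mul]
  · intro ζ hζ
    funext k
    refine Fintype.linearIndependent_iff.1 hli ζ ?_ k
    funext d
    rw [Finset.sum_apply]
    rw [Pi.zero_apply, ← hζ d]
    refine Finset.sum_congr rfl fun k _ => ?_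
    rw [Pi.smul_apply, smul_eq_C_mul]
    rfl
  · intro s d
    have h1 := congrFun (hmu s) d
    rw [Finset.sum_apply] at h1
    rw [h1]
    refine Finset.sum_congr rfl fun k _ => ?_
    rw [Pi.smul_apply, smul_eq_C_mul]

end MP_a3a416_nt.GL
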