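import Pool.Agent.Lib.MP_a3a416_nt.GL.ZV
import Pool.Agent.Lib.MP_a3a416_nt.GL.ZBas
import Pool.Agent.Lib.MP_a3a416_nt.GL.RH
import Pool.Agent.Lib.MP_a3a416_nt.GL.RE

/-!
# GL-ZU
THE ZERO ESTIMATE for `∑_{a<A} t^a ∑_{m<S} P_{a,m}(n+t) h_{m,n}(t)`.
PROOF.  `exists_basisP A S P` gives `R, sa, sm, lam`, `Pb d = P (sa d) (sm d)`.  `hne`: some `lam a m d ≠ 0` (`a < A`, `m < S`) because some `P a m ≠ 0`; so `R ≥ 1`.  `exists_basisW (wG A S lam)` gives `ν, sel, mu`, `Γ k = wG A S lam (sel k)`;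
`ν ≥ 1` because `tauG_ne` gives some `k : Fin ν`.  Apply `zeroV` with `M = S + 1`, `o = A`, `L = R + 1`, `Q k b = qG A Q (sel k) b` (`qG_mul`), `τ = tauG A mu`, `H = HG A S lam h` (`HG_rec`, `HG_sum` and `hz`), `E` of `exists_E`, `wG_natDegree`.
`T - A + (R + 1) = T - A + R + 1`.
-/

namespace MP_a3a416_nt.GL

open Polynomial

theorem zeroU (A S N T D : ℕ) (h : ℕ → ℕ → PowerSeries ℚ)
    (hh : ∀ m < S, ∀ n : ℕ, (PowerSeries.X + PowerSeries.C ((n : ℚ) + 1)) ^ (m + 2) * (h m (n + 1) - h m n) =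
      PowerSeries.C (((n : ℚ) + 1) * ((TW.cc m : ℤ) : ℚ)))
    (P : ℕ → ℕ → ℚ[X]) (hdeg : ∀ a < A, ∀ m < S, (P a m).natDegree < D) (hne : ∃ a < A, ∃ m < S, P a m ≠ 0)
    (Q : ℕ → ℕ → ℚ[X])
    (hQ : ∀ a < A, ∀ b < N, (X - C (b : ℚ)) ^ (S + 1) * Q a b =
      ∑ m ∈ Finset.range S, C ((TW.cc m : ℤ) : ℚ) * P a m * (X - C (b : ℚ)) ^ (S - 1 - m))
    (hz : ∀ n < N, (PowerSeries.X : PowerSeries ℚ) ^ T ∣
      ∑ a ∈ Finset.range A, (PowerSeries.X : PowerSeries ℚ) ^ a *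
        ∑ m ∈ Finset.range S, ((taylor (n : ℚ) (P a m) : ℚ[X]) : PowerSeries ℚ) * h m n) :
    ∃ ν R, 1 ≤ ν ∧ ν ≤ 2 * A ∧ 1 ≤ R ∧ R ≤ A * S ∧
      (N + 1 - (ν + R)) * (T - A + R + 1) ≤ (ν + R) * (D - 1) := by
  obtain ⟨R, sa, sm, lam, hR, hs, hli, hlam, hdelta⟩ := exists_basisP A S P
  have hne' : ∃ a < A, ∃ m < S, ∃ d, lam a m d ≠ 0 := by
    obtain ⟨a, ha, m, hm, hP⟩ := hne
    refine ⟨a, ha, m, hm, ?_⟩
    by_contra hcon
    push Not at hcon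
    apply hP
    rw [hlam a ha m hm]
    refine Finset.sum_eq_zero fun d _ => ?_
    rw [hcon d, C_0, zero_mul]
  have hR1 : 1 ≤ R := by
    obtain ⟨a, _, m, _, d, _⟩ := hne'
    have := d.isLt
    omega
  obtain ⟨ν, sel, mu, hν, hΓ0, hmu⟩ := exists_basisW (wG A S lam)
  obtain ⟨k, hk⟩ := tauG_ne lam mu (fun k => wG A S lam (sel k)) hmu hne'
  obtain ⟨E, hE⟩ := exists_E lam mu (fun k => wG A S lam (sel k)) hmu hne' sa sm hs hdelta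
  have hν1 : 1 ≤ ν := by
    have := k.isLt
    omega
  refine ⟨ν, R, hν1, hν, hR1, hR, ?_⟩
  exact zeroV (M := S + 1) (o := A) (L := R + 1) (N := N) (T := T) (D := D)
    (fun d => P (sa d) (sm d)) (fun k => wG A S lam (sel k)) (fun k b => qG A Q (sel k) b)
    (tauG A mu) (HG A S lam h) E hR1 hli (fun d => hdeg _ (hs d).1 _ (hs d).2)
    (fun k d => wG_natDegree A S lam (sel k) d) hΓ0
    (fun k b hb => qG_mul P Q (fun d => P (sa d) (sm d)) lam hlam hQ (sel k) b hb)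
    (fun d n => HG_rec lam h hh mu (fun k => wG A S lam (sel k)) hmu d n)
    (fun n hn => by
      rw [HG_sum P (fun d => P (sa d) (sm d)) lam hlam h n]
      exact hz n hn) ⟨k, hk⟩ hE

end MP_a3a416_nt.GL
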