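import Pool.Agent.Lib.MP_a3a416_nt.GL.Basis
import Pool.Agent.Lib.MP_a3a416_nt.GL.Ser
import Pool.Agent.Lib.MP_a3a416_nt.GL.ZU

/-!
# GL-NotZ
Not all jets vanish.  Model: `TW/NotZero.lean`.
PROOF.  Suppose all coefficients of order `< T` of `rG n`, `n < N`, vanish.  `zeroU` with `D = N + N₁`, `h m n = LJ.hD m (vser 1 n)` (`hh` as in `TW/NotZero.lean` with `e = 0`), `P a m = C((m+1)⁻¹) * (PG a m).map` (degree: `natDegree_PG_lt`; not all zero:
`exists_PG_ne`), `Q a b = (QG a b).map`; `hQ` from `QG_mul` mapped to `ℚ`: `C((-1)^m) * PG = C(cc m) * (C((m+1)⁻¹) * PG)` as `TW.cc m = (-1)^m (m+1)`; `hz` from `rG_series`.  The conclusion contradicts `hZ ν R`.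
-/

namespace MP_a3a416_nt.GL

open Polynomial MP_a3a416_nt.BB

private theorem NotZ_coeff (m : ℕ) (f : PowerSeries ℚ) (k : ℕ) :
    PowerSeries.coeff k (LJ.hD m f) = ((k + m).choose m : ℚ) * PowerSeries.coeff (k + m) f := by
  unfold LJ.hD
  rw [PowerSeries.coeff_mk]

private theorem NotZ_sub (m : ℕ) (f g : PowerSeries ℚ) : LJ.hD m (f - g) = LJ.hD m f - LJ.hD m g := by
  ext k
  rw [map_sub, NotZ_coeff, NotZ_coeff, NotZ_coeff, map_sub, mul_sub]

theorem not_zero {A S N N₁ T : ℕ} (hN₁ : 1 ≤ N₁)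
    (hZ : ∀ ν R, 1 ≤ ν → ν ≤ 2 * A → 1 ≤ R → R ≤ A * S →
      (ν + R) * (N + N₁ - 1) < (N + 1 - (ν + R)) * (T - A + R + 1))
    (c : ℕ × ℕ × ℕ → ℤ) (hc : ∃ y ∈ ixG A S N₁, c y ≠ 0) (hreg : REG A S N N₁ c) :
    ∃ n < N, ∃ i < T, (rG A S N N₁ c n).coeff i ≠ 0 := by
  by_contra hcon
  push Not at hcon
  have hinj : Function.Injective (Int.castRingHom ℚ) := Int.cast_injective
  obtain ⟨ν, R, hν1, hν2, hR1, hR2, h5⟩ := zeroU A S N T (N + N₁) (fun m n => LJ.hD m (vser 1 n))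
    (by
      intro m _ n
      show (PowerSeries.X + PowerSeries.C ((n : ℚ) + 1)) ^ (m + 2) *
        (LJ.hD m (vser 1 (n + 1)) - LJ.hD m (vser 1 n)) = _
      have h1 := vser_succ_sub 1 n
      rw [Finset.Icc_self, Finset.sum_singleton, one_mul] at h1
      rw [← NotZ_sub, h1]
      have h2 := LJ.hD_jet m (b := n + 1) (by omega)
      unfold TW.cc
      push_cast at h2 ⊢
      exact h2)
    (fun a m => C (((m : ℚ) + 1)⁻¹) * (PG S N N₁ c a m).map (Int.castRingHom ℚ))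
    (fun a _ m _ => lt_of_le_of_lt ((natDegree_C_mul_le _ _).trans natDegree_map_le)
      (natDegree_PG_lt hN₁ c a m))
    (by
      obtain ⟨a, ha, m, hm, hne⟩ := exists_PG_ne c hc hreg
      refine ⟨a, ha, m, hm, mul_ne_zero ?_ ((Polynomial.map_ne_zero_iff hinj).2 hne)⟩
      rw [Ne, C_eq_zero]
      positivity)
    (fun a b => (QG S N N₁ c a b).map (Int.castRingHom ℚ))
    (by
      intro a ha b hb
      have h1 := congrArg (Polynomial.map (Int.castRingHom ℚ)) (QG_mul c a (hreg a ha) hb)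
      rw [Polynomial.map_mul, Polynomial.map_pow, Polynomial.map_sub, Polynomial.map_X,
        Polynomial.map_C, Polynomial.map_sum] at h1
      have e1 : (Int.castRingHom ℚ) ((b : ℕ) : ℤ) = (b : ℚ) := by simp
      rw [e1] at h1
      rw [h1]
      refine Finset.sum_congr rfl fun m _ => ?_
      rw [Polynomial.map_mul, Polynomial.map_mul, Polynomial.map_pow, Polynomial.map_sub,
        Polynomial.map_X, Polynomial.map_C, Polynomial.map_C, e1, ← mul_assoc (C _) (C _), ← C_mul]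
      have e2 : ((TW.cc m : ℤ) : ℚ) * ((m : ℚ) + 1)⁻¹ = (Int.castRingHom ℚ) ((-1) ^ m) := by
        unfold TW.cc
        have h3 : ((m : ℚ) + 1) ≠ 0 := by positivity
        push_cast
        rw [mul_assoc, mul_inv_cancel₀ h3, mul_one]
        simp
      rw [e2])
    (by
      intro n hn
      have h1 := rG_series c hreg hn.le
      show (PowerSeries.X : PowerSeries ℚ) ^ T ∣ ∑ a ∈ Finset.range A,
        (PowerSeries.X : PowerSeries ℚ) ^ a * ∑ m ∈ Finset.range S,
          ((taylor (n : ℚ) (C (((m : ℚ) + 1)⁻¹) * (PG S N N₁ c a m).map (Int.castRingHom ℚ)) : ℚ[X]) :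
            PowerSeries ℚ) * LJ.hD m (vser 1 n)
      rw [← h1, PowerSeries.X_pow_dvd_iff]
      intro k hk
      rw [Polynomial.coeff_coe, coeff_map, hcon n hn k hk, map_zero])
  exact absurd h5 (not_le.2 (hZ ν R hν1 hν2 hR1 hR2))

end MP_a3a416_nt.GL
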