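import Pool.Agent.Lib.MP_a3a416_nt.GL.Defs

/-!
# GL-Pole
The cancellation of the poles.
PROOF.  Let `y = X - C b`, `v k = hasseDeriv k (wB N b)`, `h k = hG N₁ c a k`.  `wP N = y * wB N b` (`Finset.mul_prod_erase`; `prodLin 1 0`: factors `C 1 * X + C (0 - j)`), so `hasseDeriv (k+1) (wP N) = y * v (k+1) + v k` and `hasseDeriv 0 (wP N) = y * v 0`
(`hasseDeriv_mul`/Leibniz, or coefficientwise: `hasseDeriv_X_mul`-type; prove `hasseDeriv (k+1) ((X - C b) * f) = (X - C b) * hasseDeriv (k+1) f + hasseDeriv k f` by `ext`, `coeff_mul_X`-lemmas and Pascal's rule).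
(1) `∑_{m<S} C((-1)^m) * PG a m * y^(S-1-m) = y^S * ∑_{k<S} h (k+1) * v k`.  Exchange sums (`k' = m+1+k ≤ S`): the coefficient of `h k'` (`1 ≤ k' ≤ S`) is `∑_{m<k'} (-1)^m y^(S-1-m) hasseDeriv (k'-1-m) (wP N) = ∑_{m<k'} (-1)^m (u m + u (m+1))` with
`u m = y^(S-m) v(k'-1-m)` for `m ≤ k'-1`, `u k' = 0`: telescoping, it is `u 0 = y^S v(k'-1)`.
(2) `regG = 0` says `0 = ∑_{k ≤ S} h k * (y v k + v (k-1)) = - y * QG + ∑_{k<S} h (k+1) v k`.  So the left side of (1) is `y^S * y * QG`.
-/

namespace MP_a3a416_nt.GL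

open Polynomial MP_a3a416_nt.BB

private theorem Pole_hd (b : ℤ) (f : ℤ[X]) (k : ℕ) :
    hasseDeriv (k + 1) ((X - C b) * f) =
      (X - C b) * hasseDeriv (k + 1) f + hasseDeriv k f := by
  rw [hasseDeriv_mul, Finset.Nat.sum_antidiagonal_succ]
  congr 1
  · rw [hasseDeriv_zero']
  · rw [Finset.sum_eq_single (0, k)]
    · simp only [zero_add]
      rw [hasseDeriv_one', derivative_sub, derivative_X, derivative_C, sub_zero, one_mul]
    · rintro ⟨i, j⟩ hij hne
      rw [Finset.HasAntidiagonal.mem_antidiagonal] at hij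
      simp only at hij ⊢
      have hi : 0 < i := by
        rcases Nat.eq_zero_or_pos i with h | h
        · exfalso
          apply hne
          subst h
          rw [zero_add] at hij
          rw [hij]
        · exact h
      rw [map_sub, hasseDeriv_X (i + 1) (by omega), hasseDeriv_C (i + 1) _ (by omega), sub_zero,
        zero_mul]
    · intro h
      exact absurd (Finset.HasAntidiagonal.mem_antidiagonal.2 (zero_add k)) h

private theorem Pole_tel {R : Type*} [CommRing R] (y : R) (v W : ℕ → R) (h0 : W 0 = y * v 0)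
    (h1 : ∀ k, W (k + 1) = y * v (k + 1) + v k) (S : ℕ) :
    ∑ m ∈ Finset.range (S + 1), (-1) ^ m * W (S - m) * y ^ (S - m) = y ^ (S + 1) * v S := by
  induction S with
  | zero =>
    rw [Finset.sum_range_one, Nat.sub_zero, h0]
    ring
  | succ S ih =>
    rw [Finset.sum_range_succ']
    have h2 : ∑ m ∈ Finset.range (S + 1), (-1) ^ (m + 1) * W (S + 1 - (m + 1)) *
        y ^ (S + 1 - (m + 1)) =
        - ∑ m ∈ Finset.range (S + 1), (-1) ^ m * W (S - m) * y ^ (S - m) := by
      rw [← Finset.sum_neg_distrib]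
      refine Finset.sum_congr rfl fun m _ => ?_
      rw [Nat.add_sub_add_right, pow_succ]
      ring
    rw [h2, ih, Nat.sub_zero, h1 S]
    ring

private theorem Pole_sum {R : Type*} [CommRing R] (y : R) (h v W : ℕ → R) (h0 : W 0 = y * v 0)
    (h1 : ∀ k, W (k + 1) = y * v (k + 1) + v k) (S : ℕ) :
    ∑ m ∈ Finset.range S, (-1) ^ m * (∑ k ∈ Finset.range (S - m), h (m + 1 + k) * W k) *
      y ^ (S - 1 - m) = y ^ S * ∑ k ∈ Finset.range S, h (k + 1) * v k := by
  induction S with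
  | zero => simp
  | succ S ih =>
    have h2 : ∑ m ∈ Finset.range (S + 1),
        (-1) ^ m * (∑ k ∈ Finset.range (S + 1 - m), h (m + 1 + k) * W k) *
          y ^ (S + 1 - 1 - m) =
        y * ∑ m ∈ Finset.range S, (-1) ^ m * (∑ k ∈ Finset.range (S - m), h (m + 1 + k) * W k) *
          y ^ (S - 1 - m) +
        h (S + 1) * ∑ m ∈ Finset.range (S + 1), (-1) ^ m * W (S - m) * y ^ (S - m) := by
      have h3 : ∑ m ∈ Finset.range (S + 1),
          (-1) ^ m * (∑ k ∈ Finset.range (S + 1 - m), h (m + 1 + k) * W k) *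
            y ^ (S + 1 - 1 - m) =
          ∑ m ∈ Finset.range (S + 1), ((-1) ^ m *
            (∑ k ∈ Finset.range (S - m), h (m + 1 + k) * W k) * y ^ (S - m) +
            h (S + 1) * ((-1) ^ m * W (S - m) * y ^ (S - m))) := by
        refine Finset.sum_congr rfl fun m hm => ?_
        rw [Finset.mem_range] at hm
        rw [show S + 1 - m = (S - m) + 1 by omega, Finset.sum_range_succ,
          show m + 1 + (S - m) = S + 1 by omega, show S + 1 - 1 - m = S - m by omega]
        ring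
      rw [h3, Finset.sum_add_distrib, ← Finset.mul_sum, Finset.sum_range_succ, Nat.sub_self,
        Finset.range_zero, Finset.sum_empty, mul_zero, zero_mul, add_zero]
      congr 1
      rw [Finset.mul_sum]
      refine Finset.sum_congr rfl fun m hm => ?_
      rw [Finset.mem_range] at hm
      rw [show S - m = (S - 1 - m) + 1 by omega, pow_succ]
      ring
    rw [h2, ih, Pole_tel y v W h0 h1 S, Finset.sum_range_succ]
    ring

theorem QG_mul {S N N₁ : ℕ} (c : ℕ × ℕ × ℕ → ℤ) (a : ℕ) (hreg : regG S N N₁ c a = 0) {b : ℕ} (hb : b < N) :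
    (X - C (b : ℤ)) ^ (S + 1) * QG S N N₁ c a b =
      ∑ m ∈ Finset.range S, C ((-1) ^ m) * PG S N N₁ c a m * (X - C (b : ℤ)) ^ (S - 1 - m) := by
  have hw : wP N = (X - C (b : ℤ)) * wB N b := by
    unfold wP wB prodLin
    rw [← Finset.mul_prod_erase (Finset.range N) _ (Finset.mem_range.2 hb)]
    congr 1
    rw [Nat.cast_one, C_1, one_mul, zero_sub, C_neg, sub_eq_add_neg]
  have h0 : hasseDeriv 0 (wP N) = (X - C (b : ℤ)) * hasseDeriv 0 (wB N b) := by
    rw [hasseDeriv_zero', hasseDeriv_zero', hw]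
  have h1 : ∀ k, hasseDeriv (k + 1) (wP N) =
      (X - C (b : ℤ)) * hasseDeriv (k + 1) (wB N b) + hasseDeriv k (wB N b) := by
    intro k
    rw [hw]
    exact Pole_hd (b : ℤ) (wB N b) k
  have h2 := Pole_sum (X - C (b : ℤ)) (fun k => hG N₁ c a k) (fun k => hasseDeriv k (wB N b))
    (fun k => hasseDeriv k (wP N)) h0 h1 S
  have h3 : ∑ m ∈ Finset.range S, C ((-1) ^ m) * PG S N N₁ c a m *
      (X - C (b : ℤ)) ^ (S - 1 - m) = (X - C (b : ℤ)) ^ S *
        ∑ k ∈ Finset.range S, hG N₁ c a (k + 1) * hasseDeriv k (wB N b) := by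
    rw [← h2]
    refine Finset.sum_congr rfl fun m _ => ?_
    unfold PG
    rw [C_pow, C_neg, C_1]
  rw [h3, pow_succ, mul_assoc]
  congr 1
  unfold regG at hreg
  unfold QG
  rw [Finset.sum_range_succ'] at hreg
  rw [h0, Finset.sum_congr rfl fun k _ => by rw [h1 k]] at hreg
  rw [Finset.sum_range_succ']
  have h4 : ∑ k ∈ Finset.range S, hG N₁ c a (k + 1) * ((X - C (b : ℤ)) *
      hasseDeriv (k + 1) (wB N b) + hasseDeriv k (wB N b)) =
      (X - C (b : ℤ)) * ∑ k ∈ Finset.range S, hG N₁ c a (k + 1) * hasseDeriv (k + 1) (wB N b) +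
      ∑ k ∈ Finset.range S, hG N₁ c a (k + 1) * hasseDeriv k (wB N b) := by
    rw [Finset.mul_sum, ← Finset.sum_add_distrib]
    refine Finset.sum_congr rfl fun k _ => ?_
    ring
  rw [h4] at hreg
  linear_combination (-1 : ℤ[X]) * hreg

end MP_a3a416_nt.GL
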