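import Pool.Agent.Lib.MP_a3a416_nt.GL.Auxi
import Pool.Agent.Lib.MP_a3a416_nt.GL.NotZ
import Pool.Agent.Lib.MP_a3a416_nt.GL.JetB

/-!
# GL-Prod
The product of the bad primes.  Model: `TW/ProdBad.lean`.
PROOF.  `P = ∏ p`, `H` = the largest integer with `H^q ≤ 3 AG P^(q-1)` (`≥ 1`, as the right side is `≥ 1`).  `exists_aux` gives `c`, `not_zero` gives `n < N`, `i < T` with `coeff i (rG n) ≠ 0`, `rG_bound` an integer `z ≠ 0`, `DG * coeff = FG * z`, `|z| ≤ EG * H`.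
Every `p ∈ Ps` divides `FG * z` and not `FG` (`p > N ≥ N₁`), so `P ∣ z` and `P ≤ EG * H`.  `P^q ≤ EG^q H^q ≤ EG^q 3 AG P^(q-1)`, so `P ≤ EG^q * 3 AG ≤ EG^(q+1)`, because `3 AG ≤ EG`: `DG_mono`, and `3 ≤ A * T * N^2 * 2^(T+S)` (`N ≥ 10`).
-/

namespace MP_a3a416_nt.GL

open Polynomial MP_a3a416_nt.BB

private theorem Prod_DG_mono (N N₁ : ℕ) {L L' : ℕ} (h : L ≤ L') : DG N N₁ L ≤ DG N N₁ L' := by
  unfold DG
  refine Finset.prod_le_prod_of_subset_of_one_le' ?_ fun _ _ _ => Nat.lcmUpto_pos _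
  exact Finset.Icc_subset_Icc_right h

private theorem three_AG_le {A S N N₁ T : ℕ} (hA : 1 ≤ A) (hT : 1 ≤ T) (hN : 10 ≤ N) :
    3 * AG S N N₁ ≤ EG A S N N₁ T := by
  unfold AG EG
  have h1 : DG N N₁ (S + 1) ≤ DG N N₁ (T + S + 1) := Prod_DG_mono N N₁ (by omega)
  have h2 : 3 ≤ N ^ 2 := by nlinarith
  have h3 : 1 ≤ 2 ^ (T + S) := Nat.one_le_two_pow
  calc 3 * (DG N N₁ (S + 1) * ((S + 1) * N₁ * 4 ^ (N + N₁)))
      = DG N N₁ (S + 1) * (1 * (S + 1) * 1 * 3 * N₁ * 4 ^ (N + N₁) * 1) := by ring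
    _ ≤ DG N N₁ (T + S + 1) * (A * (S + 1) * T * N ^ 2 * N₁ * 4 ^ (N + N₁) * 2 ^ (T + S)) := by
        gcongr

theorem prod_bad {A S N N₁ T δ q k x : ℕ} (hA : 1 ≤ A) (hT : 1 ≤ T) (hN₁ : 1 ≤ N₁) (hN : N₁ ≤ N)
    (hNT : T + S + A + 10 ≤ N) (hq : 1 ≤ q) (hk : 1 ≤ k) (h1 : A * (N + N₁) ≤ k)
    (h2 : (N + N₁) + A * x + δ * (N + N₁) ≤ (q - 1) * k) (h3 : A * (N + N₁) + q * k ≤ A * (S + 1) * N₁)
    (hZ : ∀ ν R, 1 ≤ ν → ν ≤ 2 * A → 1 ≤ R → R ≤ A * S →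
      (ν + R) * (N + N₁ - 1) < (N + 1 - (ν + R)) * (T - A + R + 1))
    (Ps : Finset ℕ) (hP : ∀ p ∈ Ps, p.Prime ∧ N < p ∧ p ≤ x ∧ (badPos A S T p).card ≤ δ) :
    ∏ p ∈ Ps, p ≤ (EG A S N N₁ T) ^ (q + 1) := by
  classical
  set P := ∏ p ∈ Ps, p with hPdef
  have hPpos : 0 < P := by
    rw [hPdef]
    exact Finset.prod_pos fun p hp => (hP p hp).1.pos
  have hAG : 0 < AG S N N₁ := by
    unfold AG
    have := DG_pos N N₁ (S + 1)
    positivity
  have hEG : 0 < EG A S N N₁ T := by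
    unfold EG
    have := DG_pos N N₁ (T + S + 1)
    have : 0 < N := by omega
    positivity
  set M := 3 * AG S N N₁ * P ^ (q - 1) with hM
  have hMpos : 0 < M := by positivity
  -- the integer `H`
  obtain ⟨H, hH1, hHP, hPH⟩ : ∃ H : ℕ, 1 ≤ H ∧ H ^ q ≤ M ∧ M < (H + 1) ^ q := by
    refine ⟨Nat.findGreatest (fun h => h ^ q ≤ M) M, ?_, ?_, ?_⟩
    · exact Nat.le_findGreatest (by omega) (by rw [one_pow]; exact hMpos)
    · have := @Nat.findGreatest_spec 1 (fun h => h ^ q ≤ M) _ M (by omega)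
        (by rw [one_pow]; exact hMpos)
      exact this
    · by_contra hcon
      rw [not_lt] at hcon
      set h0 := Nat.findGreatest (fun h => h ^ q ≤ M) M with hh0
      have hle : h0 + 1 ≤ M := (Nat.le_self_pow (by omega) _).trans hcon
      have := Nat.findGreatest_is_greatest (P := fun h => h ^ q ≤ M) (n := M)
        (k := h0 + 1) (by rw [← hh0]; omega) hle
      exact this hcon
  obtain ⟨c, hc0, hcb, hreg, hcd⟩ := exists_aux (T := T) hA hN₁ hNT hk h1 h2 h3 Ps hP H hPH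
  obtain ⟨n, hn, i, hi, hne⟩ := not_zero (T := T) hN₁ hZ c hc0 hreg
  obtain ⟨w, hw, hwb⟩ := rG_bound (T := T) c hcb hn hi
  have hDG : 0 < DG N N₁ (T + S + 1) := DG_pos _ _ _
  have hw0 : w ≠ 0 := by
    rintro rfl
    rw [mul_zero] at hw
    rcases mul_eq_zero.1 hw with h | h
    · have : DG N N₁ (T + S + 1) = 0 := by exact_mod_cast h
      omega
    · exact hne h
  have hdvd : ∀ p ∈ Ps, (p : ℤ) ∣ w := by
    intro p hp
    have hpp : Prime (p : ℤ) := Nat.prime_iff_prime_int.1 (hP p hp).1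
    have hnd : ¬ (p : ℤ) ∣ (FG N N₁ : ℤ) := by
      intro h
      have h' : p ∣ FG N N₁ := by exact_mod_cast h
      unfold FG at h'
      have h4 := (hP p hp).2.1
      rcases ((hP p hp).1.dvd_mul).1 h' with h5 | h5
      · have h6 := ((hP p hp).1.dvd_factorial).1 h5
        omega
      · have h6 := ((hP p hp).1.dvd_factorial).1 h5
        omega
    have h1 : (p : ℤ) ∣ (FG N N₁ : ℤ) * w := by
      rw [← hw]
      exact Dvd.dvd.mul_left (hcd p hp n hn i hi) _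
    rcases hpp.dvd_or_dvd h1 with h3 | h3
    · exact absurd h3 hnd
    · exact h3
  have hPw : P ∣ w.natAbs := by
    rw [hPdef]
    refine Finset.prod_primes_dvd _ (fun p hp => (Nat.prime_iff.1 (hP p hp).1)) fun p hp => ?_
    exact Int.natCast_dvd.1 (hdvd p hp)
  have hPle : P ≤ EG A S N N₁ T * H := by
    have h1 : P ≤ w.natAbs := Nat.le_of_dvd (Int.natAbs_pos.2 hw0) hPw
    have h2 : ((w.natAbs : ℕ) : ℤ) ≤ ((EG A S N N₁ T * H : ℕ) : ℤ) := by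
      rw [Int.natCast_natAbs]
      exact hwb
    exact h1.trans (by exact_mod_cast h2)
  have h3A : 3 * AG S N N₁ ≤ EG A S N N₁ T := three_AG_le hA hT (by omega)
  have hfin : P * P ^ (q - 1) ≤ (EG A S N N₁ T) ^ (q + 1) * P ^ (q - 1) := by
    calc P * P ^ (q - 1) = P ^ q := by
          rw [← pow_succ', Nat.sub_add_cancel hq]
      _ ≤ (EG A S N N₁ T * H) ^ q := Nat.pow_le_pow_left hPle q
      _ = (EG A S N N₁ T) ^ q * H ^ q := by rw [mul_pow]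
      _ ≤ (EG A S N N₁ T) ^ q * M := Nat.mul_le_mul_left _ hHP
      _ = (EG A S N N₁ T) ^ q * (3 * AG S N N₁) * P ^ (q - 1) := by rw [hM]; ring
      _ ≤ (EG A S N N₁ T) ^ q * EG A S N N₁ T * P ^ (q - 1) := by
          gcongr
      _ = (EG A S N N₁ T) ^ (q + 1) * P ^ (q - 1) := by rw [pow_succ]
  exact Nat.le_of_mul_le_mul_right hfin (by positivity)

end MP_a3a416_nt.GL
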