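import Pool.Agent.Lib.MP_a3a416_nt.GL.ZDefs
import Pool.Agent.Lib.MP_a3a416_nt.TW.Defs

/-!
# GL-RDefs
The reduction of the zero estimate for the family `t^a P_{a,m} h_m` to `zeroV`: definitions.
`lam a m d`: coordinates of `P_{a,m}` in the basis `Pb d`; `gG a d = ∑_m c_m lam a m d X^(S-1-m)` (that is `y^(S+1)` times the coordinate `d` of `g_a(y) = ∑_m c_m P_{a,m} y^(-2-m)`); `wG (inl a) = gG a`, `wG (inr a) = X * gG a`.
-/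

namespace MP_a3a416_nt.GL

open Polynomial

/-- `G_{a,d}`. -/
noncomputable def gG {R : ℕ} (S : ℕ) (lam : ℕ → ℕ → Fin R → ℚ) (a : ℕ) (d : Fin R) : ℚ[X] :=
  ∑ m ∈ Finset.range S, C (((TW.cc m : ℤ) : ℚ) * lam a m d) * X ^ (S - 1 - m)

/-- the vectors `g_a` and `y g_a`. -/
noncomputable def wG {R : ℕ} (A S : ℕ) (lam : ℕ → ℕ → Fin R → ℚ) (s : Fin A ⊕ Fin A) (d : Fin R) : ℚ[X] :=
  Sum.elim (fun a : Fin A => gG S lam a.val d) (fun a : Fin A => X * gG S lam a.val d) s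

/-- the polynomials `Q_{a,b}` and `(X-b) Q_{a,b}`. -/
noncomputable def qG (A : ℕ) (Q : ℕ → ℕ → ℚ[X]) (s : Fin A ⊕ Fin A) (b : ℕ) : ℚ[X] :=
  Sum.elim (fun a : Fin A => Q a.val b) (fun a : Fin A => (X - C (b : ℚ)) * Q a.val b) s

/-- `H_{d,n} = ∑_{a,m} t^a lam a m d h_{m,n}`. -/
noncomputable def HG {R : ℕ} (A S : ℕ) (lam : ℕ → ℕ → Fin R → ℚ) (h : ℕ → ℕ → PowerSeries ℚ) (d : Fin R) (n : ℕ) :
    PowerSeries ℚ :=
  ∑ a ∈ Finset.range A, (PowerSeries.X : PowerSeries ℚ) ^ a *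
    ∑ m ∈ Finset.range S, PowerSeries.C (lam a m d) * h m n

/-- `τ_k = ∑_a t^a (mu (inr a) k - t mu (inl a) k)`. -/
noncomputable def tauG {ν : ℕ} (A : ℕ) (mu : Fin A ⊕ Fin A → Fin ν → ℚ) (k : Fin ν) : ℚ[X] :=
  ∑ a : Fin A, X ^ (a : ℕ) * (C (mu (Sum.inr a) k) - X * C (mu (Sum.inl a) k))

end MP_a3a416_nt.GL
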