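import Pool.Agent.Lib.MP_a3a416_nt.GL.RDefs

/-!
# GL-RQ
PROOFS.  `gG_taylor`: `taylor x X = X + C x`.  `wG_natDegree`: `natDegree (gG ..) ≤ S - 1`, `natDegree (X * gG) ≤ S`; note `S = 0` gives `gG = 0`.
`qG_mul`: for `s = inl a`: insert `hlam` in `hQ` and exchange sums (see `zr_sum` in `TW/ZRed.lean`), `taylor (-b) (gG a d) = ∑_m C (c_m lam) * (X - C b)^(S-1-m)` (`gG_taylor`, `C (-b) = - C b`).  For `s = inr a`: multiply by `X - C b = taylor (-b) X`.
`natDegree_Pb`: not needed.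
-/

namespace MP_a3a416_nt.GL

open Polynomial

theorem gG_taylor {R : ℕ} (S : ℕ) (lam : ℕ → ℕ → Fin R → ℚ) (a : ℕ) (d : Fin R) (x : ℚ) :
    taylor x (gG S lam a d) =
      ∑ m ∈ Finset.range S, C (((TW.cc m : ℤ) : ℚ) * lam a m d) * (X + C x) ^ (S - 1 - m) := by
  unfold gG
  rw [map_sum]
  refine Finset.sum_congr rfl fun m _ => ?_
  rw [taylor_mul, taylor_C, taylor_pow, taylor_X]

private theorem rq_deg {R : ℕ} (S : ℕ) (lam : ℕ → ℕ → Fin R → ℚ) (a : ℕ) (d : Fin R) :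
    (gG S lam a d).natDegree ≤ S - 1 := by
  unfold gG
  refine natDegree_sum_le_of_forall_le _ _ fun m _ => ?_
  exact (natDegree_C_mul_X_pow_le _ _).trans (by omega)

theorem wG_natDegree {R : ℕ} (A S : ℕ) (lam : ℕ → ℕ → Fin R → ℚ) (s : Fin A ⊕ Fin A) (d : Fin R) :
    (wG A S lam s d).natDegree < S + 1 := by
  rcases s with a | a
  · show (gG S lam a.val d).natDegree < S + 1
    have := rq_deg S lam a.val d
    omega
  · show (X * gG S lam a.val d).natDegree < S + 1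
    have h1 := rq_deg S lam a.val d
    rcases Nat.eq_zero_or_pos S with h0 | h0
    · have h2 : gG S lam a.val d = 0 := by
        unfold gG
        rw [h0, Finset.sum_range_zero]
      rw [h2, mul_zero, natDegree_zero]
      omega
    · have h2 : (X * gG S lam a.val d).natDegree ≤ (X : ℚ[X]).natDegree +
        (gG S lam a.val d).natDegree := natDegree_mul_le
      rw [natDegree_X] at h2
      omega

theorem qG_mul {R : ℕ} {A S N : ℕ} (P Q : ℕ → ℕ → ℚ[X]) (Pb : Fin R → ℚ[X]) (lam : ℕ → ℕ → Fin R → ℚ)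
    (hlam : ∀ a < A, ∀ m < S, P a m = ∑ d, C (lam a m d) * Pb d)
    (hQ : ∀ a < A, ∀ b < N, (X - C (b : ℚ)) ^ (S + 1) * Q a b =
      ∑ m ∈ Finset.range S, C ((TW.cc m : ℤ) : ℚ) * P a m * (X - C (b : ℚ)) ^ (S - 1 - m))
    (s : Fin A ⊕ Fin A) (b : ℕ) (hb : b < N) :
    (X - C (b : ℚ)) ^ (S + 1) * qG A Q s b = ∑ d, Pb d * taylor (-(b : ℚ)) (wG A S lam s d) := by
  have hX : (X : ℚ[X]) + C (-(b : ℚ)) = X - C (b : ℚ) := by
    rw [C_neg, sub_eq_add_neg]
  have key : ∀ a : Fin A, (X - C (b : ℚ)) ^ (S + 1) * Q a.val b =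
      ∑ d, Pb d * taylor (-(b : ℚ)) (gG S lam a.val d) := by
    intro a
    rw [hQ a.val a.isLt b hb]
    have h1 : ∀ d, Pb d * taylor (-(b : ℚ)) (gG S lam a.val d) =
        ∑ m ∈ Finset.range S, Pb d * (C (((TW.cc m : ℤ) : ℚ) * lam a.val m d) *
          (X - C (b : ℚ)) ^ (S - 1 - m)) := by
      intro d
      rw [gG_taylor, Finset.mul_sum, hX]
    simp_rw [h1]
    rw [Finset.sum_comm]
    refine Finset.sum_congr rfl fun m hm => ?_
    rw [hlam a.val a.isLt m (Finset.mem_range.1 hm), Finset.mul_sum, Finset.sum_mul]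
    refine Finset.sum_congr rfl fun d _ => ?_
    rw [C_mul]
    ring
  rcases s with a | a
  · exact key a
  · show (X - C (b : ℚ)) ^ (S + 1) * ((X - C (b : ℚ)) * Q a.val b) =
      ∑ d, Pb d * taylor (-(b : ℚ)) (X * gG S lam a.val d)
    have h1 : (X - C (b : ℚ)) ^ (S + 1) * ((X - C (b : ℚ)) * Q a.val b) =
        (X - C (b : ℚ)) * ((X - C (b : ℚ)) ^ (S + 1) * Q a.val b) := by ring
    rw [h1, key a, Finset.mul_sum]
    refine Finset.sum_congr rfl fun d _ => ?_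
    rw [taylor_mul, taylor_X, hX]
    ring

end MP_a3a416_nt.GL
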