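import Pool.Agent.Lib.MP_a3a416_nt.GL.RQ

/-!
# GL-RT
Some `tauG k` is not divisible by `X^(A+1)`.
PROOF.  Suppose all are divisible.  `natDegree (tauG k) ≤ A`, so `tauG k = 0` for all `k` (all coefficients `≤ A` vanish).  Coefficient `a` (`a < A`): `mu (inr a) k = mu (inl (a-1)) k` for `a ≥ 1`, and `mu (inr 0) k = 0` (coefficient `0`).
Claim by induction on `a < A`: `gG S lam a d = 0` for all `d`: `a = 0`: `wG (inr 0) d = ∑_k C (mu (inr 0) k) Γ k d = 0`, so `X * gG 0 d = 0`; `a ≥ 1`: `X * gG a d = wG (inr a) d = ∑ C (mu (inr a) k) Γ k d = ∑ C (mu (inl (a-1)) k) Γ k d = wG (inl (a-1)) d = gG (a-1) d = 0`.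
But the coefficient `S-1-m` of `gG a d` is `c_m lam a m d` (`TW.cc_ne`; `m < S`), contradiction with `hne`.
-/

namespace MP_a3a416_nt.GL

open Polynomial

theorem gG_coeff {R : ℕ} (S : ℕ) (lam : ℕ → ℕ → Fin R → ℚ) (a : ℕ) (d : Fin R) {m : ℕ} (hm : m < S) :
    (gG S lam a d).coeff (S - 1 - m) = ((TW.cc m : ℤ) : ℚ) * lam a m d := by
  unfold gG
  rw [finsetSum_coeff, Finset.sum_eq_single m]
  · rw [coeff_C_mul_X_pow, if_pos rfl]
  · intro m' hm' hne
    rw [Finset.mem_range] at hm'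
    rw [coeff_C_mul_X_pow, if_neg (by omega)]
  · intro hm'
    exact absurd (Finset.mem_range.2 hm) hm'

private theorem tauG_coeff {ν A : ℕ} (mu : Fin A ⊕ Fin A → Fin ν → ℚ) (k : Fin ν) (a : ℕ) :
    (tauG A mu k).coeff a = (∑ x : Fin A, if a = (x : ℕ) then mu (Sum.inr x) k else 0) -
      ∑ x : Fin A, if a = (x : ℕ) + 1 then mu (Sum.inl x) k else 0 := by
  unfold tauG
  rw [finsetSum_coeff, ← Finset.sum_sub_distrib]
  refine Finset.sum_congr rfl fun x _ => ?_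
  have h : (X : ℚ[X]) ^ (x : ℕ) * (C (mu (Sum.inr x) k) - X * C (mu (Sum.inl x) k)) =
      C (mu (Sum.inr x) k) * X ^ (x : ℕ) - C (mu (Sum.inl x) k) * X ^ ((x : ℕ) + 1) := by ring
  rw [h, coeff_sub, coeff_C_mul_X_pow, coeff_C_mul_X_pow]

theorem tauG_ne {ν R : ℕ} {A S : ℕ} (lam : ℕ → ℕ → Fin R → ℚ) (mu : Fin A ⊕ Fin A → Fin ν → ℚ)
    (Γ : Fin ν → Fin R → ℚ[X]) (hmu : ∀ s d, wG A S lam s d = ∑ k, C (mu s k) * Γ k d)
    (hne : ∃ a < A, ∃ m < S, ∃ d, lam a m d ≠ 0) :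
    ∃ k, ¬ X ^ (A + 1) ∣ tauG A mu k := by
  by_contra hcon
  push Not at hcon
  have h0 : ∀ (hA : 0 < A) (k : Fin ν), mu (Sum.inr ⟨0, hA⟩) k = 0 := by
    intro hA k
    have h := X_pow_dvd_iff.1 (hcon k) 0 (by omega)
    rw [tauG_coeff, Finset.sum_eq_single ⟨0, hA⟩] at h
    · rw [Finset.sum_eq_zero (fun x _ => if_neg (by omega)), sub_zero] at h
      simpa using h
    · intro x _ hx
      rw [if_neg]
      intro h1
      exact hx (Fin.ext h1.symm)
    · intro h1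
      exact absurd (Finset.mem_univ _) h1
  have h1 : ∀ (b : ℕ) (hb : b + 1 < A) (k : Fin ν),
      mu (Sum.inr ⟨b + 1, hb⟩) k = mu (Sum.inl ⟨b, by omega⟩) k := by
    intro b hb k
    have h := X_pow_dvd_iff.1 (hcon k) (b + 1) (by omega)
    rw [tauG_coeff, Finset.sum_eq_single ⟨b + 1, hb⟩, Finset.sum_eq_single ⟨b, by omega⟩] at h
    · rw [if_pos rfl, if_pos rfl] at h
      linarith
    · intro x _ hx
      rw [if_neg]
      intro h1
      exact hx (Fin.ext (by simpa using (Nat.succ_injective h1).symm))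
    · intro h1
      exact absurd (Finset.mem_univ _) h1
    · intro x _ hx
      rw [if_neg]
      intro h1
      exact hx (Fin.ext h1.symm)
    · intro h1
      exact absurd (Finset.mem_univ _) h1
  have hr : ∀ (a : ℕ) (ha : a < A) (d : Fin R),
      X * gG S lam a d = ∑ k, C (mu (Sum.inr ⟨a, ha⟩) k) * Γ k d :=
    fun a ha d => hmu (Sum.inr ⟨a, ha⟩) d
  have hl : ∀ (a : ℕ) (ha : a < A) (d : Fin R),
      gG S lam a d = ∑ k, C (mu (Sum.inl ⟨a, ha⟩) k) * Γ k d :=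
    fun a ha d => hmu (Sum.inl ⟨a, ha⟩) d
  have key : ∀ a, a < A → ∀ d : Fin R, gG S lam a d = 0 := by
    intro a
    induction a with
    | zero =>
      intro ha d
      have h2 := hr 0 ha d
      rw [Finset.sum_eq_zero (fun k _ => by rw [h0 ha k, C_0, zero_mul])] at h2
      exact (mul_eq_zero.1 h2).resolve_left X_ne_zero
    | succ b ih =>
      intro ha d
      have h2 := hr (b + 1) ha d
      have h3 := hl b (by omega) d
      rw [ih (by omega) d] at h3
      have h4 : ∑ k, C (mu (Sum.inr ⟨b + 1, ha⟩) k) * Γ k d = 0 := by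
        rw [h3]
        exact Finset.sum_congr rfl fun k _ => by rw [h1 b ha k]
      rw [h4] at h2
      exact (mul_eq_zero.1 h2).resolve_left X_ne_zero
  obtain ⟨a, ha, m, hm, d, hne'⟩ := hne
  have h5 := gG_coeff S lam a d hm
  rw [key a ha d, coeff_zero] at h5
  have h6 : ((TW.cc m : ℤ) : ℚ) ≠ 0 := by exact_mod_cast TW.cc_ne m
  exact (mul_ne_zero h6 hne') h5.symm

end MP_a3a416_nt.GL
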