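import Pool.Agent.Lib.MP_a3a416_nt.GL.Basis
import Pool.Agent.Lib.MP_a3a416_nt.GL.DenG

/-!
# GL-SizG
Divisibility (`Adm`) and sizes of the pieces.  `Adm q L c P`: `q^(∑_{l ≤ L} (c l - k)) ∣ P.coeff k` (`BB/Denom.lean`).
PROOFS.  `taylor_prodLin`: `taylor n (prodLin 1 z s) = prodLin 1 (z + n) s` (each factor: `C 1 * (X + C n) + C (z - j)`).
`hG_adm`: as `PJ_adm` in `TW/Basis.lean`: `q^(∑_l (N₁/q^l - i/q^l)) ∣ N₁!/i!` (`factorization` of factorials), `Adm.blk` for `prodLin 1 n (range i)`.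
`hG_size`: `|coefficient| ≤ ∑_i H (N₁!/i!) prodAbs n (range i)` (`sz_prodLin`, `coeff_le_eval_one`), `prodAbs n (range i) ≤ i! 2^B` for `n < B` (`prodAbs_le_two_pow`).  `hB : n < B`.
`hasse_adm`: the coefficient `k` of `hasseDeriv m P` is `C(k+m,m)` times the coefficient `k + m` of `P`.
`wB_size`: `prodAbs n ((range N).erase b) ≤ prodAbs n (range N) ≤ N!` (`prodAbs_mono`, `prodAbs_le_factorial`, `n < N`), `C(k+m,m) ≤ 2^(k+m)`.
-/

namespace MP_a3a416_nt.GL

open Polynomial MP_a3a416_nt.BB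

theorem taylor_prodLin (n : ℕ) (z : ℤ) (s : Finset ℕ) :
    taylor (n : ℤ) (prodLin 1 z s) = prodLin 1 (z + n) s := by
  unfold prodLin
  rw [taylor_apply, Polynomial.prod_comp]
  refine Finset.prod_congr rfl fun j _ => ?_
  simp only [add_comp, mul_comp, C_comp, X_comp]
  rw [show z + (n : ℤ) - (j : ℤ) = (n : ℤ) + (z - j) by ring, C_add]
  simp only [Nat.cast_one, C_1, one_mul]
  ring

theorem hasse_adm {q L m : ℕ} {c : ℕ → ℕ} {P : ℤ[X]} (h : Adm q L c P) :
    Adm q L (fun l => c l - m) (hasseDeriv m P) := by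
  intro k
  rw [hasseDeriv_coeff]
  refine Dvd.dvd.mul_left ?_ _
  refine (pow_dvd_pow _ (Finset.sum_le_sum fun l _ => ?_)).trans (h (k + m))
  dsimp only
  omega

private theorem log_factG {q L : ℕ} (hq : q.Prime) {m : ℕ} (hm : m < q ^ (L + 1)) :
    (m.factorial).factorization q = ∑ l ∈ Finset.Icc 1 L, m / q ^ l := by
  have hb : Nat.log q m < L + 1 := by
    rcases Nat.eq_zero_or_pos m with rfl | hpos
    · simp
    · exact (Nat.log_lt_iff_lt_pow hq.one_lt (by omega)).2 hm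
  rw [Nat.factorization_factorial hq hb]
  rfl

private theorem pow_dvd_div {q L N₁ i : ℕ} (hq : q.Prime) (hL : N₁ < q ^ (L + 1)) (hi : i < N₁) :
    q ^ (∑ l ∈ Finset.Icc 1 L, (N₁ / q ^ l - i / q ^ l)) ∣ N₁.factorial / i.factorial := by
  have hdvd : i.factorial ∣ N₁.factorial := Nat.factorial_dvd_factorial hi.le
  have hpos : 0 < N₁.factorial / i.factorial :=
    Nat.div_pos (Nat.le_of_dvd (Nat.factorial_pos _) hdvd) (Nat.factorial_pos _)
  rw [hq.pow_dvd_iff_le_factorization hpos.ne', Nat.factorization_div hdvd, Finsupp.tsub_apply,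
    log_factG hq hL, log_factG hq (hi.trans hL)]
  have h3 : ∑ l ∈ Finset.Icc 1 L, (N₁ / q ^ l - i / q ^ l) + ∑ l ∈ Finset.Icc 1 L, i / q ^ l =
      ∑ l ∈ Finset.Icc 1 L, N₁ / q ^ l := by
    rw [← Finset.sum_add_distrib]
    refine Finset.sum_congr rfl fun l _ => ?_
    have h4 : i / q ^ l ≤ N₁ / q ^ l := Nat.div_le_div_right hi.le
    omega
  omega

private theorem taylor_hG (N₁ : ℕ) (c : ℕ × ℕ × ℕ → ℤ) (a m n : ℕ) :
    taylor (n : ℤ) (hG N₁ c a m) = ∑ i ∈ Finset.range N₁,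
      C (c (a, m, i) * ((N₁.factorial / i.factorial : ℕ) : ℤ)) *
        prodLin 1 (n : ℤ) (Finset.range i) := by
  unfold hG
  rw [map_sum]
  refine Finset.sum_congr rfl fun i _ => ?_
  rw [taylor_mul, taylor_C, taylor_prodLin, zero_add]

theorem hG_adm {q L N₁ : ℕ} (hq : q.Prime) (hL : N₁ < q ^ (L + 1)) (c : ℕ × ℕ × ℕ → ℤ) (a m n : ℕ) :
    Adm q L (fun l => N₁ / q ^ l) (taylor (n : ℤ) (hG N₁ c a m)) := by
  intro k
  rw [taylor_hG, finsetSum_coeff]
  refine Finset.dvd_sum fun i hi => ?_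
  rw [Finset.mem_range] at hi
  rw [coeff_C_mul]
  have h1 := Adm.blk q L hq.one_le i (n : ℤ) 1
  have h2 : (q : ℤ) ^ (∑ l ∈ Finset.Icc 1 L, (N₁ / q ^ l - i / q ^ l)) ∣
      ((N₁.factorial / i.factorial : ℕ) : ℤ) := by exact_mod_cast pow_dvd_div hq hL hi
  have h3 := mul_dvd_mul h2 (h1 k)
  rw [← pow_add, ← Finset.sum_add_distrib] at h3
  have h4 : (q : ℤ) ^ (∑ l ∈ Finset.Icc 1 L, (N₁ / q ^ l - k)) ∣
      ((N₁.factorial / i.factorial : ℕ) : ℤ) * (prodLin 1 (n : ℤ) (Finset.range i)).coeff k := by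
    refine (pow_dvd_pow _ (Finset.sum_le_sum fun l _ => ?_)).trans h3
    dsimp only
    generalize N₁ / q ^ l = A
    generalize i / q ^ l = B
    omega
  rw [mul_assoc]
  exact h4.mul_left _

private theorem prodLin_coeff_le (z : ℤ) (s : Finset ℕ) (k : ℕ) :
    |(prodLin 1 z s).coeff k| ≤ ((prodAbs z s : ℕ) : ℤ) := by
  obtain ⟨F, h, e⟩ := sz_prodLin (R := 1) (e := 1) le_rfl z s
  refine (h k).trans ?_
  rw [one_pow, one_mul, ← e]
  exact_mod_cast coeff_le_eval_one F k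

theorem hG_size {A S N₁ H B : ℕ} (c : ℕ × ℕ × ℕ → ℤ) (hc : ∀ x ∈ ixG A S N₁, |c x| ≤ (H : ℤ)) {a m n : ℕ}
    (ha : a < A) (hm : m ≤ S) (hB : n < B) (k : ℕ) :
    |(taylor (n : ℤ) (hG N₁ c a m)).coeff k| ≤ ((N₁.factorial * (N₁ * H * 2 ^ B) : ℕ) : ℤ) := by
  rw [taylor_hG, finsetSum_coeff]
  have hterm : ∀ i ∈ Finset.range N₁,
      |(C (c (a, m, i) * ((N₁.factorial / i.factorial : ℕ) : ℤ)) *
        prodLin 1 (n : ℤ) (Finset.range i)).coeff k| ≤ ((N₁.factorial * (H * 2 ^ B) : ℕ) : ℤ) := by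
    intro i hi
    have hx : |c (a, m, i)| ≤ (H : ℤ) := hc (a, m, i) (by
      simp only [ixG, Finset.mem_product]
      exact ⟨Finset.mem_range.2 ha, Finset.mem_range.2 (by omega), hi⟩)
    rw [coeff_C_mul, abs_mul, abs_mul, Nat.abs_cast, mul_assoc]
    have h1 := prodLin_coeff_le (n : ℤ) (Finset.range i) k
    have h2 : ((N₁.factorial / i.factorial : ℕ) : ℤ) * |(prodLin 1 (n : ℤ) (Finset.range i)).coeff k| ≤
        ((N₁.factorial * 2 ^ B : ℕ) : ℤ) := by
      calc ((N₁.factorial / i.factorial : ℕ) : ℤ) * |(prodLin 1 (n : ℤ) (Finset.range i)).coeff k|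
          ≤ ((N₁.factorial / i.factorial : ℕ) : ℤ) * ((prodAbs n (Finset.range i) : ℕ) : ℤ) :=
            mul_le_mul_of_nonneg_left h1 (by positivity)
        _ = ((N₁.factorial / i.factorial * prodAbs n (Finset.range i) : ℕ) : ℤ) := by push_cast; ring
        _ ≤ ((N₁.factorial * 2 ^ B : ℕ) : ℤ) := by
            have h3 : N₁.factorial / i.factorial * prodAbs n (Finset.range i) ≤
                N₁.factorial * 2 ^ B :=
              calc N₁.factorial / i.factorial * prodAbs n (Finset.range i)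
                  ≤ N₁.factorial / i.factorial * (i.factorial * 2 ^ B) :=
                    Nat.mul_le_mul_left _ (prodAbs_le_two_pow hB)
                _ = (N₁.factorial / i.factorial * i.factorial) * 2 ^ B := by ring
                _ ≤ N₁.factorial * 2 ^ B := Nat.mul_le_mul_right _ (Nat.div_mul_le_self _ _)
            exact_mod_cast h3
    calc |c (a, m, i)| * (((N₁.factorial / i.factorial : ℕ) : ℤ) *
          |(prodLin 1 (n : ℤ) (Finset.range i)).coeff k|)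
        ≤ (H : ℤ) * ((N₁.factorial * 2 ^ B : ℕ) : ℤ) := mul_le_mul hx h2 (by positivity) (by positivity)
      _ = ((N₁.factorial * (H * 2 ^ B) : ℕ) : ℤ) := by push_cast; ring
  calc |∑ i ∈ Finset.range N₁, (C (c (a, m, i) * ((N₁.factorial / i.factorial : ℕ) : ℤ)) *
        prodLin 1 (n : ℤ) (Finset.range i)).coeff k|
      ≤ ∑ i ∈ Finset.range N₁, |(C (c (a, m, i) * ((N₁.factorial / i.factorial : ℕ) : ℤ)) *
        prodLin 1 (n : ℤ) (Finset.range i)).coeff k| := Finset.abs_sum_le_sum_abs _ _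
    _ ≤ ∑ _i ∈ Finset.range N₁, ((N₁.factorial * (H * 2 ^ B) : ℕ) : ℤ) := Finset.sum_le_sum hterm
    _ = ((N₁.factorial * (N₁ * H * 2 ^ B) : ℕ) : ℤ) := by
        rw [Finset.sum_const, Finset.card_range, nsmul_eq_mul]
        push_cast
        ring

private theorem taylor_hasseG {R : Type} [CommRing R] (r : R) (m : ℕ) (P : R[X]) :
    taylor r (hasseDeriv m P) = hasseDeriv m (taylor r P) := by
  ext k
  have h := congrArg (fun L : R[X] →ₗ[R] R[X] => L P) (hasseDeriv_comp (R := R) k m)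
  simp only [LinearMap.comp_apply, LinearMap.smul_apply] at h
  rw [taylor_coeff, hasseDeriv_coeff, taylor_coeff, h, eval_smul, nsmul_eq_mul]
  congr 2
  rw [Nat.choose_symm_add]

theorem wB_size {N b n m k : ℕ} (hn : n < N) :
    |(taylor (n : ℤ) (hasseDeriv m (wB N b))).coeff k| ≤ ((N.factorial * 2 ^ (k + m) : ℕ) : ℤ) := by
  rw [taylor_hasseG, hasseDeriv_coeff]
  unfold wB
  rw [taylor_prodLin, zero_add, abs_mul, Nat.abs_cast]
  have h1 := prodLin_coeff_le (n : ℤ) ((Finset.range N).erase b) (k + m)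
  have h2 : prodAbs n ((Finset.range N).erase b) ≤ N.factorial :=
    (prodAbs_mono (Finset.erase_subset _ _)).trans (prodAbs_le_factorial hn)
  have h3 : (k + m).choose m ≤ 2 ^ (k + m) := Nat.choose_le_two_pow _ _
  calc (((k + m).choose m : ℕ) : ℤ) * |(prodLin 1 (n : ℤ) ((Finset.range N).erase b)).coeff (k + m)|
      ≤ ((2 ^ (k + m) : ℕ) : ℤ) * ((N.factorial : ℕ) : ℤ) :=
        mul_le_mul (by exact_mod_cast h3) (h1.trans (by exact_mod_cast h2)) (abs_nonneg _)
          (by positivity)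
    _ = ((N.factorial * 2 ^ (k + m) : ℕ) : ℤ) := by push_cast; ring

end MP_a3a416_nt.GL
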