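import Pool.Agent.Lib.MP_a3a416_nt.GL.Prod

/-!
# GL-Theta
Logarithmic form of `prod_bad`.  Model: `TW/Theta.lean`.
PROOF.  `Ps` = the filtered set, `∑ log p = log ∏ p ≤ (q+1) log EG`.  `log EG = log DG + log A + log (S+1) + log T + 2 log N + log N₁ + (N+N₁) log 4 + (T+S) log 2`; `log_DG_le` with `L = T+S+1`: `log DG ≤ (log 4 + 4)(N+N₁)(1 + log(T+S+1))`, `N₁ ≤ N`;
`A, S+1, T, N₁ ≤ N`, `log k ≤ k`, `log 4 ≤ 2`, `T + S ≤ N`: `log EG ≤ (2 (log 4 + 4) + 11) N (1 + log(T+S+1))`.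
-/

namespace MP_a3a416_nt.GL

open Polynomial MP_a3a416_nt.BB

private theorem Theta_log_le {k N : ℕ} (h : k ≤ N) : Real.log k ≤ N := by
  have h1 : Real.log k ≤ k := by
    rcases Nat.eq_zero_or_pos k with rfl | hk
    · simp
    · have h2 : (0 : ℝ) < k := by exact_mod_cast hk
      have h3 := Real.log_le_sub_one_of_pos h2
      linarith
  have h2 : (k : ℝ) ≤ N := by exact_mod_cast h
  linarith

private theorem Theta_EG {A S N N₁ T : ℕ} (hA : 1 ≤ A) (hT : 1 ≤ T) (hN₁ : 1 ≤ N₁) (hN : N₁ ≤ N)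
    (hNT : T + S + A + 10 ≤ N) :
    Real.log (EG A S N N₁ T) ≤ (2 * (Real.log 4 + 4) + 11) *
      ((N : ℝ) * (1 + Real.log ((T : ℝ) + S + 1))) := by
  have hA0 : (0 : ℝ) < A := by exact_mod_cast hA
  have hS0 : (0 : ℝ) < (S : ℝ) + 1 := by positivity
  have hT0 : (0 : ℝ) < T := by exact_mod_cast hT
  have hN10 : (0 : ℝ) < N₁ := by exact_mod_cast hN₁
  have hN0 : (0 : ℝ) < N := by
    have : 0 < N := by omega
    exact_mod_cast this
  have hD0 : (0 : ℝ) < DG N N₁ (T + S + 1) := by exact_mod_cast DG_pos N N₁ (T + S + 1)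
  have hlogL : 0 ≤ Real.log ((T : ℝ) + S + 1) := Real.log_nonneg (by
    have : 1 ≤ T + S + 1 := by omega
    exact_mod_cast this)
  have hlog4 : 0 ≤ Real.log 4 := Real.log_nonneg (by norm_num)
  have e1 : Real.log (EG A S N N₁ T) = Real.log (DG N N₁ (T + S + 1)) + (Real.log A +
      Real.log ((S : ℝ) + 1) + Real.log T + 2 * Real.log N + Real.log N₁ +
      ((N : ℝ) + N₁) * Real.log 4 + ((T : ℝ) + S) * Real.log 2) := by
    unfold EG
    push_cast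
    have hn1 : (A : ℝ) * ((S : ℝ) + 1) ≠ 0 := mul_ne_zero hA0.ne' hS0.ne'
    have hn2 : (A : ℝ) * ((S : ℝ) + 1) * T ≠ 0 := mul_ne_zero hn1 hT0.ne'
    have hn3 : (A : ℝ) * ((S : ℝ) + 1) * T * (N : ℝ) ^ 2 ≠ 0 :=
      mul_ne_zero hn2 (pow_ne_zero _ hN0.ne')
    have hn4 : (A : ℝ) * ((S : ℝ) + 1) * T * (N : ℝ) ^ 2 * N₁ ≠ 0 := mul_ne_zero hn3 hN10.ne'
    have hn5 : (4 : ℝ) ^ (N + N₁) ≠ 0 := by positivity
    have hn6 : (2 : ℝ) ^ (T + S) ≠ 0 := by positivity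
    rw [Real.log_mul hD0.ne' (mul_ne_zero (mul_ne_zero hn4 hn5) hn6),
      Real.log_mul (mul_ne_zero hn4 hn5) hn6, Real.log_mul hn4 hn5, Real.log_mul hn3 hN10.ne',
      Real.log_mul hn2 (pow_ne_zero _ hN0.ne'), Real.log_mul hn1 hT0.ne',
      Real.log_mul hA0.ne' hS0.ne', Real.log_pow, Real.log_pow, Real.log_pow]
    push_cast
    ring
  have e2 := log_DG_le N N₁ (T + S + 1)
  have f1 : Real.log A ≤ N := Theta_log_le (by omega)
  have f2 : Real.log ((S : ℝ) + 1) ≤ N := by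
    have := Theta_log_le (k := S + 1) (N := N) (by omega)
    push_cast at this
    exact this
  have f3 : Real.log T ≤ N := Theta_log_le (by omega)
  have f4 : Real.log N ≤ N := Theta_log_le le_rfl
  have f5 : Real.log N₁ ≤ N := Theta_log_le hN
  have f6 : Real.log 4 ≤ 2 := by
    have h1 : Real.log 4 = 2 * Real.log 2 := by
      rw [show (4 : ℝ) = 2 ^ 2 by norm_num, Real.log_pow]
      norm_num
    have h2 := Real.log_two_lt_d9
    rw [h1]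
    linarith
  have hN1N : (N₁ : ℝ) ≤ N := by exact_mod_cast hN
  have f7 : ((N : ℝ) + N₁) * Real.log 4 ≤ 4 * N := by
    have h1 : ((N : ℝ) + N₁) * Real.log 4 ≤ ((N : ℝ) + N₁) * 2 :=
      mul_le_mul_of_nonneg_left f6 (by positivity)
    linarith
  have f8 : ((T : ℝ) + S) * Real.log 2 ≤ N := by
    have h1 : (T : ℝ) + S ≤ N := by
      have : T + S ≤ N := by omega
      exact_mod_cast this
    have h2 : ((T : ℝ) + S) * Real.log 2 ≤ ((T : ℝ) + S) * 1 :=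
      mul_le_mul_of_nonneg_left (by linarith [Real.log_two_lt_d9]) (by positivity)
    linarith
  have f9 : (N : ℝ) ≤ N * (1 + Real.log ((T : ℝ) + S + 1)) := by
    have h2 : (0 : ℝ) ≤ N * Real.log ((T : ℝ) + S + 1) := by positivity
    nlinarith
  rw [e1]
  push_cast at e2
  obtain ⟨W, hW⟩ : ∃ W : ℝ, W = N * (1 + Real.log ((T : ℝ) + S + 1)) := ⟨_, rfl⟩
  have e3 : Real.log (DG N N₁ (T + S + 1)) ≤ 2 * (Real.log 4 + 4) * W := by
    rw [hW]
    refine e2.trans ?_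
    have h1 : (Real.log 4 + 4) * ((N : ℝ) + N₁) ≤ (Real.log 4 + 4) * (2 * N) :=
      mul_le_mul_of_nonneg_left (by linarith) (by positivity)
    have h2 := mul_le_mul_of_nonneg_right h1
      (show (0 : ℝ) ≤ 1 + Real.log ((T : ℝ) + S + 1) by linarith)
    refine h2.trans (le_of_eq ?_)
    ring
  rw [← hW] at f9 ⊢
  have e4 : (2 * (Real.log 4 + 4) + 11) * W = 2 * (Real.log 4 + 4) * W + 11 * W := by ring
  rw [e4]
  linarith

open Classical in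
theorem theta_bad : ∃ C : ℝ, 0 < C ∧ ∀ (A S N N₁ T δ q k x : ℕ), 1 ≤ A → 1 ≤ T → 1 ≤ N₁ → N₁ ≤ N →
    T + S + A + 10 ≤ N → 1 ≤ q → 1 ≤ k → A * (N + N₁) ≤ k →
    (N + N₁) + A * x + δ * (N + N₁) ≤ (q - 1) * k → A * (N + N₁) + q * k ≤ A * (S + 1) * N₁ →
    (∀ ν R, 1 ≤ ν → ν ≤ 2 * A → 1 ≤ R → R ≤ A * S →
      (ν + R) * (N + N₁ - 1) < (N + 1 - (ν + R)) * (T - A + R + 1)) →
    ∑ p ∈ (Finset.Icc (N + 1) x).filter (fun p : ℕ => p.Prime ∧ (badPos A S T p).card ≤ δ), Real.log p ≤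
      C * (((q : ℝ) + 1) * (N * (1 + Real.log ((T : ℝ) + S + 1)))) := by
  have hlog4 : 0 ≤ Real.log 4 := Real.log_nonneg (by norm_num)
  refine ⟨2 * (Real.log 4 + 4) + 11, by positivity, ?_⟩
  intro A S N N₁ T δ q k x hA hT hN₁ hN hNT hq hk h1 h2 h3 hZ
  obtain ⟨Ps, hPs⟩ : ∃ Ps : Finset ℕ, Ps = (Finset.Icc (N + 1) x).filter
    (fun p : ℕ => p.Prime ∧ (badPos A S T p).card ≤ δ) := ⟨_, rfl⟩
  rw [← hPs]
  have hP : ∀ p ∈ Ps, p.Prime ∧ N < p ∧ p ≤ x ∧ (badPos A S T p).card ≤ δ := by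
    intro p hp
    rw [hPs, Finset.mem_filter, Finset.mem_Icc] at hp
    exact ⟨hp.2.1, by omega, hp.1.2, hp.2.2⟩
  have hmain := prod_bad hA hT hN₁ hN hNT hq hk h1 h2 h3 hZ Ps hP
  have hsum : ∑ p ∈ Ps, Real.log p = Real.log ((∏ p ∈ Ps, p : ℕ) : ℝ) := by
    push_cast
    rw [Real.log_prod]
    intro p hp
    have := (hP p hp).1.pos
    positivity
  have hprod0 : (0 : ℝ) < ((∏ p ∈ Ps, p : ℕ) : ℝ) := by
    have : 0 < ∏ p ∈ Ps, p := Finset.prod_pos fun p hp => (hP p hp).1.pos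
    exact_mod_cast this
  have hmainR : (((∏ p ∈ Ps, p : ℕ) : ℝ)) ≤ (EG A S N N₁ T : ℝ) ^ (q + 1) := by
    exact_mod_cast hmain
  have hlog := Real.log_le_log hprod0 hmainR
  rw [Real.log_pow] at hlog
  have hE := Theta_EG (S := S) hA hT hN₁ hN hNT
  rw [hsum]
  refine hlog.trans ?_
  have h4 : ((q + 1 : ℕ) : ℝ) * Real.log (EG A S N N₁ T) ≤ ((q + 1 : ℕ) : ℝ) *
      ((2 * (Real.log 4 + 4) + 11) * ((N : ℝ) * (1 + Real.log ((T : ℝ) + S + 1)))) :=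
    mul_le_mul_of_nonneg_left hE (Nat.cast_nonneg _)
  refine h4.trans (le_of_eq ?_)
  push_cast
  ring

end MP_a3a416_nt.GL
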