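import Mathlib

/-!
# GL-ZCnt
Counting of local kernels (no determinants).
PROOF.  If `l = 0` or `N' = 0` or `ι` is empty: `l = 0` follows from `hind` when `ι` is empty and `N' > 0` (take `α = 1`); then the left side is `0`.  If `H0 = 0`, `hind` forces `l = 0` as well (`X^0 ∣ ..` always).  So let `H0 ≥ 1`.
For `n < N'`, `s : Fin l`, `i : ι` let `g n s i := trunc H0 (κ n s i)` (a polynomial of degree `< H0`, `κ n s i - g n s i` divisible by `X^H0`: coefficients) and `W n := ∏ n' ∈ (range N').erase n, (X - C n')^H0` and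
`u n s i := taylor (-n) (g n s i) * W n`, of degree `< N' * H0` (degree `≤ (H0 - 1) + (N'-1) H0`).  `Δ := ∏ n ∈ range N', (X - C n)^H0`, monic of degree `N' * H0`.
For `j < d`: `Δ ∣ ∑ i, Mx j i * u n s i`: `X^H0 ∣ ∑ i, taylor n (Mx j i) * g n s i` (as polynomials), so applying `taylor (-n)`: `(X - C n)^H0 ∣ ∑ i, Mx j i * taylor (-n) (g n s i)`; multiply by `W n`, `Δ = (X - C n)^H0 * W n`.
Let `q n s j` be the quotient: `∑ i, Mx j i * u n s i = Δ * q n s j`, degree: `D' + N' H0 - 1 ≥ N' H0 + natDegree (q n s j)` if `q n s j ≠ 0`, so `q n s j ∈ degreeLT ℚ D'` (for `D' = 0` it is `0`).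
The family `(n, s) ↦ (j ↦ q n s j)`, index `Fin N' × Fin l`, in `Fin d → degreeLT ℚ D'` (dimension `d * D'`: `Module.finrank_pi_fintype`, `degreeLTEquiv`) is linearly independent: if `∑ α (n,s) q n s j = 0` for all `j < d`, then
`u := ∑ C (α (n,s)) u n s` satisfies `∑ i, Mx j i * u i = 0` for all `j < d`, so `u = 0` by `hinj`.  Fix `n`: modulo `(X - C n)^H0` all terms with `n' ≠ n` vanish (`(X - C n)^H0 ∣ W n'`), so `(X - C n)^H0 ∣ (∑_s C (α (n,s)) taylor (-n) (g n s i)) * W n`, and `W n` is coprime to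
`X - C n` (`IsCoprime` of distinct linear factors, `IsCoprime.dvd_of_dvd_mul_right`); so `X^H0 ∣ ∑_s C (α (n,s)) g n s i` for all `i`, hence `X^H0 ∣ ∑_s C (α (n,s)) κ n s i`, and `hind n` gives `α (n, ·) = 0`.
So `N' * l = card ≤ finrank = d * D'` (`LinearIndependent.fintype_card_le_finrank`).
-/

namespace MP_a3a416_nt.GL

open Polynomial

private theorem ZCnt_poly (p : ℚ[X]) (n : ℕ) :
    (PowerSeries.X : PowerSeries ℚ) ^ n ∣ (p : PowerSeries ℚ) ↔ (X : ℚ[X]) ^ n ∣ p := by
  rw [PowerSeries.X_pow_dvd_iff, Polynomial.X_pow_dvd_iff]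
  simp only [Polynomial.coeff_coe]

private theorem ZCnt_trunc (φ : PowerSeries ℚ) (n : ℕ) :
    (PowerSeries.X : PowerSeries ℚ) ^ n ∣
      φ - ((PowerSeries.trunc n φ : ℚ[X]) : PowerSeries ℚ) := by
  rw [PowerSeries.X_pow_dvd_iff]
  intro m hm
  rw [map_sub, Polynomial.coeff_coe, PowerSeries.coeff_trunc, if_pos hm, sub_self]

private theorem ZCnt_tay (p : ℚ[X]) (n : ℕ) (a : ℚ) :
    (X - C a) ^ n ∣ taylor (-a) p ↔ (X : ℚ[X]) ^ n ∣ p := by
  constructor
  · rintro ⟨q, hq⟩
    have h := congrArg (taylor a) hq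
    rw [taylor_taylor, add_neg_cancel, taylor_zero, taylor_mul, taylor_pow, map_sub, taylor_X,
      taylor_C, add_sub_cancel_right] at h
    exact ⟨_, h⟩
  · rintro ⟨q, hq⟩
    rw [hq, taylor_mul, taylor_X_pow, C_neg, ← sub_eq_add_neg]
    exact dvd_mul_right _ _

theorem zcount {ι : Type} [Fintype ι] {d l H0 N' D' : ℕ} (Mx : ℕ → ι → ℚ[X])
    (hinj : ∀ u : ι → ℚ[X], (∀ j < d, ∑ i, Mx j i * u i = 0) → u = 0)
    (hdeg : ∀ j < d, ∀ i, (Mx j i).natDegree ≤ D')
    (κ : ℕ → Fin l → ι → PowerSeries ℚ)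
    (hκ : ∀ n < N', ∀ s, ∀ j < d, (PowerSeries.X : PowerSeries ℚ) ^ H0 ∣
      ∑ i, ((taylor (n : ℚ) (Mx j i) : ℚ[X]) : PowerSeries ℚ) * κ n s i)
    (hind : ∀ n < N', ∀ α : Fin l → ℚ, (∀ i, (PowerSeries.X : PowerSeries ℚ) ^ H0 ∣
      ∑ s, PowerSeries.C (α s) * κ n s i) → α = 0) :
    N' * l ≤ d * D' := by
  classical
  rcases Nat.eq_zero_or_pos N' with hN | hN
  · rw [hN, Nat.zero_mul]
    exact Nat.zero_le _
  rcases Nat.eq_zero_or_pos l with hl | hl
  · rw [hl, Nat.mul_zero]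
    exact Nat.zero_le _
  have hH : 0 < H0 := by
    by_contra h
    have h0 : H0 = 0 := by omega
    have h1 := hind 0 hN (fun _ => 1) (fun i => by
      rw [h0, pow_zero]
      exact one_dvd _)
    have h2 := congrFun h1 ⟨0, hl⟩
    simp at h2
  let g : ℕ → Fin l → ι → ℚ[X] := fun n s i => PowerSeries.trunc H0 (κ n s i)
  let W : ℕ → ℚ[X] := fun n => ∏ n' ∈ (Finset.range N').erase n, (X - C (n' : ℚ)) ^ H0
  let Δ : ℚ[X] := ∏ n' ∈ Finset.range N', (X - C (n' : ℚ)) ^ H0
  let u : ℕ → Fin l → ι → ℚ[X] := fun n s i => taylor (-(n : ℚ)) (g n s i) * W n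
  have hΔ : Δ.Monic := monic_prod_of_monic _ _ fun n _ => (monic_X_sub_C _).pow _
  have hΔd : Δ.natDegree = N' * H0 := by
    change (∏ n' ∈ Finset.range N', (X - C (n' : ℚ)) ^ H0).natDegree = _
    rw [natDegree_prod_of_monic _ _ fun n _ => (monic_X_sub_C _).pow _]
    simp only [natDegree_pow, natDegree_X_sub_C, mul_one, Finset.sum_const, Finset.card_range,
      smul_eq_mul]
  have hWΔ : ∀ n < N', Δ = (X - C (n : ℚ)) ^ H0 * W n := fun n hn =>
    (Finset.mul_prod_erase _ _ (Finset.mem_range.2 hn)).symm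
  have hWd : ∀ n < N', (W n).natDegree + H0 = N' * H0 := by
    intro n hn
    have hWm : (W n).Monic := monic_prod_of_monic _ _ fun n _ => (monic_X_sub_C _).pow _
    have h1 := congrArg natDegree (hWΔ n hn)
    rw [hΔd, ((monic_X_sub_C _).pow _).natDegree_mul hWm, natDegree_pow, natDegree_X_sub_C,
      mul_one] at h1
    omega
  have hgd : ∀ n s i, (g n s i).natDegree + 1 ≤ H0 := by
    intro n s i
    obtain ⟨h, hh⟩ : ∃ h, H0 = h + 1 := ⟨H0 - 1, by omega⟩
    have h1 := PowerSeries.natDegree_trunc_lt (κ n s i) h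
    have h2 : g n s i = PowerSeries.trunc (h + 1) (κ n s i) := by rw [← hh]
    rw [h2, hh]
    exact h1
  have hud : ∀ n < N', ∀ s i, (u n s i).natDegree + 1 ≤ N' * H0 := by
    intro n hn s i
    have h1 : (u n s i).natDegree ≤ (taylor (-(n : ℚ)) (g n s i)).natDegree + (W n).natDegree :=
      natDegree_mul_le
    rw [natDegree_taylor] at h1
    have h2 := hgd n s i
    have h3 := hWd n hn
    omega
  have hdvd : ∀ n < N', ∀ s, ∀ j < d, Δ ∣ ∑ i, Mx j i * u n s i := by
    intro n hn s j hj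
    have h1 : (PowerSeries.X : PowerSeries ℚ) ^ H0 ∣
        ((∑ i, taylor (n : ℚ) (Mx j i) * g n s i : ℚ[X]) : PowerSeries ℚ) := by
      have h2 : ((∑ i, taylor (n : ℚ) (Mx j i) * g n s i : ℚ[X]) : PowerSeries ℚ) =
          ∑ i, ((taylor (n : ℚ) (Mx j i) : ℚ[X]) : PowerSeries ℚ) * κ n s i -
          ∑ i, ((taylor (n : ℚ) (Mx j i) : ℚ[X]) : PowerSeries ℚ) *
            (κ n s i - ((g n s i : ℚ[X]) : PowerSeries ℚ)) := by
        rw [← Finset.sum_sub_distrib]
        have h3 := map_sum (Polynomial.coeToPowerSeries.ringHom (R := ℚ))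
          (fun i => taylor (n : ℚ) (Mx j i) * g n s i) Finset.univ
        rw [Polynomial.coeToPowerSeries.ringHom_apply] at h3
        rw [h3]
        refine Finset.sum_congr rfl fun i _ => ?_
        rw [Polynomial.coeToPowerSeries.ringHom_apply, Polynomial.coe_mul]
        ring
      rw [h2]
      refine dvd_sub (hκ n hn s j hj) (Finset.dvd_sum fun i _ => ?_)
      exact (ZCnt_trunc (κ n s i) H0).mul_left _
    rw [ZCnt_poly, ← ZCnt_tay _ _ (n : ℚ)] at h1
    have h4 : taylor (-(n : ℚ)) (∑ i, taylor (n : ℚ) (Mx j i) * g n s i) =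
        ∑ i, Mx j i * taylor (-(n : ℚ)) (g n s i) := by
      rw [map_sum]
      refine Finset.sum_congr rfl fun i _ => ?_
      rw [taylor_mul, taylor_taylor, neg_add_cancel, taylor_zero]
    rw [h4] at h1
    have h5 : ∑ i, Mx j i * u n s i = (∑ i, Mx j i * taylor (-(n : ℚ)) (g n s i)) * W n := by
      rw [Finset.sum_mul]
      refine Finset.sum_congr rfl fun i _ => ?_
      change Mx j i * (taylor (-(n : ℚ)) (g n s i) * W n) = _
      ring
    rw [h5, hWΔ n hn]
    exact mul_dvd_mul h1 (dvd_refl _)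
  have hq : ∀ (n : ℕ) (s : Fin l) (j : ℕ), ∃ q : ℚ[X], n < N' → j < d →
      ∑ i, Mx j i * u n s i = Δ * q := by
    intro n s j
    by_cases h : n < N' ∧ j < d
    · obtain ⟨q, hq⟩ := hdvd n h.1 s j h.2
      exact ⟨q, fun _ _ => hq⟩
    · exact ⟨0, fun h1 h2 => absurd ⟨h1, h2⟩ h⟩
  choose q hq using hq
  have hqd : ∀ n < N', ∀ s, ∀ j < d, ∀ m, D' ≤ m → (q n s j).coeff m = 0 := by
    intro n hn s j hj m hm
    by_cases h0 : q n s j = 0
    · rw [h0, coeff_zero]
    apply coeff_eq_zero_of_natDegree_lt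
    have h1 := congrArg natDegree (hq n s j hn hj)
    rw [hΔ.natDegree_mul' h0, hΔd] at h1
    have h2 : (∑ i, Mx j i * u n s i).natDegree ≤ D' + (N' * H0 - 1) := by
      refine natDegree_sum_le_of_forall_le _ _ fun i _ => ?_
      refine natDegree_mul_le.trans (Nat.add_le_add (hdeg j hj i) ?_)
      have := hud n hn s i
      omega
    have h3 : 1 ≤ N' * H0 := Nat.mul_pos hN hH
    omega
  -- the matrix of the coefficients
  let A : Matrix (Fin d × Fin D') (Fin N' × Fin l) ℚ := fun a b => (q b.1 b.2 a.1).coeff a.2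
  have hinjA : Function.Injective A.mulVecLin := by
    rw [← LinearMap.ker_eq_bot, LinearMap.ker_eq_bot']
    intro α hα
    -- the combination of the quotients vanishes
    have h1 : ∀ j < d, ∑ b : Fin N' × Fin l, C (α b) * q b.1 b.2 j = 0 := by
      intro j hj
      ext m
      rw [finsetSum_coeff, coeff_zero]
      simp only [coeff_C_mul]
      by_cases hm : m < D'
      · have h2 := congrFun hα (⟨j, hj⟩, ⟨m, hm⟩)
        rw [Matrix.mulVecLin_apply] at h2
        have h3 : ∑ b : Fin N' × Fin l, (q b.1 b.2 j).coeff m * α b = 0 := h2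
        rw [← h3]
        exact Finset.sum_congr rfl fun b _ => mul_comm _ _
      · refine Finset.sum_eq_zero fun b _ => ?_
        rw [hqd b.1 b.1.2 b.2 j hj m (by omega), mul_zero]
    have h2 : (fun i => ∑ b : Fin N' × Fin l, C (α b) * u b.1 b.2 i) = (0 : ι → ℚ[X]) := by
      apply hinj
      intro j hj
      have h3 : ∑ i, Mx j i * ∑ b : Fin N' × Fin l, C (α b) * u b.1 b.2 i =
          ∑ b : Fin N' × Fin l, C (α b) * ∑ i, Mx j i * u b.1 b.2 i := by
        simp_rw [Finset.mul_sum]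
        rw [Finset.sum_comm]
        refine Finset.sum_congr rfl fun b _ => Finset.sum_congr rfl fun i _ => ?_
        ring
      rw [h3]
      have h4 : ∀ b : Fin N' × Fin l, C (α b) * ∑ i, Mx j i * u b.1 b.2 i =
          Δ * (C (α b) * q b.1 b.2 j) := by
        intro b
        rw [hq b.1 b.2 j b.1.2 hj]
        ring
      rw [Finset.sum_congr rfl fun b _ => h4 b, ← Finset.mul_sum, h1 j hj, mul_zero]
    funext b₀
    obtain ⟨n₀, s₀⟩ := b₀
    have h5 : (fun s => α (n₀, s)) = 0 := by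
      apply hind n₀ n₀.2
      intro i
      have h6 : ∑ b : Fin N' × Fin l, C (α b) * u b.1 b.2 i = 0 := congrFun h2 i
      rw [Fintype.sum_prod_type] at h6
      -- modulo the factor at `n₀`
      have h7 : (X - C ((n₀ : ℕ) : ℚ)) ^ H0 ∣ ∑ s : Fin l, C (α (n₀, s)) * u n₀ s i := by
        have h8 := Finset.add_sum_erase Finset.univ
          (fun n : Fin N' => ∑ s : Fin l, C (α (n, s)) * u n s i) (Finset.mem_univ n₀)
        have h9 : ∑ s : Fin l, C (α (n₀, s)) * u n₀ s i =
            - ∑ n ∈ Finset.univ.erase n₀, ∑ s : Fin l, C (α (n, s)) * u n s i := by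
          rw [eq_neg_iff_add_eq_zero]
          exact h8.trans h6
        rw [h9, dvd_neg]
        refine Finset.dvd_sum fun n hn => Finset.dvd_sum fun s _ => ?_
        have hne : n ≠ n₀ := Finset.ne_of_mem_erase hn
        have h10 : (X - C ((n₀ : ℕ) : ℚ)) ^ H0 ∣ W n := by
          refine Finset.dvd_prod_of_mem (fun n' : ℕ => (X - C (n' : ℚ)) ^ H0) ?_
          rw [Finset.mem_erase, Finset.mem_range]
          exact ⟨fun h => hne (Fin.ext h.symm), n₀.2⟩
        exact (h10.mul_left _).mul_left _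
      have h11 : ∑ s : Fin l, C (α (n₀, s)) * u n₀ s i =
          (∑ s : Fin l, C (α (n₀, s)) * taylor (-((n₀ : ℕ) : ℚ)) (g n₀ s i)) * W n₀ := by
        rw [Finset.sum_mul]
        refine Finset.sum_congr rfl fun s _ => ?_
        change C (α (n₀, s)) * (taylor (-((n₀ : ℕ) : ℚ)) (g n₀ s i) * W n₀) = _
        ring
      rw [h11] at h7
      have hcop : IsCoprime ((X - C ((n₀ : ℕ) : ℚ)) ^ H0) (W n₀) := by
        refine IsCoprime.pow_left (IsCoprime.prod_right fun n' hn' => IsCoprime.pow_right ?_)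
        apply isCoprime_X_sub_C_of_isUnit_sub
        have hne : n' ≠ (n₀ : ℕ) := Finset.ne_of_mem_erase hn'
        have : ((n₀ : ℕ) : ℚ) - (n' : ℚ) ≠ 0 := by
          rw [sub_ne_zero]
          exact_mod_cast hne.symm
        exact this.isUnit
      have h12 := hcop.dvd_of_dvd_mul_right h7
      have h13 : ∑ s : Fin l, C (α (n₀, s)) * taylor (-((n₀ : ℕ) : ℚ)) (g n₀ s i) =
          taylor (-((n₀ : ℕ) : ℚ)) (∑ s : Fin l, C (α (n₀, s)) * g n₀ s i) := by
        rw [map_sum]
        refine Finset.sum_congr rfl fun s _ => ?_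
        rw [taylor_mul, taylor_C]
      rw [h13, ZCnt_tay, ← ZCnt_poly] at h12
      have h14 : ∑ s, PowerSeries.C (α (n₀, s)) * κ n₀ s i =
          ((∑ s : Fin l, C (α (n₀, s)) * g n₀ s i : ℚ[X]) : PowerSeries ℚ) +
          ∑ s, PowerSeries.C (α (n₀, s)) * (κ n₀ s i - ((g n₀ s i : ℚ[X]) : PowerSeries ℚ)) := by
        have h3 := map_sum (Polynomial.coeToPowerSeries.ringHom (R := ℚ))
          (fun s : Fin l => C (α (n₀, s)) * g n₀ s i) Finset.univ
        rw [Polynomial.coeToPowerSeries.ringHom_apply] at h3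
        rw [h3, ← Finset.sum_add_distrib]
        refine Finset.sum_congr rfl fun s _ => ?_
        rw [Polynomial.coeToPowerSeries.ringHom_apply, Polynomial.coe_mul, Polynomial.coe_C]
        ring
      rw [h14]
      refine dvd_add h12 (Finset.dvd_sum fun s _ => ?_)
      exact (ZCnt_trunc (κ n₀ s i) H0).mul_left _
    exact congrFun h5 s₀
  have hfin := LinearMap.finrank_le_finrank_of_injective hinjA
  rw [Module.finrank_fintype_fun_eq_card, Module.finrank_fintype_fun_eq_card, Fintype.card_prod,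
    Fintype.card_prod, Fintype.card_fin, Fintype.card_fin, Fintype.card_fin, Fintype.card_fin]
    at hfin
  exact hfin

end MP_a3a416_nt.GL
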