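import Pool.Agent.Lib.MP_a3a416_nt.TW.ZDefs

/-!
# GL-ZDefs
Zero estimate for the gap law, definitions.  Columns: `Fin ν ⊕ Fin R`.
Data: `P_d ∈ ℚ[X]` (`d : Fin R`), `Γ_{k,d} ∈ ℚ[X]` (`k : Fin ν`), a pole order `M`, polynomials `Q_{k,b}` (`b < N`) with
`(X-b)^M Q_{k,b} = ∑_d P_d(X) Γ_{k,d}(X-b)`.  Rows: `rho j = (∑_{b<j} Q_{k,b}(x+j))_k, (P_d(x+j))_d`.
-/

namespace MP_a3a416_nt.GL

open Polynomial

/-- the semilinear operator `Φ` (`TW.aG M G = G(x+1)/(x+1)^M`). -/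
noncomputable def Ph {ν R : ℕ} (M : ℕ) (Γ : Fin ν → Fin R → ℚ[X]) (w : Fin ν ⊕ Fin R → RatFunc ℚ) :
    Fin ν ⊕ Fin R → RatFunc ℚ :=
  Sum.elim
    (fun k => BBZ.sh (w (Sum.inl k)) + ∑ d : Fin R, BBZ.sh (w (Sum.inr d)) * TW.aG M (Γ k d))
    (fun d => BBZ.sh (w (Sum.inr d)))

/-- the rows over `ℚ(x)`: `Φ^j (0, P)`. -/
noncomputable def rK {ν R : ℕ} (M : ℕ) (P : Fin R → ℚ[X]) (Γ : Fin ν → Fin R → ℚ[X]) (j : ℕ) :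
    Fin ν ⊕ Fin R → RatFunc ℚ :=
  (Ph M Γ)^[j] (Sum.elim (fun _ => 0) (fun d => algebraMap ℚ[X] (RatFunc ℚ) (P d)))

/-- relation between the columns, valid for all large rows. -/
def IsRel {ν R : ℕ} (M : ℕ) (P : Fin R → ℚ[X]) (Γ : Fin ν → Fin R → ℚ[X])
    (l : Fin ν ⊕ Fin R → RatFunc ℚ) : Prop :=
  ∃ j₀ : ℕ, ∀ j, j₀ ≤ j → ∑ i, l i * rK M P Γ j i = 0

/-- the polynomial rows. -/
noncomputable def rho {ν R : ℕ} (P : Fin R → ℚ[X]) (Q : Fin ν → ℕ → ℚ[X]) (j : ℕ) :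
    Fin ν ⊕ Fin R → ℚ[X] :=
  Sum.elim (fun k => ∑ b ∈ Finset.range j, taylor (j : ℚ) (Q k b)) (fun d => taylor (j : ℚ) (P d))

end MP_a3a416_nt.GL
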