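import Pool.Agent.Lib.MP_a3a416_nt.GL.ZRel

/-!
# GL-ZInd
The rows `rK 0, …, rK (ν+R-1)` are linearly independent over `ℚ(x)`.
PROOF.  Copy `TW/ZInd.lean` (`R + 2` becomes `ν + R`, `Module.finrank (RatFunc ℚ) (Fin ν ⊕ Fin R → RatFunc ℚ) = ν + R`).
-/

namespace MP_a3a416_nt.GL

open Polynomial

private theorem ZInd_add {ν R : ℕ} (M : ℕ) (Γ : Fin ν → Fin R → ℚ[X])
    (w w' : Fin ν ⊕ Fin R → RatFunc ℚ) : Ph M Γ (w + w') = Ph M Γ w + Ph M Γ w' := by
  funext i
  rcases i with i | d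
  · simp only [Ph, Pi.add_apply, Sum.elim_inl, map_add, add_mul, Finset.sum_add_distrib]
    ring
  · simp only [Ph, Pi.add_apply, Sum.elim_inr, map_add]

private theorem ZInd_smul {ν R : ℕ} (M : ℕ) (Γ : Fin ν → Fin R → ℚ[X]) (c : RatFunc ℚ)
    (w : Fin ν ⊕ Fin R → RatFunc ℚ) : Ph M Γ (c • w) = BBZ.sh c • Ph M Γ w := by
  funext i
  rcases i with i | d
  · simp only [Ph, Pi.smul_apply, smul_eq_mul, Sum.elim_inl, map_mul, mul_add, Finset.mul_sum,
      mul_assoc]
  · simp only [Ph, Pi.smul_apply, smul_eq_mul, Sum.elim_inr, map_mul]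

private theorem ZInd_zero {ν R : ℕ} (M : ℕ) (Γ : Fin ν → Fin R → ℚ[X]) : Ph M Γ 0 = 0 := by
  have h := ZInd_smul M Γ 0 0
  rw [zero_smul, map_zero, zero_smul] at h
  exact h

private theorem ZInd_sum {ν R : ℕ} (M : ℕ) (Γ : Fin ν → Fin R → ℚ[X]) (k : ℕ)
    (c : Fin k → RatFunc ℚ) (r : Fin k → Fin ν ⊕ Fin R → RatFunc ℚ) :
    Ph M Γ (∑ j, c j • r j) = ∑ j, BBZ.sh (c j) • Ph M Γ (r j) := by
  classical
  have : ∀ s : Finset (Fin k),
      Ph M Γ (∑ j ∈ s, c j • r j) = ∑ j ∈ s, BBZ.sh (c j) • Ph M Γ (r j) := by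
    intro s
    induction s using Finset.induction_on with
    | empty => simp [ZInd_zero]
    | insert a s ha ih =>
      rw [Finset.sum_insert ha, Finset.sum_insert ha, ZInd_add, ZInd_smul, ih]
  exact this _

theorem rows_indep {ν R : ℕ} (M : ℕ) (P : Fin R → ℚ[X]) (Γ : Fin ν → Fin R → ℚ[X]) (hR : 1 ≤ R)
    (hP : LinearIndependent ℚ P) (hΓd : ∀ k d, (Γ k d).natDegree < M)
    (hΓ : ∀ ζ : Fin ν → ℚ, (∀ d, ∑ k, C (ζ k) * Γ k d = 0) → ζ = 0) :
    LinearIndependent (RatFunc ℚ) (fun j : Fin (ν + R) => rK M P Γ (j : ℕ)) := by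
  classical
  have h0 : rK M P Γ 0 ≠ 0 := by
    intro h
    have h1 := congrFun h (Sum.inr ⟨0, by omega⟩)
    rw [rK_inr, Pi.zero_apply, map_eq_zero_iff _ (RatFunc.algebraMap_injective ℚ)] at h1
    apply hP.ne_zero ⟨0, by omega⟩
    apply taylor_injective ((0 : ℕ) : ℚ)
    rw [h1, map_zero]
  obtain ⟨k, hk1, hkR, hli, hdep⟩ := BBZ.firstDep (K := RatFunc ℚ) (fun j => rK M P Γ j) h0
  have hcard : Module.finrank (RatFunc ℚ) (Fin ν ⊕ Fin R → RatFunc ℚ) = ν + R := by
    rw [Module.finrank_fintype_fun_eq_card]; simp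
  rw [hcard] at hkR
  rcases Nat.lt_or_ge k (ν + R) with hk | hk
  · exfalso
    obtain ⟨W, hW⟩ : ∃ W : Submodule (RatFunc ℚ) (Fin ν ⊕ Fin R → RatFunc ℚ),
        W = Submodule.span (RatFunc ℚ) (Set.range fun j : Fin k => rK M P Γ j) := ⟨_, rfl⟩
    have hWmem : ∀ j, j ≤ k → rK M P Γ j ∈ W := by
      intro j hj
      rcases Nat.lt_or_ge j k with h | h
      · rw [hW]; exact Submodule.subset_span ⟨⟨j, h⟩, rfl⟩
      · have : j = k := le_antisymm hj h
        rw [this, hW]; exact hdep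
    have hst : ∀ w ∈ W, Ph M Γ w ∈ W := by
      intro w hw
      rw [hW] at hw
      obtain ⟨c, rfl⟩ := (Submodule.mem_span_range_iff_exists_fun (RatFunc ℚ)).1 hw
      rw [ZInd_sum]
      refine Submodule.sum_mem _ fun j _ => Submodule.smul_mem _ _ ?_
      rw [← rK_succ]
      exact hWmem _ j.2
    have hall : ∀ j, rK M P Γ j ∈ W := by
      intro j
      induction j with
      | zero => exact hWmem 0 (Nat.zero_le _)
      | succ j ih => rw [rK_succ]; exact hst _ ih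
    have hlt : W < ⊤ := by
      rw [lt_top_iff_ne_top]
      intro htop
      have h1 : Module.finrank (RatFunc ℚ) W ≤ k := by
        rw [hW]
        have h2 := finrank_range_le_card (R := RatFunc ℚ) (fun j : Fin k => rK M P Γ j)
        rw [Fintype.card_fin] at h2
        exact h2
      rw [htop, finrank_top, hcard] at h1
      omega
    obtain ⟨φ, hφ, hφW⟩ := Submodule.exists_le_ker_of_lt_top W hlt
    apply hφ
    have hrel : IsRel M P Γ (fun i => φ (Pi.single i 1)) := by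
      refine ⟨0, fun j _ => ?_⟩
      have h1 : φ (rK M P Γ j) = 0 := hφW (hall j)
      rw [LinearMap.pi_apply_eq_sum_univ φ (rK M P Γ j)] at h1
      rw [← h1]
      refine Finset.sum_congr rfl fun i _ => ?_
      rw [smul_eq_mul, mul_comm]
      have h5 : (Pi.single i 1 : Fin ν ⊕ Fin R → RatFunc ℚ) = fun j' => if i = j' then 1 else 0 := by
        funext j'
        simp [Pi.single_apply, eq_comm]
      rw [← h5]
    have h2 := no_rel M P Γ hR hP hΓd hΓ _ hrel
    refine LinearMap.pi_ext fun i x => ?_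
    have h3 : (Pi.single i x : Fin ν ⊕ Fin R → RatFunc ℚ) = x • Pi.single i 1 := by
      rw [← Pi.single_smul, smul_eq_mul, mul_one]
    rw [h3, map_smul]
    have h4 := congrFun h2 i
    simp only [Pi.zero_apply] at h4
    rw [h4]
    simp
  · have hk2 : k = ν + R := le_antisymm hkR hk
    subst hk2
    exact hli

end MP_a3a416_nt.GL
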