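import Pool.Agent.Lib.MP_a3a416_nt.GL.ZInd

/-!
# GL-ZInj
The polynomial rows, and injectivity of the matrix of the rows `0..ν+R-1`.
-/

namespace MP_a3a416_nt.GL

open Polynomial

private theorem zi_Ph {ν R : ℕ} (M : ℕ) (Γ : Fin ν → Fin R → ℚ[X]) (w : Fin ν ⊕ Fin R → ℚ[X])
    (q : Fin ν → ℚ[X])
    (hq : ∀ k, (X + C 1) ^ M * q k = ∑ d, taylor 1 (w (Sum.inr d)) * taylor 1 (Γ k d)) :
    Ph M Γ (fun i => algebraMap ℚ[X] (RatFunc ℚ) (w i)) = fun i => algebraMap ℚ[X] (RatFunc ℚ)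
      ((Sum.elim (fun k => taylor 1 (w (Sum.inl k)) + q k)
        (fun d => taylor 1 (w (Sum.inr d))) : Fin ν ⊕ Fin R → ℚ[X]) i) := by
  have hX : algebraMap ℚ[X] (RatFunc ℚ) ((X + C 1) ^ M) ≠ 0 := by
    rw [Ne, FaithfulSMul.algebraMap_eq_zero_iff]
    exact pow_ne_zero _ (X_add_C_ne_zero _)
  have hs : ∀ k, ∑ d : Fin R, BBZ.sh (algebraMap ℚ[X] (RatFunc ℚ) (w (Sum.inr d))) * TW.aG M (Γ k d) =
      algebraMap ℚ[X] (RatFunc ℚ) (q k) := by
    intro k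
    unfold TW.aG
    simp only [BBZ.sh_algebraMap, ← mul_div_assoc, ← map_mul]
    rw [← Finset.sum_div, ← map_sum, ← hq k, map_mul, mul_div_cancel_left₀ _ hX]
  funext i
  unfold Ph
  rcases i with k | d
  · simp only [Sum.elim_inl]
    rw [hs, map_add, BBZ.sh_algebraMap]
  · simp only [Sum.elim_inr]
    rw [BBZ.sh_algebraMap]

private theorem zi_taylor (j : ℕ) (p : ℚ[X]) :
    taylor 1 (taylor (j : ℚ) p) = taylor ((j + 1 : ℕ) : ℚ) p := by
  rw [taylor_taylor]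
  push_cast
  rw [add_comm]

theorem rK_eq_rho {ν R N : ℕ} (M : ℕ) (P : Fin R → ℚ[X]) (Γ : Fin ν → Fin R → ℚ[X]) (Q : Fin ν → ℕ → ℚ[X])
    (hQ : ∀ k, ∀ b < N, (X - C (b : ℚ)) ^ M * Q k b = ∑ d, P d * taylor (-(b : ℚ)) (Γ k d))
    (j : ℕ) (hj : j ≤ N) :
    rK M P Γ j = fun i => algebraMap ℚ[X] (RatFunc ℚ) (rho P Q j i) := by
  induction j with
  | zero =>
    funext i
    unfold rK rho
    rcases i with k | d
    · simp
    · simp
  | succ j ih =>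
    rw [rK_succ, ih (by omega),
      zi_Ph M Γ (rho P Q j) (fun k => taylor ((j + 1 : ℕ) : ℚ) (Q k j))]
    · funext i
      congr 1
      rcases i with k | d
      · simp only [Sum.elim_inl, rho]
        rw [Finset.sum_range_succ, map_sum]
        simp only [zi_taylor]
      · simp only [Sum.elim_inr, rho]
        rw [zi_taylor]
    · intro k
      have h1 := congrArg (taylor ((j + 1 : ℕ) : ℚ)) (hQ k j (by omega))
      rw [taylor_mul, taylor_pow, map_sub, taylor_X, taylor_C, map_sum] at h1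
      have h2 : (X + C ((j + 1 : ℕ) : ℚ) - C (j : ℚ) : ℚ[X]) = X + C 1 := by
        have : ((j + 1 : ℕ) : ℚ) = (j : ℚ) + 1 := by push_cast; ring
        rw [this, C_add]
        ring
      rw [h2] at h1
      rw [h1]
      refine Finset.sum_congr rfl fun d _ => ?_
      simp only [rho, Sum.elim_inr]
      have h3 : ((j + 1 : ℕ) : ℚ) + -(j : ℚ) = 1 := by push_cast; ring
      rw [taylor_mul, zi_taylor, taylor_taylor, h3]

theorem rho_inj {ν R N : ℕ} (M : ℕ) (P : Fin R → ℚ[X]) (Γ : Fin ν → Fin R → ℚ[X]) (Q : Fin ν → ℕ → ℚ[X])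
    (hR : 1 ≤ R) (hRN : ν + R ≤ N + 1) (hP : LinearIndependent ℚ P) (hΓd : ∀ k d, (Γ k d).natDegree < M)
    (hΓ : ∀ ζ : Fin ν → ℚ, (∀ d, ∑ k, C (ζ k) * Γ k d = 0) → ζ = 0)
    (hQ : ∀ k, ∀ b < N, (X - C (b : ℚ)) ^ M * Q k b = ∑ d, P d * taylor (-(b : ℚ)) (Γ k d))
    (u : Fin ν ⊕ Fin R → ℚ[X]) (hu : ∀ j < ν + R, ∑ i, rho P Q j i * u i = 0) : u = 0 := by
  classical
  obtain ⟨e, -⟩ : ∃ e : Fin ν ⊕ Fin R ≃ Fin (ν + R), e = finSumFinEquiv := ⟨_, rfl⟩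
  have h1 := (rows_indep M P Γ hR hP hΓd hΓ).comp _ e.injective
  obtain ⟨A, hA⟩ : ∃ A : Matrix (Fin ν ⊕ Fin R) (Fin ν ⊕ Fin R) (RatFunc ℚ),
      A = Matrix.of fun i c => rK M P Γ ((e i : Fin (ν + R)) : ℕ) c := ⟨_, rfl⟩
  have h2 : LinearIndependent (RatFunc ℚ) A.row := by
    have h3 : A.row = (fun j : Fin (ν + R) => rK M P Γ (j : ℕ)) ∘ e := by
      funext i c
      rw [hA]
      rfl
    rw [h3]
    exact h1
  have h4 : IsUnit A := Matrix.linearIndependent_rows_iff_isUnit.1 h2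
  have h5 : Function.Injective A.mulVec := Matrix.mulVec_injective_iff_isUnit.2 h4
  have h6 : A.mulVec (fun i => algebraMap ℚ[X] (RatFunc ℚ) (u i)) = 0 := by
    funext i
    rw [hA]
    show ∑ c, rK M P Γ ((e i : Fin (ν + R)) : ℕ) c * algebraMap ℚ[X] (RatFunc ℚ) (u c) = 0
    have hlt := (e i).isLt
    rw [rK_eq_rho M P Γ Q hQ _ (by omega)]
    have h7 := congrArg (algebraMap ℚ[X] (RatFunc ℚ)) (hu (e i) hlt)
    rw [map_sum, map_zero] at h7
    rw [← h7]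
    refine Finset.sum_congr rfl fun c _ => ?_
    rw [map_mul]
  have h8 : (fun i => algebraMap ℚ[X] (RatFunc ℚ) (u i)) = 0 := by
    apply h5
    rw [h6, Matrix.mulVec_zero]
  funext i
  have h9 := congrFun h8 i
  simp only [Pi.zero_apply] at h9
  rw [Pi.zero_apply]
  rwa [FaithfulSMul.algebraMap_eq_zero_iff] at h9

end MP_a3a416_nt.GL
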