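import Pool.Agent.Lib.MP_a3a416_nt.GL.ZRow

/-!
# GL-ZLoc
The local kernel at the node `n`.
PROOF.  Let `u := Sum.elim (fun k => (τ k : ℚ⟦X⟧)) (fun d => H d n)` and `κ := Fin.append (fun s : Fin (T - o) => fun i => X^(H0 - T + s) * u i) (fun l : Fin L => Sum.elim (fun _ => 0) (fun d => X^(H0 - M) * (∑ k, E l k * Γ k d : ℚ[X])))`.
Kernel, first part: `∑ i, taylor n (rho j i) * u i = ∑_d taylor (n+j) (P d) * H d (n+j)` (`row_eq`, `Fintype.sum_sum_type`) is divisible by `X^T` (`hz (n+j)`, `n + j < N`), times `X^(H0-T+s)`.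
Second part: `∑_d taylor n (rho j (inr d)) * (X^(H0-M) ∑_k E l k Γ k d) = X^(H0-M) ∑_k E l k (X^M ..)` by `ext_eq`, divisible by `X^H0`.
Independence: let `α` be such that all `∑_s C (α s) * κ s i` are divisible by `X^H0`; split `α` into `α' : Fin (T-o) → ℚ` and `α'' : Fin L → ℚ` (`Fin.sum_univ_add`, `Fin.append_left/right`).
Component `inl k*` (`k*` of `hτ`): `(∑_{s<T-o} C (α' s) X^(H0-T+s)) * τ k* = X^(H0-T) * p * τ k*` with `p = ∑_s C (α' s) X^s` a polynomial of degree `< T - o`; `X^H0 ∣` it gives `X^T ∣ p * τ k*` (power series or polynomials, `X` cancels), and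
`¬ X^(o+1) ∣ τ k*` gives `X^(T-o) ∣ p` (`X` is prime; e.g. write `τ k* = X^i * v` with `i ≤ o`, `v.coeff 0 ≠ 0` (`Polynomial.exists_eq_pow_rootMultiplicity_mul_and_not_dvd` or `natTrailingDegree`), so `v` is a unit in `ℚ⟦X⟧`, `X^(T-i) ∣ p`);
degree `< T - o` gives `p = 0`, `α' = 0` (coefficients).  If `T ≤ o` the index set `Fin (T-o)` is empty.  Component `inr d`: `X^H0 ∣ X^(H0-M) * ∑_l C (α'' l) ∑_k E l k Γ k d`, so `X^M ∣ ..` and `hE` gives `α'' = 0`.
(`X^a ∣ (p : ℚ⟦X⟧) ↔ X^a ∣ p` for polynomials: `PowerSeries.X_pow_dvd_iff`, `Polynomial.X_pow_dvd_iff`, `Polynomial.coeff_coe`.)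
-/

namespace MP_a3a416_nt.GL

open Polynomial

private theorem zl_sum {ι : Type*} (s : Finset ι) (f : ι → ℚ[X]) :
    ((∑ d ∈ s, f d : ℚ[X]) : PowerSeries ℚ) = ∑ d ∈ s, ((f d : ℚ[X]) : PowerSeries ℚ) :=
  map_sum (Polynomial.coeToPowerSeries.ringHom (R := ℚ)) f s

private theorem zl_dvd (a : ℕ) (p : ℚ[X]) :
    (PowerSeries.X : PowerSeries ℚ) ^ a ∣ (p : PowerSeries ℚ) ↔ X ^ a ∣ p := by
  rw [PowerSeries.X_pow_dvd_iff, Polynomial.X_pow_dvd_iff]
  simp only [Polynomial.coeff_coe]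

private theorem zl_cancel {o T : ℕ} {p t : ℚ[X]} (ht : ¬ X ^ (o + 1) ∣ t) (h : X ^ T ∣ p * t) :
    X ^ (T - o) ∣ p := by
  have hf : FiniteMultiplicity (X : ℚ[X]) t := ⟨o, ht⟩
  obtain ⟨v, hv, hv2⟩ := hf.exists_eq_pow_mul_and_not_dvd
  obtain ⟨i, hi⟩ : ∃ i, i = multiplicity (X : ℚ[X]) t := ⟨_, rfl⟩
  rw [← hi] at hv
  have hio : i ≤ o := by
    by_contra hcon
    apply ht
    rw [hv]
    exact Dvd.dvd.mul_right (pow_dvd_pow _ (by omega)) _
  have h1 : X ^ T ∣ (p * X ^ i) * v := by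
    rw [mul_assoc, ← hv]
    exact h
  have h2 : X ^ T ∣ p * X ^ i := Prime.pow_dvd_of_dvd_mul_right prime_X T hv2 h1
  by_cases hT : T ≤ o
  · rw [Nat.sub_eq_zero_of_le hT, pow_zero]
    exact one_dvd _
  · have h3 : X ^ (T - i) * X ^ i ∣ p * X ^ i := by
      rw [← pow_add, Nat.sub_add_cancel (by omega)]
      exact h2
    have h4 : X ^ (T - i) ∣ p := (mul_dvd_mul_iff_right (pow_ne_zero _ X_ne_zero)).1 h3
    exact (pow_dvd_pow _ (by omega)).trans h4

private theorem zl_coeff {m : ℕ} (a : Fin m → ℚ) (s : Fin m) :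
    (∑ i : Fin m, C (a i) * X ^ (i : ℕ) : ℚ[X]).coeff (s : ℕ) = a s := by
  rw [finsetSum_coeff, Finset.sum_eq_single s]
  · rw [coeff_C_mul, coeff_X_pow, if_pos rfl, mul_one]
  · intro i _ hi
    rw [coeff_C_mul, coeff_X_pow, if_neg, mul_zero]
    intro h
    exact hi (Fin.ext h.symm)
  · intro h
    exact absurd (Finset.mem_univ s) h

theorem zloc {ν R N T M o L : ℕ} (P : Fin R → ℚ[X]) (Γ : Fin ν → Fin R → ℚ[X]) (Q : Fin ν → ℕ → ℚ[X])
    (τ : Fin ν → ℚ[X]) (H : Fin R → ℕ → PowerSeries ℚ) (E : Fin L → Fin ν → ℚ[X])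
    (hQ : ∀ k, ∀ b < N, (X - C (b : ℚ)) ^ M * Q k b = ∑ d, P d * taylor (-(b : ℚ)) (Γ k d))
    (hH : ∀ d, ∀ n : ℕ, (PowerSeries.X + PowerSeries.C ((n : ℚ) + 1)) ^ M * (H d (n + 1) - H d n) =
      ((∑ k, τ k * taylor ((n : ℚ) + 1) (Γ k d) : ℚ[X]) : PowerSeries ℚ))
    (hz : ∀ n < N, (PowerSeries.X : PowerSeries ℚ) ^ T ∣
      ∑ d, ((taylor (n : ℚ) (P d) : ℚ[X]) : PowerSeries ℚ) * H d n)
    (hτ : ∃ k, ¬ X ^ (o + 1) ∣ τ k)
    (hE : ∀ α : Fin L → ℚ, (∀ d, X ^ M ∣ ∑ l, C (α l) * ∑ k, E l k * Γ k d) → α = 0)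
    (H0 : ℕ) (hT : T ≤ H0) (hM : M ≤ H0) (n : ℕ) (hn : n + (ν + R) ≤ N) :
    ∃ κ : Fin (T - o + L) → Fin ν ⊕ Fin R → PowerSeries ℚ,
      (∀ s, ∀ j < ν + R, (PowerSeries.X : PowerSeries ℚ) ^ H0 ∣
        ∑ i, ((taylor (n : ℚ) (rho P Q j i) : ℚ[X]) : PowerSeries ℚ) * κ s i) ∧
      ∀ α : Fin (T - o + L) → ℚ, (∀ i, (PowerSeries.X : PowerSeries ℚ) ^ H0 ∣
        ∑ s, PowerSeries.C (α s) * κ s i) → α = 0 := by
  classical
  obtain ⟨ks, hks⟩ := hτ
  obtain ⟨u, hu⟩ : ∃ u : Fin ν ⊕ Fin R → PowerSeries ℚ,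
      u = Sum.elim (fun k => ((τ k : ℚ[X]) : PowerSeries ℚ)) (fun d => H d n) := ⟨_, rfl⟩
  obtain ⟨κ1, hκ1⟩ : ∃ κ1 : Fin (T - o) → Fin ν ⊕ Fin R → PowerSeries ℚ,
      κ1 = fun (s : Fin (T - o)) i => PowerSeries.X ^ (H0 - T + (s : ℕ)) * u i := ⟨_, rfl⟩
  obtain ⟨κ2, hκ2⟩ : ∃ κ2 : Fin L → Fin ν ⊕ Fin R → PowerSeries ℚ,
      κ2 = fun l => Sum.elim (fun _ => 0)
        (fun d => PowerSeries.X ^ (H0 - M) * ((∑ k, E l k * Γ k d : ℚ[X]) : PowerSeries ℚ)) := ⟨_, rfl⟩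
  have hXT : (PowerSeries.X : PowerSeries ℚ) ^ H0 = PowerSeries.X ^ (H0 - T) * PowerSeries.X ^ T := by
    rw [← pow_add, Nat.sub_add_cancel hT]
  have hXM : (PowerSeries.X : PowerSeries ℚ) ^ H0 = PowerSeries.X ^ (H0 - M) * PowerSeries.X ^ M := by
    rw [← pow_add, Nat.sub_add_cancel hM]
  refine ⟨Fin.append κ1 κ2, ?_, ?_⟩
  · intro s j hj
    refine Fin.addCases (fun s => ?_) (fun l => ?_) s
    · rw [Fin.append_left, hκ1]
      have h1 : ∑ i, ((taylor (n : ℚ) (rho P Q j i) : ℚ[X]) : PowerSeries ℚ) *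
          (PowerSeries.X ^ (H0 - T + (s : ℕ)) * u i) =
          PowerSeries.X ^ (H0 - T + (s : ℕ)) *
            ∑ d, ((taylor ((n + j : ℕ) : ℚ) (P d) : ℚ[X]) : PowerSeries ℚ) * H d (n + j) := by
        rw [row_eq M P Γ Q τ H hQ hH j (by omega) n, Fintype.sum_sum_type, hu, mul_add,
          Finset.mul_sum, Finset.mul_sum]
        simp only [Sum.elim_inl, Sum.elim_inr]
        congr 1
        · refine Finset.sum_congr rfl fun k _ => ?_
          ring
        · refine Finset.sum_congr rfl fun k _ => ?_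
          ring
      rw [h1, hXT, pow_add, mul_assoc]
      refine mul_dvd_mul_left _ ?_
      exact Dvd.dvd.mul_left (hz (n + j) (by omega)) _
    · rw [Fin.append_right, hκ2]
      have h1 : ∑ i, ((taylor (n : ℚ) (rho P Q j i) : ℚ[X]) : PowerSeries ℚ) *
          (Sum.elim (fun _ => 0) (fun d => PowerSeries.X ^ (H0 - M) *
            ((∑ k, E l k * Γ k d : ℚ[X]) : PowerSeries ℚ)) : Fin ν ⊕ Fin R → PowerSeries ℚ) i =
          PowerSeries.X ^ (H0 - M) * ((∑ k, E l k * (X ^ M * taylor ((n + j : ℕ) : ℚ) (Q k (n + j))) : ℚ[X]) :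
            PowerSeries ℚ) := by
        rw [Fintype.sum_sum_type]
        simp only [Sum.elim_inl, Sum.elim_inr, mul_zero, Finset.sum_const_zero, zero_add]
        have h2 : (∑ k, E l k * (X ^ M * taylor ((n + j : ℕ) : ℚ) (Q k (n + j))) : ℚ[X]) =
            ∑ d, taylor (n : ℚ) (rho P Q j (Sum.inr d)) * ∑ k, E l k * Γ k d := by
          simp only [Finset.mul_sum]
          rw [Finset.sum_comm]
          refine Finset.sum_congr rfl fun k _ => ?_
          rw [← ext_eq M P Γ Q hQ n j (by omega) k, Finset.mul_sum]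
          refine Finset.sum_congr rfl fun d _ => ?_
          ring
        rw [h2, zl_sum, Finset.mul_sum]
        refine Finset.sum_congr rfl fun d _ => ?_
        rw [Polynomial.coe_mul]
        ring
      rw [h1, hXM]
      refine mul_dvd_mul_left _ ?_
      rw [zl_dvd]
      refine Finset.dvd_sum fun k _ => ?_
      exact Dvd.dvd.mul_left (Dvd.intro _ rfl) _
  · intro α hα
    -- the first part
    have hA : ∀ s : Fin (T - o), α (Fin.castAdd L s) = 0 := by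
      have h1 := hα (Sum.inl ks)
      have h2 : ∑ s, PowerSeries.C (α s) * Fin.append κ1 κ2 s (Sum.inl ks) =
          PowerSeries.X ^ (H0 - T) *
            (((∑ s : Fin (T - o), C (α (Fin.castAdd L s)) * X ^ (s : ℕ)) * τ ks : ℚ[X]) : PowerSeries ℚ) := by
        rw [Fin.sum_univ_add]
        have h3 : ∀ l : Fin L, PowerSeries.C (α (Fin.natAdd (T - o) l)) *
            Fin.append κ1 κ2 (Fin.natAdd (T - o) l) (Sum.inl ks) = 0 := by
          intro l
          rw [Fin.append_right, hκ2]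
          simp
        rw [Finset.sum_congr rfl fun l _ => h3 l, Finset.sum_const_zero, add_zero,
          Polynomial.coe_mul, zl_sum, Finset.sum_mul, Finset.mul_sum]
        refine Finset.sum_congr rfl fun s _ => ?_
        rw [Fin.append_left, hκ1, hu]
        simp only [Sum.elim_inl, Polynomial.coe_mul, Polynomial.coe_pow, Polynomial.coe_X,
          Polynomial.coe_C]
        rw [pow_add]
        ring
      rw [h2, hXT] at h1
      have h4 := (mul_dvd_mul_iff_left (pow_ne_zero _ PowerSeries.X_ne_zero)).1 h1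
      rw [zl_dvd] at h4
      have h5 := zl_cancel hks h4
      intro s
      rw [← zl_coeff (fun s => α (Fin.castAdd L s)) s]
      exact (Polynomial.X_pow_dvd_iff.1 h5) s s.2
    have hB : (fun l : Fin L => α (Fin.natAdd (T - o) l)) = 0 := by
      apply hE
      intro d
      have h1 := hα (Sum.inr d)
      have h2 : ∑ s, PowerSeries.C (α s) * Fin.append κ1 κ2 s (Sum.inr d) =
          PowerSeries.X ^ (H0 - M) *
            ((∑ l : Fin L, C (α (Fin.natAdd (T - o) l)) * ∑ k, E l k * Γ k d : ℚ[X]) : PowerSeries ℚ) := by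
        rw [Fin.sum_univ_add]
        have h3 : ∀ s : Fin (T - o), PowerSeries.C (α (Fin.castAdd L s)) *
            Fin.append κ1 κ2 (Fin.castAdd L s) (Sum.inr d) = 0 := by
          intro s
          rw [hA s, map_zero, zero_mul]
        rw [Finset.sum_congr rfl fun s _ => h3 s, Finset.sum_const_zero, zero_add, zl_sum,
          Finset.mul_sum]
        refine Finset.sum_congr rfl fun l _ => ?_
        rw [Fin.append_right, hκ2]
        simp only [Sum.elim_inr, Polynomial.coe_mul, Polynomial.coe_C]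
        ring
      rw [h2, hXM] at h1
      have h4 := (mul_dvd_mul_iff_left (pow_ne_zero _ PowerSeries.X_ne_zero)).1 h1
      rw [zl_dvd] at h4
      exact h4
    funext s
    refine Fin.addCases (fun s => ?_) (fun l => ?_) s
    · exact hA s
    · exact congrFun hB l

end MP_a3a416_nt.GL
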