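import Pool.Agent.Lib.MP_a3a416_nt.GL.ZDefs
import Pool.Agent.Lib.MP_a3a416_nt.TW.ZPole

/-!
# GL-ZRel
No non-zero relation between the columns.  Generalisation of `TW/ZRel.lean` (there `ν = 2`); copy from there as much as possible.
PROOF.  `rK (j+1) = Ph M Γ (rK j)` (`Function.iterate_succ_apply'`), `rK j (inr d) = algebraMap (taylor j (P d))`.  Relations form a `ℚ(x)`-space.
If `l` is a relation, so is `Psi l := (σ(l inl k), σ(l inr d) - ∑_k σ(l inl k) * aG M (Γ k d))`, because `∑ i, Psi l i * Ph M Γ w i = σ (∑ i, l i * w i)` (`Fintype.sum_sum_type`, the mixed double sum cancels by `Finset.sum_comm`).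
Step A: a relation `l` with `l (inl k) = 0` for all `k` is `0`: exactly `zr_step3` of `TW/ZRel.lean`.
Step B: let `l` be a relation with some `l (inl k) ≠ 0`; choose such a relation `w` with the smallest number of `k` with `w (inl k) ≠ 0` (`Nat.find`), `w (inl k0) ≠ 0`, `v := (w (inl k0))⁻¹ • w`, so `v (inl k0) = 1`.
`u := Psi v - v` has `u (inl k) = σ(v inl k) - v inl k`, `= 0` for `k = k0` and whenever `w (inl k) = 0`; so `u (inl k) = 0` for all `k` (minimality), so `u = 0` by Step A.  Hence `v (inl k) = algebraMap (C (c k))` (`BBZ.sh_const`), `c k0 = 1`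
(`σ` fixes constants: `BBZ.sh_algebraMap`, `taylor_C`), and for every `d`: `σ (v inr d) - v inr d = ∑_k algebraMap (C (c k)) * aG M (Γ k d) = algebraMap (taylor 1 (∑_k C (c k) * Γ k d)) / algebraMap ((X + C 1)^M)`
(`TW.aG` unfolded).  `TW.pole_lemma` gives `(X + C 1)^M ∣ taylor 1 (∑_k C (c k) * Γ k d)`, a polynomial of degree `< M` (`hΓd`; if `M = 0` there is no `k`, contradiction with `k0` and `hΓd k0 d`, `R ≥ 1`), so `∑_k C (c k) * Γ k d = 0`
(`natDegree_le_of_dvd`, `taylor_injective`, see `zr_dvd`, `zr_taylor_ne`) for all `d`; `hΓ` gives `c = 0`, contradiction with `c k0 = 1`.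
-/

namespace MP_a3a416_nt.GL

open Polynomial

theorem rK_succ {ν R : ℕ} (M : ℕ) (P : Fin R → ℚ[X]) (Γ : Fin ν → Fin R → ℚ[X]) (j : ℕ) :
    rK M P Γ (j + 1) = Ph M Γ (rK M P Γ j) := by
  unfold rK
  rw [Function.iterate_succ_apply']

theorem rK_inr {ν R : ℕ} (M : ℕ) (P : Fin R → ℚ[X]) (Γ : Fin ν → Fin R → ℚ[X]) (j : ℕ) (d : Fin R) :
    rK M P Γ j (Sum.inr d) = algebraMap ℚ[X] (RatFunc ℚ) (taylor (j : ℚ) (P d)) := by
  induction j with
  | zero => simp [rK]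
  | succ j ih =>
    rw [rK_succ]
    show BBZ.sh (rK M P Γ j (Sum.inr d)) = _
    rw [ih, BBZ.sh_algebraMap, taylor_taylor]
    push_cast
    rw [add_comm]

private theorem zr_add {ν R : ℕ} {M : ℕ} {P : Fin R → ℚ[X]} {Γ : Fin ν → Fin R → ℚ[X]}
    {l l' : Fin ν ⊕ Fin R → RatFunc ℚ} (h : IsRel M P Γ l) (h' : IsRel M P Γ l') : IsRel M P Γ (l - l') := by
  obtain ⟨a, ha⟩ := h
  obtain ⟨b, hb⟩ := h'
  refine ⟨max a b, fun j hj => ?_⟩
  have h1 := ha j (le_trans (le_max_left _ _) hj)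
  have h2 := hb j (le_trans (le_max_right _ _) hj)
  simp only [Pi.sub_apply, sub_mul, Finset.sum_sub_distrib]
  rw [h1, h2, sub_zero]

private theorem zr_smul {ν R : ℕ} {M : ℕ} {P : Fin R → ℚ[X]} {Γ : Fin ν → Fin R → ℚ[X]}
    {l : Fin ν ⊕ Fin R → RatFunc ℚ} (c : RatFunc ℚ) (h : IsRel M P Γ l) : IsRel M P Γ (c • l) := by
  obtain ⟨a, ha⟩ := h
  refine ⟨a, fun j hj => ?_⟩
  simp only [Pi.smul_apply, smul_eq_mul, mul_assoc]
  rw [← Finset.mul_sum, ha j hj, mul_zero]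

/-- the dual operator on relations -/
private noncomputable def zrPsi {ν R : ℕ} (M : ℕ) (Γ : Fin ν → Fin R → ℚ[X])
    (l : Fin ν ⊕ Fin R → RatFunc ℚ) : Fin ν ⊕ Fin R → RatFunc ℚ :=
  Sum.elim (fun k => BBZ.sh (l (Sum.inl k)))
    (fun d => BBZ.sh (l (Sum.inr d)) - ∑ k : Fin ν, BBZ.sh (l (Sum.inl k)) * TW.aG M (Γ k d))

private theorem zrPsi_l {ν R : ℕ} (M : ℕ) (Γ : Fin ν → Fin R → ℚ[X]) (l : Fin ν ⊕ Fin R → RatFunc ℚ)
    (k : Fin ν) : zrPsi M Γ l (Sum.inl k) = BBZ.sh (l (Sum.inl k)) := rfl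

private theorem zrPsi_r {ν R : ℕ} (M : ℕ) (Γ : Fin ν → Fin R → ℚ[X]) (l : Fin ν ⊕ Fin R → RatFunc ℚ)
    (d : Fin R) : zrPsi M Γ l (Sum.inr d) =
      BBZ.sh (l (Sum.inr d)) - ∑ k : Fin ν, BBZ.sh (l (Sum.inl k)) * TW.aG M (Γ k d) := rfl

private theorem zrPh_l {ν R : ℕ} (M : ℕ) (Γ : Fin ν → Fin R → ℚ[X]) (w : Fin ν ⊕ Fin R → RatFunc ℚ)
    (k : Fin ν) : Ph M Γ w (Sum.inl k) = BBZ.sh (w (Sum.inl k)) +
      ∑ d : Fin R, BBZ.sh (w (Sum.inr d)) * TW.aG M (Γ k d) := rfl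

private theorem zrPh_r {ν R : ℕ} (M : ℕ) (Γ : Fin ν → Fin R → ℚ[X]) (w : Fin ν ⊕ Fin R → RatFunc ℚ)
    (d : Fin R) : Ph M Γ w (Sum.inr d) = BBZ.sh (w (Sum.inr d)) := rfl

private theorem zr_pair {ν R : ℕ} (M : ℕ) (Γ : Fin ν → Fin R → ℚ[X]) (l w : Fin ν ⊕ Fin R → RatFunc ℚ) :
    ∑ i, zrPsi M Γ l i * Ph M Γ w i = BBZ.sh (∑ i, l i * w i) := by
  rw [Fintype.sum_sum_type, Fintype.sum_sum_type]
  simp only [zrPsi_l, zrPsi_r, zrPh_l, zrPh_r, map_add, map_mul, map_sum]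
  have h1 : ∑ d : Fin R, (BBZ.sh (l (Sum.inr d)) - ∑ k : Fin ν, BBZ.sh (l (Sum.inl k)) * TW.aG M (Γ k d)) *
      BBZ.sh (w (Sum.inr d)) = ∑ d : Fin R, BBZ.sh (l (Sum.inr d)) * BBZ.sh (w (Sum.inr d)) -
      ∑ k : Fin ν, ∑ d : Fin R, BBZ.sh (l (Sum.inl k)) * (BBZ.sh (w (Sum.inr d)) * TW.aG M (Γ k d)) := by
    rw [Finset.sum_comm, ← Finset.sum_sub_distrib]
    refine Finset.sum_congr rfl fun d _ => ?_
    rw [sub_mul, Finset.sum_mul]
    congr 1
    refine Finset.sum_congr rfl fun k _ => ?_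
    ring
  have h2 : ∑ k : Fin ν, BBZ.sh (l (Sum.inl k)) * (BBZ.sh (w (Sum.inl k)) +
      ∑ d : Fin R, BBZ.sh (w (Sum.inr d)) * TW.aG M (Γ k d)) =
      ∑ k : Fin ν, BBZ.sh (l (Sum.inl k)) * BBZ.sh (w (Sum.inl k)) +
      ∑ k : Fin ν, ∑ d : Fin R, BBZ.sh (l (Sum.inl k)) * (BBZ.sh (w (Sum.inr d)) * TW.aG M (Γ k d)) := by
    rw [← Finset.sum_add_distrib]
    refine Finset.sum_congr rfl fun k _ => ?_
    rw [mul_add, Finset.mul_sum]
  rw [h1, h2]
  ring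

private theorem zr_psi {ν R : ℕ} {M : ℕ} {P : Fin R → ℚ[X]} {Γ : Fin ν → Fin R → ℚ[X]}
    {l : Fin ν ⊕ Fin R → RatFunc ℚ} (h : IsRel M P Γ l) : IsRel M P Γ (zrPsi M Γ l) := by
  obtain ⟨a, ha⟩ := h
  refine ⟨a + 1, fun j hj => ?_⟩
  obtain ⟨i, rfl⟩ : ∃ i, j = i + 1 := ⟨j - 1, by omega⟩
  rw [rK_succ, zr_pair, ha i (by omega), map_zero]

/-- step A: no relation between the last columns -/
private theorem zr_stepA {ν R : ℕ} (M : ℕ) (P : Fin R → ℚ[X]) (Γ : Fin ν → Fin R → ℚ[X])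
    (hP : LinearIndependent ℚ P) (l : Fin ν ⊕ Fin R → RatFunc ℚ) (h : IsRel M P Γ l)
    (h0 : ∀ k, l (Sum.inl k) = 0) : l = 0 := by
  classical
  by_contra hl
  have hne : ∃ k : ℕ, ∃ w, IsRel M P Γ w ∧ (∀ k, w (Sum.inl k) = 0) ∧ w ≠ 0 ∧
      (Finset.univ.filter (fun d : Fin R => w (Sum.inr d) ≠ 0)).card = k :=
    ⟨_, l, h, h0, hl, rfl⟩
  obtain ⟨w, hw, hwa, hw0, hk⟩ := Nat.find_spec hne
  have hmin : ∀ u, IsRel M P Γ u → (∀ k, u (Sum.inl k) = 0) → u ≠ 0 →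
      (Finset.univ.filter (fun d : Fin R => w (Sum.inr d) ≠ 0)).card ≤
      (Finset.univ.filter (fun d : Fin R => u (Sum.inr d) ≠ 0)).card := by
    intro u hu hua hu0
    rw [hk]
    exact Nat.find_min' hne ⟨u, hu, hua, hu0, rfl⟩
  obtain ⟨d0, hd0⟩ : ∃ d : Fin R, w (Sum.inr d) ≠ 0 := by
    by_contra hcon
    push Not at hcon
    apply hw0
    funext i
    rcases i with i | d
    · exact hwa i
    · exact hcon d
  obtain ⟨v, hv⟩ : ∃ v, v = (w (Sum.inr d0))⁻¹ • w := ⟨_, rfl⟩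
  have hvW : IsRel M P Γ v := by rw [hv]; exact zr_smul _ hw
  have hva : ∀ k, v (Sum.inl k) = 0 := fun k => by rw [hv, Pi.smul_apply, hwa, smul_zero]
  have hv1 : v (Sum.inr d0) = 1 := by
    rw [hv, Pi.smul_apply, smul_eq_mul, inv_mul_cancel₀ hd0]
  have hvz : ∀ d, w (Sum.inr d) = 0 → v (Sum.inr d) = 0 := by
    intro d hd
    rw [hv, Pi.smul_apply, smul_eq_mul, hd, mul_zero]
  have huW : IsRel M P Γ (zrPsi M Γ v - v) := zr_add (zr_psi hvW) hvW
  have hur : ∀ d, (zrPsi M Γ v - v) (Sum.inr d) = BBZ.sh (v (Sum.inr d)) - v (Sum.inr d) := by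
    intro d
    rw [Pi.sub_apply, zrPsi_r]
    have hz : ∑ k : Fin ν, BBZ.sh (v (Sum.inl k)) * TW.aG M (Γ k d) = 0 :=
      Finset.sum_eq_zero fun k _ => by rw [hva, map_zero, zero_mul]
    rw [hz, sub_zero]
  have hu0 : zrPsi M Γ v - v = 0 := by
    by_contra hne0
    have h3 := hmin _ huW (fun k => by rw [Pi.sub_apply, zrPsi_l, hva, map_zero, sub_zero]) hne0
    have h4 : (Finset.univ.filter (fun d : Fin R => (zrPsi M Γ v - v) (Sum.inr d) ≠ 0)).card <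
        (Finset.univ.filter (fun d : Fin R => w (Sum.inr d) ≠ 0)).card := by
      refine Finset.card_lt_card (Finset.ssubset_iff_subset_ne.2 ⟨fun d hd => ?_, fun he => ?_⟩)
      · rw [Finset.mem_filter] at hd ⊢
        refine ⟨Finset.mem_univ _, fun h5 => hd.2 ?_⟩
        rw [hur, hvz d h5, map_zero, sub_zero]
      · have h5 : d0 ∈ Finset.univ.filter (fun d : Fin R => w (Sum.inr d) ≠ 0) :=
          Finset.mem_filter.2 ⟨Finset.mem_univ _, hd0⟩
        rw [← he, Finset.mem_filter] at h5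
        apply h5.2
        rw [hur, hv1, map_one, sub_self]
    omega
  have hconst : ∀ d : Fin R, ∃ c : ℚ, v (Sum.inr d) = algebraMap ℚ[X] (RatFunc ℚ) (C c) := by
    intro d
    apply BBZ.sh_const
    have h3 := congrFun hu0 (Sum.inr d)
    rw [hur, Pi.zero_apply] at h3
    exact sub_eq_zero.1 h3
  choose c hc using hconst
  obtain ⟨j, hj⟩ := hvW
  have h5 := hj j le_rfl
  rw [Fintype.sum_sum_type] at h5
  have hz : ∑ k : Fin ν, v (Sum.inl k) * rK M P Γ j (Sum.inl k) = 0 :=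
    Finset.sum_eq_zero fun k _ => by rw [hva, zero_mul]
  rw [hz, zero_add] at h5
  have h6 : taylor (j : ℚ) (∑ d, c d • P d) = 0 := by
    apply RatFunc.algebraMap_injective ℚ
    rw [map_zero, ← h5, map_sum, map_sum]
    refine Finset.sum_congr rfl fun d _ => ?_
    rw [hc d, rK_inr, ← map_mul, smul_eq_C_mul, taylor_mul, taylor_C]
  have h7 : ∑ d, c d • P d = 0 := taylor_injective (j : ℚ) (by rw [h6, map_zero])
  have h8 := Fintype.linearIndependent_iff.1 hP c h7 d0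
  have h9 := hc d0
  rw [hv1, h8, map_zero, map_zero] at h9
  exact one_ne_zero h9

private theorem zr_dvd {M : ℕ} {p : ℚ[X]} (h : (X + C 1) ^ M ∣ p) (hp : p ≠ 0) (hd : p.natDegree < M) :
    False := by
  have h1 := natDegree_le_of_dvd h hp
  rw [natDegree_pow, natDegree_X_add_C, mul_one] at h1
  omega

private theorem zr_taylor_ne {p : ℚ[X]} (hp : p ≠ 0) : taylor 1 p ≠ 0 := fun h =>
  hp (taylor_injective (1 : ℚ) (by rw [h, map_zero]))

theorem no_rel {ν R : ℕ} (M : ℕ) (P : Fin R → ℚ[X]) (Γ : Fin ν → Fin R → ℚ[X]) (hR : 1 ≤ R)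
    (hP : LinearIndependent ℚ P) (hΓd : ∀ k d, (Γ k d).natDegree < M)
    (hΓ : ∀ ζ : Fin ν → ℚ, (∀ d, ∑ k, C (ζ k) * Γ k d = 0) → ζ = 0)
    (l : Fin ν ⊕ Fin R → RatFunc ℚ) (h : IsRel M P Γ l) : l = 0 := by
  classical
  refine zr_stepA M P Γ hP l h ?_
  by_contra hcon
  push Not at hcon
  have hne : ∃ n : ℕ, ∃ w, IsRel M P Γ w ∧ (∃ k, w (Sum.inl k) ≠ 0) ∧
      (Finset.univ.filter (fun k : Fin ν => w (Sum.inl k) ≠ 0)).card = n :=
    ⟨_, l, h, hcon, rfl⟩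
  obtain ⟨w, hw, ⟨k0, hk0⟩, hk⟩ := Nat.find_spec hne
  have hmin : ∀ u, IsRel M P Γ u → (∃ k, u (Sum.inl k) ≠ 0) →
      (Finset.univ.filter (fun k : Fin ν => w (Sum.inl k) ≠ 0)).card ≤
      (Finset.univ.filter (fun k : Fin ν => u (Sum.inl k) ≠ 0)).card := by
    intro u hu hua
    rw [hk]
    exact Nat.find_min' hne ⟨u, hu, hua, rfl⟩
  obtain ⟨v, hv⟩ : ∃ v, v = (w (Sum.inl k0))⁻¹ • w := ⟨_, rfl⟩
  have hvW : IsRel M P Γ v := by rw [hv]; exact zr_smul _ hw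
  have hv1 : v (Sum.inl k0) = 1 := by
    rw [hv, Pi.smul_apply, smul_eq_mul, inv_mul_cancel₀ hk0]
  have hvz : ∀ k, w (Sum.inl k) = 0 → v (Sum.inl k) = 0 := by
    intro k hk'
    rw [hv, Pi.smul_apply, smul_eq_mul, hk', mul_zero]
  have huW : IsRel M P Γ (zrPsi M Γ v - v) := zr_add (zr_psi hvW) hvW
  have hul : ∀ k, (zrPsi M Γ v - v) (Sum.inl k) = BBZ.sh (v (Sum.inl k)) - v (Sum.inl k) := fun k => rfl
  have huz : ∀ k, (zrPsi M Γ v - v) (Sum.inl k) = 0 := by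
    by_contra hcon'
    push Not at hcon'
    have h3 := hmin _ huW hcon'
    have h4 : (Finset.univ.filter (fun k : Fin ν => (zrPsi M Γ v - v) (Sum.inl k) ≠ 0)).card <
        (Finset.univ.filter (fun k : Fin ν => w (Sum.inl k) ≠ 0)).card := by
      refine Finset.card_lt_card (Finset.ssubset_iff_subset_ne.2 ⟨fun k hk' => ?_, fun he => ?_⟩)
      · rw [Finset.mem_filter] at hk' ⊢
        refine ⟨Finset.mem_univ _, fun h5 => hk'.2 ?_⟩
        rw [hul, hvz k h5, map_zero, sub_zero]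
      · have h5 : k0 ∈ Finset.univ.filter (fun k : Fin ν => w (Sum.inl k) ≠ 0) :=
          Finset.mem_filter.2 ⟨Finset.mem_univ _, hk0⟩
        rw [← he, Finset.mem_filter] at h5
        apply h5.2
        rw [hul, hv1, map_one, sub_self]
    omega
  have hu0 := zr_stepA M P Γ hP _ huW huz
  have hconst : ∀ k : Fin ν, ∃ c : ℚ, v (Sum.inl k) = algebraMap ℚ[X] (RatFunc ℚ) (C c) := by
    intro k
    apply BBZ.sh_const
    have h3 := huz k
    rw [hul] at h3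
    exact sub_eq_zero.1 h3
  choose c hc using hconst
  have hd : ∀ d : Fin R, ∑ k, C (c k) * Γ k d = 0 := by
    intro d
    by_contra hne0
    have h2 := congrFun hu0 (Sum.inr d)
    rw [Pi.sub_apply, zrPsi_r, Pi.zero_apply] at h2
    have h3 : ∑ k : Fin ν, BBZ.sh (v (Sum.inl k)) * TW.aG M (Γ k d) =
        algebraMap ℚ[X] (RatFunc ℚ) (taylor 1 (∑ k, C (c k) * Γ k d)) /
          algebraMap ℚ[X] (RatFunc ℚ) ((X + C 1) ^ M) := by
      rw [map_sum, map_sum, Finset.sum_div]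
      refine Finset.sum_congr rfl fun k _ => ?_
      rw [hc k, BBZ.sh_algebraMap, taylor_C, taylor_mul, taylor_C, map_mul]
      unfold TW.aG
      rw [mul_div_assoc]
    have h4 := TW.pole_lemma M (taylor 1 (∑ k, C (c k) * Γ k d)) (v (Sum.inr d)) (by
      rw [← h3]
      linear_combination h2)
    refine zr_dvd h4 (zr_taylor_ne hne0) ?_
    rw [natDegree_taylor]
    have hM : 0 < M := lt_of_le_of_lt (Nat.zero_le _) (hΓd k0 d)
    have h5 : (∑ k, C (c k) * Γ k d).natDegree ≤ M - 1 := by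
      refine natDegree_sum_le_of_forall_le _ _ fun k _ => ?_
      refine (natDegree_C_mul_le _ _).trans ?_
      have := hΓd k d
      omega
    omega
  have h8 := congrFun (hΓ c hd) k0
  have h9 := hc k0
  rw [hv1, h8, Pi.zero_apply, map_zero, map_zero] at h9
  exact one_ne_zero h9

end MP_a3a416_nt.GL
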