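import Pool.Agent.Lib.MP_a3a416_nt.GL.ZDefs

/-!
# GL-ZRow
The row identity, and the extra kernel vectors.  Model: `TW/ZDiv.lean` (copy its private lemmas `zv_sum`, `zv_C`, `zv_tt`, `zv_ne`, `zv_shift`; they do not mention `ν`, `zv_shift` is used for each `Γ k`).
`row_eq` PROOF: induction on `j` (for all `n`), as `TW.row_eq`: for `(n+1, j)` the statement, then for every `j < N`:
`∑_d taylor (n+j+1) (P d) * (H d (n+1) - H d n) = ∑_k τ k * taylor n (taylor (j+1) (Q k j))` because both sides times `(X + C (n+1))^M` agree (`hH d n` and `hQ k j` shifted by `n+j+1`), and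
`rho (j+1) (inl k) = taylor 1 (rho j (inl k)) + taylor (j+1) (Q k j)`.
`ext_eq` PROOF: `hQ k (n+j)` shifted by `n+j`: `X^M * taylor (n+j) (Q k (n+j)) = ∑_d taylor (n+j) (P d) * Γ k d` (`zv_shift` with `w = 0`).
-/

namespace MP_a3a416_nt.GL

open Polynomial

private theorem zv_sum {ι : Type*} (s : Finset ι) (f : ι → ℚ[X]) :
    ((∑ d ∈ s, f d : ℚ[X]) : PowerSeries ℚ) = ∑ d ∈ s, ((f d : ℚ[X]) : PowerSeries ℚ) :=
  map_sum (Polynomial.coeToPowerSeries.ringHom (R := ℚ)) f s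

private theorem zv_C (a : ℚ) : ((C a : ℚ[X]) : PowerSeries ℚ) = PowerSeries.C a := Polynomial.coe_C a

private theorem zv_tt (n j : ℕ) (p : ℚ[X]) :
    taylor (n : ℚ) (taylor (j : ℚ) p) = taylor ((n + j : ℕ) : ℚ) p := by
  rw [taylor_taylor]
  push_cast
  rfl

private theorem zv_rho {ν R : ℕ} (P : Fin R → ℚ[X]) (Q : Fin ν → ℕ → ℚ[X]) (j : ℕ) (k : Fin ν) :
    rho P Q (j + 1) (Sum.inl k) = taylor 1 (rho P Q j (Sum.inl k)) + taylor ((j + 1 : ℕ) : ℚ) (Q k j) := by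
  simp only [rho, Sum.elim_inl]
  rw [Finset.sum_range_succ, map_sum]
  congr 1
  refine Finset.sum_congr rfl fun b _ => ?_
  have := zv_tt 1 j (Q k b)
  rw [Nat.cast_one] at this
  rw [this, add_comm 1 j]

private theorem zv_ne (a : ℚ) (M : ℕ) : (PowerSeries.X + PowerSeries.C a : PowerSeries ℚ) ^ M ≠ 0 := by
  refine pow_ne_zero _ ?_
  intro h
  have h1 := congrArg (PowerSeries.coeff 1) h
  rw [map_add, PowerSeries.coeff_one_X, PowerSeries.coeff_C, map_zero] at h1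
  simp at h1

private theorem zv_shift {R : ℕ} (M : ℕ) (P G : Fin R → ℚ[X]) (q : ℚ[X]) (b w : ℕ)
    (hQ : (X - C (b : ℚ)) ^ M * q = ∑ d, P d * taylor (-(b : ℚ)) (G d)) :
    (X + C ((w : ℚ))) ^ M * taylor ((w + b : ℕ) : ℚ) q =
      ∑ d, taylor ((w + b : ℕ) : ℚ) (P d) * taylor (w : ℚ) (G d) := by
  have h1 := congrArg (taylor ((w + b : ℕ) : ℚ)) hQ
  rw [taylor_mul, taylor_pow, map_sub, taylor_X, taylor_C, map_sum] at h1
  have h2 : (X + C ((w + b : ℕ) : ℚ) - C (b : ℚ) : ℚ[X]) = X + C (w : ℚ) := by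
    have : ((w + b : ℕ) : ℚ) = (w : ℚ) + (b : ℚ) := by push_cast; ring
    rw [this, C_add]
    ring
  rw [h2] at h1
  rw [h1]
  refine Finset.sum_congr rfl fun d _ => ?_
  have h3 : ((w + b : ℕ) : ℚ) + -(b : ℚ) = (w : ℚ) := by push_cast; ring
  rw [taylor_mul, taylor_taylor, h3]

theorem row_eq {ν R N : ℕ} (M : ℕ) (P : Fin R → ℚ[X]) (Γ : Fin ν → Fin R → ℚ[X]) (Q : Fin ν → ℕ → ℚ[X])
    (τ : Fin ν → ℚ[X]) (H : Fin R → ℕ → PowerSeries ℚ)
    (hQ : ∀ k, ∀ b < N, (X - C (b : ℚ)) ^ M * Q k b = ∑ d, P d * taylor (-(b : ℚ)) (Γ k d))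
    (hH : ∀ d, ∀ n : ℕ, (PowerSeries.X + PowerSeries.C ((n : ℚ) + 1)) ^ M * (H d (n + 1) - H d n) =
      ((∑ k, τ k * taylor ((n : ℚ) + 1) (Γ k d) : ℚ[X]) : PowerSeries ℚ))
    (j : ℕ) (hj : j ≤ N) (n : ℕ) :
    ∑ d, ((taylor ((n + j : ℕ) : ℚ) (P d) : ℚ[X]) : PowerSeries ℚ) * H d (n + j) =
      ∑ k, ((taylor (n : ℚ) (rho P Q j (Sum.inl k)) : ℚ[X]) : PowerSeries ℚ) * ((τ k : ℚ[X]) : PowerSeries ℚ) +
      ∑ d, ((taylor (n : ℚ) (rho P Q j (Sum.inr d)) : ℚ[X]) : PowerSeries ℚ) * H d n := by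
  induction j generalizing n with
  | zero =>
    simp [rho]
  | succ j ih =>
    have h1 := ih (by omega) (n + 1)
    have h2 : ∀ k, (X + C ((n : ℚ) + 1)) ^ M * taylor ((n + (j + 1) : ℕ) : ℚ) (Q k j) =
        ∑ d, taylor ((n + (j + 1) : ℕ) : ℚ) (P d) * taylor ((n : ℚ) + 1) (Γ k d) := by
      intro k
      have := zv_shift M P (Γ k) (Q k j) j (n + 1) (hQ k j (by omega))
      rw [show n + 1 + j = n + (j + 1) by ring] at this
      rw [Nat.cast_add n 1, Nat.cast_one] at this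
      exact this
    have h3 : ∑ d, ((taylor ((n + (j + 1) : ℕ) : ℚ) (P d) : ℚ[X]) : PowerSeries ℚ) * (H d (n + 1) - H d n) =
        ∑ k, ((taylor ((n + (j + 1) : ℕ) : ℚ) (Q k j) : ℚ[X]) : PowerSeries ℚ) *
          ((τ k : ℚ[X]) : PowerSeries ℚ) := by
      refine mul_left_cancel₀ (zv_ne ((n : ℚ) + 1) M) ?_
      have h4 : ∀ k, (PowerSeries.X + PowerSeries.C ((n : ℚ) + 1)) ^ M *
          ((taylor ((n + (j + 1) : ℕ) : ℚ) (Q k j) : ℚ[X]) : PowerSeries ℚ) =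
          ∑ d, ((taylor ((n + (j + 1) : ℕ) : ℚ) (P d) : ℚ[X]) : PowerSeries ℚ) *
            ((taylor ((n : ℚ) + 1) (Γ k d) : ℚ[X]) : PowerSeries ℚ) := by
        intro k
        have h4 := congrArg (fun p : ℚ[X] => (p : PowerSeries ℚ)) (h2 k)
        simp only [Polynomial.coe_mul, Polynomial.coe_pow, Polynomial.coe_add, Polynomial.coe_X, zv_C,
          zv_sum] at h4
        exact h4
      have h5 : ∀ d, (PowerSeries.X + PowerSeries.C ((n : ℚ) + 1)) ^ M *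
          (((taylor ((n + (j + 1) : ℕ) : ℚ) (P d) : ℚ[X]) : PowerSeries ℚ) * (H d (n + 1) - H d n)) =
          ∑ k, ((taylor ((n + (j + 1) : ℕ) : ℚ) (P d) : ℚ[X]) : PowerSeries ℚ) *
            ((taylor ((n : ℚ) + 1) (Γ k d) : ℚ[X]) : PowerSeries ℚ) * ((τ k : ℚ[X]) : PowerSeries ℚ) := by
        intro d
        have h6 := hH d n
        rw [zv_sum] at h6
        rw [mul_left_comm, h6, Finset.mul_sum]
        refine Finset.sum_congr rfl fun k _ => ?_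
        rw [Polynomial.coe_mul]
        ring
      rw [Finset.mul_sum, Finset.sum_congr rfl fun d _ => h5 d, Finset.sum_comm, Finset.mul_sum]
      refine Finset.sum_congr rfl fun k _ => ?_
      rw [← mul_assoc, h4 k, Finset.sum_mul]
    have ht : ∀ p : ℚ[X], taylor (n : ℚ) (taylor 1 p) = taylor ((n + 1 : ℕ) : ℚ) p := by
      intro p
      have := zv_tt n 1 p
      rw [Nat.cast_one] at this
      exact this
    rw [show n + (j + 1) = n + 1 + j by ring] at h3 ⊢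
    rw [h1]
    have h6 : ∀ d, ((taylor ((n + 1 : ℕ) : ℚ) (rho P Q j (Sum.inr d)) : ℚ[X]) : PowerSeries ℚ) * H d (n + 1) =
        ((taylor (n : ℚ) (rho P Q (j + 1) (Sum.inr d)) : ℚ[X]) : PowerSeries ℚ) * H d n +
        ((taylor ((n + 1 + j : ℕ) : ℚ) (P d) : ℚ[X]) : PowerSeries ℚ) * (H d (n + 1) - H d n) := by
      intro d
      have e1 : taylor ((n + 1 : ℕ) : ℚ) (rho P Q j (Sum.inr d)) = taylor ((n + 1 + j : ℕ) : ℚ) (P d) := by
        show taylor ((n + 1 : ℕ) : ℚ) (taylor (j : ℚ) (P d)) = _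
        rw [zv_tt]
      have e2 : taylor (n : ℚ) (rho P Q (j + 1) (Sum.inr d)) = taylor ((n + 1 + j : ℕ) : ℚ) (P d) := by
        show taylor (n : ℚ) (taylor ((j + 1 : ℕ) : ℚ) (P d)) = _
        rw [zv_tt, show n + (j + 1) = n + 1 + j by ring]
      rw [e1, e2]
      ring
    rw [Finset.sum_congr rfl fun d _ => h6 d, Finset.sum_add_distrib, h3]
    have hq' : ∀ k, taylor (n : ℚ) (taylor ((j + 1 : ℕ) : ℚ) (Q k j)) = taylor ((n + 1 + j : ℕ) : ℚ) (Q k j) := by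
      intro k
      rw [zv_tt, show n + (j + 1) = n + 1 + j by ring]
    have h7 : ∑ k, ((taylor (n : ℚ) (rho P Q (j + 1) (Sum.inl k)) : ℚ[X]) : PowerSeries ℚ) *
        ((τ k : ℚ[X]) : PowerSeries ℚ) =
        ∑ k, ((taylor ((n + 1 : ℕ) : ℚ) (rho P Q j (Sum.inl k)) : ℚ[X]) : PowerSeries ℚ) *
          ((τ k : ℚ[X]) : PowerSeries ℚ) +
        ∑ k, ((taylor ((n + 1 + j : ℕ) : ℚ) (Q k j) : ℚ[X]) : PowerSeries ℚ) *
          ((τ k : ℚ[X]) : PowerSeries ℚ) := by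
      rw [← Finset.sum_add_distrib]
      refine Finset.sum_congr rfl fun k _ => ?_
      rw [zv_rho, map_add, ht, hq', Polynomial.coe_add, add_mul]
    rw [h7]
    ring

theorem ext_eq {ν R N : ℕ} (M : ℕ) (P : Fin R → ℚ[X]) (Γ : Fin ν → Fin R → ℚ[X]) (Q : Fin ν → ℕ → ℚ[X])
    (hQ : ∀ k, ∀ b < N, (X - C (b : ℚ)) ^ M * Q k b = ∑ d, P d * taylor (-(b : ℚ)) (Γ k d))
    (n j : ℕ) (hnj : n + j < N) (k : Fin ν) :
    ∑ d, taylor (n : ℚ) (rho P Q j (Sum.inr d)) * Γ k d = X ^ M * taylor ((n + j : ℕ) : ℚ) (Q k (n + j)) := by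
  have h2 := zv_shift M P (Γ k) (Q k (n + j)) (n + j) 0 (hQ k (n + j) hnj)
  rw [Nat.cast_zero, map_zero, add_zero, zero_add] at h2
  rw [h2]
  refine Finset.sum_congr rfl fun d _ => ?_
  rw [taylor_zero]
  congr 1
  show taylor (n : ℚ) (taylor (j : ℚ) (P d)) = _
  rw [zv_tt]

end MP_a3a416_nt.GL
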