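import Pool.Agent.Lib.MP_a3a416_nt.GL.ZInj
import Pool.Agent.Lib.MP_a3a416_nt.GL.ZLoc
import Pool.Agent.Lib.MP_a3a416_nt.GL.ZCnt

/-!
# GL-ZV
The abstract zero estimate.
PROOF.  If `N + 1 ≤ ν + R` the left side is `0`.  Otherwise `zcount` with `ι = Fin ν ⊕ Fin R`, `d = ν + R`, `l = T - o + L`, `H0 = T + M`, `N' = N + 1 - (ν + R)` (so `n < N'` gives `n + (ν + R) ≤ N`), `D' = D - 1`, `Mx = rho P Q`,
`hinj` = `rho_inj`, `κ n` from `zloc` (choose; define `κ n = 0`-junk for `n ≥ N'`), `hdeg`: `natDegree (P d) ≤ D - 1`, and `natDegree (Q k b) ≤ D - 1` for `b < N` (from `hQ`: if `Q k b ≠ 0`, `M + natDegree (Q k b) ≤ (D-1) + (M-1)`,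
see `hQd` in the proof of `TW.zeroR`), sums of `taylor`s (`natDegree_taylor`), `j ≤ N` so `b < j ≤ N`.
-/

namespace MP_a3a416_nt.GL

open Polynomial

theorem zeroV {ν R N T D M o L : ℕ} (P : Fin R → ℚ[X]) (Γ : Fin ν → Fin R → ℚ[X]) (Q : Fin ν → ℕ → ℚ[X])
    (τ : Fin ν → ℚ[X]) (H : Fin R → ℕ → PowerSeries ℚ) (E : Fin L → Fin ν → ℚ[X])
    (hR : 1 ≤ R) (hP : LinearIndependent ℚ P) (hPd : ∀ d, (P d).natDegree < D)
    (hΓd : ∀ k d, (Γ k d).natDegree < M)
    (hΓ : ∀ ζ : Fin ν → ℚ, (∀ d, ∑ k, C (ζ k) * Γ k d = 0) → ζ = 0)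
    (hQ : ∀ k, ∀ b < N, (X - C (b : ℚ)) ^ M * Q k b = ∑ d, P d * taylor (-(b : ℚ)) (Γ k d))
    (hH : ∀ d, ∀ n : ℕ, (PowerSeries.X + PowerSeries.C ((n : ℚ) + 1)) ^ M * (H d (n + 1) - H d n) =
      ((∑ k, τ k * taylor ((n : ℚ) + 1) (Γ k d) : ℚ[X]) : PowerSeries ℚ))
    (hz : ∀ n < N, (PowerSeries.X : PowerSeries ℚ) ^ T ∣
      ∑ d, ((taylor (n : ℚ) (P d) : ℚ[X]) : PowerSeries ℚ) * H d n)
    (hτ : ∃ k, ¬ X ^ (o + 1) ∣ τ k)
    (hE : ∀ α : Fin L → ℚ, (∀ d, X ^ M ∣ ∑ l, C (α l) * ∑ k, E l k * Γ k d) → α = 0) :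
    (N + 1 - (ν + R)) * (T - o + L) ≤ (ν + R) * (D - 1) := by
  rcases Nat.lt_or_ge N (ν + R) with hN | hN
  · have h0 : N + 1 - (ν + R) = 0 := by omega
    rw [h0, Nat.zero_mul]
    exact Nat.zero_le _
  · -- degrees of the `Q k b`
    have hQd : ∀ k, ∀ b < N, (Q k b).natDegree ≤ D - 1 := by
      intro k b hb
      by_cases h0 : Q k b = 0
      · rw [h0, natDegree_zero]
        exact Nat.zero_le _
      · have hM : 1 ≤ M := by
          have := hΓd k ⟨0, hR⟩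
          omega
        have hD : 1 ≤ D := by
          have := hPd ⟨0, hR⟩
          omega
        have h1 : ((X - C (b : ℚ)) ^ M * Q k b).natDegree = M + (Q k b).natDegree := by
          rw [(monic_X_sub_C (b : ℚ)).pow M |>.natDegree_mul' h0, (monic_X_sub_C (b : ℚ)).natDegree_pow,
            natDegree_X_sub_C, mul_one]
        have h2 : (∑ d, P d * taylor (-(b : ℚ)) (Γ k d)).natDegree ≤ (D - 1) + (M - 1) := by
          refine natDegree_sum_le_of_forall_le _ _ fun d _ => ?_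
          refine natDegree_mul_le.trans ?_
          rw [natDegree_taylor]
          have e1 := hPd d
          have e2 := hΓd k d
          omega
        rw [← hQ k b hb, h1] at h2
        omega
    have hloc : ∀ n : ℕ, ∃ κ : Fin (T - o + L) → Fin ν ⊕ Fin R → PowerSeries ℚ, n < N + 1 - (ν + R) →
        ((∀ s, ∀ j < ν + R, (PowerSeries.X : PowerSeries ℚ) ^ (T + M) ∣
        ∑ i, ((taylor (n : ℚ) (rho P Q j i) : ℚ[X]) : PowerSeries ℚ) * κ s i) ∧
        ∀ α : Fin (T - o + L) → ℚ, (∀ i, (PowerSeries.X : PowerSeries ℚ) ^ (T + M) ∣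
        ∑ s, PowerSeries.C (α s) * κ s i) → α = 0) := by
      intro n
      by_cases hn : n < N + 1 - (ν + R)
      · obtain ⟨κ, h1⟩ := zloc P Γ Q τ H E hQ hH hz hτ hE (T + M) (Nat.le_add_right _ _)
          (Nat.le_add_left _ _) n (by omega)
        exact ⟨κ, fun _ => h1⟩
      · exact ⟨0, fun h => absurd h hn⟩
    choose κ hκ using hloc
    refine zcount (ι := Fin ν ⊕ Fin R) (H0 := T + M) (rho P Q) ?_ ?_ κ (fun n hn => (hκ n hn).1)
      (fun n hn => (hκ n hn).2)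
    · exact fun u hu => rho_inj M P Γ Q hR (by omega) hP hΓd hΓ hQ u hu
    · intro j hj i
      rcases i with k | d
      · show (∑ b ∈ Finset.range j, taylor (j : ℚ) (Q k b)).natDegree ≤ D - 1
        refine natDegree_sum_le_of_forall_le _ _ fun b hb => ?_
        rw [natDegree_taylor]
        have := Finset.mem_range.1 hb
        exact hQd k b (by omega)
      · show (taylor (j : ℚ) (P d)).natDegree ≤ D - 1
        rw [natDegree_taylor]
        have := hPd d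
        omega

end MP_a3a416_nt.GL
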